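import Pool.Agent.Lib.MP_b3d6af_lc.L

/-!
The calculus `AF` of arithmetical functions and predicates.
-/

set_option linter.unusedSectionVars false
set_option linter.unusedVariables false

namespace Pool.Agent.Lib.MP_b3d6af_lc

open Classical

def Ar.ren : Ar → (ℕ → ℕ) → Ar
  | .add i j k, r => .add (r i) (r j) (r k)
  | .mul i j k, r => .mul (r i) (r j) (r k)
  | .app s i j, r => .app s (r i) (r j)
  | .neg θ, r => .neg (θ.ren r)
  | .and θ η, r => .and (θ.ren r) (η.ren r)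
  | .ex θ, r => .ex (θ.ren (cons 0 fun i => r i + 1))

theorem Ar.sat_ren (θ : Ar) (ρ : List (ℕ → ℕ)) : ∀ (r : ℕ → ℕ) (ν : ℕ → ℕ),
    (θ.ren r).Sat ρ ν ↔ θ.Sat ρ (fun i => ν (r i)) := by
  induction θ with
  | add => intro r ν; rfl
  | mul => intro r ν; rfl
  | app => intro r ν; rfl
  | neg θ h => intro r ν; simp only [Ar.ren, Ar.Sat, h]
  | and θ η h1 h2 => intro r ν; simp only [Ar.ren, Ar.Sat, h1, h2]
  | ex θ h => intro r ν; simp only [Ar.ren, Ar.Sat, h, comp_cons, cons_zero, cons_succ]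

/-- Contexts: values of the real and number variables depending on a parameter. -/
structure Cx (γ : Type) where
  c : γ → List (ℕ → ℕ)
  o : γ → ℕ → ℕ

variable {γ δ : Type}

def Cx.ext (X : Cx γ) : Cx (γ × ℕ) := ⟨fun q => X.c q.1, fun q => cons q.2 (X.o q.1)⟩

def DP (X : Cx γ) (R : γ → Prop) : Prop := ∃ θ : Ar, ∀ a, θ.Sat (X.c a) (X.o a) ↔ R a

def DN (X : Cx γ) (t : γ → ℕ) : Prop := DP X.ext fun q => t q.1 = q.2

def Mor (Y : Cx δ) (X : Cx γ) (h : δ → γ) : Prop :=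
  (∀ a, Y.c a = X.c (h a)) ∧ ∃ r : ℕ → ℕ, ∀ a i, Y.o a (r i) = X.o (h a) i

section low
variable {X : Cx γ} {Y : Cx δ} {P Q : γ → Prop} {s t : γ → ℕ}

theorem Mor.fst (X : Cx γ) : Mor X.ext X Prod.fst := ⟨fun _ => rfl, (· + 1), fun _ _ => rfl⟩

theorem Mor.ext {h : δ → γ} (m : Mor Y X h) : Mor Y.ext X.ext fun q => (h q.1, q.2) := by
  obtain ⟨h1, r, h2⟩ := m
  refine ⟨fun a => h1 a.1, cons 0 fun i => r i + 1, fun a i => ?_⟩
  cases i with
  | zero => rfl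
  | succ i => exact h2 a.1 i

theorem Mor.swap (X : Cx γ) : Mor X.ext.ext X.ext.ext fun q => ((q.1.1, q.2), q.1.2) :=
  ⟨fun _ => rfl, cons 1 (cons 0 (· + 2)), fun a i => by rcases i with _ | _ | i <;> rfl⟩

theorem DP.re {h : δ → γ} (m : Mor Y X h) (H : DP X P) : DP Y fun a => P (h a) := by
  obtain ⟨h1, r, h2⟩ := m
  obtain ⟨θ, H⟩ := H
  exact ⟨θ.ren r, fun a => by simp only [Ar.sat_ren, h1, h2]; exact H _⟩

theorem DN.re {h : δ → γ} (m : Mor Y X h) (H : DN X t) : DN Y fun a => t (h a) := DP.re m.ext H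

theorem DP.of_iff (H : DP X Q) (e : ∀ a, P a ↔ Q a) : DP X P :=
  H.imp fun _ h a => (h a).trans (e a).symm

theorem DP.not (H : DP X P) : DP X fun a => ¬ P a :=
  let ⟨θ, H⟩ := H; ⟨.neg θ, fun a => not_congr (H a)⟩

theorem DP.and (H : DP X P) (H' : DP X Q) : DP X fun a => P a ∧ Q a :=
  let ⟨θ, H⟩ := H; let ⟨η, H'⟩ := H'; ⟨.and θ η, fun a => and_congr (H a) (H' a)⟩

theorem DP.or (H : DP X P) (H' : DP X Q) : DP X fun a => P a ∨ Q a :=
  (H.not.and H'.not).not.of_iff fun a => by tauto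

theorem DP.ex {R : γ × ℕ → Prop} (H : DP X.ext R) : DP X fun a => ∃ n, R (a, n) :=
  let ⟨θ, H⟩ := H; ⟨.ex θ, fun a => exists_congr fun n => H (a, n)⟩

theorem DN.bind {R : γ × ℕ → Prop} (h : DN X t) (H : DP X.ext R) : DP X fun a => R (a, t a) :=
  (DP.and h H).ex.of_iff (by simp)

theorem DN.sub {u : γ × ℕ → ℕ} (h : DN X t) (H : DN X.ext u) : DN X fun a => u (a, t a) :=
  (h.re (Mor.fst X)).bind (DP.re (Mor.swap X) H)

theorem DN.add (h : DN X t) (h' : DN X s) : DN X fun a => t a + s a :=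
  (h.re (Mor.fst X)).bind (((h'.re (Mor.fst X)).re (Mor.fst _)).bind
    (R := fun q : ((γ × ℕ) × ℕ) × ℕ => q.1.2 + q.2 = q.1.1.2) ⟨.add 1 0 2, fun _ => Iff.rfl⟩)

theorem DN.mul (h : DN X t) (h' : DN X s) : DN X fun a => t a * s a :=
  (h.re (Mor.fst X)).bind (((h'.re (Mor.fst X)).re (Mor.fst _)).bind
    (R := fun q : ((γ × ℕ) × ℕ) × ℕ => q.1.2 * q.2 = q.1.1.2) ⟨.mul 1 0 2, fun _ => Iff.rfl⟩)

theorem DN.app (r : ℕ) (h : DN X t) : DN X fun a => (X.c a).getD r 0 (t a) :=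
  (h.re (Mor.fst X)).bind (R := fun q : (γ × ℕ) × ℕ => (X.c q.1.1).getD r 0 q.2 = q.1.2)
    ⟨.app r 0 1, fun _ => Iff.rfl⟩

theorem DN.zero : DN X fun _ => 0 :=
  DP.of_iff (Q := fun q => q.2 + q.2 = q.2) ⟨.add 0 0 0, fun _ => Iff.rfl⟩ fun q => by
    simp only; omega

theorem DN.one : DN X fun _ => 1 :=
  DP.of_iff (Q := fun q => q.2 * q.2 = q.2 ∧ ¬ q.2 + q.2 = q.2)
    ⟨.and (.mul 0 0 0) (.neg (.add 0 0 0)), fun _ => Iff.rfl⟩ fun q =>
      ⟨fun h => by simp [← h], fun h => (Nat.eq_of_mul_eq_mul_left (by omega)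
        (h.1.trans (mul_one _).symm)).symm⟩

theorem DN.const (n : ℕ) : DN X fun _ => n := by
  induction n with
  | zero => exact DN.zero
  | succ n ih => exact ih.add DN.one

theorem DN.var (i : ℕ) : DN X fun a => X.o a i :=
  DP.of_iff ((DN.zero (X := X.ext)).bind (R := fun q => X.o q.1.1 i + q.2 = q.1.2)
    ⟨.add (i + 2) 0 1, fun _ => Iff.rfl⟩) (by simp)

theorem DN.snd : DN X.ext fun q => q.2 := DN.var 0

theorem DN.eq (h : DN X t) (h' : DN X s) : DP X fun a => t a = s a := h'.bind h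

theorem DN.ite [∀ a, Decidable (P a)] (H : DP X P) (h : DN X t) (h' : DN X s) :
    DN X fun a => if P a then t a else s a :=
  (((H.re (Mor.fst X)).and h).or ((H.re (Mor.fst X)).not.and h')).of_iff fun q => by
    by_cases hp : P q.1 <;> simp [hp]

theorem DN.half (h : DN X t) : DN X fun a => t a / 2 :=
  (((DN.snd.add DN.snd).eq (h.re (Mor.fst X))).or
    (((DN.snd.add DN.snd).add DN.one).eq (h.re (Mor.fst X)))).of_iff fun q => by
      simp only; omega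

end low

/-- Types represented by reals. -/
class ARep (α : Type) where
  aenc : α → ℕ → ℕ

export ARep (aenc)

/-- The join of two reals. -/
def join (x y : ℕ → ℕ) (n : ℕ) : ℕ := if n / 2 + n / 2 = n then x (n / 2) else y (n / 2)
/-- Even part. -/
def lft (x : ℕ → ℕ) (n : ℕ) : ℕ := x (n + n)
/-- Odd part. -/
def rgt (x : ℕ → ℕ) (n : ℕ) : ℕ := x (n + n + 1)

@[simp] theorem lft_join (x y : ℕ → ℕ) : lft (join x y) = x := by
  funext n
  have : (n + n) / 2 = n := by omega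
  simp [lft, join, this]

@[simp] theorem rgt_join (x y : ℕ → ℕ) : rgt (join x y) = y := by
  funext n
  have : (n + n + 1) / 2 = n := by omega
  simp [rgt, join, this]

instance : ARep ℕ := ⟨fun n _ => n⟩
noncomputable instance : ARep Prop := ⟨fun p _ => if p then 1 else 0⟩
instance : ARep (ℕ → ℕ) := ⟨fun x => x⟩
instance {α β : Type} [ARep α] [ARep β] : ARep (α × β) := ⟨fun p => join (aenc p.1) (aenc p.2)⟩

variable {α β ε : Type} [ARep α] [ARep β] [ARep ε]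

def Dfb (X : Cx γ) (g : γ → α) : Prop := DN X.ext fun q => aenc (g q.1) q.2

theorem Dfb.re {X : Cx γ} {Y : Cx δ} {g : γ → α} {h : δ → γ} (m : Mor Y X h) (H : Dfb X g) :
    Dfb Y fun a => g (h a) := DN.re m.ext H

theorem Dfb.app {X : Cx γ} {g : γ → α} {t : γ → ℕ} (H : Dfb X g) (h : DN X t) :
    DN X fun a => aenc (g a) (t a) := h.sub H

theorem Dfb.prod {X : Cx γ} {f : γ → α} {g : γ → β} (H : Dfb X f) (H' : Dfb X g) :
    Dfb X fun a => (f a, g a) :=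
  DN.ite ((DN.snd.half.add DN.snd.half).eq DN.snd) ((H.re (Mor.fst X)).app DN.snd.half)
    ((H'.re (Mor.fst X)).app DN.snd.half)

theorem dfb_nat {X : Cx γ} {t : γ → ℕ} : Dfb X t ↔ DN X t :=
  ⟨fun h => h.app DN.zero, fun h => h.re (Mor.fst X)⟩

theorem dfb_prop {X : Cx γ} {P : γ → Prop} : Dfb X P ↔ DP X P :=
  ⟨fun h => ((h.app DN.zero).eq DN.one).of_iff (by simp [aenc]),
    fun h => DN.ite (h.re (Mor.fst X)) DN.one DN.zero⟩

theorem Dfb.ext {X : Cx γ} {g : γ → α} (H : Dfb X g) : Dfb X.ext fun q => (g q.1, q.2) :=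
  (H.re (Mor.fst X)).prod (dfb_nat.2 DN.snd)

/-- Arithmetical functions. -/
@[fun_prop]
def AF (f : α → β) : Prop := ∀ (γ : Type) (X : Cx γ) (g : γ → α), Dfb X g → Dfb X fun a => f (g a)

class APar (c : β) : Prop where
  out : ∀ (γ : Type) (X : Cx γ), Dfb X fun _ => c

instance (n : ℕ) : APar n := ⟨fun _ _ => dfb_nat.2 (DN.const n)⟩
instance (p : Prop) : APar p := ⟨fun _ _ => DN.const _⟩

namespace AF

theorem congr {f g : α → β} (h : AF g) (e : ∀ a, f a = g a) : AF f := by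
  rwa [show f = g from funext e]
theorem of_iff {P Q : α → Prop} (h : AF Q) (e : ∀ a, P a ↔ Q a) : AF P :=
  h.congr fun a => propext (e a)

@[fun_prop] theorem id : AF (fun a : α => a) := fun _ _ _ h => h
@[fun_prop] theorem const (c : β) [h : APar c] : AF (fun _ : α => c) := fun _ _ _ _ => h.out _ _
@[fun_prop] theorem comp {f : β → ε} {g : α → β} (hf : AF f) (hg : AF g) : AF (fun a => f (g a)) :=
  fun _ _ _ h => hf _ _ _ (hg _ _ _ h)
@[fun_prop] theorem prodMk {f : α → β} {g : α → ε} (hf : AF f) (hg : AF g) :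
    AF (fun a => (f a, g a)) := fun _ _ _ h => (hf _ _ _ h).prod (hg _ _ _ h)
@[fun_prop] theorem fst {f : α → β × ε} (hf : AF f) : AF (fun a => (f a).1) := fun _ X g h =>
  DP.of_iff (((hf _ _ _ h).re (Mor.fst X)).app (DN.snd.add DN.snd)) fun q => by
    simp only
    rw [← lft_join (aenc (f (g q.1.1)).1) (aenc (f (g q.1.1)).2)]; rfl
@[fun_prop] theorem snd {f : α → β × ε} (hf : AF f) : AF (fun a => (f a).2) := fun _ X g h =>
  DP.of_iff (((hf _ _ _ h).re (Mor.fst X)).app ((DN.snd.add DN.snd).add DN.one)) fun q => by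
    simp only
    rw [← rgt_join (aenc (f (g q.1.1)).1) (aenc (f (g q.1.1)).2)]; rfl

@[fun_prop] theorem add {f g : α → ℕ} (hf : AF f) (hg : AF g) : AF (fun a => f a + g a) :=
  fun _ _ _ h => dfb_nat.2 ((dfb_nat.1 (hf _ _ _ h)).add (dfb_nat.1 (hg _ _ _ h)))
@[fun_prop] theorem mul {f g : α → ℕ} (hf : AF f) (hg : AF g) : AF (fun a => f a * g a) :=
  fun _ _ _ h => dfb_nat.2 ((dfb_nat.1 (hf _ _ _ h)).mul (dfb_nat.1 (hg _ _ _ h)))
@[fun_prop] theorem eq {f g : α → ℕ} (hf : AF f) (hg : AF g) : AF (fun a => f a = g a) :=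
  fun _ _ _ h => dfb_prop.2 ((dfb_nat.1 (hf _ _ _ h)).eq (dfb_nat.1 (hg _ _ _ h)))
@[fun_prop] theorem ap {f : α → ℕ → ℕ} {g : α → ℕ} (hf : AF f) (hg : AF g) :
    AF (fun a => ap (f a) (g a)) :=
  fun _ _ _ h => dfb_nat.2 ((hf _ _ _ h).app (dfb_nat.1 (hg _ _ _ h)))
@[fun_prop] theorem lam {F : α → ℕ → ℕ} (hF : AF (fun p : α × ℕ => F p.1 p.2)) :
    AF (fun a n => F a n) := fun _ _ _ h => dfb_nat.1 (hF _ _ _ h.ext)
@[fun_prop] theorem not {P : α → Prop} (hP : AF P) : AF (fun a => ¬ P a) :=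
  fun _ _ _ h => dfb_prop.2 (dfb_prop.1 (hP _ _ _ h)).not
@[fun_prop] theorem and {P Q : α → Prop} (hP : AF P) (hQ : AF Q) : AF (fun a => P a ∧ Q a) :=
  fun _ _ _ h => dfb_prop.2 ((dfb_prop.1 (hP _ _ _ h)).and (dfb_prop.1 (hQ _ _ _ h)))
@[fun_prop] theorem ex {Q : α → ℕ → Prop} (hQ : AF (fun p : α × ℕ => Q p.1 p.2)) :
    AF (fun a => ∃ n, Q a n) := fun _ _ _ h => dfb_prop.2 (dfb_prop.1 (hQ _ _ _ h.ext)).ex
@[fun_prop] theorem all {Q : α → ℕ → Prop} (hQ : AF (fun p : α × ℕ => Q p.1 p.2)) :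
    AF (fun a => ∀ n, Q a n) := (ex (Q := fun a n => ¬ Q a n) hQ.not).not.of_iff (by simp)
@[fun_prop] theorem or {P Q : α → Prop} (hP : AF P) (hQ : AF Q) : AF (fun a => P a ∨ Q a) :=
  (hP.not.and hQ.not).not.of_iff fun a => by tauto
@[fun_prop] theorem imp {P Q : α → Prop} (hP : AF P) (hQ : AF Q) : AF (fun a => P a → Q a) :=
  (hP.and hQ.not).not.of_iff fun a => by tauto
@[fun_prop] theorem iff {P Q : α → Prop} (hP : AF P) (hQ : AF Q) : AF (fun a => P a ↔ Q a) :=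
  ((hP.imp hQ).and (hQ.imp hP)).of_iff fun a => by tauto
@[fun_prop] theorem ne {f g : α → ℕ} (hf : AF f) (hg : AF g) : AF (fun a => f a ≠ g a) :=
  (hf.eq hg).not
@[fun_prop] theorem le {f g : α → ℕ} (hf : AF f) (hg : AF g) : AF (fun a => f a ≤ g a) :=
  of_iff (Q := fun a => ∃ k, g a = f a + k) (by fun_prop) fun _ => le_iff_exists_add
@[fun_prop] theorem lt {f g : α → ℕ} (hf : AF f) (hg : AF g) : AF (fun a => f a < g a) :=
  (hg.le hf).not.of_iff (by simp)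
@[fun_prop] theorem ite {P : α → Prop} {f g : α → ℕ} [∀ a, Decidable (P a)] (hP : AF P)
    (hf : AF f) (hg : AF g) : AF (fun a => if P a then f a else g a) := fun _ _ _ h =>
  dfb_nat.2 (DN.ite (dfb_prop.1 (hP _ _ _ h)) (dfb_nat.1 (hf _ _ _ h)) (dfb_nat.1 (hg _ _ _ h)))

theorem of_graph {f : α → ℕ} (h : AF (fun p : α × ℕ => f p.1 = p.2)) : AF f :=
  fun _ _ _ H => dfb_nat.2 (dfb_prop.1 (h _ _ _ H.ext))

@[fun_prop] theorem sub {f g : α → ℕ} (hf : AF f) (hg : AF g) : AF (fun a => f a - g a) :=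
  of_graph (of_iff (Q := fun p : α × ℕ => p.2 + g p.1 = f p.1 ∨ (f p.1 < g p.1 ∧ p.2 = 0))
    (by fun_prop) fun _ => by omega)

@[fun_prop] theorem mod {f g : α → ℕ} (hf : AF f) (hg : AF g) : AF (fun a => f a % g a) :=
  of_graph (of_iff (Q := fun p : α × ℕ => (g p.1 = 0 ∧ p.2 = f p.1) ∨
    (p.2 < g p.1 ∧ ∃ k, f p.1 = g p.1 * k + p.2)) (by fun_prop) fun p => by
      constructor
      · intro h
        rcases Nat.eq_zero_or_pos (g p.1) with h0 | h0
        · exact Or.inl ⟨h0, by simpa [h0] using h.symm⟩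
        · exact Or.inr ⟨h ▸ Nat.mod_lt _ h0, _, h ▸ (Nat.div_add_mod _ _).symm⟩
      · rintro (⟨h0, h⟩ | ⟨h0, k, h⟩)
        · simp [h0, h]
        · rw [h, Nat.mul_add_mod, Nat.mod_eq_of_lt h0])

@[fun_prop] theorem natPair {f g : α → ℕ} (hf : AF f) (hg : AF g) :
    AF (fun a => Nat.pair (f a) (g a)) := by
  unfold Nat.pair; fun_prop

@[fun_prop] theorem unpair {f : α → ℕ} (hf : AF f) : AF (fun a => Nat.unpair (f a)) := by
  have h1 : AF (fun a => (Nat.unpair (f a)).1) :=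
    of_graph (of_iff (Q := fun p : α × ℕ => ∃ k, f p.1 = Nat.pair p.2 k) (by fun_prop) fun p =>
      ⟨fun h => ⟨(f p.1).unpair.2, by simp [← h]⟩, fun ⟨_, h⟩ => by simp [h]⟩)
  have h2 : AF (fun a => (Nat.unpair (f a)).2) :=
    of_graph (of_iff (Q := fun p : α × ℕ => ∃ k, f p.1 = Nat.pair k p.2) (by fun_prop) fun p =>
      ⟨fun h => ⟨(f p.1).unpair.1, by simp [← h]⟩, fun ⟨_, h⟩ => by simp [h]⟩)
  exact h1.prodMk h2

@[fun_prop] theorem beta {f g : α → ℕ} (hf : AF f) (hg : AF g) :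
    AF (fun a => Nat.beta (f a) (g a)) := by
  unfold Nat.beta; fun_prop

theorem natrec {F : α → ℕ → ℕ} (f : α → ℕ) (g : α → ℕ → ℕ → ℕ) (hf : AF f)
    (hg : AF (fun p : α × ℕ × ℕ => g p.1 p.2.1 p.2.2))
    (h0 : ∀ a, F a 0 = f a) (hs : ∀ a n, F a (n + 1) = g a n (F a n)) :
    AF (fun p : α × ℕ => F p.1 p.2) := by
  refine of_graph (of_iff (Q := fun q : (α × ℕ) × ℕ => ∃ s, Nat.beta s 0 = f q.1.1 ∧
    (∀ i, i < q.1.2 → Nat.beta s (i + 1) = g q.1.1 i (Nat.beta s i)) ∧ Nat.beta s q.1.2 = q.2)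
    (by fun_prop) fun ⟨⟨a, n⟩, m⟩ => ?_)
  simp only
  constructor
  · rintro rfl
    have : ∀ i ≤ n, Nat.beta (Nat.unbeta ((List.range (n + 1)).map (F a))) i = F a i := fun i hi => by
      simpa using Nat.beta_unbeta_coe ((List.range (n + 1)).map (F a)) ⟨i, by simp; omega⟩
    exact ⟨_, by rw [this 0 (by omega), h0], fun i hi => by
      rw [this _ hi, this i hi.le, hs], this n le_rfl⟩
  · rintro ⟨s, h1, h2, rfl⟩
    have : ∀ i ≤ n, F a i = Nat.beta s i := fun i hi => by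
      induction i with
      | zero => rw [h0, h1]
      | succ i ih => rw [hs, h2 i hi, ih (by omega)]
    exact this n le_rfl

@[fun_prop] theorem tg {f : α → ℕ} (hf : AF f) : AF (fun a => tg (f a)) := by
  unfold MP_b3d6af_lc.tg; fun_prop
@[fun_prop] theorem a1 {f : α → ℕ} (hf : AF f) : AF (fun a => a1 (f a)) := by
  unfold MP_b3d6af_lc.a1; fun_prop
@[fun_prop] theorem a2 {f : α → ℕ} (hf : AF f) : AF (fun a => a2 (f a)) := by
  unfold MP_b3d6af_lc.a2; fun_prop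

@[fun_prop] theorem lft {f : α → ℕ → ℕ} (hf : AF f) : AF (fun a => lft (f a)) :=
  lam (F := fun a n => MP_b3d6af_lc.ap (f a) (n + n)) (by fun_prop)
@[fun_prop] theorem rgt {f : α → ℕ → ℕ} (hf : AF f) : AF (fun a => rgt (f a)) :=
  lam (F := fun a n => MP_b3d6af_lc.ap (f a) (n + n + 1)) (by fun_prop)
@[fun_prop] theorem join {f g : α → ℕ → ℕ} (hf : AF f) (hg : AF g) :
    AF (fun a => join (f a) (g a)) := hf.prodMk hg
@[fun_prop] theorem eqR {f g : α → ℕ → ℕ} (hf : AF f) (hg : AF g) : AF (fun a => f a = g a) :=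
  of_iff (Q := fun a => ∀ n, MP_b3d6af_lc.ap (f a) n = MP_b3d6af_lc.ap (g a) n) (by fun_prop)
    fun _ => funext_iff

end AF

/-- Entry `i` of the list coded by `k`. -/
def nth (k i d : ℕ) : ℕ := (dl k).getD i d

theorem dl_succ (k : ℕ) : dl (k + 1) = k.unpair.1 :: dl k.unpair.2 := by simp [dl]
theorem dl_zero : dl 0 = [] := by simp [dl]
@[simp] theorem dl_pair (x k : ℕ) : dl (Nat.pair x k + 1) = x :: dl k := by simp [dl_succ]

@[fun_prop] theorem AF.nth {f g d : α → ℕ} (hf : AF f) (hg : AF g) (hd : AF d) :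
    AF (fun a => nth (f a) (g a) (d a)) := by
  have h1 : AF (fun p : ℕ × ℕ => Encodable.encode ((dl p.1).drop p.2)) :=
    AF.natrec (F := fun k i => Encodable.encode ((dl k).drop i)) (fun k => k)
      (fun _ _ r => (r - 1).unpair.2) (by fun_prop) (by fun_prop) (by simp) fun k i => by
        rw [← List.tail_drop]
        cases (dl k).drop i <;> simp
  have h2 := h1.comp (hf.prodMk hg)
  refine AF.congr (g := fun a => if Encodable.encode ((dl (f a)).drop (g a)) = 0 then d a else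
    (Encodable.encode ((dl (f a)).drop (g a)) - 1).unpair.1)
    (AF.ite (h2.eq (AF.const 0)) hd (h2.sub (AF.const 1)).unpair.fst) fun a => ?_
  have : MP_b3d6af_lc.nth (f a) (g a) (d a) = ((dl (f a)).drop (g a)).headD (d a) := by
    simp [MP_b3d6af_lc.nth, List.getD_eq_getElem?_getD, List.headD_eq_head?_getD]
  rw [this]
  cases (dl (f a)).drop (g a) <;> simp

/-- An arithmetical predicate of four reals is given by a formula, at any offset. -/
theorem AF.formula {P : (ℕ → ℕ) × (ℕ → ℕ) × (ℕ → ℕ) × (ℕ → ℕ) → Prop} (h : AF P) (k : ℕ) :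
    ∃ θ : Ar, ∀ ρ : List (ℕ → ℕ), θ.Sat ρ 0 ↔
      P (ρ.getD k 0, ρ.getD (k + 1) 0, ρ.getD (k + 2) 0, ρ.getD (k + 3) 0) := by
  let X : Cx (List (ℕ → ℕ)) := ⟨fun ρ => ρ, fun _ => 0⟩
  have : ∀ r, Dfb X fun ρ => ρ.getD r 0 := fun r => DN.app (X := X.ext) r DN.snd
  exact dfb_prop.1 (h _ X _ ((this k).prod ((this (k + 1)).prod ((this (k + 2)).prod (this (k + 3))))))

theorem sig_dummy {R : Set (ℕ → ℕ)} (hR : R.Nonempty) {θ : Ar} {P : Prop} (k : ℕ) :
    ∀ ρ : List (ℕ → ℕ), (∀ l : List (ℕ → ℕ), l.length = k → (θ.Sat (l ++ ρ) 0 ↔ P)) →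
      (Sig R k θ ρ ↔ (k % 2 = 0 ↔ P)) := by
  induction k with
  | zero => intro ρ h; simpa [Sig] using h [] rfl
  | succ k ih =>
    intro ρ h
    have : ∀ u, Sig R k θ (u :: ρ) ↔ (k % 2 = 0 ↔ P) := fun u => ih _ fun l hl => by
      simpa using h (l ++ [u]) (by simp [hl])
    obtain ⟨u, hu⟩ := hR
    have e : (k + 1) % 2 = 0 ↔ ¬ k % 2 = 0 := by omega
    simp only [Sig, this, e]
    exact ⟨fun ⟨_, _, h⟩ => by tauto, fun h => ⟨u, hu, by tauto⟩⟩

/-- Determinacy of games with a `Π¹₁` payoff given by an arithmetical matrix. -/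
theorem Det.af {n : ℕ} (h : Det (n + 1) Set.univ) {Q : (ℕ → ℕ) × (ℕ → ℕ) × (ℕ → ℕ) → Prop}
    (hQ : AF Q) (y : ℕ → ℕ) : (∃ σ, ∀ τ v, Q (v, play σ τ, y)) ∨
      ∃ τ, ∀ σ, ∃ v, ¬ Q (v, play σ τ, y) := by
  obtain ⟨θ, hθ⟩ := AF.formula (P := fun p => n % 2 = 0 ↔ Q (p.1, p.2.1, p.2.2.1)) (by fun_prop) n
  have : ∀ p, Sig Set.univ (n + 1) θ [p, y] ↔ ∃ v, ¬ Q (v, p, y) := fun p => by
    simp only [Sig, Set.mem_univ, true_and]
    refine exists_congr fun v => not_congr ((sig_dummy Set.univ_nonempty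
      (P := n % 2 = 0 ↔ Q (v, p, y)) n _ fun l hl => ?_).trans (by tauto))
    rw [hθ, ← hl]
    simp [List.getD_eq_getElem?_getD]
  simpa [this] using h θ [y] (by simp)

theorem AF.sig2 {Q : (ℕ → ℕ) × (ℕ → ℕ) × (ℕ → ℕ) × (ℕ → ℕ) → Prop} (hQ : AF Q) :
    ∃ θ : Ar, ∀ R ρ, Sig R 2 θ ρ ↔ ∃ u ∈ R, ∀ v ∈ R, Q (v, u, ρ.getD 0 0, ρ.getD 1 0) := by
  obtain ⟨θ, hθ⟩ := hQ.formula 0
  exact ⟨θ, fun R ρ => by simp [Sig, hθ]⟩

end Pool.Agent.Lib.MP_b3d6af_lc
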