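import Pool.Agent.Lib.MP_b3d6af_lc.AF

/-!
Reals coding hereditarily countable sets and countable models; the `Σ¹₂` lemma.
-/

set_option linter.unusedSectionVars false
set_option linter.unusedVariables false

namespace Pool.Agent.Lib.MP_b3d6af_lc

open ZFSet Classical

universe u v

/-- The relation on `ℕ` coded by `u`. -/
def E (u : ℕ → ℕ) (i j : ℕ) : Prop := ap u (Nat.pair i j) = 0

noncomputable def predE (u : ℕ → ℕ) (x : Z) : Z :=
  ZFSet.sep (fun y => E u (dec ℕ y) (dec ℕ x)) omega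

/-- The collapse of the relation coded by `u`. -/
noncomputable def pi (u : ℕ → ℕ) (i : ℕ) : Z := clp (predE u) (nat i)

section
variable {α : Type u} [Rep α]

@[fun_prop] theorem UF.E {u : α → ℕ → ℕ} {f g : α → ℕ} (hu : UF u) (hf : UF f) (hg : UF g) :
    UF (fun a => E (u a) (f a) (g a)) := by
  unfold MP_b3d6af_lc.E; fun_prop

@[fun_prop] theorem UF.predE {u : α → ℕ → ℕ} {f : α → Z} (hu : UF u) (hf : UF f) :
    UF (fun a => predE (u a) (f a)) := by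
  unfold MP_b3d6af_lc.predE; fun_prop

@[fun_prop] theorem UF.pi {u : α → ℕ → ℕ} {f : α → ℕ} (hu : UF u) (hf : UF f) :
    UF (fun a => pi (u a) (f a)) := by
  unfold MP_b3d6af_lc.pi; fun_prop

@[fun_prop] theorem UF.half {f : α → ℕ} (hf : UF f) : UF (fun a => f a / 2) :=
  UF.of_graph (UF.of_iff (Q := fun p : α × ℕ => p.2 + p.2 = f p.1 ∨ p.2 + p.2 + 1 = f p.1)
    (by fun_prop) fun p => by omega)

@[fun_prop] theorem UF.join {f g : α → ℕ → ℕ} (hf : UF f) (hg : UF g) :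
    UF (fun a => join (f a) (g a)) :=
  UF.lam (F := fun a n => if n / 2 + n / 2 = n then MP_b3d6af_lc.ap (f a) (n / 2) else
    MP_b3d6af_lc.ap (g a) (n / 2)) (by fun_prop)
@[fun_prop] theorem UF.lft {f : α → ℕ → ℕ} (hf : UF f) : UF (fun a => lft (f a)) :=
  UF.lam (F := fun a n => MP_b3d6af_lc.ap (f a) (n + n)) (by fun_prop)
@[fun_prop] theorem UF.rgt {f : α → ℕ → ℕ} (hf : UF f) : UF (fun a => rgt (f a)) :=
  UF.lam (F := fun a n => MP_b3d6af_lc.ap (f a) (n + n + 1)) (by fun_prop)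
end

theorem ZF.join_mem {M : Set Z} (h : ZF M) {x y : ℕ → ℕ} (hx : x ∈ Reals M) (hy : y ∈ Reals M) :
    join x y ∈ Reals M :=
  UF.fits (f := fun p : (ℕ → ℕ) × (ℕ → ℕ) => join p.1 p.2) (by fun_prop) h (x, y) ⟨hx, hy⟩
theorem ZF.lft_mem {M : Set Z} (h : ZF M) {x : ℕ → ℕ} (hx : x ∈ Reals M) : lft x ∈ Reals M :=
  UF.fits (f := fun p => lft p) (by fun_prop) h x hx
theorem ZF.rgt_mem {M : Set Z} (h : ZF M) {x : ℕ → ℕ} (hx : x ∈ Reals M) : rgt x ∈ Reals M :=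
  UF.fits (f := fun p => rgt p) (by fun_prop) h x hx

theorem mem_predE {u : ℕ → ℕ} {j : ℕ} {y : Z} : y ∈ predE u (nat j) ↔ ∃ i, E u i j ∧ nat i = y := by
  simp only [predE, mem_sep, mem_omega, dec_nat]
  exact ⟨by rintro ⟨⟨i, rfl⟩, h⟩; exact ⟨i, by simpa using h, rfl⟩,
    by rintro ⟨i, h, rfl⟩; exact ⟨⟨i, rfl⟩, by simpa⟩⟩

theorem mem_pi {u : ℕ → ℕ} (h : WellFounded (E u)) {j : ℕ} {z : Z} :
    z ∈ pi u j ↔ ∃ i, E u i j ∧ pi u i = z := by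
  have : ∀ i, Ac (predE u) (nat i) := fun i => h.induction (C := fun i => Ac (predE u) (nat i)) i
    fun i ih => Ac.mk fun y hy => by obtain ⟨k, h1, rfl⟩ := mem_predE.1 hy; exact ih k h1
  simp only [pi, mem_clp (this j), mem_predE]
  exact ⟨by rintro ⟨_, ⟨i, h, rfl⟩, e⟩; exact ⟨i, h, e⟩, fun ⟨i, h, e⟩ => ⟨_, ⟨i, h, rfl⟩, e⟩⟩

theorem mu_ex {P : ℕ → Prop} (h : ∃ n, P n) : P (mu P) := mu_spec h.choose_spec

theorem wf_abs {W : Set Z} (hW : ZF W) {u : ℕ → ℕ} (hu : u ∈ Reals W)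
    (h : ∀ v ∈ Reals W, ¬ ∀ n, E u (ap v (n + 1)) (ap v n)) : WellFounded (E u) := by
  have key : ∀ k, Ac (predE u) (nat k) := by
    by_contra! H
    obtain ⟨k, hk⟩ := H
    let F : (ℕ → ℕ) → ℕ → ℕ := fun u n => Nat.rec (mu fun k => ¬ Ac (predE u) (nat k))
      (fun _ r => mu fun k => ¬ Ac (predE u) (nat k) ∧ E u k r) n
    have hA := uf_ac (pred := predE) (by fun_prop)
    have hF : UF (fun p : (ℕ → ℕ) × ℕ => F p.1 p.2) := UF.natrec
      (fun u => mu fun k => ¬ Ac (predE u) (nat k))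
      (fun u _ r => mu fun k => ¬ Ac (predE u) (nat k) ∧ E u k r)
      (UF.mu (hA.comp (g := fun q : (ℕ → ℕ) × ℕ => (q.1, nat q.2)) (by fun_prop)).not)
      (UF.mu (((hA.comp (g := fun q : ((ℕ → ℕ) × ℕ × ℕ) × ℕ => (q.1.1, nat q.2))
        (by fun_prop)).not).and (by fun_prop))) (fun _ => rfl) fun _ _ => rfl
    have h1 : ∀ r, ¬ Ac (predE u) (nat r) → ∃ k, ¬ Ac (predE u) (nat k) ∧ E u k r := by
      intro r hr
      by_contra! H
      refine hr (Ac.mk fun y hy => ?_)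
      obtain ⟨i, h1, rfl⟩ := mem_predE.1 hy
      exact by_contra fun hn => H i hn h1
    have h2 : ∀ n, ¬ Ac (predE u) (nat (F u n)) := fun n => by
      induction n with
      | zero => exact mu_spec (P := fun k => ¬ Ac (predE u) (nat k)) hk
      | succ n ih => exact (mu_ex (h1 _ ih)).1
    exact h (F u) ((UF.lam hF).fits hW u hu) fun n => (mu_ex (h1 _ (h2 n))).2
  refine ⟨fun k => ?_⟩
  refine (key k).ind (P := fun x => ∀ k, x = nat k → Acc (E u) k) ?_ k rfl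
  rintro _ - ih k rfl
  exact ⟨k, fun i hi => ih _ (mem_predE.2 ⟨i, hi, rfl⟩) i rfl⟩

/-- The code of an enumerated set. -/
noncomputable def codeOf (g : ℕ → Z) (n : ℕ) : ℕ := if g n.unpair.1 ∈ g n.unpair.2 then 0 else 1

@[fun_prop] theorem UF.codeOf {α : Type u} [Rep α] {g : α → ℕ → Z}
    (hg : UF (fun p : α × ℕ => g p.1 p.2)) : UF (fun a => codeOf (g a)) :=
  UF.lam (F := fun a n => if g a n.unpair.1 ∈ g a n.unpair.2 then 0 else 1) (by fun_prop)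

theorem E_codeOf {g : ℕ → Z} {i j : ℕ} : E (codeOf g) i j ↔ g i ∈ g j := by
  simp [E, ap, codeOf]

theorem wf_codeOf (g : ℕ → Z) : WellFounded (E (codeOf g)) :=
  Subrelation.wf (r := InvImage (· ∈ ·) g) (fun h => E_codeOf.1 h) (InvImage.wf g mem_wf)

theorem pi_codeOf {g : ℕ → Z} (h : ∀ j, ∀ x ∈ g j, ∃ i, g i = x) (i : ℕ) :
    pi (codeOf g) i = g i := by
  refine (wf_codeOf g).induction (C := fun i => pi (codeOf g) i = g i) i fun i ih => ?_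
  ext x
  rw [mem_pi (wf_codeOf g)]
  refine ⟨fun ⟨k, h1, h2⟩ => ?_, fun hx => ?_⟩
  · rw [← h2, ih k h1]; exact E_codeOf.1 h1
  · obtain ⟨k, rfl⟩ := h i x hx
    exact ⟨k, E_codeOf.2 hx, ih k (E_codeOf.2 hx)⟩

theorem exists_code {V : Set Z} (hV : ZF V) {m a : Z} (hc : Ctbl V m) (ht : Tr (m : Set Z))
    (hm : m ∈ V) (ha : a ∈ m) : ∃ p ∈ Reals V, pi p 0 = a := by
  obtain ⟨f, hf, h⟩ := hc.enum
  refine ⟨_, UF.fits (f := fun q : Z × Z × Z => codeOf fun i => if i ≠ 0 ∧ app q.1 (nat (i - 1)) ∈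
    q.2.1 then app q.1 (nat (i - 1)) else q.2.2) (by fun_prop) hV (f, m, a)
    ⟨hf, hm, hV.trans _ hm _ ha⟩, (pi_codeOf (fun j x hx => ?_) 0).trans (by simp)⟩
  have : x ∈ m := ht _ (by split_ifs with h; exacts [h.2, ha]) _ hx
  obtain ⟨n, rfl⟩ := h x this
  exact ⟨n + 1, by simp [this]⟩

def Eqv (u : ℕ → ℕ) (a b : ℕ) : Prop := ∀ k, E u k a ↔ E u k b
def IsUp (u : ℕ → ℕ) (z a b : ℕ) : Prop := ∀ y, E u y z ↔ Eqv u y a ∨ Eqv u y b
def IsPr (u : ℕ → ℕ) (k a b : ℕ) : Prop := ∀ z, E u z k ↔ IsUp u z a a ∨ IsUp u z a b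
def cns (x k : ℕ) : ℕ := Nat.pair x k + 1

@[simp] theorem dl_cns (x k : ℕ) : dl (cns x k) = x :: dl k := dl_pair x k

/-- The Tarski clause. -/
def Tar (u : ℕ → ℕ) (T : ℕ → ℕ → Prop) (d n l : ℕ) : Prop := n ≠ 0 ∧
  ((tg n = 0 ∧ E u (nth l (a1 n) d) (nth l (a2 n) d)) ∨
    (tg n = 1 ∧ Eqv u (nth l (a1 n) d) (nth l (a2 n) d)) ∨
    (tg n = 2 ∧ (T (a1 n) l → T (a2 n) l)) ∨ (3 ≤ tg n ∧ ∀ k, T (a1 n) (cns k l)))

/-- The axioms of ZF in coded form. -/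
def ZFc (u t h : ℕ → ℕ) : Prop :=
  (∀ a b, ∃ c, IsUp u c a b) ∧ (∀ a, ∃ c, ∀ k, E u k c ↔ ∃ y, E u y a ∧ E u k y) ∧
  (∃ c, ∀ k, E u k c ↔ ∃ n, Eqv u k (ap h n)) ∧
  (∀ a, ∃ c, ∀ x, (∀ k, E u k x → E u k a) → E u x c) ∧
  (∀ n l a, ∃ c, ∀ k, E u k c ↔ E u k a ∧ E t n (cns k l)) ∧
  (∀ n l a, (∀ x, E u x a → ∃ y, E t n (cns y (cns x l))) →
    ∃ c, ∀ x, E u x a → ∃ y, E u y c ∧ E t n (cns y (cns x l)))

/-- `(u, t, h)` codes a model of ZF with truth predicate `t` and numerals `h` which contains `x`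
and satisfies formula number `N` at `x`. -/
def Mod (N : ℕ) (u t h x : ℕ → ℕ) : Prop :=
  (∀ a b c, Eqv u a b → E u a c → E u b c) ∧ (∀ n l, E t n l ↔ Tar u (E t) (ap h 0) n l) ∧
  (∀ k, ¬ E u k (ap h 0)) ∧ (∀ n k, E u k (ap h (n + 1)) ↔ Eqv u k (ap h n) ∨ E u k (ap h n)) ∧
  ZFc u t h ∧ ∃ c, (∀ k, E u k c ↔ ∃ n, IsPr u k (ap h n) (ap h (ap x n))) ∧ E t N (cns c 0)

theorem af_mod (N : ℕ) : AF (fun p : (ℕ → ℕ) × (ℕ → ℕ) × (ℕ → ℕ) × (ℕ → ℕ) =>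
    Mod N p.1 p.2.1 p.2.2.1 p.2.2.2) := by
  unfold Mod ZFc Tar IsPr IsUp Eqv E cns; fun_prop

section model
variable {u t h : ℕ → ℕ} {g : ℕ → Z} (hg : ∀ j, ∀ x ∈ g j, ∃ i, g i = x)
  (hE : ∀ i j, E u i j ↔ g i ∈ g j)
include hg hE

theorem ext_g {c : ℕ} {s : Z} {P : ℕ → Prop} (hs : ∀ x ∈ s, x ∈ Set.range g)
    (hP : ∀ k, P k ↔ g k ∈ s) : (∀ k, E u k c ↔ P k) ↔ g c = s := by
  simp only [hE, hP]
  refine ⟨fun H => ZFSet.ext fun x => ⟨fun hx => ?_, fun hx => ?_⟩, fun H => by simp [H]⟩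
  · obtain ⟨k, rfl⟩ := hg c x hx; exact (H k).1 hx
  · obtain ⟨k, rfl⟩ := hs x hx; exact (H k).2 hx

theorem eqv_iff {a b : ℕ} : Eqv u a b ↔ g a = g b := ext_g hg hE (hg b) fun k => hE k b

theorem isUp_iff {z a b : ℕ} : IsUp u z a b ↔ g z = {g a, g b} :=
  ext_g hg hE (by simp) (by simp [eqv_iff hg hE])

theorem isPr_iff (hZ : ZF (Set.range g)) {z a b : ℕ} : IsPr u z a b ↔ g z = pair (g a) (g b) :=
  ext_g hg hE (hZ.trans _ (hZ.pair_mem ⟨a, rfl⟩ ⟨b, rfl⟩)) (by simp [isUp_iff hg hE, pair])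

theorem tar_sat {d : ℕ} (hd : g d = ∅) (n l : ℕ) :
    Sat (Set.range g) (Fm.dec n) (env ∅ ((dl l).map g)) ↔
      Tar u (fun n l => Sat (Set.range g) (Fm.dec n) (env ∅ ((dl l).map g))) d n l := by
  rw [sat_dec, Tar]
  simp only [eqv_iff hg hE, hE, nth, dl_cns, List.map_cons, env_cons, Set.forall_mem_range]
  rw [← hd, env_map]; rfl

theorem zfc_iff (hT : ∀ n l, E t n l ↔ Sat (Set.range g) (Fm.dec n) (env ∅ ((dl l).map g)))
    (hh : ∀ n, g (ap h n) = nat n) : ZFc u t h ↔ ZF (Set.range g) := by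
  have ht : Tr (Set.range g) := by rintro _ ⟨j, rfl⟩ x hx; exact hg j x hx
  have hl : ∀ {P : List Z → Prop}, (∀ l : List Z, (∀ x ∈ l, x ∈ Set.range g) → P l) ↔
      ∀ k, P ((dl k).map g) := by
    refine ⟨fun H k => H _ (by simp +contextual), fun H l hl => ?_⟩
    obtain ⟨r, rfl⟩ : ∃ r : List ℕ, r.map g = l := by
      induction l with
      | nil => exact ⟨[], rfl⟩
      | cons x l ih =>
        obtain ⟨r, rfl⟩ := ih fun y hy => hl y (by simp [hy])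
        obtain ⟨i, rfl⟩ := hl x (by simp)
        exact ⟨i :: r, rfl⟩
    simpa using H (Encodable.encode r)
  rw [zf_iff, and_iff_right (show ∀ a ∈ Set.range g, ∀ x ∈ a, x ∈ Set.range g from ht)]
  simp only [hl, Set.forall_mem_range, Set.exists_range_iff]
  refine and_congr (by simp [isUp_iff hg hE]) (and_congr (forall_congr' fun a => exists_congr
    fun c => ext_g hg hE ?_ fun k => ?_) (and_congr (exists_congr fun c => ext_g hg hE ?_ fun k => ?_)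
    (and_congr (forall_congr' fun a => exists_congr fun c => forall_congr' fun x =>
      imp_congr ?_ (hE _ _)) (and_congr (forall₃_congr fun n l a => exists_congr fun c =>
        ext_g hg hE ?_ fun k => ?_) (forall₃_congr fun n l a => imp_congr ?_
          (exists_congr fun c => ?_))))))
  · intro x hx
    obtain ⟨y, h1, h2⟩ := mem_sUnion.1 hx
    exact ht _ (hg _ _ h1) _ h2
  · simp only [hE, mem_sUnion]
    exact ⟨fun ⟨y, h⟩ => ⟨_, h⟩, fun ⟨y, h⟩ => by obtain ⟨i, rfl⟩ := hg _ _ h.1; exact ⟨i, h⟩⟩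
  · intro x hx
    obtain ⟨n, rfl⟩ := mem_omega.1 hx
    exact ⟨_, hh n⟩
  · simp [eqv_iff hg hE, hh, mem_omega]
  · simp only [hE]
    exact ⟨fun H y hy => by obtain ⟨i, rfl⟩ := hg _ _ hy; exact H i hy, fun H k hk => H hk⟩
  · exact fun x hx => hg _ _ (mem_sep.1 hx).1
  · simp [hE, hT]
  · simp only [hE, hT, dl_cns, List.map_cons]
    exact ⟨fun H y hy => by obtain ⟨i, rfl⟩ := hg _ _ hy; exact H i hy, fun H k hk => H _ hk⟩
  · simp only [hE, hT, dl_cns, List.map_cons]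
    refine ⟨fun H y hy => ?_, fun H k hk => ?_⟩
    · obtain ⟨i, rfl⟩ := hg _ _ hy
      obtain ⟨z, h1⟩ := H i hy
      exact ⟨_, h1⟩
    · obtain ⟨z, h1, h2⟩ := H _ hk
      obtain ⟨i, rfl⟩ := hg _ _ h1
      exact ⟨i, h1, h2⟩

theorem real_iff (hZ : ZF (Set.range g)) (hh : ∀ n, g (ap h n) = nat n) {x : ℕ → ℕ} {c : ℕ} :
    (∀ k, E u k c ↔ ∃ n, IsPr u k (ap h n) (ap h (ap x n))) ↔ g c = real x :=
  ext_g hg hE (fun p hp => by
    obtain ⟨n, rfl⟩ := mem_real.1 hp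
    exact hZ.pair_mem (hZ.nat_mem _) (hZ.nat_mem _)) fun k => by
      simp only [isPr_iff hg hE hZ, hh, mem_real]; rfl

end model

theorem Tar.congr {u : ℕ → ℕ} {T T' : ℕ → ℕ → Prop} {d n l : ℕ}
    (h : ∀ m < n, ∀ l, T m l ↔ T' m l) : Tar u T d n l ↔ Tar u T' d n l := by
  refine and_congr_right fun hn => ?_
  simp only [h _ (a1_lt hn), h _ (a2_lt hn)]

theorem Mod.decode {N : ℕ} {u t h x : ℕ → ℕ} (H : Mod N u t h x) (hw : WellFounded (E u)) :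
    ZF (Set.range (pi u)) ∧ x ∈ Reals (Set.range (pi u)) ∧
      Sat (Set.range (pi u)) (Fm.dec N) (env ∅ [real x]) := by
  obtain ⟨h1, h2, h3, h4, h5, c, h6, h7⟩ := H
  have hg : ∀ j, ∀ x ∈ pi u j, ∃ i, pi u i = x := fun j x hx =>
    ((mem_pi hw).1 hx).imp fun _ h => h.2
  have h8 : ∀ a b, pi u a = pi u b → Eqv u a b := fun a =>
    hw.induction (C := fun a => ∀ b, pi u a = pi u b → Eqv u a b) a fun a ih b e k => by
      constructor
      · intro hk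
        obtain ⟨k', h8, h9⟩ := (mem_pi hw).1 (e ▸ (mem_pi hw).2 ⟨k, hk, rfl⟩ : pi u k ∈ pi u b)
        exact h1 k' k b (fun j => (ih k hk k' h9.symm j).symm) h8
      · intro hk
        obtain ⟨k', h8, h9⟩ := (mem_pi hw).1 (e ▸ (mem_pi hw).2 ⟨k, hk, rfl⟩ : pi u k ∈ pi u a)
        exact h1 k' k a (ih k' h8 k h9) h8
  have hE : ∀ i j, E u i j ↔ pi u i ∈ pi u j := fun i j =>
    ⟨fun h => (mem_pi hw).2 ⟨i, h, rfl⟩, fun h => by
      obtain ⟨k, h9, h10⟩ := (mem_pi hw).1 h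
      exact h1 k i j (h8 _ _ h10) h9⟩
  have hh : ∀ n, pi u (ap h n) = nat n := fun n => by
    induction n with
    | zero => exact (ext_g hg hE (P := fun _ => False) (by simp) (by simp)).1 (by simpa using h3)
    | succ n ih =>
      refine (ext_g hg hE ?_ ?_).1 (h4 n)
      · intro y hy
        rcases mem_insert_iff.1 hy with rfl | hy
        exacts [⟨_, ih⟩, hg _ _ (ih ▸ hy)]
      · simp [eqv_iff hg hE, hE, ih, nat]
  have hT : ∀ n l, E t n l ↔ Sat (Set.range (pi u)) (Fm.dec n) (env ∅ ((dl l).map (pi u))) :=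
    fun n => Nat.strong_induction_on n fun n ih l => by
      rw [h2, tar_sat hg hE (hh 0), Tar.congr ih]
  have hZ := (zfc_iff hg hE hT hh).1 h5
  have e := (real_iff hg hE hZ hh).1 h6
  exact ⟨hZ, ⟨c, e⟩, by simpa [hT, dl_zero, e] using h7⟩

theorem exists_mod {W : Set Z} (hW : ZF W) {m : Z} (hm : m ∈ W) (hc : Ctbl W m)
    (hZ : ZF (m : Set Z)) {x : ℕ → ℕ} (hx : x ∈ Reals (m : Set Z)) {N : ℕ}
    (hN : Sat (m : Set Z) (Fm.dec N) (env ∅ [real x])) :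
    ∃ w ∈ Reals W, WellFounded (E (lft w)) ∧ Mod N (lft w) (lft (rgt w)) (rgt (rgt w)) x := by
  obtain ⟨f, hf, h⟩ := hc.enum
  let G : Z × Z → ℕ → Z := fun q i => if app q.1 (nat i) ∈ q.2 then app q.1 (nat i) else ∅
  have hG : UF (fun p : (Z × Z) × ℕ => G p.1 p.2) := by simp only [G]; fun_prop
  set g := G (f, m) with hgd
  have hr : Set.range g = m := by
    ext y
    constructor
    · rintro ⟨i, rfl⟩
      simp only [hgd, G]
      split_ifs with h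
      exacts [h, hZ.empty_mem]
    · intro hy
      obtain ⟨n, rfl⟩ := h y hy
      exact ⟨n, if_pos hy⟩
  have hg : ∀ j, ∀ x ∈ g j, ∃ i, g i = x := fun j x hx =>
    show x ∈ Set.range g from hr ▸ hZ.trans _ (hr ▸ ⟨j, rfl⟩ : g j ∈ (m : Set Z)) _ hx
  have hE : ∀ i j, E (codeOf g) i j ↔ g i ∈ g j := fun _ _ => E_codeOf
  let t : ℕ → ℕ := fun k => if Sat (m : Set Z) (Fm.dec k.unpair.1) (env ∅ ((dl k.unpair.2).map g))
    then 0 else 1
  have hT : ∀ n l, E t n l ↔ Sat (Set.range g) (Fm.dec n) (env ∅ ((dl l).map g)) := by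
    simp [E, ap, t, hr]
  have hh : ∀ n, g (ap (fun n => mu fun i => g i = nat n) n) = nat n := fun n =>
    mu_ex (P := fun i => g i = nat n) (show nat n ∈ Set.range g from hr ▸ hZ.nat_mem n)
  refine ⟨join (codeOf g) (join t fun n => mu fun i => g i = nat n), UF.fits
    (f := fun q : Z × Z => join (codeOf (G q)) (join (fun k => if Sat (q.2 : Set Z)
      (Fm.dec k.unpair.1) (env ∅ ((dl k.unpair.2).map (G q))) then 0 else 1)
      fun n => mu fun i => G q i = nat n)) (by fun_prop) hW (f, m) ⟨hf, hm⟩, ?_⟩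
  simp only [lft_join, rgt_join]
  obtain ⟨c, hc⟩ : real x ∈ Set.range g := hr ▸ hx
  refine ⟨wf_codeOf g, by simp +contextual [eqv_iff hg hE, hE], fun n l => ?_, by simp [hE, hh],
    by simp [hE, hh, eqv_iff hg hE, nat], (zfc_iff hg hE hT hh).2 (hr ▸ hZ), c,
    (real_iff hg hE (hr ▸ hZ) hh).2 hc, by simpa [hT, dl_zero, hc, hr] using hN⟩
  rw [hT, tar_sat hg hE (hh 0), Tar.congr fun m _ l => hT m l]

/-- The `Σ¹₂` lemma. -/
theorem sig12 {Q : Mo × (ℕ → ℕ) → Prop} (hQ : UF Q) :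
    ∃ Q' : (ℕ → ℕ) × (ℕ → ℕ) × (ℕ → ℕ) → Prop, AF Q' ∧ ∀ W, ZF W → ∀ x,
      (∃ m ∈ W, Ctbl W m ∧ ZF (m : Set Z) ∧ x ∈ Reals (m : Set Z) ∧ Q (⟨m⟩, x)) ↔
        ∃ u ∈ Reals W, ∀ v ∈ Reals W, Q' (v, u, x) := by
  obtain ⟨φ, hφ⟩ := hQ.fm2
  obtain ⟨N, hN⟩ := (φ.at2 0 1).dec_surj
  have e : ∀ M, ZF M → ∀ x ∈ Reals M, Sat M (Fm.dec N) (env ∅ [real x]) ↔ Q (⟨M⟩, x) :=
    fun M hM x hx => by rw [hN, ← hφ M hM ⟨M⟩ x rfl hx]; simp
  refine ⟨fun p => Mod N (lft p.2.1) (lft (rgt p.2.1)) (rgt (rgt p.2.1)) p.2.2 ∧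
    ¬ ∀ n, E (lft p.2.1) (ap p.1 (n + 1)) (ap p.1 n), AF.and ((af_mod N).comp
      (g := fun p : (ℕ → ℕ) × (ℕ → ℕ) × (ℕ → ℕ) =>
        (lft p.2.1, lft (rgt p.2.1), rgt (rgt p.2.1), p.2.2)) (by fun_prop))
      (by unfold E; fun_prop), fun W hW x => ⟨?_, ?_⟩⟩
  · rintro ⟨m, hm, h1, h2, h3, h4⟩
    obtain ⟨w, h5, h6, h7⟩ := exists_mod hW hm h1 h2 h3 ((e _ h2 x h3).2 h4)
    exact ⟨w, h5, fun v _ => ⟨h7, fun H =>
      (wellFounded_iff_isEmpty_descending_chain.1 h6).elim ⟨v, H⟩⟩⟩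
  · rintro ⟨w, h1, h2⟩
    have h3 := hW.lft_mem h1
    obtain ⟨h4, h5, h6⟩ := (h2 w h1).1.decode (wf_abs hW h3 fun v hv => (h2 v hv).2)
    rw [← coe_range] at h4 h5 h6
    exact ⟨range (pi (lft w)), UF.mem (f := fun u => range (pi u)) (by fun_prop) hW _ h3,
      ctbl_of_uf hW (g := pi) (by fun_prop) _ h3 (by simp), h4, h5, (e _ h4 x h5).1 h6⟩

/-- The `Σ¹₂` lemma for two reals, with a formula. -/
theorem sig12_two {Q : Mo × (ℕ → ℕ) × (ℕ → ℕ) → Prop} (hQ : UF Q) :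
    ∃ Q' : (ℕ → ℕ) × (ℕ → ℕ) × (ℕ → ℕ) × (ℕ → ℕ) → Prop, AF Q' ∧ ∀ W, ZF W → ∀ x y,
      (∃ m ∈ W, Ctbl W m ∧ ZF (m : Set Z) ∧ x ∈ Reals (m : Set Z) ∧ y ∈ Reals (m : Set Z) ∧
        Q (⟨m⟩, x, y)) ↔ ∃ u ∈ Reals W, ∀ v ∈ Reals W, Q' (v, u, x, y) := by
  obtain ⟨Q', h1, h2⟩ := sig12 (Q := fun p => Q (p.1, lft p.2, rgt p.2)) (by fun_prop)
  refine ⟨fun p => Q' (p.1, p.2.1, join p.2.2.1 p.2.2.2), by fun_prop, fun W hW x y => ?_⟩
  refine Iff.trans ?_ (h2 W hW (join x y))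
  simp only [lft_join, rgt_join]
  refine exists_congr fun m => and_congr_right fun _ => and_congr_right fun _ =>
    and_congr_right fun hm => ⟨fun h => ⟨hm.join_mem h.1 h.2.1, h.2.2⟩, fun h => ⟨?_, ?_, h.2⟩⟩
  · simpa using hm.lft_mem h.1
  · simpa using hm.rgt_mem h.1

end Pool.Agent.Lib.MP_b3d6af_lc
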