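import Pool.Agent.Lib.MP_b3d6af_lc.Defs

/-!
Formula manipulation and the calculus `UF` of functions that are uniformly definable over, and
absolute for, all transitive models of ZF.
-/

namespace Pool.Agent.Lib.MP_b3d6af_lc

open ZFSet Classical

universe u v w

abbrev Z := ZFSet.{0}

section consl
variable {α : Type*} (x : α) (v : ℕ → α)
@[simp] theorem cons_zero : cons x v 0 = x := rfl
@[simp] theorem cons_succ (n : ℕ) : cons x v (n + 1) = v n := rfl
@[simp] theorem cons_one : cons x v 1 = v 0 := rfl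
@[simp] theorem cons_two : cons x v 2 = v 1 := rfl
@[simp] theorem cons_three : cons x v 3 = v 2 := rfl
@[simp] theorem cons_four : cons x v 4 = v 3 := rfl
@[simp] theorem cons_five : cons x v 5 = v 4 := rfl

theorem cons_mem {M : Set α} {x : α} {v : ℕ → α} (hx : x ∈ M) (hv : ∀ i, v i ∈ M) :
    ∀ i, cons x v i ∈ M
  | 0 => hx
  | i + 1 => hv i

theorem comp_cons {β : Type*} (j : α → β) : (fun i => j (cons x v i)) = cons (j x) (fun i => j (v i)) := by
  funext i; cases i <;> rfl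
end consl

namespace Fm

def ren : Fm → (ℕ → ℕ) → Fm
  | .mem i j, ρ => .mem (ρ i) (ρ j)
  | .eq i j, ρ => .eq (ρ i) (ρ j)
  | .bot, _ => .bot
  | .imp φ ψ, ρ => .imp (φ.ren ρ) (ψ.ren ρ)
  | .all φ, ρ => .all (φ.ren (cons 0 fun i => ρ i + 1))

def neg (φ : Fm) : Fm := .imp φ .bot
def top : Fm := .imp .bot .bot
def and (φ ψ : Fm) : Fm := (φ.imp ψ.neg).neg
def or (φ ψ : Fm) : Fm := φ.neg.imp ψ
def iff (φ ψ : Fm) : Fm := (φ.imp ψ).and (ψ.imp φ)
def ex (φ : Fm) : Fm := φ.neg.all.neg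
def at2 (φ : Fm) (i j : ℕ) : Fm := φ.ren (cons i fun _ => j)
def at1 (φ : Fm) (i : ℕ) : Fm := φ.ren fun _ => i
def up (i j k : ℕ) : Fm := .all ((mem 0 (i + 1)).iff ((eq 0 (j + 1)).or (eq 0 (k + 1))))
def pr (i j k : ℕ) : Fm := .all ((mem 0 (i + 1)).iff ((up 0 (j + 1) (j + 1)).or (up 0 (j + 1) (k + 1))))
def emp (i : ℕ) : Fm := .all (mem 0 (i + 1)).neg

end Fm

/-- The assignment `a, b, b, b, ...`. -/
def two (a b : Z) : ℕ → Z := cons a fun _ => b

@[simp] theorem two_zero (a b : Z) : two a b 0 = a := rfl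
@[simp] theorem two_succ (a b : Z) (n : ℕ) : two a b (n + 1) = b := rfl
@[simp] theorem two_one (a b : Z) : two a b 1 = b := rfl

theorem two_mem {M : Set Z} {a b : Z} (ha : a ∈ M) (hb : b ∈ M) : ∀ i, two a b i ∈ M :=
  cons_mem ha fun _ => hb

section sat
variable {M : Set Z} {φ ψ : Fm} {v : ℕ → Z}

theorem sat_ren (M : Set Z) (φ : Fm) : ∀ (ρ : ℕ → ℕ) (v : ℕ → Z),
    Sat M (φ.ren ρ) v ↔ Sat M φ (fun i => v (ρ i)) := by
  induction φ with
  | mem i j => intro ρ v; rfl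
  | eq i j => intro ρ v; rfl
  | bot => intro ρ v; rfl
  | imp φ ψ h1 h2 => intro ρ v; simp only [Fm.ren, Sat, h1, h2]
  | all φ h =>
    intro ρ v
    simp only [Fm.ren, Sat, h]
    refine forall₂_congr fun x _ => ?_
    have : (fun i => cons x v (cons 0 (fun i => ρ i + 1) i)) = cons x fun i => v (ρ i) := by
      funext i; cases i <;> rfl
    rw [this]

@[simp] theorem sat_mem {i j : ℕ} : Sat M (.mem i j) v ↔ v i ∈ v j := Iff.rfl
@[simp] theorem sat_eq {i j : ℕ} : Sat M (.eq i j) v ↔ v i = v j := Iff.rfl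
@[simp] theorem sat_bot : Sat M .bot v ↔ False := Iff.rfl
@[simp] theorem sat_imp : Sat M (φ.imp ψ) v ↔ (Sat M φ v → Sat M ψ v) := Iff.rfl
@[simp] theorem sat_all : Sat M φ.all v ↔ ∀ x ∈ M, Sat M φ (cons x v) := Iff.rfl
@[simp] theorem sat_neg : Sat M φ.neg v ↔ ¬ Sat M φ v := Iff.rfl
@[simp] theorem sat_top : Sat M .top v ↔ True := by simp [Fm.top]
@[simp] theorem sat_and : Sat M (φ.and ψ) v ↔ Sat M φ v ∧ Sat M ψ v := by simp [Fm.and]
@[simp] theorem sat_or : Sat M (φ.or ψ) v ↔ Sat M φ v ∨ Sat M ψ v := by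
  simp only [Fm.or, sat_imp, sat_neg]; tauto
@[simp] theorem sat_iff : Sat M (φ.iff ψ) v ↔ (Sat M φ v ↔ Sat M ψ v) := by
  simp only [Fm.iff, sat_imp, sat_and]; tauto
@[simp] theorem sat_ex : Sat M φ.ex v ↔ ∃ x ∈ M, Sat M φ (cons x v) := by simp [Fm.ex]

@[simp] theorem sat_at2 {i j : ℕ} : Sat M (φ.at2 i j) v ↔ Sat M φ (two (v i) (v j)) := by
  rw [Fm.at2, sat_ren]
  have : (fun k => v (cons i (fun _ => j) k)) = two (v i) (v j) := by
    funext k; cases k <;> rfl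
  rw [this]

@[simp] theorem sat_at1 {i : ℕ} : Sat M (φ.at1 i) v ↔ Sat M φ (fun _ => v i) := by
  rw [Fm.at1, sat_ren]

/-- Transitive classes. -/
def Tr (M : Set Z) : Prop := ∀ a ∈ M, ∀ x ∈ a, x ∈ M

theorem Tr.ext (h : Tr M) {a b : Z} (ha : a ∈ M) (hb : ∀ x ∈ b, x ∈ M) :
    (∀ x ∈ M, x ∈ a ↔ x ∈ b) ↔ a = b :=
  ⟨fun H => ZFSet.ext fun x => ⟨fun hx => (H x (h a ha x hx)).1 hx, fun hx => (H x (hb x hx)).2 hx⟩,
    fun H => by simp [H]⟩

theorem sat_up (h : Tr M) {i j k : ℕ} (hi : v i ∈ M) (hj : v j ∈ M) (hk : v k ∈ M) :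
    Sat M (.up i j k) v ↔ v i = {v j, v k} := by
  rw [← h.ext hi]
  · simp [Fm.up]
  · intro x hx; rcases mem_pair.1 hx with rfl | rfl <;> assumption

theorem sat_emp (h : Tr M) {i : ℕ} (hi : v i ∈ M) : Sat M (.emp i) v ↔ v i = ∅ := by
  rw [← h.ext hi]
  · simp [Fm.emp]
  · simp

theorem sat_pr (h : ZF M) {i j k : ℕ} (hi : v i ∈ M) (hj : v j ∈ M) (hk : v k ∈ M) :
    Sat M (.pr i j k) v ↔ v i = pair (v j) (v k) := by
  rw [← Tr.ext h.trans hi]
  · simp only [Fm.pr, sat_all, sat_iff, sat_mem, sat_or, cons_zero, cons_succ]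
    refine forall₂_congr fun x hx => ?_
    rw [sat_up h.trans (by simpa) (by simpa) (by simpa),
      sat_up h.trans (by simpa) (by simpa) (by simpa)]
    simp [pair]
  · intro x hx
    rcases mem_pair.1 hx with rfl | rfl
    · simpa using h.pair _ hj _ hj
    · exact h.pair _ hj _ hk

/-- Every formula depends on finitely many variables. -/
theorem Fm.bound (φ : Fm) : ∃ n, ∀ (M : Set Z) (v w : ℕ → Z), (∀ i < n, v i = w i) →
    (Sat M φ v ↔ Sat M φ w) := by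
  induction φ with
  | mem i j => exact ⟨i + j + 1, fun M v w h => by
      simp [h i (by omega), h j (by omega)]⟩
  | eq i j => exact ⟨i + j + 1, fun M v w h => by
      simp [h i (by omega), h j (by omega)]⟩
  | bot => exact ⟨0, fun M v w h => Iff.rfl⟩
  | imp φ ψ h1 h2 =>
    obtain ⟨n, h1⟩ := h1
    obtain ⟨m, h2⟩ := h2
    exact ⟨n + m, fun M v w h => by
      simp [h1 M v w fun i hi => h i (by omega), h2 M v w fun i hi => h i (by omega)]⟩
  | all φ h1 =>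
    obtain ⟨n, h1⟩ := h1
    refine ⟨n, fun M v w h => forall₂_congr fun x _ => h1 _ _ _ ?_⟩
    rintro (_ | i) hi
    · rfl
    · exact h i (by omega)

end sat

theorem mem_nat {n : ℕ} {x : Z} : x ∈ nat n ↔ ∃ k < n, x = nat k := by
  induction n with
  | zero => simp [nat]
  | succ n ih =>
    simp only [nat, mem_insert_iff, ih]
    constructor
    · rintro (rfl | ⟨k, hk, rfl⟩)
      · exact ⟨n, by omega, rfl⟩
      · exact ⟨k, by omega, rfl⟩
    · rintro ⟨k, hk, rfl⟩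
      rcases Nat.lt_succ_iff_lt_or_eq.1 hk with h | rfl
      · exact Or.inr ⟨k, h, rfl⟩
      · exact Or.inl rfl

theorem nat_injective : Function.Injective nat := by
  intro a b h
  rcases lt_trichotomy a b with h1 | h1 | h1
  · have : nat a ∈ nat b := mem_nat.2 ⟨a, h1, rfl⟩
    rw [h] at this; exact absurd this (mem_irrefl _)
  · exact h1
  · have : nat b ∈ nat a := mem_nat.2 ⟨b, h1, rfl⟩
    rw [h] at this; exact absurd this (mem_irrefl _)

@[simp] theorem nat_inj {a b : ℕ} : nat a = nat b ↔ a = b := nat_injective.eq_iff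

@[simp] theorem nat_mem_nat {a b : ℕ} : nat a ∈ nat b ↔ a < b := by simp [mem_nat]

@[simp] theorem nat_zero : nat 0 = ∅ := rfl

theorem nat_eq_mk (n : ℕ) : nat n = mk (PSet.ofNat n) := by
  induction n with
  | zero => rfl
  | succ n ih => rw [nat, ih]; rfl

theorem mem_omega {x : Z} : x ∈ omega ↔ ∃ n, x = nat n := by
  constructor
  · induction x using Quotient.inductionOn with
    | h x =>
      rintro ⟨⟨n⟩, h⟩
      exact ⟨n, by rw [nat_eq_mk]; exact ZFSet.sound h⟩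
  · rintro ⟨n, rfl⟩
    induction n with
    | zero => exact omega_zero
    | succ n ih => exact omega_succ ih

@[simp] theorem nat_mem_omega (n : ℕ) : nat n ∈ omega := mem_omega.2 ⟨n, rfl⟩

namespace ZF
variable {M : Set Z} (h : ZF M)
include h

theorem nat_mem (n : ℕ) : nat n ∈ M := h.trans _ h.inf _ (nat_mem_omega n)
theorem empty_mem : (∅ : Z) ∈ M := h.nat_mem 0
theorem sing_mem {a : Z} (ha : a ∈ M) : ({a} : Z) ∈ M := by simpa using h.pair _ ha _ ha
theorem pair_mem {a b : Z} (ha : a ∈ M) (hb : b ∈ M) : ZFSet.pair a b ∈ M :=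
  h.pair _ (h.sing_mem ha) _ (h.pair _ ha _ hb)
theorem of_pair {a b : Z} (hp : ZFSet.pair a b ∈ M) : a ∈ M ∧ b ∈ M := by
  have : ({a, b} : Z) ∈ M := h.trans _ hp _ (by simp [ZFSet.pair])
  exact ⟨h.trans _ this _ (by simp), h.trans _ this _ (by simp)⟩
theorem of_pair_mem {a b f : Z} (hf : f ∈ M) (hp : ZFSet.pair a b ∈ f) : a ∈ M ∧ b ∈ M :=
  h.of_pair (h.trans _ hf _ hp)

end ZF

/-- Types whose elements are represented by sets; `fits M a` says that `a` lives in `M`. -/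
class Rep (α : Type u) where
  enc : α → Z
  fits : Set Z → α → Prop
  mem : ∀ {M : Set Z}, ZF M → ∀ {a : α}, fits M a → enc a ∈ M

export Rep (enc fits)

instance : Rep Z := ⟨fun a => a, fun M a => a ∈ M, fun _ _ h => h⟩
noncomputable instance : Rep ℕ := ⟨nat, fun _ _ => True, fun h _ _ => h.nat_mem _⟩
noncomputable instance : Rep Prop :=
  ⟨fun p => if p then {∅} else ∅, fun _ _ => True, fun h p _ => by
    split_ifs
    exacts [h.sing_mem h.empty_mem, h.empty_mem]⟩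
noncomputable instance {α : Type u} {β : Type v} [Rep α] [Rep β] : Rep (α × β) :=
  ⟨fun p => pair (enc p.1) (enc p.2), fun M p => fits M p.1 ∧ fits M p.2,
    fun h _ hp => h.pair_mem (Rep.mem h hp.1) (Rep.mem h hp.2)⟩
noncomputable instance : Rep (ℕ → ℕ) := ⟨real, fun M x => x ∈ Reals M, fun _ _ h => h⟩

/-- A marker for the ambient model. -/
structure Mo where
  M : Set Z

instance : Rep Mo := ⟨fun _ => ∅, fun M a => a.M = M, fun h _ _ => h.empty_mem⟩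

section simps
variable {α : Type u} {β : Type v} [Rep α] [Rep β] {M : Set Z}
@[simp] theorem enc_Z (a : Z) : enc a = a := rfl
@[simp] theorem fits_Z (a : Z) : fits M a ↔ a ∈ M := Iff.rfl
@[simp] theorem enc_nat (n : ℕ) : enc n = nat n := rfl
@[simp] theorem fits_nat (n : ℕ) : fits M n ↔ True := Iff.rfl
@[simp] theorem fits_prop (p : Prop) : fits M p ↔ True := Iff.rfl
@[simp] theorem enc_prod (p : α × β) : enc p = pair (enc p.1) (enc p.2) := rfl
@[simp] theorem fits_prod (p : α × β) : fits M p ↔ fits M p.1 ∧ fits M p.2 := Iff.rfl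
@[simp] theorem enc_real (x : ℕ → ℕ) : enc x = real x := rfl
@[simp] theorem fits_real (x : ℕ → ℕ) : fits M x ↔ x ∈ Reals M := Iff.rfl
@[simp] theorem enc_mo (a : Mo) : enc a = ∅ := rfl
@[simp] theorem fits_mo (a : Mo) : fits M a ↔ a.M = M := Iff.rfl
theorem mem_enc_prop {p : Prop} {x : Z} : x ∈ enc p ↔ p ∧ x = ∅ := by
  by_cases h : p <;> simp [enc, h]
theorem mem_reals {x : ℕ → ℕ} : x ∈ Reals M ↔ real x ∈ M := Iff.rfl
end simps

/-- `φ` defines `z` from `w` in `M`. -/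
def Dfs (M : Set Z) (φ : Fm) (w z : Z) : Prop := ∀ y ∈ M, Sat M φ (two y w) ↔ y = z

theorem Dfs.comp {M : Set Z} {φ ψ : Fm} {w u z : Z} (hu : u ∈ M) (h1 : Dfs M φ w u)
    (h2 : Dfs M ψ u z) : Dfs M ((φ.at2 0 2).and (ψ.at2 1 0)).ex w z := by
  intro y hy
  simp only [sat_ex, sat_and, sat_at2, cons_zero, cons_one, cons_two, two_zero, two_one]
  constructor
  · rintro ⟨x, hx, h3, h4⟩
    rw [(h1 x hx).1 h3] at h4
    exact (h2 y hy).1 h4
  · intro h
    exact ⟨u, hu, (h1 u hu).2 rfl, (h2 y hy).2 h⟩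

theorem Dfs.pair {M : Set Z} (hM : ZF M) {φ ψ : Fm} {w a b : Z} (ha : a ∈ M) (hb : b ∈ M)
    (h1 : Dfs M φ w a) (h2 : Dfs M ψ w b) :
    Dfs M ((φ.at2 1 3).and ((ψ.at2 0 3).and (.pr 2 1 0))).ex.ex w (pair a b) := by
  intro y hy
  simp only [sat_ex, sat_and, sat_at2, cons_zero, cons_one, cons_two, cons_three, two_one]
  constructor
  · rintro ⟨x, hx, x', hx', h3, h4, h5⟩
    rw [sat_pr hM (by simpa) (by simpa) (by simpa)] at h5
    simpa [(h1 x hx).1 h3, (h2 x' hx').1 h4] using h5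
  · intro h
    refine ⟨a, ha, b, hb, (h1 a ha).2 rfl, (h2 b hb).2 rfl, ?_⟩
    rw [sat_pr hM (by simpa) (by simpa) (by simpa)]
    simpa using h

/-- Uniformly definable, absolute functions. -/
@[fun_prop]
def UF {α : Type u} {β : Type v} [Rep α] [Rep β] (f : α → β) : Prop :=
  ∃ φ : Fm, ∀ M, ZF M → ∀ a, fits M a → fits M (f a) ∧ Dfs M φ (enc a) (enc (f a))

/-- Objects definable without parameters. -/
class Par {β : Type v} [Rep β] (c : β) : Prop where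
  out : ∃ φ : Fm, ∀ M, ZF M → fits M c ∧ ∀ w, Dfs M φ w (enc c)

variable {α : Type u} {β : Type v} {γ : Type w} [Rep α] [Rep β] [Rep γ]

theorem UF.fits {f : α → β} (h : UF f) {M : Set Z} (hM : ZF M) (a : α) (ha : fits M a) :
    fits M (f a) := (h.choose_spec M hM a ha).1

theorem UF.mem {f : α → Z} (h : UF f) {M : Set Z} (hM : ZF M) (a : α) (ha : Rep.fits M a) :
    f a ∈ M := h.fits hM a ha

theorem UF.congr' {f g : α → β} (h : UF g) (e : ∀ M, ZF M → ∀ a, Rep.fits M a → f a = g a) :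
    UF f := by
  obtain ⟨φ, h⟩ := h
  exact ⟨φ, fun M hM a ha => by rw [e M hM a ha]; exact h M hM a ha⟩

theorem UF.congr {f g : α → β} (h : UF g) (e : ∀ a, f a = g a) : UF f :=
  h.congr' fun _ _ a _ => e a

theorem UF.of_iff {P Q : α → Prop} (h : UF Q) (e : ∀ a, P a ↔ Q a) : UF P :=
  h.congr fun a => propext (e a)

theorem UF.of_iff' {P Q : α → Prop} (h : UF Q)
    (e : ∀ M, ZF M → ∀ a, Rep.fits M a → (P a ↔ Q a)) : UF P :=
  h.congr' fun M hM a ha => propext (e M hM a ha)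

@[fun_prop] theorem UF.id : UF (fun a : α => a) :=
  ⟨.eq 0 1, fun _ _ _ ha => ⟨ha, fun _ _ => Iff.rfl⟩⟩

@[fun_prop] theorem UF.const (c : β) [h : Par c] : UF (fun _ : α => c) := by
  obtain ⟨φ, h⟩ := h.out
  exact ⟨φ, fun M hM a _ => ⟨(h M hM).1, (h M hM).2 _⟩⟩

@[fun_prop] theorem UF.comp {f : β → γ} {g : α → β} (hf : UF f) (hg : UF g) :
    UF (fun a => f (g a)) := by
  obtain ⟨φ, hf⟩ := hf
  obtain ⟨ψ, hg⟩ := hg
  exact ⟨_, fun M hM a ha => ⟨(hf M hM _ (hg M hM a ha).1).1,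
    (hg M hM a ha).2.comp (Rep.mem hM (hg M hM a ha).1) (hf M hM _ (hg M hM a ha).1).2⟩⟩

@[fun_prop] theorem UF.prodMk {f : α → β} {g : α → γ} (hf : UF f) (hg : UF g) :
    UF (fun a => (f a, g a)) := by
  obtain ⟨φ, hf⟩ := hf
  obtain ⟨ψ, hg⟩ := hg
  exact ⟨_, fun M hM a ha => ⟨⟨(hf M hM a ha).1, (hg M hM a ha).1⟩, (hf M hM a ha).2.pair hM
    (Rep.mem hM (hf M hM a ha).1) (Rep.mem hM (hg M hM a ha).1) (hg M hM a ha).2⟩⟩

theorem uf_fst : UF (fun p : α × β => p.1) := by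
  refine ⟨(Fm.pr 2 1 0).ex, fun M hM a ha => ⟨ha.1, fun y hy => ?_⟩⟩
  have := Rep.mem hM ha
  simp only [sat_ex]
  constructor
  · rintro ⟨x, hx, h⟩
    rw [sat_pr hM (by simpa) (by simpa) (by simpa)] at h
    simp at h; exact h.1.symm
  · rintro rfl
    refine ⟨_, Rep.mem hM ha.2, ?_⟩
    rw [sat_pr hM (by simpa) (by simpa) (by simpa using Rep.mem hM ha.2)]
    simp

theorem uf_snd : UF (fun p : α × β => p.2) := by
  refine ⟨(Fm.pr 2 0 1).ex, fun M hM a ha => ⟨ha.2, fun y hy => ?_⟩⟩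
  have := Rep.mem hM ha
  simp only [sat_ex]
  constructor
  · rintro ⟨x, hx, h⟩
    rw [sat_pr hM (by simpa) (by simpa) (by simpa)] at h
    simp at h; exact h.2.symm
  · rintro rfl
    refine ⟨_, Rep.mem hM ha.1, ?_⟩
    rw [sat_pr hM (by simpa) (by simpa using Rep.mem hM ha.1) (by simpa)]
    simp

@[fun_prop] theorem UF.fst {f : α → β × γ} (hf : UF f) : UF (fun a => (f a).1) := uf_fst.comp hf
@[fun_prop] theorem UF.snd {f : α → β × γ} (hf : UF f) : UF (fun a => (f a).2) := uf_snd.comp hf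

@[fun_prop] theorem UF.enc {f : α → β} (hf : UF f) : UF (fun a => enc (f a)) := by
  obtain ⟨φ, h⟩ := hf
  exact ⟨φ, fun M hM a ha => ⟨Rep.mem hM (h M hM a ha).1, (h M hM a ha).2⟩⟩

theorem Par.of_uf {f : α → β} (hf : UF f) (c : α) [h : Par c] : Par (f c) := by
  obtain ⟨φ, hf⟩ := hf
  obtain ⟨ψ, h⟩ := h.out
  exact ⟨⟨_, fun M hM => ⟨(hf M hM c (h M hM).1).1, fun w =>
    ((h M hM).2 w).comp (Rep.mem hM (h M hM).1) (hf M hM c (h M hM).1).2⟩⟩⟩

theorem Par.fits (c : β) [h : Par c] {M : Set Z} (hM : ZF M) : Rep.fits M c :=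
  (h.out.choose_spec M hM).1

instance (a : α) (b : β) [h1 : Par a] [h2 : Par b] : Par (a, b) := by
  obtain ⟨φ, h1⟩ := h1.out
  obtain ⟨ψ, h2⟩ := h2.out
  exact ⟨⟨_, fun M hM => ⟨⟨(h1 M hM).1, (h2 M hM).1⟩, fun w =>
    ((h1 M hM).2 w).pair hM (Rep.mem hM (h1 M hM).1) (Rep.mem hM (h2 M hM).1) ((h2 M hM).2 w)⟩⟩⟩

instance : Par (∅ : Z) :=
  ⟨⟨.emp 0, fun M hM => ⟨hM.empty_mem, fun w y hy => sat_emp hM.trans (by simpa)⟩⟩⟩

theorem uf_prop_iff {P : α → Prop} :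
    UF P ↔ ∃ φ : Fm, ∀ M, ZF M → ∀ a, fits M a → (Sat M φ (fun _ => enc a) ↔ P a) := by
  constructor
  · rintro ⟨φ, h⟩
    refine ⟨((φ.at2 0 1).and (Fm.mem 0 1).ex).ex, fun M hM a ha => ?_⟩
    have h2 := (h M hM a ha).2
    simp only [sat_ex, sat_and, sat_at2, cons_zero, cons_one, sat_mem]
    constructor
    · rintro ⟨y, hy, h3, x, -, hx⟩
      rw [(h2 y hy).1 h3] at hx
      exact (mem_enc_prop.1 hx).1
    · intro hp
      have := Rep.mem hM (a := P a) trivial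
      exact ⟨_, this, (h2 _ this).2 rfl, ∅, hM.empty_mem, mem_enc_prop.2 ⟨hp, rfl⟩⟩
  · rintro ⟨φ, h⟩
    refine ⟨.all ((Fm.mem 0 1).iff ((φ.at1 2).and (.emp 0))), fun M hM a ha =>
      ⟨trivial, fun y hy => ?_⟩⟩
    rw [← Tr.ext hM.trans hy]
    · simp only [sat_all, sat_iff, sat_mem, sat_and, sat_at1, cons_zero, cons_one, cons_two,
        two_zero, two_one, h M hM a ha, mem_enc_prop]
      refine forall₂_congr fun x hx => ?_
      rw [sat_emp hM.trans (by simpa)]; simp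
    · intro x hx; rw [(mem_enc_prop.1 hx).2]; exact hM.empty_mem

theorem UF.fm2 {P : α × β → Prop} (h : UF P) : ∃ φ : Fm, ∀ M, ZF M → ∀ a b, Rep.fits M a →
    Rep.fits M b → (Sat M φ (two (Rep.enc b) (Rep.enc a)) ↔ P (a, b)) := by
  obtain ⟨φ, h⟩ := uf_prop_iff.1 h
  refine ⟨((Fm.pr 0 2 1).and (φ.at1 0)).ex, fun M hM a b ha hb => ?_⟩
  have h1 := Rep.mem hM ha
  have h2 := Rep.mem hM hb
  rw [← h M hM (a, b) ⟨ha, hb⟩]
  simp only [sat_ex, sat_and, sat_at1, cons_zero]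
  constructor
  · rintro ⟨x, hx, h3, h4⟩
    rw [sat_pr hM (by simpa) (by simpa) (by simpa)] at h3
    simp at h3; subst h3; exact h4
  · intro h4
    refine ⟨_, hM.pair_mem h1 h2, ?_, h4⟩
    rw [sat_pr hM (by simpa using hM.pair_mem h1 h2) (by simpa) (by simpa)]
    simp

theorem UF.of_spec {f : α → β} {P : α × Z → Prop} (hP : UF P)
    (h : ∀ M, ZF M → ∀ a, Rep.fits M a →
      Rep.fits M (f a) ∧ ∀ z ∈ M, P (a, z) ↔ z = Rep.enc (f a)) : UF f := by
  obtain ⟨φ, hP⟩ := hP.fm2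
  exact ⟨φ, fun M hM a ha => ⟨(h M hM a ha).1, fun y hy =>
    (hP M hM a y ha hy).trans ((h M hM a ha).2 y hy)⟩⟩

theorem uf_rel2 {R : Z → Z → Prop} (φ : Fm)
    (h : ∀ M, ZF M → ∀ a ∈ M, ∀ b ∈ M, Sat M φ (two a b) ↔ R a b) :
    UF (fun p : Z × Z => R p.1 p.2) := by
  refine uf_prop_iff.2 ⟨((Fm.pr 2 1 0).and (φ.at2 1 0)).ex.ex, fun M hM a ha => ?_⟩
  have := Rep.mem hM ha
  simp only [sat_ex, sat_and, sat_at2, cons_zero, cons_one]
  constructor
  · rintro ⟨x, hx, y, hy, h1, h2⟩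
    rw [sat_pr hM (by simpa) (by simpa) (by simpa)] at h1
    simp at h1
    rw [h1.1, h1.2]; exact (h M hM x hx y hy).1 h2
  · intro h2
    refine ⟨_, ha.1, _, ha.2, ?_, (h M hM _ ha.1 _ ha.2).2 h2⟩
    rw [sat_pr hM (by simpa) (by simpa using ha.1) (by simpa using ha.2)]
    simp

@[fun_prop] theorem UF.memZ {f g : α → Z} (hf : UF f) (hg : UF g) : UF (fun a => f a ∈ g a) :=
  (uf_rel2 (R := fun a b => a ∈ b) (.mem 0 1) (by simp)).comp (hf.prodMk hg)

theorem UF.eqZ {f g : α → Z} (hf : UF f) (hg : UF g) : UF (fun a => f a = g a) :=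
  (uf_rel2 (R := fun a b => a = b) (.eq 0 1) (by simp)).comp (hf.prodMk hg)

@[fun_prop] theorem UF.imp {P Q : α → Prop} (hP : UF P) (hQ : UF Q) : UF (fun a => P a → Q a) := by
  obtain ⟨φ, hP⟩ := uf_prop_iff.1 hP
  obtain ⟨ψ, hQ⟩ := uf_prop_iff.1 hQ
  exact uf_prop_iff.2 ⟨φ.imp ψ, fun M hM a ha => by simp [hP M hM a ha, hQ M hM a ha]⟩

instance (p : Prop) : Par p := by
  have : UF (fun _ : Z => p) := by
    by_cases h : p
    · exact uf_prop_iff.2 ⟨.top, by simp [h]⟩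
    · exact uf_prop_iff.2 ⟨.bot, by simp [h]⟩
  exact Par.of_uf this ∅

@[fun_prop] theorem UF.not {P : α → Prop} (hP : UF P) : UF (fun a => ¬ P a) :=
  hP.imp (UF.const False)

@[fun_prop] theorem UF.and {P Q : α → Prop} (hP : UF P) (hQ : UF Q) : UF (fun a => P a ∧ Q a) :=
  (hP.imp hQ.not).not.of_iff (by intro a; tauto)

@[fun_prop] theorem UF.or {P Q : α → Prop} (hP : UF P) (hQ : UF Q) : UF (fun a => P a ∨ Q a) :=
  (hP.not.imp hQ).of_iff (by intro a; tauto)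

@[fun_prop] theorem UF.iff {P Q : α → Prop} (hP : UF P) (hQ : UF Q) : UF (fun a => P a ↔ Q a) :=
  ((hP.imp hQ).and (hQ.imp hP)).of_iff (by intro a; tauto)

/-- Types whose representation is injective with definable range. -/
class Dec (β : Type v) [Rep β] : Prop where
  inj : Function.Injective (enc : β → Z)
  fits_of : ∀ {M : Set Z}, ZF M → ∀ {b : β}, enc b ∈ M → fits M b
  rng : UF (fun z : Z => ∃ b : β, enc b = z)

instance : Dec Z := ⟨fun _ _ h => h, fun _ _ h => h, (UF.const True).of_iff (by simp)⟩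

@[fun_prop] theorem UF.eq [Dec β] {f g : α → β} (hf : UF f) (hg : UF g) :
    UF (fun a => f a = g a) :=
  (hf.enc.eqZ hg.enc).of_iff fun _ => (Dec.inj.eq_iff).symm

@[fun_prop] theorem UF.ne [Dec β] {f g : α → β} (hf : UF f) (hg : UF g) :
    UF (fun a => f a ≠ g a) := (hf.eq hg).not

theorem UF.of_allM [Dec β] {P : α → Prop} {Q : α × β → Prop} (hQ : UF Q)
    (h : ∀ M, ZF M → ∀ a, Rep.fits M a → (P a ↔ ∀ b, Rep.fits M b → Q (a, b))) : UF P := by
  obtain ⟨φ, hQ⟩ := hQ.fm2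
  obtain ⟨ψ, hr⟩ := uf_prop_iff.1 (Dec.rng (β := β))
  refine uf_prop_iff.2 ⟨.all ((ψ.at1 0).imp (φ.at2 0 1)), fun M hM a ha => ?_⟩
  rw [h M hM a ha]
  simp only [sat_all, sat_imp, sat_at1, sat_at2, cons_zero, cons_one]
  constructor
  · intro H b hb
    have := Rep.mem hM hb
    exact (hQ M hM a b ha hb).1 (H _ this ((hr M hM _ this).2 ⟨b, rfl⟩))
  · intro H x hx h1
    obtain ⟨b, rfl⟩ := (hr M hM _ hx).1 h1
    exact (hQ M hM a b ha (Dec.fits_of hM hx)).2 (H b (Dec.fits_of hM hx))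

theorem UF.of_exM [Dec β] {P : α → Prop} {Q : α × β → Prop} (hQ : UF Q)
    (h : ∀ M, ZF M → ∀ a, Rep.fits M a → (P a ↔ ∃ b, Rep.fits M b ∧ Q (a, b))) : UF P :=
  (UF.of_allM (P := fun a => ¬ P a) hQ.not fun M hM a ha => by
    simp [h M hM a ha]).not.of_iff (by simp)

@[fun_prop] theorem UF.ball {g : α → Z} {Q : α → Z → Prop} (hg : UF g)
    (hQ : UF (fun p : α × Z => Q p.1 p.2)) : UF (fun a => ∀ x, x ∈ g a → Q a x) :=
  UF.of_allM (Q := fun p : α × Z => p.2 ∈ g p.1 → Q p.1 p.2) (by fun_prop) fun M hM a ha =>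
    ⟨fun H b _ => H b, fun H x hx => H x (hM.trans _ (hg.mem hM a ha) _ hx) hx⟩

@[fun_prop] theorem UF.bex {g : α → Z} {Q : α → Z → Prop} (hg : UF g)
    (hQ : UF (fun p : α × Z => Q p.1 p.2)) : UF (fun a => ∃ x, x ∈ g a ∧ Q a x) :=
  (UF.ball (Q := fun a x => ¬ Q a x) hg hQ.not).not.of_iff (by simp)

@[fun_prop] theorem UF.allM {g : α → Mo} {Q : α → Z → Prop} (hg : UF g)
    (hQ : UF (fun p : α × Z => Q p.1 p.2)) : UF (fun a => ∀ x, x ∈ (g a).M → Q a x) :=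
  UF.of_allM hQ fun M hM a ha => by
    have : (g a).M = M := hg.fits hM a ha
    simp [this]

@[fun_prop] theorem UF.exM {g : α → Mo} {Q : α → Z → Prop} (hg : UF g)
    (hQ : UF (fun p : α × Z => Q p.1 p.2)) : UF (fun a => ∃ x, x ∈ (g a).M ∧ Q a x) :=
  (UF.allM (Q := fun a x => ¬ Q a x) hg hQ.not).not.of_iff (by simp)

@[fun_prop] theorem UF.ite {P : α → Prop} {f g : α → β} [∀ a, Decidable (P a)] (hP : UF P)
    (hf : UF f) (hg : UF g) : UF (fun a => if P a then f a else g a) := by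
  refine UF.of_spec (P := fun p : α × Z => (P p.1 ∧ p.2 = Rep.enc (f p.1)) ∨
    (¬ P p.1 ∧ p.2 = Rep.enc (g p.1))) (by fun_prop) fun M hM a ha => ?_
  by_cases h : P a <;> simp [h, hf.fits hM a ha, hg.fits hM a ha]

theorem UF.of_mem {f : α → Z} (h1 : ∀ M, ZF M → ∀ a, Rep.fits M a → f a ∈ M)
    (h2 : UF (fun p : α × Z => p.2 ∈ f p.1)) : UF f := by
  have h3 : UF (fun p : α × Z => ∀ M, ZF M → Rep.fits M p → p.2 = f p.1) := by
    refine UF.of_allM (Q := fun q : (α × Z) × Z => q.2 ∈ q.1.2 ↔ q.2 ∈ f q.1.1)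
      (UF.iff (by fun_prop) (h2.comp (g := fun q : (α × Z) × Z => (q.1.1, q.2)) (by fun_prop)))
      fun M hM a ha => ?_
    have := Tr.ext hM.trans ha.2 (hM.trans _ (h1 M hM _ ha.1))
    exact ⟨fun H => this.2 (H M hM ha), fun H _ _ _ => this.1 H⟩
  exact UF.of_spec h3 fun M hM a ha => ⟨h1 M hM a ha, fun z hz =>
    ⟨fun H => H M hM ⟨ha, hz⟩, fun H _ _ _ => H⟩⟩

example {g : α → Z} (hg : UF g) (R : Z → Z → Prop) (hR : UF (fun p : Z × Z => R p.1 p.2)) :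
    UF (fun p : α × Mo × Z => ∀ x ∈ g p.1, ∃ y ∈ p.2.1.M, x ∈ y → ∀ z ∈ p.2.1.M, R z x ∧ z ≠ ∅) := by
  fun_prop

end Pool.Agent.Lib.MP_b3d6af_lc
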