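import Mathlib

/-!
Definitions used in the statement: transitive models of ZFC, projective pointclasses and
determinacy relative to a set of reals, forcing notions on the reals of a model, generic
extensions, properness and thin relations.
-/

namespace Pool.Agent.Lib.MP_b3d6af_lc

open ZFSet

/-- Formulas of the language of set theory (de Bruijn variables). -/
inductive Fm : Type
  | mem (i j : ℕ)
  | eq (i j : ℕ)
  | bot
  | imp (φ ψ : Fm)
  | all (φ : Fm)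

/-- The assignment `x, v 0, v 1, ...`. -/
def cons {α : Type*} (x : α) (v : ℕ → α) : ℕ → α
  | 0 => x
  | n + 1 => v n

/-- Satisfaction in the structure `(M, ∈)`. -/
def Sat (M : Set ZFSet.{0}) : Fm → (ℕ → ZFSet.{0}) → Prop
  | .mem i j, v => v i ∈ v j
  | .eq i j, v => v i = v j
  | .bot, _ => False
  | .imp φ ψ, v => Sat M φ v → Sat M ψ v
  | .all φ, v => ∀ x ∈ M, Sat M φ (cons x v)

/-- `M` is a transitive model of ZF (extensionality and foundation hold in every transitive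
class; replacement is given as separation plus collection). -/
structure ZF (M : Set ZFSet.{0}) : Prop where
  trans : ∀ a ∈ M, ∀ x ∈ a, x ∈ M
  pair : ∀ a ∈ M, ∀ b ∈ M, ({a, b} : ZFSet.{0}) ∈ M
  union : ∀ a ∈ M, sUnion a ∈ M
  inf : omega ∈ M
  power : ∀ a ∈ M, ∃ c ∈ M, ∀ x ∈ M, x ⊆ a → x ∈ c
  sep : ∀ (φ : Fm) (v : ℕ → ZFSet.{0}), (∀ i, v i ∈ M) → ∀ a ∈ M,
    ZFSet.sep (fun x => Sat M φ (cons x v)) a ∈ M
  coll : ∀ (φ : Fm) (v : ℕ → ZFSet.{0}), (∀ i, v i ∈ M) → ∀ a ∈ M,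
    (∀ x ∈ a, ∃ y ∈ M, Sat M φ (cons y (cons x v))) →
      ∃ c ∈ M, ∀ x ∈ a, ∃ y ∈ c, Sat M φ (cons y (cons x v))

/-- `f` is single valued. -/
def Fn (f : ZFSet.{0}) : Prop := ∀ x y z, pair x y ∈ f → pair x z ∈ f → y = z

/-- The function `f` lists all elements of `a` with indices from `I`. -/
def Enum (f I a : ZFSet.{0}) : Prop := Fn f ∧ ∀ x ∈ a, ∃ i ∈ I, pair i x ∈ f

/-- The axiom of choice in `M`: every set of `M` is listed along an ordinal inside `M`. -/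
def AC (M : Set ZFSet.{0}) : Prop := ∀ a ∈ M, ∃ I ∈ M, IsOrdinal I ∧ ∃ f ∈ M, Enum f I a

/-- Countable transitive models of ZFC. -/
def CTM (M : Set ZFSet.{0}) : Prop := M.Countable ∧ ZF M ∧ AC M

/-- `a` is countable in `M`. -/
def Ctbl (M : Set ZFSet.{0}) (a : ZFSet.{0}) : Prop := ∃ f ∈ M, Enum f omega a

/-- Von Neumann numerals. -/
noncomputable def nat : ℕ → ZFSet.{0}
  | 0 => ∅
  | n + 1 => insert (nat n) (nat n)

/-- An element of Baire space as a set (its graph). -/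
noncomputable def real (x : ℕ → ℕ) : ZFSet.{0} := range fun n => pair (nat n) (nat (x n))

/-- The reals of `M`. -/
def Reals (M : Set ZFSet.{0}) : Set (ℕ → ℕ) := {x | real x ∈ M}

/-- The set of reals `A` belongs to `M`. -/
def Coded (M : Set ZFSet.{0}) (A : Set (ℕ → ℕ)) : Prop := ∃ a ∈ M, ∀ x, real x ∈ a ↔ x ∈ A

/-- Arithmetical formulas: number variables (de Bruijn) and free real variables. -/
inductive Ar : Type
  | add (i j k : ℕ)
  | mul (i j k : ℕ)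
  | app (r i j : ℕ)
  | neg (θ : Ar)
  | and (θ η : Ar)
  | ex (θ : Ar)

/-- Truth of an arithmetical formula; `ρ` lists the values of the real variables. -/
def Ar.Sat : Ar → List (ℕ → ℕ) → (ℕ → ℕ) → Prop
  | .add i j k, _, ν => ν i + ν j = ν k
  | .mul i j k, _, ν => ν i * ν j = ν k
  | .app r i j, ρ, ν => ρ.getD r 0 (ν i) = ν j
  | .neg θ, ρ, ν => ¬ θ.Sat ρ ν
  | .and θ η, ρ, ν => θ.Sat ρ ν ∧ η.Sat ρ ν
  | .ex θ, ρ, ν => ∃ n, θ.Sat ρ (cons n ν)

/-- The `Σ¹_k` formula with arithmetical matrix `θ`, real quantifiers ranging over `R`: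
`Sig R (k+1) θ ρ` is `∃ u ∈ R, ¬ Sig R k θ (u :: ρ)`. Its negation is the dual `Π¹_k` formula. -/
def Sig (R : Set (ℕ → ℕ)) : ℕ → Ar → List (ℕ → ℕ) → Prop
  | 0, θ, ρ => θ.Sat ρ 0
  | k + 1, θ, ρ => ∃ u ∈ R, ¬ Sig R k θ (u :: ρ)

/-- The first `n` moves (latest first) when player I follows `σ` and player II follows `τ`;
strategies are reals acting on codes of positions. -/
def hist (σ τ : ℕ → ℕ) : ℕ → List ℕ
  | 0 => []
  | n + 1 => (if n % 2 = 0 then σ else τ) (Encodable.encode (hist σ τ n)) :: hist σ τ n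

/-- The play `σ * τ`. -/
def play (σ τ : ℕ → ℕ) (n : ℕ) : ℕ := (if n % 2 = 0 then σ else τ) (Encodable.encode (hist σ τ n))

/-- Boldface `Π¹_k` determinacy relative to `R`: formulas, parameters and strategies are
interpreted in `R`, and player I wants the play to satisfy the `Π¹_k` formula. -/
def Det (k : ℕ) (R : Set (ℕ → ℕ)) : Prop :=
  ∀ (θ : Ar) (ρ : List (ℕ → ℕ)), (∀ x ∈ ρ, x ∈ R) →
    (∃ σ ∈ R, ∀ τ ∈ R, ¬ Sig R k θ (play σ τ :: ρ)) ∨
    (∃ τ ∈ R, ∀ σ ∈ R, Sig R k θ (play σ τ :: ρ))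

/-- `(P, le)` is a nonempty preorder on reals of `V` which is lightface `Σ¹₂` in `V`, together
with its order and its incompatibility relation. -/
structure Sigma12Forcing (V : Set ZFSet.{0}) (P : Set (ℕ → ℕ))
    (le : (ℕ → ℕ) → (ℕ → ℕ) → Prop) : Prop where
  nonempty : P.Nonempty
  sub : P ⊆ Reals V
  field : ∀ p q, le p q → p ∈ P ∧ q ∈ P
  refl : ∀ p ∈ P, le p p
  trans : ∀ p q r, le p q → le q r → le p r
  sigP : ∃ θ : Ar, ∀ p ∈ Reals V, p ∈ P ↔ Sig (Reals V) 2 θ [p]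
  sigLe : ∃ θ : Ar, ∀ p ∈ Reals V, ∀ q ∈ Reals V, le p q ↔ Sig (Reals V) 2 θ [p, q]
  sigPerp : ∃ θ : Ar, ∀ p ∈ Reals V, ∀ q ∈ Reals V,
    (p ∈ P ∧ q ∈ P ∧ ¬ ∃ r, le r p ∧ le r q) ↔ Sig (Reals V) 2 θ [p, q]

/-- `G` is a `(P, le)`-generic filter over `V`. -/
structure Generic (V : Set ZFSet.{0}) (P : Set (ℕ → ℕ)) (le : (ℕ → ℕ) → (ℕ → ℕ) → Prop)
    (G : Set (ℕ → ℕ)) : Prop where
  sub : G ⊆ P
  up : ∀ p ∈ G, ∀ q, le p q → q ∈ G
  dir : ∀ p ∈ G, ∀ q ∈ G, ∃ r ∈ G, le r p ∧ le r q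
  meets : ∀ D, Coded V D → (∀ p ∈ P, ∃ q ∈ D, le q p) → ∃ q ∈ G, q ∈ D

/-- `W = V[G]`: the least countable transitive model of ZFC that includes `V` and contains `G`. -/
def Ext (V : Set ZFSet.{0}) (G : Set (ℕ → ℕ)) (W : Set ZFSet.{0}) : Prop :=
  CTM W ∧ V ⊆ W ∧ Coded W G ∧ ∀ W', CTM W' → V ⊆ W' → Coded W' G → W ⊆ W'

/-- Finite tuples as sets. -/
noncomputable def tup : List ZFSet.{0} → ZFSet.{0}
  | [] => ∅
  | x :: l => pair x (tup l)

/-- `S` is stationary in `[X]^{≤ω}` in the sense of `W`: for every function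
`F : ω × X^{<ω} → X` in `W` some `N ∈ S` is closed under `F`. -/
def Stat (W : Set ZFSet.{0}) (X S : ZFSet.{0}) : Prop :=
  ∀ F ∈ W, Fn F →
    (∀ (n : ℕ) (l : List ZFSet.{0}), (∀ x ∈ l, x ∈ X) →
      ∃ y ∈ X, pair (pair (nat n) (tup l)) y ∈ F) →
    ∃ N ∈ S, ∀ (n : ℕ) (l : List ZFSet.{0}) (y : ZFSet.{0}), (∀ x ∈ l, x ∈ N) →
      pair (pair (nat n) (tup l)) y ∈ F → y ∈ N

/-- Properness over `V`: every stationary set of countable subsets of a set `X` of `V` remains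
stationary in every generic extension. -/
def Proper (V : Set ZFSet.{0}) (P : Set (ℕ → ℕ)) (le : (ℕ → ℕ) → (ℕ → ℕ) → Prop) : Prop :=
  ∀ X ∈ V, ∀ S ∈ V, (∀ N ∈ S, N ⊆ X ∧ Ctbl V N) → Stat V X S →
    ∀ G W, Generic V P le G → Ext V G W → Stat W X S

/-- The binary relation on the reals of `M` defined in `M` by the lightface `Σ¹_k` formula with
matrix `θ`. -/
def Rel (k : ℕ) (θ : Ar) (M : Set ZFSet.{0}) (x y : ℕ → ℕ) : Prop :=
  x ∈ Reals M ∧ y ∈ Reals M ∧ Sig (Reals M) k θ [x, y]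

/-- Every nonempty set of reals of `M` without isolated points has two distinct `E`-related
elements (in particular every perfect set of `M` has). -/
def Thin (M : Set ZFSet.{0}) (E : (ℕ → ℕ) → (ℕ → ℕ) → Prop) : Prop :=
  ∀ Q ⊆ Reals M, Q.Nonempty → Preperfect Q → ∃ x ∈ Q, ∃ y ∈ Q, x ≠ y ∧ (E x y ∨ E y x)

end Pool.Agent.Lib.MP_b3d6af_lc
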