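import Pool.Agent.Lib.MP_b3d6af_lc.Generic

/-!
The generic real, decoding, and the `Σ¹₂` property that fails for the generic real.
-/

set_option linter.unusedSectionVars false
set_option linter.unusedVariables false

namespace Pool.Agent.Lib.MP_b3d6af_lc

open ZFSet Classical

variable {α : Type*} [Rep α]

/-- `r` vanishes on almost all codes of initial segments of `x`. -/
def Van (r x : ℕ → ℕ) : Prop := ∃ N, ∀ k, N ≤ k → ap r (nd x k) = 0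

@[fun_prop] theorem UF.Van {f g : α → ℕ → ℕ} (hf : UF f) (hg : UF g) :
    UF (fun a => Van (f a) (g a)) := by
  unfold MP_b3d6af_lc.Van; fun_prop

/-- `x` codes the subset `b` of the ordinal `ξ`. -/
def Dc (M : Set Z) (x : ℕ → ℕ) (ξ b : Z) : Prop := IsOrdinal ξ ∧ b ⊆ ξ ∧
  ∀ a ∈ ξ, ∃ γ ∈ M, Ok (b ∩ a) a γ ∧ (a ∈ b ↔ Van x (xr (b ∩ a) a γ))

@[fun_prop] theorem UF.Dc {m : α → Mo} {x : α → ℕ → ℕ} {f g : α → Z} (hm : UF m) (hx : UF x)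
    (hf : UF f) (hg : UF g) : UF (fun a => Dc (m a).M (x a) (f a) (g a)) := by
  unfold MP_b3d6af_lc.Dc; fun_prop

theorem Dc.unique {M : Set Z} {x : ℕ → ℕ} {ξ b c : Z} (h : Dc M x ξ b) (h' : Dc M x ξ c) :
    b = c := by
  have : ∀ a, a ∈ ξ → (a ∈ b ↔ a ∈ c) := fun a => by
    induction a using ZFSet.inductionOn with
    | h a ih =>
      intro ha
      obtain ⟨γ, -, h1, h2⟩ := h.2.2 a ha
      obtain ⟨γ', -, h3, h4⟩ := h'.2.2 a ha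
      have e : b ∩ a = c ∩ a := ZFSet.ext fun y => by
        simp only [mem_inter]
        exact and_congr_left fun hy => ih y hy (h.1.mem_trans hy ha)
      rw [e] at h1 h2
      rw [h2, h4, h1.unique h3]
  exact ZFSet.ext fun a => ⟨fun H => (this a (h.2.1 H)).1 H, fun H => (this a (h'.2.1 H)).2 H⟩

theorem Dc.restrict {M : Set Z} {x : ℕ → ℕ} {ξ b a : Z} (h : Dc M x ξ b) (ha : a ∈ ξ) :
    Dc M x a (b ∩ a) := ⟨h.1.mem ha, fun y hy => (mem_inter.1 hy).2, fun y hy => by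
  rw [inter_inter_of_sub ((h.1.mem ha).subset_of_mem hy), mem_inter, and_iff_left hy]
  exact h.2.2 y (h.1.mem_trans hy ha)⟩

theorem Dc.mem {M : Set Z} (hM : ZF M) {x : ℕ → ℕ} (hx : x ∈ Reals M) (ξ : Z) :
    ξ ∈ M → ∀ b, Dc M x ξ b → b ∈ M := by
  induction ξ using ZFSet.inductionOn with
  | h ξ ih =>
    intro hξ b h
    have := UF.mem (f := fun p : Mo × (ℕ → ℕ) × Z => ZFSet.sep (fun a => ∃ c ∈ p.1.M,
      Dc p.1.M p.2.1 a c ∧ ∃ γ ∈ p.1.M, Ok c a γ ∧ Van p.2.1 (xr c a γ)) p.2.2) (by fun_prop) hM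
      (⟨M⟩, x, ξ) ⟨rfl, hx, hξ⟩
    rwa [show b = _ from ZFSet.ext fun a => mem_sep.trans ?_ |>.symm]
    constructor
    · rintro ⟨ha, c, -, h1, γ, -, h2, h3⟩
      obtain rfl := h1.unique (h.restrict ha)
      obtain ⟨γ', -, h4, h5⟩ := h.2.2 a ha
      exact h5.2 (h2.unique h4 ▸ h3)
    · intro hb
      have ha := h.2.1 hb
      obtain ⟨γ, h1, h2, h3⟩ := h.2.2 a ha
      exact ⟨ha, _, ih a ha (hM.trans _ hξ _ ha) _ (h.restrict ha), h.restrict ha, γ, h1, h2,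
        h3.1 hb⟩

/-- The property that all countable models containing the generic real have. -/
def Chi (n : ℕ) (M : Set Z) (x : ℕ → ℕ) : Prop := (∃ κ ∈ M, IsOrdinal κ ∧ ¬ Ctbl M κ) →
  ∃ ξ ∈ M, ∃ b ∈ M, Dc M x ξ b ∧ (∀ γ ∈ M, IsOrdinal γ → ¬ Ctbl (L b γ : Set Z) ξ) ∧
    ∀ β ∈ M, IsOrdinal β → ξ ∈ β → ZF (L b β : Set Z) → (∀ η ∈ ξ, Ctbl (L b β : Set Z) η) →
      Phi n b ξ

theorem uf_chi (n : ℕ) : UF (fun p : Mo × (ℕ → ℕ) => ¬ Chi n p.1.M p.2) := by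
  unfold Chi; fun_prop

/-- The `Σ¹₂` property. -/
def Bad (n : ℕ) (W : Set Z) (x : ℕ → ℕ) : Prop :=
  ∃ m ∈ W, Ctbl W m ∧ ZF (m : Set Z) ∧ x ∈ Reals (m : Set Z) ∧ ¬ Chi n m x

variable {n : ℕ} {V : Set Z} {w : Z} {G : Set (ℕ → ℕ)}

theorem Min.bad (h : Min n V w) {y : ℕ → ℕ} (hy : y ∈ Reals V) : Bad n V y := by
  have hV := h.good.1
  suffices H : ¬ Chi n V y by
    obtain ⟨m, hm, j, h1, h2, y', h3⟩ := reflect h.good h.ac (a := y) hy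
    obtain rfl := h2.real_eq h3
    exact ⟨m, hm, h1, h2.hA, h3.1, (h2.iff (uf_chi n) (h2.prod h2.mo h3)).2 H⟩
  intro H
  obtain ⟨ξ, h1, b, h2, h3, h4, h5⟩ := H ⟨w, h.mem, h.ord, h.unc⟩
  by_cases hc : Ctbl V ξ
  · have hZ := h.good.zf_LM h2
    have h6 : ∀ η ∈ ξ, Ctbl (LM V b) η := fun η hη => by
      obtain ⟨γ, h6, h7, -⟩ := h3.2.2 η hη
      exact h7.ctbl hZ (hZ.inter_mem (h.good.self_LM h2 h3.1 h3.2.1)
        (LM_ord hV b (hV.trans _ h1 _ hη) (h3.1.mem hη))) (LM_ord hV b h6 h7.1)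
    obtain ⟨β, h7, h8, h9, h10, h11⟩ := h.good.reflect_LM h2 (l := [ξ])
      (by simpa using LM_ord hV b h1 h3.1)
    have h12 : ZE (L b β : Set Z) (LM V b) fun x => x := ⟨h11.zf (L_tr b β) h9 hZ, hZ, h11⟩
    have h13 := h10 ξ (by simp)
    obtain ⟨f, ⟨γ, h14, h15, h16⟩, h17⟩ := h.no_small (mem_of_ctbl h.ord h.unc h3.1 hc) h2 h3.2.1 h6
      (h5 β h7 h8 ((ord_mem_L h8 h3.1).1 h13) h12.hA fun η hη =>
        (h12.ctbl (L_trans b β ξ h13 hη)).2 (h6 η hη))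
    exact h4 γ h14 h15 ⟨f, h16, h17⟩
  · obtain ⟨a, h6, h7, h8, h9⟩ := h.inacc y hy
    have h10 := mem_of_ctbl h3.1 hc h7 h8
    have hZ := h.good.zf_LM (mem_reals.1 hy)
    have h11 : y ∈ Reals (LM V (real y)) := LM_self hV hy fun z hz => by
      obtain ⟨k, rfl⟩ := mem_real.1 hz
      exact hZ.pair_mem (hZ.nat_mem _) (hZ.nat_mem _)
    obtain ⟨γ, h12, h13, -⟩ := h3.2.2 a h10
    obtain ⟨f, ⟨β, h14, h15, h16⟩, h17⟩ := h13.ctbl hZ (hZ.inter_mem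
      (Dc.mem hZ h11 ξ (LM_ord hV _ h1 h3.1) b ⟨h3.1, h3.2.1, fun a ha =>
        (h3.2.2 a ha).imp fun γ hγ => ⟨LM_ord hV _ hγ.1 hγ.2.1.1, hγ.2⟩⟩) (LM_ord hV _ h6 h7))
      (LM_ord hV _ h12 h13.1)
    exact h9 β h14 h15 ⟨f, h16, h17⟩

/-- The generic real. -/
noncomputable def gr (g : Z) (i : ℕ) : ℕ := mu fun k => ∃ z ∈ g,
  i < (cs (dec (ℕ → ℕ) z)).length ∧ (cs (dec (ℕ → ℕ) z)).getD i 0 = k

/-- The generic subset of `w`. -/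
noncomputable def gb (G : Set (ℕ → ℕ)) (w : Z) : Z := ZFSet.sep (fun a => ∃ p ∈ G, a ∈ cb p) w

section gen
variable (h : Min n V w) (hG : Generic V (Pn n V) (LeV n V) G)
include h hG

theorem Min.gr_eq {p : ℕ → ℕ} (hp : p ∈ G) {i : ℕ} (hi : i < (cs p).length) :
    gr (gz V G) i = (cs p).getD i 0 := by
  obtain ⟨z, h1, h2, h3⟩ := mu_spec (P := fun k => ∃ z ∈ gz V G,
    i < (cs (dec (ℕ → ℕ) z)).length ∧ (cs (dec (ℕ → ℕ) z)).getD i 0 = k)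
    ⟨_, hG.real_gz.2 hp, by simpa, rfl⟩
  obtain ⟨q, hq, rfl⟩ := hG.mem_gz.1 h1
  obtain ⟨r, -, h4, h5⟩ := hG.dir p hp q hq
  rw [dec_real] at h2 h3
  rw [gr, ← h3, ← h4.2.2.2.2.2.2.2.1 i hi, h5.2.2.2.2.2.2.2.1 i h2]

theorem Min.gb_eq {p : ℕ → ℕ} (hp : p ∈ G) {a : Z} (ha : a ⊆ cδ p) : cb p ∩ a = gb G w ∩ a := by
  obtain ⟨h1, h2⟩ := hG.sub hp
  have h3 := mem_of_ctbl h.ord h.unc h2.1 (h2.ctbl h.good.1 h1)
  ext x
  simp only [gb, mem_inter, mem_sep, and_congr_left_iff]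
  refine fun hx => ⟨fun H => ⟨h.ord.mem_trans (ha hx) h3, p, hp, H⟩, fun ⟨_, q, hq, H⟩ => ?_⟩
  obtain ⟨r, -, h4, h5⟩ := hG.dir p hp q hq
  rw [h4.2.2.2.2.1.2]
  exact mem_inter.2 ⟨h5.2.2.2.2.1.sub H, ha hx⟩

theorem Min.exists_mem {β : Z} (hβ : β ∈ w) : ∃ q ∈ G, β ∈ cδ q ∧ (β ∈ cb q → β ∈ cF q) := by
  have hb := h.good.1.trans _ h.mem _ hβ
  refine hG.dense h.good h.ac (Q := fun (β : Z) q => β ∈ cδ q ∧ (β ∈ cb q → β ∈ cF q))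
    (by fun_prop) β hb fun p hp hC => ?_
  obtain ⟨d, h1, h2, h3, -, -, h4, -⟩ := extend h.good h.ac hp hC hp hb (h.ord.mem hβ)
    (h.ctbl_of_mem hβ) [] (F := []) (by simp)
  obtain ⟨r, h5, h6, h7, h8, h9⟩ := change h.good h.ac h1 h2 (cs p)
    (F := if β ∈ cb d then β :: cF p else cF p) fun a ha => by
      split_ifs at ha with H
      · rcases List.mem_cons.1 ha with rfl | ha
        exacts [H, h3.sub (hC.2.2.2 a ha)]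
      · exact h3.sub (hC.2.2.2 a ha)
  refine ⟨r, h5, ⟨h6, hC, h7.trans h3, fun a ha => ?_, h8 ▸ St.refl p⟩, h7.1 h4, fun H => ?_⟩
  · rw [h9]; split_ifs <;> simp [ha]
  · rw [h9, if_pos (h7.2 ▸ mem_inter.2 ⟨H, h4⟩)]; simp

theorem Min.ol {β : Z} (hβ : β ∈ w) : ∃ γ, OL n (gb G w) β γ := by
  obtain ⟨q, h1, h2, -⟩ := h.exists_mem hG hβ
  have h3 := (hG.sub h1).2
  have h4 := h3.1.subset_of_mem h2
  obtain ⟨γ, -, h5⟩ := h3.ok h4 (h.ord.mem hβ)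
  exact ⟨γ, by simpa only [OL, h.gb_eq hG h1 h4] using h5⟩

theorem Min.coding {β γ : Z} (hβ : β ∈ w) (hγ : Ok (gb G w ∩ β) β γ) :
    β ∈ gb G w ↔ Van (gr (gz V G)) (xr (gb G w ∩ β) β γ) := by
  have hV := h.good.1
  obtain ⟨p, h1, h2, h3⟩ := h.exists_mem hG hβ
  obtain ⟨h4, h5⟩ := hG.sub h1
  have h6 := h5.1.subset_of_mem h2
  obtain ⟨γ', h7, h8, -⟩ := h5.ok h6 (h.ord.mem hβ)
  have e := h.gb_eq hG h1 h6
  obtain rfl : γ' = γ := (e ▸ h8).unique hγ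
  have e' : β ∈ gb G w ↔ β ∈ cb p := by
    have := congrArg (β ∈ ·) (h.gb_eq hG h1 subset_rfl)
    simpa [h2] using this.symm
  rw [← e, e']
  set x := xr (cb p ∩ β) β γ' with hx
  constructor
  · refine fun H => ⟨(cs p).length, fun k hk => by_contra fun hn => ?_⟩
    obtain ⟨q, h9, h10⟩ := hG.dn h.good h.ac (Q := fun (i : ℕ) q => i < (cs q).length)
      (by fun_prop) (nd x k) trivial h1 fun q h9 h10 => by
        rcases lt_or_ge (nd x k) (cs q).length with h11 | h11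
        · exact ⟨q, h9, Le.refl h10.1, h11⟩
        · obtain ⟨r, h12, h13, h14, -⟩ := ext_stem h.good h.ac h9 h10.1 h11 (v := 0) (by simp)
          exact ⟨r, h12, h13, h14⟩
    obtain ⟨r, h11, h12, h13⟩ := hG.dir p h1 q h9
    rw [ap, h.gr_eq hG h11 (h10.trans_le h13.2.2.2.2.2.2.1)] at hn
    exact h12.2.2.2.2.2.2.2.2 _ (hk.trans (le_nd x k)) hn β (h3 H) γ' h7 h8 k rfl
  · rintro ⟨N, hN⟩
    by_contra hn
    have hxV : x ∈ Reals V := UF.fits (f := fun a : Z × Z × Z => xr a.1 a.2.1 a.2.2) (by fun_prop)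
      hV (_, β, γ') ⟨hV.inter_mem (hV.cb_mem h4) (hV.trans _ h.mem _ hβ), hV.trans _ h.mem _ hβ,
        hV.trans _ (hV.cΓ_mem h4) _ h7⟩
    obtain ⟨q, h9, k, h10, h11, h12⟩ := hG.dn h.good h.ac (Q := fun (a : (ℕ → ℕ) × ℕ) q =>
      ∃ k, a.2 ≤ k ∧ nd a.1 k < (cs q).length ∧ (cs q).getD (nd a.1 k) 0 = 1) (by fun_prop) (x, N)
      (by exact ⟨hxV, trivial⟩) h1 fun q h9 h10 => by
        have h11 : ∀ᶠ k in Filter.atTop, ∀ β' ∈ {a | a ∈ cF q}, ∀ γ ∈ cΓ q, Ok (cb q ∩ β') β' γ →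
            ∀ i, nd (xr (cb q ∩ β') β' γ) i ≠ nd x k := by
          refine (Filter.eventually_all_finite (List.finite_toSet _)).2 fun β' h11 => ?_
          have h12 := h10.1.2.2.2 β' h11
          have h13 := h10.1.1.mem (h10.1.2.1 h12)
          obtain ⟨γ, -, h14, -⟩ := h10.1.ok (h10.1.1.subset_of_mem (h10.1.2.1 h12)) h13
          obtain ⟨i, hi⟩ : ∃ i, x i ≠ xr (cb q ∩ β') β' γ i := by
            by_contra! H
            have := h14.pi_xr h13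
            rw [← funext H, hx, h8.pi_xr (h.ord.mem hβ)] at this
            exact hn (h10.2.2.1.2 ▸ mem_inter.2 ⟨this ▸ h12, h2⟩)
          filter_upwards [Filter.eventually_gt_atTop i] with k hk γ'' _ h15 i' h16
          exact hi (nd_eq (h15.unique h14 ▸ h16.symm) i hk)
        obtain ⟨k, h12, h13, h14⟩ := (h11.and ((Filter.eventually_ge_atTop N).and
          (Filter.eventually_ge_atTop (cs q).length))).exists
        obtain ⟨r, h15, h16, h17⟩ := ext_stem h.good h.ac h9 h10.1 (h14.trans (le_nd x k))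
          (v := 1) fun _ => h12
        exact ⟨r, h15, h16, k, h13, h17⟩
    have := hN k h10
    rw [ap, h.gr_eq hG h9 h11, h12] at this
    exact one_ne_zero this

theorem Min.not_bad {W : Set Z} (hW : Ext V G W) :
    gr (gz V G) ∈ Reals W ∧ ¬ Bad n W (gr (gz V G)) := by
  have hu := h.unc_ext hG hW
  refine ⟨UF.fits (f := fun g i => gr g i) (by unfold gr; fun_prop) hW.1.2.1 _ (by
    rw [hG.ext_eq h.good h.ac h.ctbl hW]; exact (hG.gen h.good h.ac).mem_ext), ?_⟩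
  rintro ⟨m, h1, h2, h3, h4, h5⟩
  refine h5 fun ⟨κ, h6, h7, h8⟩ => ?_
  have hw : ∀ a ∈ m, IsOrdinal a → a ∈ w := fun a ha ho =>
    mem_of_ctbl h.ord hu ho (h3.ctbl_mem h2 ha)
  have dc : ∀ ξ ∈ m, IsOrdinal ξ → (∀ a ∈ ξ, ∃ γ ∈ m, Ok (gb G w ∩ a) a γ) →
      Dc m (gr (gz V G)) ξ (gb G w ∩ ξ) := fun ξ h9 h10 h11 =>
    ⟨h10, fun y hy => (mem_inter.1 hy).2, fun a ha => by
      rw [inter_inter_of_sub (h10.subset_of_mem ha), mem_inter, and_iff_left ha]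
      exact (h11 a ha).imp fun γ hγ => ⟨hγ.1, hγ.2,
        h.coding hG (h.ord.mem_trans ha (hw ξ h9 h10)) hγ.2⟩⟩
  obtain ⟨ξ, ⟨h9, h10, h11⟩, h12⟩ := exists_min
    (s := {ξ | ξ ∈ m ∧ IsOrdinal ξ ∧ ¬ ∃ γ ∈ m, Ok (gb G w ∩ ξ) ξ γ}) (by
      by_contra! H
      have H' : ∀ ξ ∈ m, IsOrdinal ξ → ∃ γ ∈ m, Ok (gb G w ∩ ξ) ξ γ := fun ξ h9 h10 =>
        by_contra fun hn => Set.notMem_empty ξ (H ▸ ⟨h9, h10, by simpa using hn⟩)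
      obtain ⟨γ, h9, h10⟩ := H' κ h6 h7
      exact h8 (h10.ctbl h3 (Dc.mem h3 h4 κ h6 _ (dc κ h6 h7 fun a ha =>
        H' a (h3.trans _ h6 _ ha) (h7.mem ha))) h9))
  have h13 := dc ξ h9 h10 fun a ha => by_contra fun hn =>
    h12 a ha ⟨h3.trans _ h9 _ ha, h10.mem ha, hn⟩
  have h14 : ∀ γ ∈ (m : Set Z), IsOrdinal γ → ¬ Ctbl (L (gb G w ∩ ξ) γ : Set Z) ξ :=
    fun γ h14 h15 h16 => h11 (exists_ok h3.trans h14 h15 h16)
  refine ⟨ξ, h9, _, Dc.mem h3 h4 ξ h9 _ h13, h13, h14, fun β h15 h16 h17 h18 h19 => ?_⟩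
  obtain ⟨γ, h20, h21⟩ := h.ol hG (hw ξ h9 h10)
  exact h21 ⟨β, (h16.mem_or_subset h20.1).resolve_right fun hs =>
    h14 β h15 h16 (h20.2.1.mono (L_mono hs)), h17, h18, h19⟩

end gen

theorem exists_phi (n : ℕ) : ∃ Q : (ℕ → ℕ) × (ℕ → ℕ) × (ℕ → ℕ) → Prop, AF Q ∧ ∀ W, ZF W → ∀ x,
    Bad n W x ↔ ∃ u ∈ Reals W, ∀ v ∈ Reals W, Q (v, u, x) := sig12 (uf_chi n)

theorem AF.sig3 {Q : (ℕ → ℕ) × (ℕ → ℕ) × (ℕ → ℕ) × (ℕ → ℕ) × (ℕ → ℕ) → Prop} (hQ : AF Q) (n : ℕ) :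
    ∃ θ : Ar, ∀ R x y, Sig R (n + 3) θ [x, y] ↔ ∃ a ∈ R, ∀ b ∈ R, ∃ c ∈ R, Q (c, b, a, x, y) := by
  let X : Cx (List (ℕ → ℕ)) := ⟨fun ρ => ρ, fun _ => 0⟩
  have : ∀ r, Dfb X fun ρ => ρ.getD r 0 := fun r => DN.app (X := X.ext) r DN.snd
  obtain ⟨θ, hθ⟩ := dfb_prop.1 ((by fun_prop : AF fun p => n % 2 = 0 ↔ ¬ Q p) _ X _
    ((this n).prod ((this (n + 1)).prod ((this (n + 2)).prod ((this (n + 3)).prod (this (n + 4)))))))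
  refine ⟨θ, fun R x y => ?_⟩
  simp only [Sig, not_exists, not_and, not_not, not_forall, exists_prop]
  refine exists_congr fun a => and_congr_right fun ha => forall₂_congr fun b _ =>
    exists_congr fun c => and_congr_right fun _ => ?_
  rw [sig_dummy ⟨a, ha⟩ (P := n % 2 = 0 ↔ ¬ Q (c, b, a, x, y)) n _ fun l hl => ?_]
  · tauto
  · refine (hθ _).trans ?_
    subst hl
    simp [List.getD_eq_getElem?_getD]

theorem sig3_or {W : Set Z} (hW : ZF W) {A B : (ℕ → ℕ) → (ℕ → ℕ) → (ℕ → ℕ) → Prop} :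
    (∃ a ∈ Reals W, ∀ b ∈ Reals W, ∃ c ∈ Reals W, A a (lft b) c ∨ B a (rgt b) c) ↔
      (∃ a ∈ Reals W, ∀ b ∈ Reals W, ∃ c ∈ Reals W, A a b c) ∨
        ∃ a ∈ Reals W, ∀ b ∈ Reals W, ∃ c ∈ Reals W, B a b c := by
  constructor
  · rintro ⟨a, ha, H⟩
    by_contra! H'
    obtain ⟨b, h1, h2⟩ := H'.1 a ha
    obtain ⟨b', h3, h4⟩ := H'.2 a ha
    obtain ⟨c, h5, h6⟩ := H _ (hW.join_mem h1 h3)
    simp [h2 c h5, h4 c h5] at h6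
  · rintro (⟨a, ha, H⟩ | ⟨a, ha, H⟩)
    · exact ⟨a, ha, fun b hb => (H _ (hW.lft_mem hb)).imp fun c hc => ⟨hc.1, Or.inl hc.2⟩⟩
    · exact ⟨a, ha, fun b hb => (H _ (hW.rgt_mem hb)).imp fun c hc => ⟨hc.1, Or.inr hc.2⟩⟩

theorem sig3_and {W : Set Z} (hW : ZF W) {A B : (ℕ → ℕ) → (ℕ → ℕ) → (ℕ → ℕ) → Prop} :
    (∃ a ∈ Reals W, ∀ b ∈ Reals W, ∃ c ∈ Reals W, A (lft a) b (lft c) ∧ B (rgt a) b (rgt c)) ↔
      (∃ a ∈ Reals W, ∀ b ∈ Reals W, ∃ c ∈ Reals W, A a b c) ∧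
        ∃ a ∈ Reals W, ∀ b ∈ Reals W, ∃ c ∈ Reals W, B a b c := by
  constructor
  · rintro ⟨a, ha, H⟩
    exact ⟨⟨_, hW.lft_mem ha, fun b hb => (H b hb).elim fun c hc => ⟨_, hW.lft_mem hc.1, hc.2.1⟩⟩,
      _, hW.rgt_mem ha, fun b hb => (H b hb).elim fun c hc => ⟨_, hW.rgt_mem hc.1, hc.2.2⟩⟩
  · rintro ⟨⟨a, ha, H⟩, a', ha', H'⟩
    refine ⟨_, hW.join_mem ha ha', fun b hb => ?_⟩
    obtain ⟨c, h1, h2⟩ := H b hb
    obtain ⟨c', h3, h4⟩ := H' b hb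
    exact ⟨_, hW.join_mem h1 h3, by simpa using ⟨h2, h4⟩⟩

/-- Binary relations with a uniform `Σ¹₃` definition. -/
def S3 (A : Set Z → (ℕ → ℕ) → (ℕ → ℕ) → Prop) : Prop :=
  ∃ Q : (ℕ → ℕ) × (ℕ → ℕ) × (ℕ → ℕ) × (ℕ → ℕ) × (ℕ → ℕ) → Prop, AF Q ∧ ∀ W, ZF W → ∀ x y,
    A W x y ↔ ∃ a ∈ Reals W, ∀ b ∈ Reals W, ∃ c ∈ Reals W, Q (c, b, a, x, y)

theorem S3.or {A B : Set Z → (ℕ → ℕ) → (ℕ → ℕ) → Prop} (h : S3 A) (h' : S3 B) :
    S3 fun W x y => A W x y ∨ B W x y := by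
  obtain ⟨Q, h1, h2⟩ := h
  obtain ⟨Q', h3, h4⟩ := h'
  exact ⟨fun p => Q (p.1, lft p.2.1, p.2.2) ∨ Q' (p.1, rgt p.2.1, p.2.2), by fun_prop,
    fun W hW x y => by
      simp only [h2 W hW, h4 W hW]
      exact (sig3_or hW (A := fun a b c => Q (c, b, a, x, y))
        (B := fun a b c => Q' (c, b, a, x, y))).symm⟩

theorem S3.and {A B : Set Z → (ℕ → ℕ) → (ℕ → ℕ) → Prop} (h : S3 A) (h' : S3 B) :
    S3 fun W x y => A W x y ∧ B W x y := by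
  obtain ⟨Q, h1, h2⟩ := h
  obtain ⟨Q', h3, h4⟩ := h'
  exact ⟨fun p => Q (lft p.1, p.2.1, lft p.2.2.1, p.2.2.2) ∧
    Q' (rgt p.1, p.2.1, rgt p.2.2.1, p.2.2.2), by fun_prop, fun W hW x y => by
      simp only [h2 W hW, h4 W hW]
      exact (sig3_and hW (A := fun a b c => Q (c, b, a, x, y))
        (B := fun a b c => Q' (c, b, a, x, y))).symm⟩

theorem S3.swap {A : Set Z → (ℕ → ℕ) → (ℕ → ℕ) → Prop} (h : S3 A) : S3 fun W x y => A W y x := by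
  obtain ⟨Q, h1, h2⟩ := h
  exact ⟨fun p => Q (p.1, p.2.1, p.2.2.1, p.2.2.2.2, p.2.2.2.1), by fun_prop,
    fun W hW x y => h2 W hW y x⟩

theorem s3_bad (n : ℕ) : (S3 fun W x _ => Bad n W x) ∧ S3 fun W x _ => ¬ Bad n W x := by
  obtain ⟨Q, h1, h2⟩ := exists_phi n
  refine ⟨⟨fun p => Q (p.2.1, p.2.2.1, p.2.2.2.1), by fun_prop, fun W hW x y => ?_⟩,
    fun p => ¬ Q (p.1, p.2.1, p.2.2.2.1), by fun_prop, fun W hW x y => ?_⟩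
  · simp only [h2 W hW]
    exact exists_congr fun a => and_congr_right fun _ => forall₂_congr fun b hb =>
      ⟨fun h => ⟨b, hb, h⟩, fun ⟨_, _, h⟩ => h⟩
  · simp only [h2 W hW]
    push Not
    exact ⟨fun h => ⟨0, Par.fits (0 : ℕ → ℕ) hW, h⟩, fun ⟨_, _, h⟩ => h⟩

theorem exists_formulas (n : ℕ) : ∃ θ η φ : Ar, ∀ W, ZF W → ∀ x y,
    (Sig (Reals W) (n + 3) θ [x, y] ↔ (Bad n W x ↔ Bad n W y)) ∧
    (Sig (Reals W) (n + 3) η [x, y] ↔ ¬ (Bad n W x ↔ Bad n W y)) ∧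
    (Sig (Reals W) 2 φ [x] ↔ Bad n W x) := by
  obtain ⟨h1, h2⟩ := s3_bad n
  obtain ⟨Q, h3, h4⟩ := (h1.and h1.swap).or (h2.and h2.swap)
  obtain ⟨Q', h5, h6⟩ := (h1.and h2.swap).or (h2.and h1.swap)
  obtain ⟨Q'', h7, h8⟩ := exists_phi n
  obtain ⟨θ, h9⟩ := h3.sig3 n
  obtain ⟨η, h10⟩ := h5.sig3 n
  obtain ⟨φ, h11⟩ := AF.sig2 (Q := fun p => Q'' (p.1, p.2.1, p.2.2.1)) (by fun_prop)
  refine ⟨θ, η, φ, fun W hW x y => ⟨?_, ?_, ?_⟩⟩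
  · rw [h9, ← h4 W hW]; tauto
  · rw [h10, ← h6 W hW]; tauto
  · rw [h11, h8 W hW]; rfl

theorem thin_of_two {M : Set Z} {E : (ℕ → ℕ) → (ℕ → ℕ) → Prop} {B : (ℕ → ℕ) → Prop}
    (h : ∀ x ∈ Reals M, ∀ y ∈ Reals M, (B x ↔ B y) → E x y) : Thin M E := by
  rintro Q h1 ⟨x, hx⟩ h2
  obtain ⟨y, ⟨-, hy⟩, h3⟩ := accPt_iff_nhds.1 (h2 x hx) _ Filter.univ_mem
  obtain ⟨z, ⟨h4, hz⟩, h5⟩ := accPt_iff_nhds.1 (h2 x hx) _ (compl_singleton_mem_nhds h3.symm)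
  by_cases e : B x ↔ B y
  · exact ⟨x, hx, y, hy, h3.symm, Or.inl (h _ (h1 hx) _ (h1 hy) e)⟩
  by_cases e' : B x ↔ B z
  · exact ⟨x, hx, z, hz, h5.symm, Or.inl (h _ (h1 hx) _ (h1 hz) e')⟩
  · exact ⟨z, hz, y, hy, h4, Or.inl (h _ (h1 hz) _ (h1 hy) (by tauto))⟩

theorem main (n : ℕ) (h : Det (n + 1) Set.univ) :
    ∃ V, CTM V ∧ Det (n + 1) (Reals V) ∧ ∃ P le, Sigma12Forcing V P le ∧ Proper V P le ∧
      ∃ θ η φ : Ar,
        (∀ W, ZF W →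
          (∀ x ∈ Reals W, ∀ y ∈ Reals W,
            (Rel (n + 3) θ W x y ↔ ¬ Rel (n + 3) η W x y) ∧
            (Rel (n + 3) θ W x y ↔ (Sig (Reals W) 2 φ [x] ↔ Sig (Reals W) 2 φ [y]))) ∧
          (∀ x y z, Rel (n + 3) θ W x y → Rel (n + 3) θ W y z → Rel (n + 3) θ W x z) ∧
          Thin W (Rel (n + 3) θ W)) ∧
        (∃ G, Generic V P le G) ∧
        ∀ G, Generic V P le G → ∃ W, Ext V G W ∧ ∃ x, Rel (n + 3) θ W x x ∧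
          ∀ y ∈ Reals V, ¬ Rel (n + 3) θ W x y ∧ ¬ Rel (n + 3) θ W y x := by
  obtain ⟨V, w, h1⟩ := exists_min_model h
  obtain ⟨θ, η, φ, h2⟩ := exists_formulas n
  have h3 : CTM V := ⟨h1.ctbl, h1.good.1, h1.ac⟩
  have h4 := sigma12 n h1.good h1.ac
  refine ⟨V, h3, h1.det, _, _, h4, h1.proper, θ, η, φ, fun W hW => ⟨fun x hx y hy => ?_,
    fun x y z h5 h6 => ⟨h5.1, h6.2.1, (h2 W hW x z).1.2
      (((h2 W hW x y).1.1 h5.2.2).trans ((h2 W hW y z).1.1 h6.2.2))⟩,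
    thin_of_two fun x hx y hy h5 => ⟨hx, hy, (h2 W hW x y).1.2 h5⟩⟩, exists_generic h3 h4,
    fun G hG => ?_⟩
  · simp [Rel, hx, hy, (h2 W hW x y).1, (h2 W hW x y).2, (h2 W hW y y).2.2]
  · have h5 := hG.ext h1.good h1.ac h1.ctbl
    obtain ⟨h6, h7⟩ := h1.not_bad hG h5
    refine ⟨_, h5, _, ⟨h6, h6, (h2 _ h5.1.2.1 _ _).1.2 Iff.rfl⟩, fun y hy => ?_⟩
    obtain ⟨m, h8, h9, h10⟩ := h1.bad hy
    have h11 : Bad n _ y := ⟨m, h5.2.1 h8, h9.mono h5.2.1, h10⟩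
    exact ⟨fun H => h7 (((h2 _ h5.1.2.1 _ _).1.1 H.2.2).2 h11),
      fun H => h7 (((h2 _ h5.1.2.1 _ _).1.1 H.2.2).1 h11)⟩

end Pool.Agent.Lib.MP_b3d6af_lc
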