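import Pool.Agent.Lib.MP_b3d6af_lc.Codes

/-!
The forcing theorem over a transitive model of ZFC.
-/

set_option linter.unusedSectionVars false
set_option linter.unusedVariables false

namespace Pool.Agent.Lib.MP_b3d6af_lc

open ZFSet Classical

universe u v

variable {α : Type u} [Rep α]

@[fun_prop] theorem UF.allFst {f g : α → Z} {Q : α → Z → Prop} (hf : UF f) (hg : UF g)
    (hQ : UF (fun p : α × Z => Q p.1 p.2)) :
    UF (fun a => ∀ x, ZFSet.pair x (f a) ∈ g a → Q a x) :=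
  UF.of_iff (Q := fun a => ∀ x y, ZFSet.pair x y ∈ g a → y = f a → Q a x) (by fun_prop)
    fun a => ⟨fun h x y h1 h2 => h x (h2 ▸ h1), fun h y h1 => h y _ h1 rfl⟩

@[fun_prop] theorem UF.exFst {f g : α → Z} {Q : α → Z → Prop} (hf : UF f) (hg : UF g)
    (hQ : UF (fun p : α × Z => Q p.1 p.2)) :
    UF (fun a => ∃ x, ZFSet.pair x (f a) ∈ g a ∧ Q a x) :=
  (UF.allFst (Q := fun a y => ¬ Q a y) hf hg hQ.not).not.of_iff (by simp)

/-- Domain of a name. -/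
noncomputable def dom (σ : Z) : Z := ZFSet.sep (fun τ => ∃ p, pair τ p ∈ σ) (sUnion (sUnion σ))

theorem mem_dom {σ τ : Z} : τ ∈ dom σ ↔ ∃ p, pair τ p ∈ σ := by
  simp only [dom, mem_sep, and_iff_right_iff_imp, mem_sUnion]
  exact fun ⟨p, h⟩ => ⟨{τ}, ⟨_, h, by simp [pair]⟩, by simp⟩

@[fun_prop] theorem UF.dom {f : α → Z} (hf : UF f) : UF (fun a => dom (f a)) := by
  unfold MP_b3d6af_lc.dom; fun_prop

theorem dom_ind {C : Z → Prop} (h : ∀ σ, (∀ τ p, pair τ p ∈ σ → C τ) → C σ) (σ : Z) : C σ :=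
  mem_wf.transGen.induction σ fun σ ih => h σ fun τ p hp => ih τ
    (Relation.TransGen.tail (b := pair τ p) (Relation.TransGen.tail (b := {τ})
      (Relation.TransGen.single (by simp)) (by simp [pair])) hp)

theorem ac_dom (σ : Z) : Ac dom σ :=
  dom_ind (fun σ ih => Ac.mk fun τ hτ => (mem_dom.1 hτ).elim (ih τ)) σ

/-- Value of a name. -/
noncomputable def val (g : Z) : Z → Z := wrec dom fun σ f =>
  img snd (ZFSet.sep (fun z => ∃ r ∈ g, pair (fst z) r ∈ σ) f)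

theorem mem_val {g σ x : Z} : x ∈ val g σ ↔ ∃ τ, ∃ p ∈ g, pair τ p ∈ σ ∧ val g τ = x := by
  rw [val, wrec_eq _ (ac_dom σ)]
  simp only [restr, mem_img, mem_sep, mem_dom]
  constructor
  · rintro ⟨_, ⟨⟨τ, -, rfl⟩, r, h1, h2⟩, rfl⟩
    exact ⟨τ, r, h1, by simpa using h2, by simp⟩
  · rintro ⟨τ, p, h1, h2, rfl⟩
    exact ⟨_, ⟨⟨τ, ⟨p, h2⟩, rfl⟩, p, h1, by simpa⟩, by simp⟩

@[fun_prop] theorem UF.val {f g : α → Z} (hf : UF f) (hg : UF g) : UF (fun a => val (f a) (g a)) :=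
  ((uf_wrec (pred := fun (_ : Z) x => MP_b3d6af_lc.dom x) (G := fun g σ f => MP_b3d6af_lc.img
    MP_b3d6af_lc.snd (ZFSet.sep (fun z => ∃ r ∈ g, ZFSet.pair (MP_b3d6af_lc.fst z) r ∈ σ) f))
    (by fun_prop) (by fun_prop)).comp (hf.prodMk hg) :)

@[simp] theorem val_empty (g : Z) : val g ∅ = ∅ := by ext; simp [mem_val]

theorem mem_val_prod {g P s x : Z} (hg : g ⊆ P) {p : Z} (hp : p ∈ g) :
    x ∈ val g (prod s P) ↔ ∃ τ ∈ s, val g τ = x := by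
  simp only [mem_val, pair_mem_prod]
  exact ⟨fun ⟨τ, _, _, h, e⟩ => ⟨τ, h.1, e⟩, fun ⟨τ, h, e⟩ => ⟨τ, p, hp, ⟨h, hg hp⟩, e⟩⟩

/-- Canonical names. -/
noncomputable def chk (P : Z) : Z → Z := wrec (fun x => x) fun _ f => prod (img snd f) P

theorem chk_eq (P x : Z) : chk P x = prod (img (chk P) x) P := by
  rw [chk, wrec_eq _ (ac_of_sub (fun _ => subset_rfl) x)]
  congr 1; ext; simp [restr]

@[fun_prop] theorem UF.chk {f g : α → Z} (hf : UF f) (hg : UF g) : UF (fun a => chk (f a) (g a)) :=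
  ((uf_wrec (pred := fun (_ : Z) x => x) (G := fun P _ f => ZFSet.prod (MP_b3d6af_lc.img
    MP_b3d6af_lc.snd f) P) (by fun_prop) (by fun_prop)).comp (hf.prodMk hg) :)

theorem val_chk {g P : Z} (hg : g ⊆ P) {p : Z} (hp : p ∈ g) (x : Z) : val g (chk P x) = x := by
  induction x using ZFSet.inductionOn with
  | h x ih =>
    ext y
    rw [chk_eq, mem_val_prod hg hp]
    simp only [mem_img]
    exact ⟨by rintro ⟨_, ⟨z, h, rfl⟩, rfl⟩; rwa [ih z h], fun h => ⟨_, ⟨y, h, rfl⟩, ih y h⟩⟩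

/-- Dense below `p`. -/
def Dn (O p : Z) (Q : Z → Prop) : Prop := ∀ q, pair q p ∈ O → ∃ r, pair r q ∈ O ∧ Q r

@[fun_prop] theorem UF.Dn {f g : α → Z} {Q : α → Z → Prop} (hf : UF f) (hg : UF g)
    (hQ : UF (fun p : α × Z => Q p.1 p.2)) : UF (fun a => Dn (f a) (g a) (Q a)) := by
  unfold MP_b3d6af_lc.Dn; fun_prop

/-- The clause for forcing equality. -/
def eqc (O p σ τ : Z) (F : Z → Z → Z → Prop) : Prop :=
  (∀ π s, pair π s ∈ σ → Dn O p fun r => pair r s ∈ O →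
    ∃ π' s', pair π' s' ∈ τ ∧ pair r s' ∈ O ∧ F r π π') ∧
  (∀ π' s', pair π' s' ∈ τ → Dn O p fun r => pair r s' ∈ O →
    ∃ π s, pair π s ∈ σ ∧ pair r s ∈ O ∧ F r π π')

noncomputable def FE (P O : Z) : Z → Z := wrec (fun z => prod (dom (fst z)) (dom (snd z)))
  fun z f => ZFSet.sep (fun p => eqc O p (fst z) (snd z) fun r π π' => r ∈ app f (pair π π')) P

/-- `p` forces `σ = τ`. -/
def feq (P O p σ τ : Z) : Prop := p ∈ FE P O (pair σ τ)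

@[fun_prop] theorem UF.feq {P O p σ τ : α → Z} (h1 : UF P) (h2 : UF O) (h3 : UF p) (h4 : UF σ)
    (h5 : UF τ) : UF (fun a => feq (P a) (O a) (p a) (σ a) (τ a)) :=
  h3.memZ ((uf_wrec (pred := fun (_ : Z × Z) z => ZFSet.prod (MP_b3d6af_lc.dom
    (MP_b3d6af_lc.fst z)) (MP_b3d6af_lc.dom (MP_b3d6af_lc.snd z))) (G := fun a z f => ZFSet.sep
    (fun p => eqc a.2 p (MP_b3d6af_lc.fst z) (MP_b3d6af_lc.snd z)
      fun r π π' => r ∈ MP_b3d6af_lc.app f (ZFSet.pair π π')) a.1) (by fun_prop)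
    (by unfold eqc; fun_prop)).comp ((h1.prodMk h2).prodMk (h4.pair h5)) :)

theorem feq_iff {P O p σ τ : Z} : feq P O p σ τ ↔ p ∈ P ∧ eqc O p σ τ (feq P O) := by
  have hA : ∀ σ τ, Ac (fun z => prod (dom (fst z)) (dom (snd z))) (pair σ τ) := fun σ =>
    dom_ind (C := fun σ => ∀ τ, Ac (fun z => prod (dom (fst z)) (dom (snd z))) (pair σ τ))
      (fun σ ih τ => Ac.mk fun z hz => by
        obtain ⟨a, ha, b, -, rfl⟩ := mem_prod.1 hz
        obtain ⟨p, hp⟩ := mem_dom.1 ha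
        exact ih a p (by simpa using hp) b) σ
  rw [feq, FE, wrec_eq _ (hA σ τ), mem_sep]
  simp only [fst_pair, snd_pair]
  have e : ∀ {π s π' s' r}, pair π s ∈ σ → pair π' s' ∈ τ →
      (r ∈ app (restr (FE P O) (prod (dom σ) (dom τ))) (pair π π') ↔ feq P O r π π') :=
    fun h1 h2 => by
      rw [app_restr (pair_mem_prod.2 ⟨mem_dom.2 ⟨_, h1⟩, mem_dom.2 ⟨_, h2⟩⟩)]; rfl
  refine and_congr_right fun _ => and_congr (forall₃_congr fun π s h => ?_)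
    (forall₃_congr fun π s h => ?_)
  all_goals
    refine forall₂_congr fun q _ => exists_congr fun r => and_congr_right fun _ =>
      imp_congr_right fun _ => exists₂_congr fun π' s' => and_congr_right fun h' =>
        and_congr_right fun _ => ?_
  exacts [e h h', e h' h]

/-- `p` forces `τ ∈ σ`. -/
def fmem (P O p τ σ : Z) : Prop :=
  Dn O p fun r => ∃ π s, pair π s ∈ σ ∧ pair r s ∈ O ∧ feq P O r τ π

@[fun_prop] theorem UF.fmem {P O p σ τ : α → Z} (h1 : UF P) (h2 : UF O) (h3 : UF p) (h4 : UF σ)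
    (h5 : UF τ) : UF (fun a => fmem (P a) (O a) (p a) (σ a) (τ a)) := by
  unfold MP_b3d6af_lc.fmem; fun_prop

/-- The forcing relation. -/
def Force (V : Set Z) (P O : Z) : Fm → Z → (ℕ → Z) → Prop
  | .mem i j, p, v => fmem P O p (v i) (v j)
  | .eq i j, p, v => feq P O p (v i) (v j)
  | .bot, _, _ => False
  | .imp φ ψ, p, v => Dn O p fun r => (∀ q, pair r q ∈ O → ¬ Force V P O φ q v) ∨ Force V P O ψ r v
  | .all φ, p, v => ∀ σ ∈ V, Dn O p fun r => Force V P O φ r (cons σ v)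

theorem uf_force (φ : Fm) : UF (fun a : ((Mo × Z × Z) × List Z) × Z =>
    Force a.1.1.1.M a.1.1.2.1 a.1.1.2.2 φ a.2 (env ∅ a.1.2)) := by
  induction φ with
  | mem i j => simp only [Force, env]; fun_prop
  | eq i j => simp only [Force, env]; fun_prop
  | bot => exact UF.const False
  | imp φ ψ h1 h2 =>
    exact UF.Dn (by fun_prop) uf_snd ((UF.allSnd uf_snd (by fun_prop) (h1.comp
      (g := fun q : ((((Mo × Z × Z) × List Z) × Z) × Z) × Z => (q.1.1.1, q.2))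
      (by fun_prop)).not).or (h2.comp
        (g := fun q : (((Mo × Z × Z) × List Z) × Z) × Z => (q.1.1, q.2)) (by fun_prop)))
  | all φ h =>
    simp only [Force, ← env_cons]
    exact UF.allM (by fun_prop) (UF.Dn (by fun_prop) (by fun_prop) (h.comp
      (g := fun q : ((((Mo × Z × Z) × List Z) × Z) × Z) × Z =>
        ((q.1.1.1.1, q.1.2 :: q.1.1.1.2), q.2)) (by fun_prop)))

/-- A generic filter `g` for the preorder `(P, O)` of `V`. -/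
structure Gen (V : Set Z) (P O g : Z) : Prop where
  zf : ZF V
  hP : P ∈ V
  hO : O ∈ V
  field : ∀ {p q}, pair p q ∈ O → p ∈ P ∧ q ∈ P
  refl : ∀ {p}, p ∈ P → pair p p ∈ O
  trans : ∀ {p q r}, pair p q ∈ O → pair q r ∈ O → pair p r ∈ O
  ne : ∃ p, p ∈ P
  sub : g ⊆ P
  up : ∀ {p q}, p ∈ g → pair p q ∈ O → q ∈ g
  dir : ∀ {p q}, p ∈ g → q ∈ g → ∃ r ∈ g, pair r p ∈ O ∧ pair r q ∈ O
  meets : ∀ D ∈ V, (∀ p ∈ P, ∃ q ∈ D, pair q p ∈ O) → ∃ q ∈ g, q ∈ D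

namespace Gen
variable {V : Set Z} {P O g : Z} (h : Gen V P O g)
include h

theorem dense {Q : α → Z → Prop} (hQ : UF (fun p : α × Z => Q p.1 p.2)) (a : α) (ha : fits V a)
    (H : ∀ p ∈ P, ∃ q, pair q p ∈ O ∧ Q a q) : ∃ r ∈ g, Q a r := by
  obtain ⟨r, h1, h2⟩ := h.meets _ (UF.mem (f := fun p : α × Z => ZFSet.sep (Q p.1) p.2)
    (by fun_prop) h.zf (a, P) ⟨ha, h.hP⟩) fun p hp => by
      obtain ⟨q, h1, h2⟩ := H p hp
      exact ⟨q, mem_sep.2 ⟨(h.field h1).1, h2⟩, h1⟩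
  exact ⟨r, h1, (mem_sep.1 h2).2⟩

theorem nonempty : ∃ p, p ∈ g :=
  (h.meets P h.hP fun p hp => ⟨p, hp, h.refl hp⟩).imp fun _ h => h.1

theorem memV {p : Z} (hp : p ∈ g) : p ∈ V := h.zf.trans _ h.hP _ (h.sub hp)

theorem dn {Q : α → Z → Prop} (hQ : UF (fun p : α × Z => Q p.1 p.2)) (a : α) (ha : fits V a)
    {p : Z} (hp : p ∈ g) (H : Dn O p (Q a)) : ∃ r ∈ g, Q a r := by
  obtain ⟨r, h1, h2⟩ := h.dense (Q := fun (b : α × Z × Z) r => Q b.1 r ∨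
    ∀ q, pair q r ∈ b.2.1 → ¬ pair q b.2.2 ∈ b.2.1) (by fun_prop) (a, O, p)
    (by exact ⟨ha, h.hO, h.memV hp⟩) fun q hq => by
      by_cases H' : ∃ r, pair r q ∈ O ∧ pair r p ∈ O
      · obtain ⟨r, h1, h2⟩ := H'
        obtain ⟨s, h3, h4⟩ := H r h2
        exact ⟨s, h.trans h3 h1, Or.inl h4⟩
      · exact ⟨q, h.refl hq, Or.inr fun r h1 h2 => H' ⟨r, h1, h2⟩⟩
  rcases h2 with h2 | h2
  · exact ⟨r, h1, h2⟩
  · obtain ⟨s, -, h3, h4⟩ := h.dir h1 hp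
    exact absurd h4 (h2 s h3)

theorem dn_mono {p q : Z} {Q : Z → Prop} (H : Dn O p Q) (hq : pair q p ∈ O) : Dn O q Q :=
  fun r hr => H r (h.trans hr hq)

theorem feq_mono {p q σ τ : Z} (H : feq P O p σ τ) (hq : pair q p ∈ O) : feq P O q σ τ :=
  feq_iff.2 ⟨(h.field hq).1, fun π s hs => h.dn_mono ((feq_iff.1 H).2.1 π s hs) hq,
    fun π s hs => h.dn_mono ((feq_iff.1 H).2.2 π s hs) hq⟩

theorem force_mono {φ : Fm} {p q : Z} {v : ℕ → Z} (H : Force V P O φ p v) (hq : pair q p ∈ O) :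
    Force V P O φ q v := by
  cases φ with
  | mem i j => exact h.dn_mono H hq
  | eq i j => exact h.feq_mono H hq
  | bot => exact H
  | imp φ ψ => exact h.dn_mono H hq
  | all φ => exact fun σ hσ => h.dn_mono (H σ hσ) hq

theorem dir3 {p q r : Z} (hp : p ∈ g) (hq : q ∈ g) (hr : r ∈ g) :
    ∃ s ∈ g, pair s p ∈ O ∧ pair s q ∈ O ∧ pair s r ∈ O := by
  obtain ⟨s, h1, h2, h3⟩ := h.dir hp hq
  obtain ⟨t, h4, h5, h6⟩ := h.dir h1 hr
  exact ⟨t, h4, h.trans h5 h2, h.trans h5 h3, h6⟩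

theorem truth_eq (σ : Z) : σ ∈ V → ∀ τ ∈ V, ((∃ p ∈ g, feq P O p σ τ) ↔ val g σ = val g τ) := by
  induction σ using dom_ind with
  | h σ ih =>
    intro hσ τ hτ
    have ih' : ∀ {π s π' s'}, pair π s ∈ σ → pair π' s' ∈ τ →
        ((∃ p ∈ g, feq P O p π π') ↔ val g π = val g π') := fun h1 h2 =>
      ih _ _ h1 (h.zf.of_pair_mem hσ h1).1 _ (h.zf.of_pair_mem hτ h2).1
    constructor
    · rintro ⟨p, hp, H⟩
      obtain ⟨-, H1, H2⟩ := feq_iff.1 H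
      refine ZFSet.ext fun x => ⟨fun hx => ?_, fun hx => ?_⟩
      · obtain ⟨π, s, h1, h2, rfl⟩ := mem_val.1 hx
        obtain ⟨q, h3, h4, h5⟩ := h.dir hp h1
        obtain ⟨r, h6, π', s', h7, h8, h9⟩ := h.dn (Q := fun (a : Z × Z × Z × Z) r => ∃ π' s',
          pair π' s' ∈ a.1 ∧ pair r s' ∈ a.2.1 ∧ feq a.2.2.1 a.2.1 r a.2.2.2 π') (by fun_prop)
          (τ, O, P, π) (by exact ⟨hτ, h.hO, h.hP, (h.zf.of_pair_mem hσ h2).1⟩) h3 fun q' hq' => by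
            obtain ⟨r, h6, h7⟩ := H1 π s h2 q' (h.trans hq' h4)
            exact ⟨r, h6, h7 (h.trans h6 (h.trans hq' h5))⟩
        exact mem_val.2 ⟨π', s', h.up h6 h8, h7, ((ih' h2 h7).1 ⟨r, h6, h9⟩).symm⟩
      · obtain ⟨π', s', h1, h2, rfl⟩ := mem_val.1 hx
        obtain ⟨q, h3, h4, h5⟩ := h.dir hp h1
        obtain ⟨r, h6, π, s, h7, h8, h9⟩ := h.dn (Q := fun (a : Z × Z × Z × Z) r => ∃ π s,
          pair π s ∈ a.1 ∧ pair r s ∈ a.2.1 ∧ feq a.2.2.1 a.2.1 r π a.2.2.2) (by fun_prop)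
          (σ, O, P, π') (by exact ⟨hσ, h.hO, h.hP, (h.zf.of_pair_mem hτ h2).1⟩) h3 fun q' hq' => by
            obtain ⟨r, h6, h7⟩ := H2 π' s' h2 q' (h.trans hq' h4)
            exact ⟨r, h6, h7 (h.trans h6 (h.trans hq' h5))⟩
        exact mem_val.2 ⟨π, s, h.up h6 h8, h7, (ih' h7 h2).1 ⟨r, h6, h9⟩⟩
    · intro e
      obtain ⟨p, hp, H⟩ := h.dense (Q := fun (a : Z × Z × Z × Z) p => feq a.1 a.2.1 p a.2.2.1 a.2.2.2 ∨
        (∃ π s, pair π s ∈ a.2.2.1 ∧ pair p s ∈ a.2.1 ∧ ∀ r, pair r p ∈ a.2.1 → ∀ π' s',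
          pair π' s' ∈ a.2.2.2 → pair r s' ∈ a.2.1 → ¬ feq a.1 a.2.1 r π π') ∨
        (∃ π' s', pair π' s' ∈ a.2.2.2 ∧ pair p s' ∈ a.2.1 ∧ ∀ r, pair r p ∈ a.2.1 → ∀ π s,
          pair π s ∈ a.2.2.1 → pair r s ∈ a.2.1 → ¬ feq a.1 a.2.1 r π π')) (by fun_prop)
        (P, O, σ, τ) (by exact ⟨h.hP, h.hO, hσ, hτ⟩) fun p hp => by
          by_cases H : feq P O p σ τ
          · exact ⟨p, h.refl hp, Or.inl H⟩
          · simp only [feq_iff (p := p), hp, true_and, eqc, Dn, not_and_or, not_forall, not_exists,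
              exists_prop] at H
            rcases H with ⟨π, s, h1, q, h2, H⟩ | ⟨π, s, h1, q, h2, H⟩
            · refine ⟨q, h2, Or.inr (Or.inl ⟨π, s, h1, ?_, fun r hr π' s' h3 h4 h5 => ?_⟩)⟩
              · exact ((H q).resolve_left fun h' => h' (h.refl (h.field h2).1)).1
              · have := ((H r).resolve_left fun h' => h' hr).2 π' s'
                tauto
            · refine ⟨q, h2, Or.inr (Or.inr ⟨π, s, h1, ?_, fun r hr π' s' h3 h4 h5 => ?_⟩)⟩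
              · exact ((H q).resolve_left fun h' => h' (h.refl (h.field h2).1)).1
              · have := ((H r).resolve_left fun h' => h' hr).2 π' s'
                tauto
      rcases H with H | ⟨π, s, h1, h2, H⟩ | ⟨π', s', h1, h2, H⟩
      · exact ⟨p, hp, H⟩
      · obtain ⟨π', s', h3, h4, h5⟩ := mem_val.1
          (e ▸ mem_val.2 ⟨π, s, h.up hp h2, h1, rfl⟩ : val g π ∈ val g τ)
        obtain ⟨q, h6, h7⟩ := (ih' h1 h4).2 h5.symm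
        obtain ⟨r, -, h8, h9, h10⟩ := h.dir3 hp h3 h6
        exact absurd (h.feq_mono h7 h10) (H r h8 π' s' h4 h9)
      · obtain ⟨π, s, h3, h4, h5⟩ := mem_val.1
          (e ▸ mem_val.2 ⟨π', s', h.up hp h2, h1, rfl⟩ : val g π' ∈ val g σ)
        obtain ⟨q, h6, h7⟩ := (ih' h4 h1).2 h5
        obtain ⟨r, -, h8, h9, h10⟩ := h.dir3 hp h3 h6
        exact absurd (h.feq_mono h7 h10) (H r h8 π s h4 h9)

theorem truth_mem {τ σ : Z} (hτ : τ ∈ V) (hσ : σ ∈ V) :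
    (∃ p ∈ g, fmem P O p τ σ) ↔ val g τ ∈ val g σ := by
  constructor
  · rintro ⟨p, hp, H⟩
    obtain ⟨r, h1, π, s, h2, h3, h4⟩ := h.dn (Q := fun (a : Z × Z × Z × Z) r => ∃ π s,
      pair π s ∈ a.1 ∧ pair r s ∈ a.2.1 ∧ feq a.2.2.1 a.2.1 r a.2.2.2 π) (by fun_prop)
      (σ, O, P, τ) (by exact ⟨hσ, h.hO, h.hP, hτ⟩) hp H
    exact mem_val.2 ⟨π, s, h.up h1 h3, h2,
      ((h.truth_eq τ hτ π (h.zf.of_pair_mem hσ h2).1).1 ⟨r, h1, h4⟩).symm⟩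
  · intro H
    obtain ⟨π, s, h1, h2, h3⟩ := mem_val.1 H
    obtain ⟨r, h4, h5⟩ := (h.truth_eq τ hτ π (h.zf.of_pair_mem hσ h2).1).2 h3.symm
    obtain ⟨p, h6, h7, h8⟩ := h.dir h1 h4
    exact ⟨p, h6, fun q hq => ⟨q, h.refl (h.field hq).1, π, s, h2, h.trans hq h7,
      h.feq_mono h5 (h.trans hq h8)⟩⟩

theorem truth (φ : Fm) : ∀ l : List Z, (∀ x ∈ l, x ∈ V) →
    ((∃ p ∈ g, Force V P O φ p (env ∅ l)) ↔ Sat (val g '' V) φ (env ∅ (l.map (val g)))) := by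
  have e : ∀ l : List Z, env ∅ (l.map (val g)) = fun i => val g (env ∅ l i) := fun l => by
    rw [← env_map, val_empty]
  induction φ with
  | mem i j =>
    intro l hl; rw [e]
    exact h.truth_mem (env_mem h.zf.empty_mem hl i) (env_mem h.zf.empty_mem hl j)
  | eq i j =>
    intro l hl; rw [e]
    exact h.truth_eq _ (env_mem h.zf.empty_mem hl i) _ (env_mem h.zf.empty_mem hl j)
  | bot => intro l hl; simp [Force]
  | imp φ ψ h1 h2 =>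
    intro l hl
    have hQ : UF (fun b : ((Mo × Z × Z) × List Z) × Z => (∀ q, pair b.2 q ∈ b.1.1.2.2 →
        ¬ Force b.1.1.1.M b.1.1.2.1 b.1.1.2.2 φ q (env ∅ b.1.2)) ∨
        Force b.1.1.1.M b.1.1.2.1 b.1.1.2.2 ψ b.2 (env ∅ b.1.2)) :=
      (UF.allSnd uf_snd (by fun_prop) ((uf_force φ).comp
        (g := fun q : (((Mo × Z × Z) × List Z) × Z) × Z => (q.1.1, q.2)) (by fun_prop)).not).or
        (uf_force ψ)
    rw [sat_imp, ← h1 l hl, ← h2 l hl]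
    constructor
    · rintro ⟨p, hp, H⟩ ⟨q, hq, H'⟩
      obtain ⟨s, h3, h4, h5⟩ := h.dir hp hq
      refine h.dn (Q := fun (b : (Mo × Z × Z) × List Z) p =>
        Force b.1.1.M b.1.2.1 b.1.2.2 ψ p (env ∅ b.2)) (uf_force ψ) ((⟨V⟩, P, O), l)
        (by exact ⟨⟨rfl, h.hP, h.hO⟩, hl⟩) h3 fun t ht => ?_
      obtain ⟨r, h6, h7⟩ := H t (h.trans ht h4)
      exact ⟨r, h6, h7.resolve_left fun h8 => h8 q (h.trans h6 (h.trans ht h5)) H'⟩
    · intro H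
      obtain ⟨p, hp, H'⟩ := h.dense (Q := fun (b : (Mo × Z × Z) × List Z) p =>
        Force b.1.1.M b.1.2.1 b.1.2.2 (φ.imp ψ) p (env ∅ b.2) ∨
          (Force b.1.1.M b.1.2.1 b.1.2.2 φ p (env ∅ b.2) ∧ ∀ r, pair r p ∈ b.1.2.2 →
            ¬ Force b.1.1.M b.1.2.1 b.1.2.2 ψ r (env ∅ b.2)))
        ((uf_force _).or ((uf_force φ).and (UF.allFst uf_snd (by fun_prop) ((uf_force ψ).comp
          (g := fun q : (((Mo × Z × Z) × List Z) × Z) × Z => (q.1.1, q.2)) (by fun_prop)).not)))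
        ((⟨V⟩, P, O), l) ⟨⟨rfl, h.hP, h.hO⟩, hl⟩ fun p hp => by
          by_cases H' : Force V P O (φ.imp ψ) p (env ∅ l)
          · exact ⟨p, h.refl hp, Or.inl H'⟩
          · simp only [Force, Dn, not_forall, not_exists, not_and, not_or, not_not] at H'
            obtain ⟨q, h3, H'⟩ := H'
            obtain ⟨⟨s, h4, h5⟩, -⟩ := H' q (h.refl (h.field h3).1)
            exact ⟨q, h3, Or.inr ⟨h.force_mono h5 h4, fun r hr => (H' r hr).2⟩⟩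
      refine ⟨p, hp, H'.resolve_right fun ⟨h3, h4⟩ => ?_⟩
      obtain ⟨q, h5, h6⟩ := H ⟨p, hp, h3⟩
      obtain ⟨r, -, h7, h8⟩ := h.dir hp h5
      exact h4 r h7 (h.force_mono h6 h8)
  | all φ h1 =>
    intro l hl
    have h2 : ∀ σ ∈ V, (∃ p ∈ g, Force V P O φ p (cons σ (env ∅ l))) ↔
        Sat (val g '' V) φ (cons (val g σ) (env ∅ (l.map (val g)))) := fun σ hσ => by
      simpa using h1 (σ :: l) (by simpa [hσ] using hl)
    rw [sat_all, Set.forall_mem_image]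
    constructor
    · rintro ⟨p, hp, H⟩ σ hσ
      refine (h2 σ hσ).1 ?_
      simpa using h.dn (Q := fun (b : (Mo × Z × Z) × List Z) p =>
        Force b.1.1.M b.1.2.1 b.1.2.2 φ p (env ∅ b.2)) (uf_force φ) ((⟨V⟩, P, O), σ :: l)
        (by exact ⟨⟨rfl, h.hP, h.hO⟩, by simpa [fits_list, hσ] using hl⟩) hp
        (by simpa using H σ hσ)
    · intro H
      obtain ⟨p, hp, H'⟩ := h.dense (Q := fun (b : (Mo × Z × Z) × List Z) p =>
        Force b.1.1.M b.1.2.1 b.1.2.2 φ.all p (env ∅ b.2) ∨ ∃ σ ∈ b.1.1.M,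
          ∀ r, pair r p ∈ b.1.2.2 → ¬ Force b.1.1.M b.1.2.1 b.1.2.2 φ r (env ∅ (σ :: b.2)))
        ((uf_force _).or (UF.exM (by fun_prop) (UF.allFst (by fun_prop) (by fun_prop)
          ((uf_force φ).comp (g := fun q : ((((Mo × Z × Z) × List Z) × Z) × Z) × Z =>
            ((q.1.1.1.1, q.1.2 :: q.1.1.1.2), q.2)) (by fun_prop)).not)))
        ((⟨V⟩, P, O), l) ⟨⟨rfl, h.hP, h.hO⟩, hl⟩ fun p hp => by
          by_cases H' : Force V P O φ.all p (env ∅ l)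
          · exact ⟨p, h.refl hp, Or.inl H'⟩
          · simp only [Force, Dn, not_forall, not_exists, not_and] at H'
            obtain ⟨σ, hσ, q, h3, H'⟩ := H'
            exact ⟨q, h3, Or.inr ⟨σ, hσ, by simpa using H'⟩⟩
      refine ⟨p, hp, H'.resolve_right fun ⟨σ, h3, h4⟩ => ?_⟩
      obtain ⟨q, h5, h6⟩ := (h2 σ h3).2 (H h3)
      obtain ⟨r, -, h7, h8⟩ := h.dir hp h5
      exact h4 r h7 (by simpa using h.force_mono h6 h8)

theorem sub_ext : V ⊆ val g '' V := fun x hx =>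
  ⟨chk P x, UF.mem (f := fun a : Z × Z => chk a.1 a.2) (by fun_prop) h.zf (P, x) ⟨h.hP, hx⟩,
    val_chk h.sub h.nonempty.choose_spec x⟩

theorem mem_ext : g ∈ val g '' V := by
  refine ⟨img (fun p => pair (chk P p) p) P, UF.mem (f := fun P => img (fun p => pair (chk P p) p) P)
    (by fun_prop) h.zf P h.hP, ZFSet.ext fun x => ?_⟩
  simp only [mem_val, mem_img, pair_inj]
  constructor
  · rintro ⟨_, p, hp, ⟨_, -, rfl, rfl⟩, rfl⟩
    rwa [val_chk h.sub hp]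
  · exact fun hx => ⟨_, x, hx, ⟨x, h.sub hx, rfl, rfl⟩, val_chk h.sub hx x⟩

theorem zf_ext : ZF (val g '' V) := by
  obtain ⟨p0, hp0⟩ := h.nonempty
  have hl : ∀ l : List Z, (∀ x ∈ l, x ∈ val g '' V) →
      ∃ l' : List Z, (∀ x ∈ l', x ∈ V) ∧ l'.map (val g) = l := fun l hl => by
    induction l with
    | nil => exact ⟨[], by simp, rfl⟩
    | cons x l ih =>
      obtain ⟨l', h1, rfl⟩ := ih fun y hy => hl y (by simp [hy])
      obtain ⟨σ, h2, rfl⟩ := hl x (by simp)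
      exact ⟨σ :: l', by simpa [h2] using h1, rfl⟩
  refine zf_iff.2 ⟨?_, ?_, ?_, h.sub_ext h.zf.inf, ?_, fun n l h0 => ?_, fun n l h0 => ?_⟩
  · rintro _ ⟨σ, hσ, rfl⟩ x hx
    obtain ⟨τ, p, -, h1, rfl⟩ := mem_val.1 hx
    exact ⟨τ, (h.zf.of_pair_mem hσ h1).1, rfl⟩
  · rintro _ ⟨σ, hσ, rfl⟩ _ ⟨τ, hτ, rfl⟩
    refine ⟨prod {σ, τ} P, UF.mem (f := fun a : Z × Z => prod a.1 a.2) (by fun_prop) h.zf (_, P)
      ⟨h.zf.pair _ hσ _ hτ, h.hP⟩, ZFSet.ext fun x => ?_⟩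
    simp [mem_val_prod h.sub hp0, eq_comm]
  · rintro _ ⟨σ, hσ, rfl⟩
    refine ⟨ZFSet.sep (fun z => ∃ τ p, pair τ p ∈ σ ∧ pair (snd z) p ∈ O ∧
      ∃ q, pair (fst z) q ∈ τ ∧ pair (snd z) q ∈ O) (prod (dom (sUnion (dom σ))) P),
      UF.mem (f := fun a : Z × Z × Z => ZFSet.sep (fun z => ∃ τ p, pair τ p ∈ a.1 ∧
        pair (snd z) p ∈ a.2.1 ∧ ∃ q, pair (fst z) q ∈ τ ∧ pair (snd z) q ∈ a.2.1)
        (prod (dom (sUnion (dom a.1))) a.2.2)) (by fun_prop) h.zf (σ, O, P) ⟨hσ, h.hO, h.hP⟩,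
      ZFSet.ext fun x => ?_⟩
    simp only [mem_val, mem_sUnion, mem_sep, fst_pair, snd_pair, pair_mem_prod, mem_dom]
    constructor
    · rintro ⟨π, r, h1, ⟨-, τ, p, h2, h3, q, h4, h5⟩, rfl⟩
      exact ⟨_, ⟨τ, p, h.up h1 h3, h2, rfl⟩, mem_val.2 ⟨π, q, h.up h1 h5, h4, rfl⟩⟩
    · rintro ⟨_, ⟨τ, p, h1, h2, rfl⟩, h3⟩
      obtain ⟨π, q, h4, h5, rfl⟩ := mem_val.1 h3
      obtain ⟨r, h6, h7, h8⟩ := h.dir h1 h4
      exact ⟨π, r, h6, ⟨⟨⟨q, τ, ⟨p, h2⟩, h5⟩, h.sub h6⟩, τ, p, h2, h7, q, h5, h8⟩, rfl⟩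
  · rintro _ ⟨σ, hσ, rfl⟩
    refine ⟨_, ⟨prod (powM ⟨V⟩ (prod (dom σ) P)) P, UF.mem (f := fun a : Mo × Z × Z =>
      prod (powM a.1 (prod (dom a.2.1) a.2.2)) a.2.2) (by fun_prop) h.zf (⟨V⟩, σ, P)
      ⟨rfl, hσ, h.hP⟩, rfl⟩, ?_⟩
    rintro _ ⟨τ, hτ, rfl⟩ hs
    refine (mem_val_prod h.sub hp0).2 ⟨ZFSet.sep (fun z => fmem P O (snd z) (fst z) τ)
      (prod (dom σ) P), mem_powM.2 ⟨sep_subset, UF.mem (f := fun a : Z × Z × Z × Z => ZFSet.sep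
        (fun z => fmem a.1 a.2.1 (snd z) (fst z) a.2.2.1) (prod (dom a.2.2.2) a.1)) (by fun_prop)
        h.zf (P, O, τ, σ) ⟨h.hP, h.hO, hτ, hσ⟩⟩, ZFSet.ext fun x => ?_⟩
    rw [mem_val]
    simp only [mem_sep, fst_pair, snd_pair, pair_mem_prod, mem_dom]
    constructor
    · rintro ⟨π, p, h1, ⟨⟨⟨q, h2⟩, -⟩, h3⟩, rfl⟩
      exact (h.truth_mem (h.zf.of_pair_mem hσ h2).1 hτ).1 ⟨p, h1, h3⟩
    · intro hx
      obtain ⟨π, q, -, h2, rfl⟩ := mem_val.1 (hs hx)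
      obtain ⟨p, h1, h3⟩ := (h.truth_mem (h.zf.of_pair_mem hσ h2).1 hτ).2 hx
      exact ⟨π, p, h1, ⟨⟨⟨q, h2⟩, h.sub h1⟩, h3⟩, rfl⟩
  · obtain ⟨l, h1, rfl⟩ := hl l h0
    rintro _ ⟨σ, hσ, rfl⟩
    refine ⟨ZFSet.sep (fun z => fmem P O (snd z) (fst z) σ ∧
      Force V P O (Fm.dec n) (snd z) (env ∅ (fst z :: l))) (prod (dom σ) P),
      UF.mem (f := fun a : ((Mo × Z × Z) × List Z) × Z => ZFSet.sep (fun z =>
        fmem a.1.1.2.1 a.1.1.2.2 (snd z) (fst z) a.2 ∧ Force a.1.1.1.M a.1.1.2.1 a.1.1.2.2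
          (Fm.dec n) (snd z) (env ∅ (fst z :: a.1.2))) (prod (dom a.2) a.1.1.2.1))
        (UF.sep (by fun_prop) (UF.and (by fun_prop) ((uf_force _).comp
          (g := fun q : (((Mo × Z × Z) × List Z) × Z) × Z =>
            ((q.1.1.1, fst q.2 :: q.1.1.2), snd q.2)) (by fun_prop)))) h.zf (((⟨V⟩, P, O), l), σ)
        ⟨⟨⟨rfl, h.hP, h.hO⟩, h1⟩, hσ⟩, ZFSet.ext fun x => ?_⟩
    rw [mem_val]
    simp only [mem_sep, fst_pair, snd_pair, pair_mem_prod, mem_dom]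
    constructor
    · rintro ⟨π, p, h2, ⟨⟨⟨q, h3⟩, -⟩, h4, h5⟩, rfl⟩
      have h6 := (h.zf.of_pair_mem hσ h3).1
      exact ⟨(h.truth_mem h6 hσ).1 ⟨p, h2, h4⟩,
        (h.truth _ (π :: l) (by simpa [h6] using h1)).1 ⟨p, h2, h5⟩⟩
    · rintro ⟨h2, h3⟩
      obtain ⟨π, q, -, h4, rfl⟩ := mem_val.1 h2
      have h6 := (h.zf.of_pair_mem hσ h4).1
      obtain ⟨p, h7, h8⟩ := (h.truth_mem h6 hσ).2 h2
      obtain ⟨p', h9, h10⟩ := (h.truth _ (π :: l) (by simpa [h6] using h1)).2 h3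
      obtain ⟨r, h11, h12, h13⟩ := h.dir h7 h9
      exact ⟨π, r, h11, ⟨⟨⟨q, h4⟩, h.sub h11⟩, h.dn_mono h8 h12, h.force_mono h10 h13⟩, rfl⟩
  · obtain ⟨l, h1, rfl⟩ := hl l h0
    rintro _ ⟨σ, hσ, rfl⟩ H
    obtain ⟨c, hc, H'⟩ := h.zf.collect (Q := fun (a : (Mo × Z × Z) × List Z) z τ =>
      (∃ τ ∈ a.1.1.M, Force a.1.1.M a.1.2.1 a.1.2.2 (Fm.dec n) (snd z) (env ∅ (τ :: fst z :: a.2))) →
        Force a.1.1.M a.1.2.1 a.1.2.2 (Fm.dec n) (snd z) (env ∅ (τ :: fst z :: a.2)))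
      ((UF.exM (by fun_prop) ((uf_force _).comp
        (g := fun q : ((((Mo × Z × Z) × List Z) × Z) × Z) × Z =>
          ((q.1.1.1.1, q.2 :: fst q.1.1.2 :: q.1.1.1.2), snd q.1.1.2)) (by fun_prop))).imp
        ((uf_force _).comp (g := fun q : (((Mo × Z × Z) × List Z) × Z) × Z =>
          ((q.1.1.1, q.2 :: fst q.1.2 :: q.1.1.2), snd q.1.2)) (by fun_prop)))
      ((⟨V⟩, P, O), l) ⟨⟨rfl, h.hP, h.hO⟩, h1⟩ (s := prod (dom σ) P)
      (UF.mem (f := fun a : Z × Z => prod (dom a.1) a.2) (by fun_prop) h.zf (σ, P) ⟨hσ, h.hP⟩)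
      fun z _ => by
        by_cases H : ∃ τ ∈ V, Force V P O (Fm.dec n) (snd z) (env ∅ (τ :: fst z :: l))
        · obtain ⟨τ, h2, h3⟩ := H
          exact ⟨τ, h2, fun _ => h3⟩
        · exact ⟨∅, h.zf.empty_mem, fun h => absurd h H⟩
    refine ⟨_, ⟨prod c P, UF.mem (f := fun a : Z × Z => prod a.1 a.2) (by fun_prop) h.zf (c, P)
      ⟨hc, h.hP⟩, rfl⟩, fun x hx => ?_⟩
    obtain ⟨_, ⟨τ, h2, rfl⟩, h3⟩ := H x hx
    obtain ⟨π, q, -, h4, rfl⟩ := mem_val.1 hx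
    have h6 := (h.zf.of_pair_mem hσ h4).1
    obtain ⟨p, h7, h8⟩ := (h.truth _ (τ :: π :: l) (by simpa [h6, h2] using h1)).2 h3
    obtain ⟨τ', h9, h10⟩ := H' (pair π p) (pair_mem_prod.2 ⟨mem_dom.2 ⟨q, h4⟩, h.sub h7⟩)
    simp only [fst_pair, snd_pair] at h10
    exact ⟨_, (mem_val_prod h.sub hp0).2 ⟨τ', h9, rfl⟩, (h.truth _ (τ' :: π :: l)
      (by simpa [h6, h.zf.trans _ hc _ h9] using h1)).1 ⟨p, h7, h10 ⟨τ, h2, h8⟩⟩⟩

theorem ac_ext (hac : AC V) : AC (val g '' V) := by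
  rintro _ ⟨σ, hσ, rfl⟩
  obtain ⟨I, h1, h2, f, h3, h4⟩ := hac _ (UF.mem (f := dom) (by fun_prop) h.zf σ hσ)
  refine ⟨I, h.sub_ext h1, h2, restr (fun i => val g (app f i)) I, UF.mem (f := fun a : Z × Z × Z =>
    restr (fun i => val a.1 (app a.2.1 i)) a.2.2) (by fun_prop) h.zf_ext (g, f, I)
    ⟨h.mem_ext, h.sub_ext h3, h.sub_ext h1⟩, fn_restr _ _, fun x hx => ?_⟩
  obtain ⟨τ, p, -, h5, rfl⟩ := mem_val.1 hx
  obtain ⟨i, h6, h7⟩ := h4.2 τ (mem_dom.2 ⟨p, h5⟩)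
  exact ⟨i, h6, pair_mem_restr.2 ⟨h6, by rw [h4.1.app_eq h7]⟩⟩

theorem ext_min {W : Set Z} (hW : ZF W) (h1 : V ⊆ W) (h2 : g ∈ W) : val g '' V ⊆ W := by
  rintro _ ⟨σ, hσ, rfl⟩
  exact UF.mem (f := fun a : Z × Z => val a.1 a.2) (by fun_prop) hW (g, σ) ⟨h2, h1 hσ⟩

end Gen

end Pool.Agent.Lib.MP_b3d6af_lc
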