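import Pool.Agent.Lib.MP_b3d6af_lc.Poset

/-!
Master conditions.
-/

set_option linter.unusedSectionVars false
set_option linter.unusedVariables false

namespace Pool.Agent.Lib.MP_b3d6af_lc

open ZFSet Classical

@[simp] theorem dec_real (x : ℕ → ℕ) : dec (ℕ → ℕ) (real x) = x := dec_enc x

/-- A set of reals of a model. -/
noncomputable def rsep (m : Mo) (Q : (ℕ → ℕ) → Prop) : Z :=
  ZFSet.sep (fun z => Q (dec (ℕ → ℕ) z)) (baire m)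

theorem real_mem_rsep {m : Mo} {Q : (ℕ → ℕ) → Prop} {x : ℕ → ℕ} :
    real x ∈ rsep m Q ↔ x ∈ Reals m.M ∧ Q x := by
  simp [rsep, mem_baire]

theorem mem_rsep {m : Mo} {Q : (ℕ → ℕ) → Prop} {z : Z} :
    z ∈ rsep m Q ↔ ∃ x ∈ Reals m.M, Q x ∧ real x = z := by
  simp only [rsep, mem_sep, mem_baire]
  exact ⟨by rintro ⟨⟨x, h, rfl⟩, h'⟩; exact ⟨x, h, by simpa using h', rfl⟩,
    by rintro ⟨x, h, h', rfl⟩; exact ⟨⟨x, h, rfl⟩, by simpa⟩⟩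

@[fun_prop] theorem UF.rsep {α : Type*} [Rep α] {g : α → Mo} {Q : α → (ℕ → ℕ) → Prop} (hg : UF g)
    (hQ : UF (fun p : α × (ℕ → ℕ) => Q p.1 p.2)) : UF (fun a => rsep (g a) (Q a)) := by
  unfold MP_b3d6af_lc.rsep; fun_prop

theorem Min.ctbl_of_mem {n : ℕ} {V : Set Z} {w a : Z} (h : Min n V w) (ha : a ∈ w) : Ctbl V a :=
  h.min V h.toNice a ha (h.good.1.trans _ h.mem _ ha)

/-- The task with number `k`. -/
def Task (n : ℕ) (m e : Z) (k : ℕ) (r d : ℕ → ℕ) : Prop := d ∈ Reals (m : Set Z) ∧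
  real d ∈ app e (nat k.unpair.1) ∧ IsC n d ∧ Ex1 d r ∧ cs d = dl k.unpair.2

/-- The sequence of conditions handling all tasks. -/
noncomputable def sq (n : ℕ) (m e : Z) (p : ℕ → ℕ) : ℕ → ℕ → ℕ
  | 0 => p
  | k + 1 => if ∃ i, Task n m e k (sq n m e p k) (dec (ℕ → ℕ) (app e (nat i))) then
      dec (ℕ → ℕ) (app e (nat (mu fun i =>
        Task n m e k (sq n m e p k) (dec (ℕ → ℕ) (app e (nat i)))))) else sq n m e p k

theorem uf_sq (n : ℕ) : UF (fun q : (Z × Z × (ℕ → ℕ)) × ℕ => sq n q.1.1 q.1.2.1 q.1.2.2 q.2) :=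
  UF.natrec (F := fun (a : Z × Z × (ℕ → ℕ)) k => sq n a.1 a.2.1 a.2.2 k) (fun a => a.2.2)
    (fun a k r => if ∃ i, Task n a.1 a.2.1 k r (dec (ℕ → ℕ) (app a.2.1 (nat i))) then
      dec (ℕ → ℕ) (app a.2.1 (nat (mu fun i =>
        Task n a.1 a.2.1 k r (dec (ℕ → ℕ) (app a.2.1 (nat i)))))) else r)
    (by fun_prop) (by unfold Task; fun_prop) (fun _ => rfl) fun _ _ => rfl

theorem Min.master {n : ℕ} {V : Set Z} {w : Z} (h : Min n V w) {m w' : Z} {j : Z → Z}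
    (hm : m ∈ V) (hc : Ctbl V m) (hj : ZE m V j) (hw : Cr m V j w' w) {p : ℕ → ℕ}
    (hp : p ∈ Reals (m : Set Z)) (hC : IsC n p) : ∃ q ∈ Reals V, Le n q p ∧ ∀ D ∈ m,
      (∀ p' ∈ Reals V, IsC n p' → ∃ d, real d ∈ j D ∧ Le n d p') → ∀ q' ∈ Reals V, Le n q' q →
        ∃ d, real d ∈ D ∧ ∃ r ∈ Reals V, Le n r d ∧ Le n r q' := by
  have hV := h.good.1
  have hZ := hj.hA
  have hmV : ∀ {x}, x ∈ Reals (m : Set Z) → x ∈ Reals V := fun hx => hV.trans _ hm _ hx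
  obtain ⟨e, he, h1⟩ := hc.enum
  set s := sq n m e p with hs
  have h2 : ∀ k, (∃ d, Task n m e k (s k) d) → Task n m e k (s k) (s (k + 1)) := by
    rintro k ⟨d, hd⟩
    obtain ⟨i, hi⟩ := h1 (real d) hd.1
    have : ∃ i, Task n m e k (s k) (dec (ℕ → ℕ) (app e (nat i))) := ⟨i, by simpa [hi]⟩
    rw [hs, sq, if_pos this]
    exact mu_ex this
  have h3 : ∀ k, (¬ ∃ d, Task n m e k (s k) d) → s (k + 1) = s k := fun k hk => by
    rw [hs, sq, if_neg fun ⟨i, hi⟩ => hk ⟨_, hi⟩]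
  have h4 : ∀ k, s k ∈ Reals (m : Set Z) ∧ IsC n (s k) := fun k => by
    induction k with
    | zero => exact ⟨hp, hC⟩
    | succ k ih =>
      by_cases H : ∃ d, Task n m e k (s k) d
      exacts [⟨(h2 k H).1, (h2 k H).2.2.1⟩, h3 k H ▸ ih]
  have h5 : ∀ k i, Ex1 (s (k + i)) (s k) := fun k i => by
    induction i with
    | zero => exact Ex1.refl (h4 k).2
    | succ i ih =>
      refine Ex1.trans ?_ ih
      by_cases H : ∃ d, Task n m e (k + i) (s (k + i)) d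
      exacts [(h2 _ H).2.2.2.1, by rw [← add_assoc, h3 _ H]; exact Ex1.refl (h4 _).2]
  have task : ∀ D ∈ m, ∀ t : List ℕ, (∀ k, ∃ d ∈ Reals V, real d ∈ j D ∧ IsC n d ∧ Ex1 d (s k) ∧
      cs d = t) → ∃ k, real (s k) ∈ D ∧ cs (s k) = t := fun D hD t H => by
    obtain ⟨i, rfl⟩ := h1 D hD
    obtain ⟨d, h6⟩ := (hj.iff (P := fun a : Mo × Z × (ℕ → ℕ) × List ℕ => ∃ d ∈ Reals a.1.M,
      real d ∈ a.2.1 ∧ IsC n d ∧ Ex1 d a.2.2.1 ∧ cs d = a.2.2.2) (by fun_prop) (hj.prod hj.mo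
      (hj.prod (hj.set hD) (hj.prod (hj.real (h4 _).1) (hj.par t))))).2
      (H (Nat.pair i (Encodable.encode t)))
    have := h2 (Nat.pair i (Encodable.encode t)) ⟨d, by simpa [Task] using h6⟩
    exact ⟨_, by simpa using this.2.1, by simpa using this.2.2.2.2⟩
  let b : Z := ZFSet.iUnion fun k => cb (s k)
  have hb : b ∈ V := UF.mem (f := fun a : Z × Z × (ℕ → ℕ) =>
    ZFSet.iUnion fun k => cb (sq n a.1 a.2.1 a.2.2 k)) (UF.iUnionN (uf_sq n).cb) hV (m, e, p)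
    ⟨hm, he, hmV hp⟩
  have h6 : ∀ k, cb (s k) = b ∩ cδ (s k) := fun k => ZFSet.ext fun a => by
    simp only [b, mem_inter, mem_iUnion]
    refine ⟨fun H => ⟨⟨k, H⟩, (h4 k).2.2.1 H⟩, fun ⟨⟨i, H⟩, H'⟩ => ?_⟩
    rw [(h5 k i).2, add_comm]
    exact mem_inter.2 ⟨(h5 i k).sub H, H'⟩
  have hwo : IsOrdinal w' := (hj.ord hw.1).2 (hw.eq ▸ h.ord)
  have hwu : ¬ Ctbl m w' := fun H => h.unc (hw.eq ▸ (hj.ctbl hw.1).1 H)
  have hwm : ∀ a ∈ w', a ∈ m := hZ.trans _ hw.1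
  have hww : w' ∈ w := mem_of_ctbl h.ord h.unc hwo (hZ.ctbl_mem hc hw.1)
  have h7 : ∀ k, cδ (s k) ∈ w' := fun k =>
    mem_of_ctbl hwo hwu (h4 k).2.1 ((h4 k).2.ctbl hZ (h4 k).1)
  have hbs : b ⊆ w' := fun a ha => by
    obtain ⟨k, hk⟩ := mem_iUnion.1 ha
    exact hwo.mem_trans ((h4 k).2.2.1 hk) (h7 k)
  have h8 : ∀ a ∈ w', ∀ x ∈ Reals (m : Set Z), ∃ k, a ∈ cδ (s k) ∧ ∃ β ∈ w', real x ∈ L (cb (s k)) β := by
    intro a ha x hx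
    have ha' : j a ∈ w := hw.eq ▸ (hj.mem_iff (hwm a ha) hw.1).2 ha
    have e1 := hj.eq_of_ord (hj.set (hwm a ha)) (h.ord.mem ha') (h.ctbl_of_mem ha')
    have H := hj.uf (f := fun q : Mo × Z × (ℕ → ℕ) => rsep q.1 fun d => q.2.1 ∈ cδ d ∧
      ∃ β ∈ q.1.M, IsOrdinal β ∧ Ctbl q.1.M β ∧ real q.2.2 ∈ L (cb d) β)
      (by fun_prop) (hj.prod hj.mo (hj.prod (hj.fix (hwm a ha) e1.symm) (hj.real hx)))
    obtain ⟨k, h9, -⟩ := task _ H.mem [] fun k => by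
      obtain ⟨d, h9, h10, h11, h12, -, h13⟩ := extend h.good h.ac (hmV (h4 k).1) (h4 k).2 (hmV hx)
        (hV.trans _ hm _ (hwm a ha)) (hwo.mem ha) (e1 ▸ h.ctbl_of_mem ha') [] (F := []) (by simp)
      exact ⟨d, h9, H.eq ▸ real_mem_rsep.2 ⟨h9, h13⟩, h10, h11, h12⟩
    obtain ⟨-, h10, β, -, h11, h12, h13⟩ := real_mem_rsep.1 h9
    exact ⟨k, h10, β, mem_of_ctbl hwo hwu h11 h12, h13⟩
  have h9 : ∀ a ∈ w', ∃ k, a ∈ cδ (s k) ∧ cb (s k) ∩ a = b ∩ a := fun a ha => by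
    obtain ⟨k, h9, -⟩ := h8 a ha p hp
    exact ⟨k, h9, by rw [h6, inter_inter_of_sub ((h4 k).2.1.subset_of_mem h9)]⟩
  have h10 : ∀ a ∈ w', ∃ γ ∈ V, OL n b a γ := fun a ha => by
    obtain ⟨k, h10, h11⟩ := h9 a ha
    obtain ⟨γ, h12, h13⟩ := (h4 k).2.ok ((h4 k).2.1.subset_of_mem h10) (hwo.mem ha)
    exact ⟨γ, hV.trans _ (hV.cΓ_mem (hmV (h4 k).1)) _ h12, by simpa only [OL, h11] using h13⟩
  have e2 : Reals (HC b w' : Set Z) = Reals (m : Set Z) := by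
    refine Set.Subset.antisymm (fun x hx => mem_reals.2 (HC_sub hZ (fun a ha => ?_) hwm hx))
      fun x hx => ?_
    · obtain ⟨k, -, h11⟩ := h9 a ha
      exact h11 ▸ hZ.inter_mem (hZ.cb_mem (h4 k).1) (hwm a ha)
    · obtain ⟨k, -, β, h11, h12⟩ := h8 _ (h7 0) x hx
      exact mem_reals.2 (mem_HC.2 ⟨_, h7 k, β, h11, h6 k ▸ h12⟩)
  have hP : Phi n b w' := by
    refine ⟨e2 ▸ (hj.iff (UF.detM (n + 1) UF.id) hj.mo).2 h.det, fun y hy => ?_⟩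
    obtain ⟨a, -, h11, h12, h13⟩ := (hj.iff uf_inacc hj.mo).2 h.inacc y (e2 ▸ hy)
    exact ⟨a, mem_of_ctbl hwo hwu h11 h12, fun β hβ => h13 β (hwm β hβ) (hwo.mem hβ)⟩
  obtain ⟨γ, h11, h12⟩ := ok_of_LM hV (h.no_small hww hb hbs (fun a ha => by
    obtain ⟨γ, h11, h12, -⟩ := h10 a ha
    have := h.good.zf_LM hb
    exact h12.ctbl this (this.inter_mem (h.good.self_LM hb hwo hbs)
      (LM_ord hV _ (hV.trans _ hm _ (hwm a ha)) (hwo.mem ha))) (LM_ord hV _ h11 h12.1)) hP)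
  obtain ⟨q, h13, h14, h15, h16, h17, h18⟩ := exists_cond h.good h.ac (n := n)
    (hV.trans _ hm _ hw.1) hb hwo hbs (fun a ha => by
      rcases mem_insert_iff.1 ha with rfl | ha
      · exact ⟨γ, h11, by
          simpa only [OL, inter_eq_left_of_subset hbs] using ⟨h12, fun _ => hP⟩⟩
      · exact h10 a ha) (cs p) (F := cF p) fun β hβ => mem_iUnion.2 ⟨0, hC.2.2.2 β hβ⟩
  have h19 : ∀ k, Ex1 q (s k) := fun k => ⟨h15 ▸ hwo.subset_of_mem (h7 k), h16 ▸ h6 k⟩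
  refine ⟨q, h13, ⟨h14, hC, h19 0, by simp [h18], h17 ▸ St.refl p⟩, fun D hD H q' h20 h21 => ?_⟩
  obtain ⟨d, h22, h23⟩ := H q' h20 h21.1
  have h24 : d ∈ Reals V := hV.trans _ (hj.emb.1 _ hD) _ h22
  have h25 : ∀ k, Ex1 d (s k) := fun k => (h23.2.2.1.trans h21.2.2.1).trans (h19 k)
  obtain ⟨k, h26, h27⟩ := task D hD (cs d) fun k => ⟨d, h24, h22, h23.1, h25 k, rfl⟩
  obtain ⟨r, h28, h29, h30⟩ := Cp.compat h.good h.ac h24 (hmV (h4 k).1)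
    ⟨h23.1, (h4 k).2, Or.inl (h25 k), Or.inl (h27 ▸ St.refl _)⟩
  exact ⟨_, h26, r, h28, h30, h29.trans h23⟩

end Pool.Agent.Lib.MP_b3d6af_lc
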