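import Pool.Agent.Lib.MP_b3d6af_lc.Forcing
import Pool.Agent.Lib.MP_b3d6af_lc.Master

/-!
The forcing as a preorder on the reals of the ground model: definability, generic extensions
and properness.
-/

set_option linter.unusedSectionVars false
set_option linter.unusedVariables false

namespace Pool.Agent.Lib.MP_b3d6af_lc

open ZFSet Classical

variable {α : Type*} [Rep α]

theorem exists_generic {V : Set Z} {P : Set (ℕ → ℕ)} {le : (ℕ → ℕ) → (ℕ → ℕ) → Prop}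
    (hV : CTM V) (h : Sigma12Forcing V P le) : ∃ G, Generic V P le G := by
  obtain ⟨f, rfl⟩ := hV.1.exists_eq_range ⟨_, hV.2.1.inf⟩
  obtain ⟨p, hp⟩ := h.nonempty
  have : ∀ k q, ∃ r, q ∈ P → le r q ∧ ((∃ r, real r ∈ f k ∧ le r q) → real r ∈ f k) := fun k q => by
    by_cases H : ∃ r, real r ∈ f k ∧ le r q
    · exact H.imp fun r hr _ => ⟨hr.2, fun _ => hr.1⟩
    · exact ⟨q, fun hq => ⟨h.refl q hq, fun H' => absurd H' H⟩⟩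
  choose s hs using this
  let t : ℕ → ℕ → ℕ := fun k => Nat.rec p s k
  have h1 : ∀ k, t k ∈ P := fun k => by
    induction k with
    | zero => exact hp
    | succ k ih => exact (h.field _ _ (hs k _ ih).1).1
  have h2 : ∀ k i, le (t (k + i)) (t k) := fun k i => by
    induction i with
    | zero => exact h.refl _ (h1 k)
    | succ i ih => exact h.trans _ _ _ (hs _ _ (h1 _)).1 ih
  refine ⟨{q | ∃ k, le (t k) q}, fun q ⟨k, hk⟩ => (h.field _ _ hk).2,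
    fun q ⟨k, hk⟩ r hr => ⟨k, h.trans _ _ _ hk hr⟩, fun q ⟨k, hk⟩ r ⟨i, hi⟩ =>
      ⟨t (k + i), ⟨_, h.refl _ (h1 _)⟩, h.trans _ _ _ (h2 k i) hk,
        h.trans _ _ _ (add_comm i k ▸ h2 i k) hi⟩, ?_⟩
  rintro D ⟨_, ⟨k, rfl⟩, h3⟩ H
  obtain ⟨q, h4, h5⟩ := H _ (h1 k)
  exact ⟨t (k + 1), ⟨k + 1, h.refl _ (h1 (k + 1))⟩, (h3 _).1 ((hs k _ (h1 k)).2 ⟨q, (h3 q).2 h4, h5⟩)⟩

theorem sig2_of_uf {V : Set Z} (hV : Good V) (hac : AC V) {Q : (ℕ → ℕ) × (ℕ → ℕ) → Prop}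
    (hQ : UF Q) : ∃ θ : Ar, ∀ ρ : List (ℕ → ℕ), ρ.getD 0 0 ∈ Reals V → ρ.getD 1 0 ∈ Reals V →
      (Q (ρ.getD 0 0, ρ.getD 1 0) ↔ Sig (Reals V) 2 θ ρ) := by
  have hQ' : UF (fun p : Mo × (ℕ → ℕ) × (ℕ → ℕ) => Q p.2) := by fun_prop
  obtain ⟨Q', h1, h2⟩ := sig12_two hQ'
  obtain ⟨θ, h3⟩ := h1.sig2
  exact ⟨θ, fun ρ h4 h5 => by
    rw [h3, ← h2 V hV.1]
    exact ⟨reflect2 hV hac hQ' h4 h5, fun ⟨_, _, _, _, _, _, h⟩ => h⟩⟩

/-- The conditions of `V`. -/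
def Pn (n : ℕ) (V : Set Z) : Set (ℕ → ℕ) := {p | p ∈ Reals V ∧ IsC n p}

/-- The order on the conditions of `V`. -/
def LeV (n : ℕ) (V : Set Z) (p q : ℕ → ℕ) : Prop := p ∈ Reals V ∧ q ∈ Reals V ∧ Le n p q

theorem sigma12 (n : ℕ) {V : Set Z} (hV : Good V) (hac : AC V) :
    Sigma12Forcing V (Pn n V) (LeV n V) := by
  have h0 : (0 : ℕ → ℕ) ∈ Reals V := Par.fits (0 : ℕ → ℕ) hV.1
  refine ⟨?_, fun p hp => hp.1, fun p q h => ⟨⟨h.1, h.2.2.1⟩, h.2.1, h.2.2.2.1⟩,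
    fun p hp => ⟨hp.1, hp.1, Le.refl hp.2⟩, fun p q r h h' => ⟨h.1, h'.2.1, h.2.2.trans h'.2.2⟩,
    ?_, ?_, ?_⟩
  · have he := hV.1.empty_mem
    obtain ⟨γ, h1, h2⟩ := ok_of_LM hV.1 (ctbl_empty (hV.zf_LM he))
    obtain ⟨p, h3, h4, -⟩ := exists_cond hV hac (n := n) he he isOrdinal_empty subset_rfl
      (fun a ha => by
        obtain rfl : a = ∅ := by simpa using ha
        have e : (∅ : Z) ∩ ∅ = ∅ := by ext; simp
        exact ⟨γ, h1, by simpa only [OL, e] using ⟨h2, fun ⟨β, h3, _, h4, _⟩ =>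
          absurd (ctbl_empty h4) (h2.2.2 β h3)⟩⟩) [] (F := []) (by simp)
    exact ⟨p, h3, h4⟩
  · obtain ⟨θ, h⟩ := sig2_of_uf hV hac (Q := fun p => IsC n p.1) (by fun_prop)
    exact ⟨θ, fun p hp => (and_iff_right hp).trans (h [p] hp h0)⟩
  · obtain ⟨θ, h⟩ := sig2_of_uf hV hac (Q := fun p => Le n p.1 p.2) (by fun_prop)
    exact ⟨θ, fun p hp q hq => ((and_iff_right hp).trans (and_iff_right hq)).trans (h [p, q] hp hq)⟩
  · obtain ⟨θ, h⟩ := sig2_of_uf hV hac (Q := fun p => IsC n p.1 ∧ IsC n p.2 ∧ ¬ Cp n p.1 p.2)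
      (by fun_prop)
    refine ⟨θ, fun p hp q hq => Iff.trans ?_ (h [p, q] hp hq)⟩
    refine and_congr (and_iff_right hp) (and_congr (and_iff_right hq) (not_congr
      ⟨fun ⟨r, h1, h2⟩ => cp_of_le h1.2.2 h2.2.2, fun H => ?_⟩))
    obtain ⟨r, h1, h2, h3⟩ := Cp.compat hV hac hp hq H
    exact ⟨r, ⟨h1, hp, h2⟩, h1, hq, h3⟩

noncomputable def Pz (n : ℕ) (m : Mo) : Z := rsep m (IsC n)

noncomputable def Oz (n : ℕ) (m : Mo) : Z := ZFSet.sep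
  (fun z => Le n (dec (ℕ → ℕ) (fst z)) (dec (ℕ → ℕ) (snd z))) (prod (Pz n m) (Pz n m))

@[fun_prop] theorem UF.Pz (n : ℕ) {g : α → Mo} (hg : UF g) : UF (fun a => Pz n (g a)) := by
  unfold MP_b3d6af_lc.Pz; fun_prop

@[fun_prop] theorem UF.Oz (n : ℕ) {g : α → Mo} (hg : UF g) : UF (fun a => Oz n (g a)) := by
  unfold MP_b3d6af_lc.Oz; fun_prop

variable {n : ℕ} {V : Set Z} {G : Set (ℕ → ℕ)}

theorem mem_Pz {z : Z} : z ∈ Pz n ⟨V⟩ ↔ ∃ p ∈ Pn n V, real p = z := by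
  simp [Pz, mem_rsep, Pn, and_assoc]

theorem real_Oz {p q : ℕ → ℕ} : pair (real p) (real q) ∈ Oz n ⟨V⟩ ↔ LeV n V p q := by
  simp only [Oz, Pz, mem_sep, pair_mem_prod, real_mem_rsep, fst_pair, snd_pair, dec_real, LeV]
  exact ⟨fun h => ⟨h.1.1.1, h.1.2.1, h.2⟩, fun h => ⟨⟨⟨h.1, h.2.2.1⟩, h.2.1, h.2.2.2.1⟩, h.2.2⟩⟩

theorem mem_Oz {a b : Z} (h : pair a b ∈ Oz n ⟨V⟩) :
    ∃ p q, real p = a ∧ real q = b ∧ LeV n V p q := by
  obtain ⟨h1, h2⟩ := pair_mem_prod.1 (mem_sep.1 h).1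
  obtain ⟨p, -, rfl⟩ := mem_Pz.1 h1
  obtain ⟨q, -, rfl⟩ := mem_Pz.1 h2
  exact ⟨p, q, rfl, rfl, real_Oz.1 h⟩

/-- The generic filter as a set. -/
noncomputable def gz (V : Set Z) (G : Set (ℕ → ℕ)) : Z := rsep ⟨V⟩ (· ∈ G)

section gen
variable (hV : Good V) (hac : AC V) (hG : Generic V (Pn n V) (LeV n V) G)
include hG

theorem Generic.mem_gz {z : Z} : z ∈ gz V G ↔ ∃ p ∈ G, real p = z :=
  mem_rsep.trans ⟨fun ⟨p, _, h⟩ => ⟨p, h⟩, fun ⟨p, h⟩ => ⟨p, (hG.sub h.1).1, h⟩⟩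

theorem Generic.real_gz {p : ℕ → ℕ} : real p ∈ gz V G ↔ p ∈ G := by simp [hG.mem_gz]

include hV hac

theorem Generic.gen : Gen V (Pz n ⟨V⟩) (Oz n ⟨V⟩) (gz V G) := by
  have hS := sigma12 n hV hac
  refine ⟨hV.1, UF.mem (f := Pz n) (by fun_prop) hV.1 ⟨V⟩ rfl,
    UF.mem (f := Oz n) (by fun_prop) hV.1 ⟨V⟩ rfl, fun h => pair_mem_prod.1 (mem_sep.1 h).1,
    fun h => ?_, fun h h' => ?_, ?_, fun z hz => ?_, fun h h' => ?_, fun h h' => ?_,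
    fun D hD H => ?_⟩
  · obtain ⟨p, hp, rfl⟩ := mem_Pz.1 h
    exact real_Oz.2 (hS.refl p hp)
  · obtain ⟨p, q, rfl, rfl, h1⟩ := mem_Oz h
    obtain ⟨_, r, -, rfl, -⟩ := mem_Oz h'
    exact real_Oz.2 (hS.trans _ _ _ h1 (real_Oz.1 h'))
  · exact hS.nonempty.elim fun p hp => ⟨_, mem_Pz.2 ⟨p, hp, rfl⟩⟩
  · obtain ⟨p, hp, rfl⟩ := hG.mem_gz.1 hz
    exact mem_Pz.2 ⟨p, hG.sub hp, rfl⟩
  · obtain ⟨p, q, rfl, rfl, h1⟩ := mem_Oz h'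
    exact hG.real_gz.2 (hG.up p (hG.real_gz.1 h) q h1)
  · obtain ⟨p, hp, rfl⟩ := hG.mem_gz.1 h
    obtain ⟨q, hq, rfl⟩ := hG.mem_gz.1 h'
    obtain ⟨r, h1, h2, h3⟩ := hG.dir p hp q hq
    exact ⟨_, hG.real_gz.2 h1, real_Oz.2 h2, real_Oz.2 h3⟩
  · obtain ⟨q, h1, h2⟩ := hG.meets {x | real x ∈ D} ⟨D, hD, fun _ => Iff.rfl⟩ fun p hp => by
      obtain ⟨z, h1, h2⟩ := H _ (mem_Pz.2 ⟨p, hp, rfl⟩)
      obtain ⟨q, _, rfl, -, -⟩ := mem_Oz h2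
      exact ⟨q, h1, real_Oz.1 h2⟩
    exact ⟨_, hG.real_gz.2 h1, h2⟩

theorem Generic.ext (hc : V.Countable) : Ext V G (val (gz V G) '' V) := by
  have h := hG.gen hV hac
  refine ⟨⟨hc.image _, h.zf_ext, h.ac_ext hac⟩, h.sub_ext, ⟨_, h.mem_ext, fun _ => hG.real_gz⟩,
    fun W h1 h2 ⟨a, h3, h4⟩ => h.ext_min h1.2.1 h2 ?_⟩
  have : gz V G = a ∩ Pz n ⟨V⟩ := ZFSet.ext fun z => by
    rw [mem_inter]
    refine ⟨fun hz => ⟨?_, h.sub hz⟩, fun ⟨h5, h6⟩ => ?_⟩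
    · obtain ⟨p, hp, rfl⟩ := hG.mem_gz.1 hz
      exact (h4 p).2 hp
    · obtain ⟨p, -, rfl⟩ := mem_Pz.1 h6
      exact hG.real_gz.2 ((h4 p).1 h5)
  exact this ▸ h1.2.1.inter_mem h3 (h2 h.hP)

theorem Generic.ext_eq (hc : V.Countable) {W : Set Z} (h : Ext V G W) : W = val (gz V G) '' V :=
  have h' := hG.ext hV hac hc
  Set.Subset.antisymm (h.2.2.2 _ h'.1 h'.2.1 h'.2.2.1) (h'.2.2.2 _ h.1 h.2.1 h.2.2.1)

theorem Generic.dn {Q : α → (ℕ → ℕ) → Prop} (hQ : UF (fun p : α × (ℕ → ℕ) => Q p.1 p.2)) (a : α)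
    (ha : fits V a) {p : ℕ → ℕ} (hp : p ∈ G)
    (H : ∀ q ∈ Reals V, Le n q p → ∃ r ∈ Reals V, Le n r q ∧ Q a r) : ∃ r ∈ G, Q a r := by
  obtain ⟨z, h1, h2⟩ := (hG.gen hV hac).dn (Q := fun a z => Q a (dec (ℕ → ℕ) z)) (by fun_prop) a ha
    (hG.real_gz.2 hp) fun z hz => by
      obtain ⟨q, _, rfl, -, -⟩ := mem_Oz hz
      obtain ⟨h1, -, h2⟩ := real_Oz.1 hz
      obtain ⟨r, h3, h4, h5⟩ := H q h1 h2
      exact ⟨real r, real_Oz.2 ⟨h3, h1, h4⟩, by simpa⟩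
  obtain ⟨r, h3, rfl⟩ := hG.mem_gz.1 h1
  exact ⟨r, h3, by simpa using h2⟩

theorem Generic.dense {Q : α → (ℕ → ℕ) → Prop} (hQ : UF (fun p : α × (ℕ → ℕ) => Q p.1 p.2))
    (a : α) (ha : fits V a)
    (H : ∀ q ∈ Reals V, IsC n q → ∃ r ∈ Reals V, Le n r q ∧ Q a r) : ∃ r ∈ G, Q a r := by
  obtain ⟨z, hz⟩ := (hG.gen hV hac).nonempty
  obtain ⟨p, hp, -⟩ := hG.mem_gz.1 hz
  exact hG.dn hV hac hQ a ha hp fun q h1 h2 => H q h1 h2.1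

end gen

/-- Some element of `X` is forced to be the value of `σ` at `t`. -/
def Val (n : ℕ) (m : Mo) (σ t X d : Z) : Prop :=
  ∃ x ∈ X, fmem (Pz n m) (Oz n m) d (chk (Pz n m) (pair t x)) σ

@[fun_prop] theorem UF.Val (n : ℕ) {m : α → Mo} {σ t X d : α → Z} (h0 : UF m) (h1 : UF σ)
    (h2 : UF t) (h3 : UF X) (h4 : UF d) : UF (fun a => Val n (m a) (σ a) (t a) (X a) (d a)) := by
  unfold MP_b3d6af_lc.Val; fun_prop

theorem Min.proper {w : Z} (h : Min n V w) : Proper V (Pn n V) (LeV n V) := by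
  intro X hX S hS h1 h2 G W hG hW
  have hV := h.good.1
  have hg := hG.gen h.good h.ac
  obtain rfl := hG.ext_eq h.good h.ac h.ctbl hW
  rintro _ ⟨σ, hσ, rfl⟩ h3 h4
  obtain ⟨x0, hx0, -⟩ := h4 0 [] (by simp)
  obtain ⟨p0, hp0⟩ := hg.nonempty
  have tr : ∀ {t x}, t ∈ V → x ∈ V → ((∃ p ∈ gz V G, fmem (Pz n ⟨V⟩) (Oz n ⟨V⟩) p
      (chk (Pz n ⟨V⟩) (pair t x)) σ) ↔ pair t x ∈ val (gz V G) σ) := fun {t x} ht hx => by
    have : chk (Pz n ⟨V⟩) (pair t x) ∈ V := UF.mem (f := fun a : Z × Z => chk a.1 a.2)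
      (by fun_prop) hV (Pz n ⟨V⟩, pair t x) ⟨hg.hP, hV.pair_mem ht hx⟩
    rw [hg.truth_mem this hσ, val_chk hg.sub hp0]
  obtain ⟨r, h5, N, h6, h7⟩ := hG.dense h.good h.ac (Q := fun (a : Mo × Z × Z × Z) q =>
    ∃ N ∈ a.2.1, ∀ t ∈ prod omega (Seq N), ∀ q', pair q' (real q) ∈ Oz n a.1 →
      Val n a.1 a.2.2.1 t a.2.2.2 q' → ∃ r, pair r q' ∈ Oz n a.1 ∧ Val n a.1 a.2.2.1 t N r)
    (by fun_prop) (⟨V⟩, S, σ, X) (by exact ⟨rfl, hS, hσ, hX⟩) fun p hp hC => by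
      obtain ⟨F, h5, h6, h7, h8⟩ := ls h.good h.ac hX
        (Rep.mem hV (a := (p, σ, X, w)) ⟨hp, hσ, hX, h.mem⟩) hx0
      obtain ⟨N, h9, h10⟩ := h2 F h5 h6 h7
      obtain ⟨m, hm, j, h11, h12, ⟨c, h13, h14⟩, h15⟩ :=
        h8 N (hV.trans _ hS _ h9) (h1 N h9).1 (h1 N h9).2 h10
      obtain ⟨⟨p', σ', X', w'⟩, -, h16⟩ := h12.of_enc h13 h14
      obtain rfl : p' = p := h12.real_eq (h12.fst h16)
      have e1 : Cr m V j σ' σ := h12.fst (h12.snd h16)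
      have e2 : Cr m V j X' X := h12.fst (h12.snd (h12.snd h16))
      obtain ⟨q, h17, h18, h19⟩ := h.master hm h11 h12 (h12.snd (h12.snd (h12.snd h16))) h16.1.1 hC
      refine ⟨q, h17, h18, N, h9, fun t ht q' h20 h21 => ?_⟩
      obtain ⟨q', _, rfl, -, -⟩ := mem_Oz h20
      obtain ⟨h22, -, h23⟩ := real_Oz.1 h20
      obtain ⟨t', e3⟩ : ∃ t', Cr m V j t' t := by
        obtain ⟨_, h24, _, h25, rfl⟩ := mem_prod.1 ht
        obtain ⟨k, rfl⟩ := mem_omega.1 h24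
        obtain ⟨l, h26, rfl⟩ := mem_Seq.1 h25
        obtain ⟨l', h27, rfl⟩ : ∃ l' : List Z, (∀ x ∈ l', x ∈ m) ∧ l'.map j = l := by
          clear ht h25 h21
          induction l with
          | nil => exact ⟨[], by simp, rfl⟩
          | cons x l ih =>
            obtain ⟨l', h27, rfl⟩ := ih fun y hy => h26 y (by simp [hy])
            obtain ⟨x', h28, rfl⟩ := (h15 x ((h1 N h9).1 (h26 x (by simp)))).1 (h26 x (by simp))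
            exact ⟨x' :: l', by simpa [h28] using h27, rfl⟩
        exact ⟨_, h12.uf (UF.enc UF.id) (h12.prod (h12.par k) (h12.list h27))⟩
      have e4 := h12.prod h12.mo (h12.prod e1 (h12.prod e3 e2))
      have e5 := h12.uf (f := fun a : Mo × Z × Z × Z => ZFSet.sep (fun d =>
        Val n a.1 a.2.1 a.2.2.1 a.2.2.2 d ∨ ∀ d', pair d' d ∈ Oz n a.1 →
          ¬ Val n a.1 a.2.1 a.2.2.1 a.2.2.2 d') (Pz n a.1)) (by fun_prop) e4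
      obtain ⟨d, h24, r, h25, h26, h27⟩ := h19 _ e5.mem (fun p1 h24 h25 => by
        rw [e5.eq]
        by_cases H : ∃ d', pair d' (real p1) ∈ Oz n ⟨V⟩ ∧ Val n ⟨V⟩ σ t X d'
        · obtain ⟨d', h26, h27⟩ := H
          obtain ⟨d, _, rfl, -, -⟩ := mem_Oz h26
          exact ⟨d, mem_sep.2 ⟨(hg.field h26).1, Or.inl h27⟩, (real_Oz.1 h26).2.2⟩
        · exact ⟨p1, mem_sep.2 ⟨mem_Pz.2 ⟨p1, ⟨h24, h25⟩, rfl⟩,
            Or.inr fun d' h26 h27 => H ⟨d', h26, h27⟩⟩, Le.refl h25⟩) q' h22 h23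
      have h28 : d ∈ Reals (m : Set Z) := h12.hA.trans _ e5.mem _ h24
      have h29 := real_Oz.2 ⟨h25, hV.trans _ hm _ h28, h26⟩
      have h30 := real_Oz.2 ⟨h25, h22, h27⟩
      refine ⟨real r, h30, ?_⟩
      rcases (mem_sep.1 h24).2 with ⟨x, h31, h32⟩ | h31
      · have h33 := h12.hA.trans _ e2.1 _ h31
        exact ⟨j x, (h15 _ (e2.eq ▸ (h12.mem_iff h33 e2.1).2 h31)).2 ⟨x, h33, rfl⟩, hg.dn_mono
          ((h12.iff (P := fun a : (Mo × Z × Z × Z) × Z × (ℕ → ℕ) => fmem (Pz n a.1.1) (Oz n a.1.1)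
            (real a.2.2) (chk (Pz n a.1.1) (pair a.1.2.2.1 a.2.1)) a.1.2.1) (by fun_prop)
            (h12.prod e4 (h12.prod (h12.set h33) (h12.real h28)))).1 h32) h29⟩
      · obtain ⟨x, h32, h33⟩ := h21
        exact absurd ⟨x, h32, hg.dn_mono h33 h30⟩ ((h12.iff
          (P := fun a : (Mo × Z × Z × Z) × (ℕ → ℕ) => ∀ d', pair d' (real a.2) ∈ Oz n a.1.1 →
            ¬ Val n a.1.1 a.1.2.1 a.1.2.2.1 a.1.2.2.2 d') (by fun_prop)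
          (h12.prod e4 (h12.real h28))).1 h31 _ h29)
  refine ⟨N, h6, fun k l y hl hy => ?_⟩
  have hNX := (h1 N h6).1
  have hN := hV.trans _ hS _ h6
  obtain ⟨x, h8, h9⟩ := h4 k l fun x hx => hNX (hl x hx)
  have ht : pair (nat k) (tup l) ∈ prod omega (Seq N) := by simp [tup_eq, enc_mem_Seq.2 hl]
  have ht' : pair (nat k) (tup l) ∈ V := hV.pair_mem (hV.nat_mem k)
    (tup_eq l ▸ Rep.mem hV (a := l) fun x hx => hV.trans _ hN _ (hl x hx))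
  obtain ⟨p, h10, h11⟩ := (tr ht' (hV.trans _ hX _ h8)).2 h9
  obtain ⟨s, h12, h13, h14⟩ := hg.dir h10 (hG.real_gz.2 h5)
  obtain ⟨u, h15, x', h16, h17⟩ := hg.dn (Q := fun (a : Mo × Z × Z × Z) u =>
    Val n a.1 a.2.1 a.2.2.1 a.2.2.2 u) (by fun_prop) (⟨V⟩, σ, pair (nat k) (tup l), N)
    (by exact ⟨rfl, hσ, ht', hN⟩) h12 fun q hq =>
      h7 _ ht q (hg.trans hq h14) ⟨x, h8, hg.dn_mono h11 (hg.trans hq h13)⟩
  exact h3 _ _ _ ((tr ht' (hV.trans _ hN _ h16)).1 ⟨u, h15, h17⟩) hy ▸ h16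

theorem Min.stat {w : Z} (h : Min n V w) : Stat V w w := by
  intro F hF h1 h2
  obtain ⟨m, hm, j, h3, h4, ⟨F', w'⟩, h5⟩ := reflect h.good h.ac (a := (F, w))
    (by exact ⟨hF, h.mem⟩)
  have e1 : Cr m V j F' F := h4.fst h5
  have e2 : Cr m V j w' w := h4.snd h5
  have ho : IsOrdinal w' := (h4.ord e2.1).2 (e2.eq ▸ h.ord)
  have hw : w' ∈ w := mem_of_ctbl h.ord h.unc ho (h4.hA.ctbl_mem h3 e2.1)
  have fx : ∀ a ∈ w', j a = a := fun a ha => by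
    have h6 := h4.hA.trans _ e2.1 _ ha
    have h7 : j a ∈ w := e2.eq ▸ (h4.mem_iff h6 e2.1).2 ha
    exact (h4.eq_of_ord (h4.set h6) (h.ord.mem h7) (h.ctbl_of_mem h7)).symm
  refine ⟨w', hw, fun k l y hl hy => ?_⟩
  have e3 := h4.uf (UF.enc UF.id) (h4.prod (h4.par k)
    (h4.list fun x hx => h4.hA.trans _ e2.1 _ (hl x hx)))
  rw [List.map_congr_left (g := id) fun x hx => fx x (hl x hx), List.map_id] at e3
  obtain ⟨y', h6, h7⟩ := (h4.iff (P := fun a : (Z × Z) × Z => ∃ y ∈ a.1.2, pair a.2 y ∈ a.1.1)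
    (by fun_prop) (h4.prod h5 e3)).2 (by
      simpa [tup_eq] using h2 k l fun x hx => h.ord.mem_trans (hl x hx) hw)
  have := (h4.iff (P := fun a : Z × Z × Z => pair a.2.1 a.2.2 ∈ a.1) (by fun_prop)
    (h4.prod e1 (h4.prod e3 (h4.fix (h4.hA.trans _ e2.1 _ h6) (fx _ h6))))).1 h7
  rw [tup_eq] at hy
  exact h1 _ _ _ this hy ▸ h6

theorem Min.unc_ext {w : Z} (h : Min n V w) (hG : Generic V (Pn n V) (LeV n V) G) {W : Set Z}
    (hW : Ext V G W) : ¬ Ctbl W w := fun hc => by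
  obtain ⟨e, he, h1⟩ := hc.enum
  have h0 : ∅ ∈ w := mem_of_ctbl h.ord h.unc isOrdinal_empty (ctbl_empty h.good.1)
  have h2 : ∀ (k : ℕ) (l : List Z), (∀ x ∈ l, x ∈ w) → pair (pair (nat k) (tup l))
      (if app e (nat k) ∈ w then app e (nat k) else ∅) ∈ restr (fun t => if app e (fst t) ∈ w
        then app e (fst t) else ∅) (prod omega (Seq w)) := fun k l hl => by
    simp [pair_mem_restr, tup_eq, enc_mem_Seq.2 hl]
  obtain ⟨N, h3, h4⟩ := h.proper w h.mem w h.mem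
    (fun N hN => ⟨h.ord.subset_of_mem hN, h.ctbl_of_mem hN⟩) h.stat G W hG hW _
    (UF.mem (f := fun a : Z × Z => restr (fun t => if app a.1 (fst t) ∈ a.2 then app a.1 (fst t)
      else ∅) (prod omega (Seq a.2))) (by fun_prop) hW.1.2.1 (e, w) ⟨he, hW.2.1 h.mem⟩)
    (fn_restr _ _) fun k l hl => ⟨_, by split_ifs <;> assumption, h2 k l hl⟩
  obtain ⟨k, hk⟩ := h1 N h3
  have := h4 k [] _ (by simp) (h2 k [] (by simp))
  rw [hk, if_pos h3] at this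
  exact mem_irrefl _ this

end Pool.Agent.Lib.MP_b3d6af_lc
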