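import Pool.Agent.Lib.MP_b3d6af_lc.SatInt

/-!
Countability inside models, the Mostowski collapse and the Löwenheim-Skolem theorem inside a
`Good` model.
-/

set_option linter.unusedSectionVars false
set_option linter.unusedVariables false

namespace Pool.Agent.Lib.MP_b3d6af_lc

open ZFSet Classical

universe u v w

variable {α : Type u} {β : Type v} [Rep α] [Rep β]

theorem ctbl_of_uf {M : Set Z} (hM : ZF M) {g : α → ℕ → Z}
    (hg : UF (fun p : α × ℕ => g p.1 p.2)) (a : α) (ha : fits M a) {s : Z}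
    (h : ∀ x ∈ s, ∃ n, g a n = x) : Ctbl M s := by
  refine ⟨restr (fun w => g a (dec ℕ w)) omega, UF.mem
    (f := fun a => restr (fun w => g a (dec ℕ w)) omega) (by fun_prop) hM a ha, fn_restr _ _,
    fun x hx => ?_⟩
  obtain ⟨n, rfl⟩ := h x hx
  exact ⟨nat n, by simp, pair_mem_restr.2 (by simp)⟩

theorem Ctbl.enum {M : Set Z} {s : Z} (h : Ctbl M s) :
    ∃ f ∈ M, ∀ x ∈ s, ∃ n, app f (nat n) = x := by
  obtain ⟨f, hf, h1, h2⟩ := h
  refine ⟨f, hf, fun x hx => ?_⟩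
  obtain ⟨i, hi, h3⟩ := h2 x hx
  obtain ⟨n, rfl⟩ := mem_omega.1 hi
  exact ⟨n, h1.app_eq h3⟩

theorem Ctbl.sub {M : Set Z} {s t : Z} (h : Ctbl M s) (ht : t ⊆ s) : Ctbl M t :=
  h.imp fun f hf => ⟨hf.1, hf.2.1, fun y hy => hf.2.2 y (ht hy)⟩

theorem Ctbl.mono {M M' : Set Z} {s : Z} (h : Ctbl M s) (hM : M ⊆ M') : Ctbl M' s :=
  h.imp fun f hf => ⟨hM hf.1, hf.2⟩

theorem Ctbl.countable {M : Set Z} {s : Z} (h : Ctbl M s) : (s : Set Z).Countable := by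
  obtain ⟨f, -, h⟩ := h.enum
  exact (Set.countable_range fun n => app f (nat n)).mono h

theorem Ctbl.insert {M : Set Z} (hM : ZF M) {s a : Z} (h : Ctbl M s) (ha : a ∈ M) :
    Ctbl M (insert a s) := by
  obtain ⟨f, hf, h⟩ := h.enum
  refine ctbl_of_uf hM (g := fun (p : Z × Z) n => if n = 0 then p.1 else app p.2 (nat (n - 1)))
    (by fun_prop) (a, f) (by exact ⟨ha, hf⟩) fun x hx => ?_
  rcases mem_insert_iff.1 hx with rfl | hx
  · exact ⟨0, by simp⟩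
  · obtain ⟨n, rfl⟩ := h x hx
    exact ⟨n + 1, by simp⟩

theorem ctbl_omega {M : Set Z} (hM : ZF M) : Ctbl M omega :=
  ctbl_of_uf hM (g := fun (_ : ℕ) n => nat n) (by fun_prop) 0 trivial fun x hx =>
    (mem_omega.1 hx).imp fun _ => Eq.symm

theorem ctbl_empty {M : Set Z} (hM : ZF M) : Ctbl M ∅ := (ctbl_omega hM).sub (empty_subset _)

theorem exists_min {s : Set Z} (h : s.Nonempty) : ∃ x ∈ s, ∀ y ∈ x, y ∉ s := by
  obtain ⟨x, hx, h⟩ := mem_wf.has_min s h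
  exact ⟨x, hx, fun y hy hs => h y hs hy⟩

theorem sInter_mem {s : Z} (hs : ∀ x ∈ s, IsOrdinal x) {x : Z} (hx : x ∈ s) : sInter s ∈ s := by
  obtain ⟨y, hy, h⟩ := exists_min (s := s) ⟨x, hx⟩
  have : sInter s = y := by
    ext z
    rw [mem_sInter ⟨x, hx⟩]
    exact ⟨fun H => H y hy, fun H w hw =>
      ((hs w hw).notMem_iff_subset (hs y hy)).1 (fun h1 => h w h1 hw) H⟩
  rwa [this]

/-- The first element of `s` in the list `f`. -/
noncomputable def lst (f I s : Z) : Z := app f (sInter (ZFSet.sep (fun i => app f i ∈ s) I))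

@[fun_prop] theorem UF.lst {f g k : α → Z} (hf : UF f) (hg : UF g) (hk : UF k) :
    UF (fun a => lst (f a) (g a) (k a)) := by
  unfold MP_b3d6af_lc.lst; fun_prop

theorem lst_mem {f I a s x : Z} (hI : IsOrdinal I) (h : Enum f I a) (hx : x ∈ s) (hxa : x ∈ a) :
    lst f I s ∈ s := by
  obtain ⟨i, hi, h1⟩ := h.2 x hxa
  exact (mem_sep.1 (sInter_mem (s := ZFSet.sep (fun i => app f i ∈ s) I)
    (fun y hy => hI.mem (mem_sep.1 hy).1) (mem_sep.2 ⟨hi, by rwa [h.1.app_eq h1]⟩))).2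

/-- The collapse along `pred`. -/
noncomputable def clp (pred : Z → Z) : Z → Z := wrec pred fun _ f => img snd f

theorem mem_clp {pred : Z → Z} {x z : Z} (h : Ac pred x) :
    z ∈ clp pred x ↔ ∃ y ∈ pred x, clp pred y = z := by
  rw [clp, wrec_eq _ h]
  simp [restr]

@[fun_prop] theorem UF.clp {pred : α → Z → Z} {f : α → Z}
    (hp : UF (fun p : α × Z => pred p.1 p.2)) (hf : UF f) : UF (fun a => clp (pred a) (f a)) :=
  ((uf_wrec (G := fun _ _ f => MP_b3d6af_lc.img MP_b3d6af_lc.snd f) hp (by fun_prop)).comp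
    (UF.id.prodMk hf) :)

/-- The Mostowski collapse of `H`. -/
noncomputable def col (H : Z) : Z → Z := clp fun x => x ∩ H

theorem mem_col {H x z : Z} : z ∈ col H x ↔ ∃ y ∈ x, y ∈ H ∧ col H y = z := by
  rw [col, mem_clp (ac_of_sub (fun x y hy => (mem_inter.1 hy).1) x)]
  simp [and_assoc]

@[fun_prop] theorem UF.col {f g : α → Z} (hf : UF f) (hg : UF g) :
    UF (fun a => col (f a) (g a)) := by
  unfold MP_b3d6af_lc.col; fun_prop

theorem col_inj {H : Z} (hH : ∀ x ∈ H, ∀ y ∈ H, (∀ z ∈ H, z ∈ x ↔ z ∈ y) → x = y) (x : Z) :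
    x ∈ H → ∀ y ∈ H, col H x = col H y → x = y := by
  induction x using ZFSet.inductionOn with
  | h x ih =>
    intro hx y hy e
    refine hH x hx y hy fun z hz => ⟨fun h => ?_, fun h => ?_⟩
    · obtain ⟨w, h1, h2, h3⟩ := mem_col.1 (e ▸ mem_col.2 ⟨z, h, hz, rfl⟩ : col H z ∈ col H y)
      rwa [ih z h hz w h2 h3.symm]
    · obtain ⟨w, h1, h2, h3⟩ := mem_col.1 (e ▸ mem_col.2 ⟨z, h, hz, rfl⟩ : col H z ∈ col H x)
      rwa [← ih w h1 h2 z hz h3]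

theorem exists_collapse {H : Z} (hH : ∀ x ∈ H, ∀ y ∈ H, (∀ z ∈ H, z ∈ x ↔ z ∈ y) → x = y) :
    Tr (img (col H) H : Set Z) ∧ ∃ j, Emb (img (col H) H : Set Z) H j ∧ ∀ x ∈ H, j (col H x) = x := by
  refine ⟨fun a ha x hx => ?_, ?_⟩
  · obtain ⟨y, hy, rfl⟩ := mem_img.1 ha
    obtain ⟨z, -, h1, h2⟩ := mem_col.1 hx
    exact mem_img.2 ⟨z, h1, h2⟩
  let j : Z → Z := fun y => if h : ∃ x ∈ H, col H x = y then h.choose else ∅
  have hj : ∀ x ∈ H, j (col H x) = x := fun x hx => by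
    have h : ∃ y ∈ H, col H y = col H x := ⟨x, hx, rfl⟩
    simp only [j, dif_pos h]
    exact col_inj hH _ h.choose_spec.1 _ hx h.choose_spec.2
  have hj' : ∀ y ∈ img (col H) H, j y ∈ H ∧ col H (j y) = y := fun y hy => by
    obtain ⟨x, hx, rfl⟩ := mem_img.1 hy
    rw [hj x hx]; exact ⟨hx, rfl⟩
  refine ⟨j, ⟨fun y hy => (hj' y hy).1, fun φ => ?_⟩, hj⟩
  induction φ with
  | mem a b =>
    intro v hv
    obtain ⟨h1, h2⟩ := hj' _ (hv a)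
    obtain ⟨h3, h4⟩ := hj' _ (hv b)
    simp only [sat_mem]
    refine ⟨fun h => ?_, fun h => h2 ▸ h4 ▸ mem_col.2 ⟨_, h, h1, rfl⟩⟩
    rw [← h4] at h
    obtain ⟨z, h5, h6, h7⟩ := mem_col.1 h
    rwa [← h7, hj z h6]
  | eq a b =>
    intro v hv
    exact ⟨fun h => congrArg j h, fun h => by
      rw [sat_eq] at h ⊢; rw [← (hj' _ (hv a)).2, ← (hj' _ (hv b)).2, h]⟩
  | bot => intro v _; rfl
  | imp φ ψ h1 h2 => intro v hv; exact imp_congr (h1 v hv) (h2 v hv)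
  | all φ h =>
    intro v hv
    refine ⟨fun H' x hx => ?_, fun H' x hx => ?_⟩
    · have hx' : col H x ∈ img (col H) H := mem_img.2 ⟨x, hx, rfl⟩
      have := (h _ (cons_mem hx' hv)).1 (H' _ hx')
      rwa [comp_cons, hj x hx] at this
    · refine (h _ (cons_mem hx hv)).2 ?_
      rw [comp_cons]; exact H' _ (hj' x hx).1

/-- Models that are unions of elementary transitive submodels belonging to them. -/
def Good (V : Set Z) : Prop :=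
  ZF V ∧ ∀ x ∈ V, ∃ m ∈ V, IsTransitive m ∧ x ∈ m ∧ Elem (m : Set Z) V

theorem Good.ze {V : Set Z} (h : Good V) {x : Z} (hx : x ∈ V) :
    ∃ m ∈ V, x ∈ m ∧ ZE (m : Set Z) V fun x => x := by
  obtain ⟨m, hm, h1, h2, h3⟩ := h.2 x hx
  exact ⟨m, hm, h2, h3.zf (fun a ha y hy => h1 a ha hy) h2 h.1, h.1, h3⟩

/-- `z` is definable from `w` in `M`. -/
def Dz (M : Set Z) (w z : Z) : Prop := ∃ φ, Dfs M φ w z

theorem Dz.uf {M : Set Z} (hM : ZF M) {f : α → β} (hf : UF f) {w : Z} {a : α} (ha : fits M a)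
    (h : Dz M w (enc a)) : Dz M w (enc (f a)) := by
  obtain ⟨φ, hf⟩ := hf
  obtain ⟨ψ, h⟩ := h
  exact ⟨_, h.comp (Rep.mem hM ha) (hf M hM a ha).2⟩

theorem Dz.refl (M : Set Z) (w : Z) : Dz M w w := ⟨.eq 0 1, fun _ _ => Iff.rfl⟩

theorem Dz.list {M : Set Z} (hM : ZF M) {w : Z} {l : List Z} (h : ∀ x ∈ l, x ∈ M ∧ Dz M w x) :
    Dz M w (enc l) := by
  induction l with
  | nil => exact (Par.out (c := (∅ : Z))).imp fun φ h => (h M hM).2 w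
  | cons x l ih =>
    obtain ⟨φ, h1⟩ := (h x (by simp)).2
    obtain ⟨ψ, h2⟩ := ih fun y hy => h y (by simp [hy])
    exact ⟨_, h1.pair hM (h x (by simp)).1
      (Rep.mem hM (a := l) fun y hy => (h y (by simp [hy])).1) h2⟩

theorem Dz.of_mem {M : Set Z} (hM : ZF M) {p : α} (hp : fits M p) {l : List Z}
    (hl : ∀ x ∈ l, x ∈ M) {x : Z} (hx : x ∈ l) : Dz M (enc (p, l)) x := by
  obtain ⟨i, hi, rfl⟩ := List.getElem_of_mem hx
  have := Dz.uf hM (f := fun q : α × List Z => q.2.getD i ∅) (by fun_prop) (a := (p, l)) ⟨hp, hl⟩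
    (Dz.refl _ _)
  simpa [List.getD_eq_getElem?_getD, hi] using this

theorem Dz.mono {M : Set Z} (hM : ZF M) {p : α} (hp : fits M p) {l l' : List Z}
    (hl : ∀ x ∈ l', x ∈ M) (h : ∀ x ∈ l, x ∈ l') {z : Z} (hz : Dz M (enc (p, l)) z) :
    Dz M (enc (p, l')) z := by
  obtain ⟨φ, h1⟩ := Dz.uf hM uf_fst (a := (p, l')) ⟨hp, hl⟩ (Dz.refl _ _)
  have hl' : fits M l := fun x hx => hl x (h x hx)
  obtain ⟨ψ, h2⟩ := Dz.list hM (l := l) fun x hx => ⟨hl' x hx, Dz.of_mem hM hp hl (h x hx)⟩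
  obtain ⟨χ, h3⟩ := hz
  exact ⟨_, (h1.pair hM (Rep.mem hM hp) (Rep.mem hM hl') h2).comp
    (Rep.mem hM (a := (p, l)) ⟨hp, hl'⟩) h3⟩

theorem env_two (w y : Z) : env w [y] = two y w := env_cons _ _ _

/-- The element of `m` defined by formula number `n` from `w`. -/
noncomputable def dval (m : Z) (n : ℕ) (w : Z) : Z := sUnion
  (ZFSet.sep (fun z => ∀ y ∈ m, Sat (m : Set Z) (Fm.dec n) (env w [y]) ↔ y = z) m)

theorem dval_eq {m w z : Z} {n : ℕ} (hz : z ∈ m) (h : Dfs m (Fm.dec n) w z) : dval m n w = z := by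
  have : ZFSet.sep (fun z => ∀ y ∈ m, Sat (m : Set Z) (Fm.dec n) (env w [y]) ↔ y = z) m = {z} := by
    ext x
    simp only [mem_sep, mem_singleton, env_two]
    exact ⟨fun H => (h x H.1).1 ((H.2 x H.1).2 rfl), fun H => H ▸ ⟨H ▸ hz, H ▸ h⟩⟩
  rw [dval, this, sUnion_singleton]

@[fun_prop] theorem UF.dval {f g : α → Z} {n : α → ℕ} (hf : UF f) (hn : UF n) (hg : UF g) :
    UF (fun a => dval (f a) (n a) (g a)) := by
  unfold MP_b3d6af_lc.dval; fun_prop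

theorem ls {V : Set Z} (hV : Good V) (hac : AC V) {X c x0 : Z} (hX : X ∈ V) (hc : c ∈ V)
    (hx0 : x0 ∈ X) : ∃ F ∈ V, Fn F ∧
    (∀ (n : ℕ) (l : List Z), (∀ x ∈ l, x ∈ X) → ∃ y ∈ X, pair (pair (nat n) (tup l)) y ∈ F) ∧
    ∀ N ∈ V, N ⊆ X → Ctbl V N → (∀ (n : ℕ) (l : List Z) (y : Z), (∀ x ∈ l, x ∈ N) →
      pair (pair (nat n) (tup l)) y ∈ F → y ∈ N) →
      ∃ m ∈ V, ∃ j, Ctbl V m ∧ ZE (m : Set Z) V j ∧ (∃ c' ∈ m, j c' = c) ∧
        ∀ x ∈ X, (x ∈ N ↔ ∃ x' ∈ m, j x' = x) := by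
  obtain ⟨M, hMV, hM1, hM⟩ := hV.ze (hV.1.pair_mem hX hc)
  obtain ⟨hXM, hcM⟩ := hM.hA.of_pair hM1
  obtain ⟨I, hI, hIo, f, hf, he⟩ := hac M hMV
  let p : Z × Z × Z × Z := (M, f, I, c)
  obtain ⟨K, hKV, hK1, hK⟩ := hV.ze (Rep.mem hV.1 (a := p) ⟨hMV, hf, hI, hc⟩)
  have hp : fits (K : Set Z) p := Dec.fits_of hK.hA hK1
  have hMK : ∀ x ∈ M, x ∈ K := hK.hA.trans M hp.1
  have hXK : ∀ x ∈ X, x ∈ K := fun x hx => hMK x (hM.hA.trans X hXM x hx)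
  let F0 : Z → Z := fun q => if dval K (dec ℕ (fst q)) (pair (enc p) (snd q)) ∈ X then
    dval K (dec ℕ (fst q)) (pair (enc p) (snd q)) else x0
  have hF : ∀ (n : ℕ) (l : List Z), (∀ x ∈ l, x ∈ X) → ∀ y,
      pair (pair (nat n) (tup l)) y ∈ restr F0 (prod omega (Seq X)) ↔
        y = if dval K n (enc (p, l)) ∈ X then dval K n (enc (p, l)) else x0 := by
    intro n l hl y
    simp [pair_mem_restr, tup_eq, enc_mem_Seq.2 hl, F0]
  refine ⟨restr F0 (prod omega (Seq X)), UF.mem (f := fun a : Z × Z × Z × Z => restr (fun q =>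
    if dval a.1 (dec ℕ (fst q)) (pair a.2.1 (snd q)) ∈ a.2.2.1 then
      dval a.1 (dec ℕ (fst q)) (pair a.2.1 (snd q)) else a.2.2.2) (prod omega (Seq a.2.2.1)))
    (by fun_prop) hV.1 (K, enc p, X, x0) ⟨hKV, hK.emb.1 _ hK1, hX, hV.1.trans _ hX _ hx0⟩,
    fn_restr _ _, fun n l hl => ⟨_, ?_, (hF n l hl _).2 rfl⟩, fun N hNV hNX hN hcl => ?_⟩
  · split_ifs <;> assumption
  let H : Z := ZFSet.sep (fun z => ∃ n : ℕ, ∃ l : List Z, (∀ x ∈ l, x ∈ N) ∧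
    ∀ y ∈ K, Sat (K : Set Z) (Fm.dec n) (env (pair (enc p) (enc l)) [y]) ↔ y = z) M
  have hHV : H ∈ V := UF.mem (f := fun a : Z × Z × Z × Z => ZFSet.sep (fun z => ∃ n : ℕ,
    ∃ l : List Z, (∀ x ∈ l, x ∈ a.1) ∧ ∀ y ∈ a.2.1, Sat (a.2.1 : Set Z) (Fm.dec n)
      (env (pair a.2.2.1 (enc l)) [y]) ↔ y = z) a.2.2.2) (by fun_prop) hV.1 (N, K, enc p, M)
    ⟨hNV, hKV, hK.emb.1 _ hK1, hMV⟩
  have mH : ∀ z, z ∈ H ↔ z ∈ M ∧ ∃ l : List Z, (∀ x ∈ l, x ∈ N) ∧ Dz K (enc (p, l)) z := by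
    intro z
    simp only [H, mem_sep, env_two]
    refine and_congr_right fun _ => ⟨fun ⟨n, l, h1, h2⟩ => ⟨l, h1, _, h2⟩, fun ⟨l, h1, φ, h2⟩ => ?_⟩
    obtain ⟨n, rfl⟩ := φ.dec_surj
    exact ⟨n, l, h1, h2⟩
  have hNK : ∀ {l : List Z}, (∀ x ∈ l, x ∈ N) → ∀ x ∈ l, x ∈ K := fun h x hx => hXK x (hNX (h x hx))
  have hHl : ∀ e : List Z, (∀ x ∈ e, x ∈ H) → ∃ l : List Z, (∀ x ∈ l, x ∈ N) ∧
      ∀ x ∈ e, Dz K (enc (p, l)) x := by
    intro e he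
    induction e with
    | nil => exact ⟨[], by simp, by simp⟩
    | cons z e ih =>
      obtain ⟨l, h1, h2⟩ := ih fun x hx => he x (by simp [hx])
      obtain ⟨-, l', h3, h4⟩ := (mH z).1 (he z (by simp))
      have h5 : ∀ x ∈ l ++ l', x ∈ N := by
        intro x hx; rcases List.mem_append.1 hx with h | h
        exacts [h1 x h, h3 x h]
      refine ⟨l ++ l', h5, fun x hx => ?_⟩
      rcases List.mem_cons.1 hx with rfl | hx
      · exact h4.mono hK.hA hp (hNK h5) (by simp +contextual)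
      · exact (h2 x hx).mono hK.hA hp (hNK h5) (by simp +contextual)
  have hHM : Elem (H : Set Z) M := by
    refine elem_of_tv (fun z hz => ((mH z).1 hz).1) fun φ v hv ⟨x, hx, h⟩ => ?_
    obtain ⟨e, h1, h2⟩ := exists_list φ ∅ v
    obtain ⟨n, rfl⟩ := φ.dec_surj
    have h3 : ∀ x ∈ e, x ∈ H := fun x hx => by obtain ⟨i, rfl⟩ := h1 x hx; exact hv i
    obtain ⟨l, h4, h5⟩ := hHl e h3
    have h6 : ∀ x ∈ e, x ∈ K := fun x hx => hMK x ((mH x).1 (h3 x hx)).1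
    have h7 := lst_mem (s := ZFSet.sep (fun x => Sat (M : Set Z) (Fm.dec n) (env ∅ (x :: e))) M)
      hIo he (mem_sep.2 ⟨hx, (h2 M id [x]).1 h⟩) hx
    refine ⟨_, (mH _).2 ⟨(mem_sep.1 h7).1, l, h4, ?_⟩, (h2 M id [_]).2 (mem_sep.1 h7).2⟩
    obtain ⟨φ, h8⟩ := Dz.uf hK.hA uf_fst (a := (p, l)) ⟨hp, hNK h4⟩ (Dz.refl _ _)
    obtain ⟨ψ, h9⟩ := Dz.list hK.hA (l := e) fun x hx => ⟨h6 x hx, h5 x hx⟩
    exact Dz.uf hK.hA (f := fun q : (Z × Z × Z × Z) × List Z => lst q.1.2.1 q.1.2.2.1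
      (ZFSet.sep (fun x => Sat (q.1.1 : Set Z) (Fm.dec n) (env ∅ (x :: q.2))) q.1.1))
      (by fun_prop) (a := (p, e)) ⟨hp, h6⟩ ⟨_, h8.pair hK.hA hK1 (Rep.mem hK.hA (a := e) h6) h9⟩
  have hHV' : Emb (H : Set Z) V fun x => x := hHM.comp hM.emb
  have hcH : c ∈ H := (mH c).2 ⟨hcM, [], by simp, Dz.uf hK.hA
    (f := fun q : (Z × Z × Z × Z) × List Z => q.1.2.2.2) (by fun_prop) (a := (p, []))
    ⟨hp, by simp [fits_list]⟩ (Dz.refl _ _)⟩
  obtain ⟨hT, j, hj, hj'⟩ := exists_collapse (H := H) fun x hx y hy h => by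
    have := (hHV'.2 ((Fm.mem 0 1).iff (.mem 0 2)).all _ (two_mem hx hy)).1 (by simpa using h)
    exact (Tr.ext hV.1.trans (hHV'.1 x hx) (hV.1.trans y (hHV'.1 y hy))).1 (by simpa using this)
  have hc' : col H c ∈ img (col H) H := mem_img.2 ⟨c, hcH, rfl⟩
  refine ⟨img (col H) H, UF.mem (f := fun H => img (col H) H) (by fun_prop) hV.1 H hHV, j, ?_,
    ⟨(hj.comp hHV').zf hT hc' hV.1, hV.1, hj.comp hHV'⟩, ⟨_, hc', hj' c hcH⟩, fun x hx => ?_⟩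
  · obtain ⟨e, heV, h1⟩ := hN.enum
    refine ctbl_of_uf hV.1 (g := fun (a : Z × Z × Z × Z) k => col a.1 (dval a.2.1 k.unpair.1
      (pair a.2.2.1 (enc ((dl k.unpair.2).map fun i => app a.2.2.2 (nat i)))))) (by fun_prop)
      (H, K, enc p, e) (by exact ⟨hHV, hKV, hK.emb.1 _ hK1, heV⟩) fun y hy => ?_
    obtain ⟨z, hz, rfl⟩ := mem_img.1 hy
    obtain ⟨h2, l, h3, φ, h4⟩ := (mH z).1 hz
    obtain ⟨n, rfl⟩ := φ.dec_surj
    obtain ⟨r, rfl⟩ : ∃ r : List ℕ, (r.map fun i => app e (nat i)) = l := by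
      clear h4
      induction l with
      | nil => exact ⟨[], rfl⟩
      | cons x l ih =>
        obtain ⟨r, rfl⟩ := ih fun y hy => h3 y (by simp [hy])
        obtain ⟨i, rfl⟩ := h1 x (h3 x (by simp))
        exact ⟨i :: r, rfl⟩
    exact ⟨Nat.pair n (Encodable.encode r), by simpa using congrArg _ (dval_eq (hMK z h2) h4)⟩
  · constructor
    · intro hxN
      have : x ∈ H := (mH x).2 ⟨hM.hA.trans X hXM x hx, [x], by simpa,
        Dz.of_mem hK.hA hp (by simpa using hXK x hx) (by simp)⟩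
      exact ⟨_, mem_img.2 ⟨x, this, rfl⟩, hj' x this⟩
    · rintro ⟨y, hy, rfl⟩
      obtain ⟨h2, l, h3, φ, h4⟩ := (mH _).1 (hj.1 y hy)
      obtain ⟨n, rfl⟩ := φ.dec_surj
      refine hcl n l _ h3 ((hF n l (fun x hx => hNX (h3 x hx)) _).2 ?_)
      rw [dval_eq (hMK _ h2) h4, if_pos hx]

theorem reflect [Dec α] {V : Set Z} (hV : Good V) (hac : AC V) {a : α} (ha : fits V a) :
    ∃ m ∈ V, ∃ j, Ctbl V m ∧ ZE (m : Set Z) V j ∧ ∃ a', Cr m V j a' a := by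
  have h0 : ({∅} : Z) ∈ V := hV.1.sing_mem hV.1.empty_mem
  obtain ⟨F, -, h1, h2, h3⟩ := ls hV hac h0 (Rep.mem hV.1 ha) (mem_singleton.2 rfl)
  obtain ⟨m, hm, j, h4, h5, ⟨c, hc, e⟩, -⟩ := h3 _ h0 subset_rfl
    ((ctbl_empty hV.1).insert hV.1 hV.1.empty_mem |>.sub (by simp)) fun n l y hl hy => by
      obtain ⟨z, hz, h⟩ := h2 n l hl
      rwa [h1 _ _ _ hy h]
  obtain ⟨a', -, h6⟩ := h5.of_enc hc e
  exact ⟨m, hm, j, h4, h5, a', h6⟩

theorem ZE.fst {A B : Set Z} {j : Z → Z} (h : ZE A B j) {a a' : α × β} (H : Cr A B j a a') :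
    Cr A B j a.1 a'.1 := h.uf uf_fst H

theorem ZE.snd {A B : Set Z} {j : Z → Z} (h : ZE A B j) {a a' : α × β} (H : Cr A B j a a') :
    Cr A B j a.2 a'.2 := h.uf uf_snd H

/-- A subset of a countable ordinal is fixed by an elementary embedding. -/
theorem ZE.eq_of_sub {A B : Set Z} {j : Z → Z} (h : ZE A B j) {x y : Z} (H : Cr A B j x y)
    {δ : Z} (hδ : δ ∈ B) (ho : IsOrdinal δ) (hc : Ctbl B δ) (hs : y ⊆ δ) : x = y := by
  obtain ⟨t, ht, h1, h2, h3⟩ := (h.iff (P := fun p : Mo × Z => ∃ t ∈ p.1.M, IsTransitive t ∧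
    Ctbl p.1.M t ∧ p.2 ⊆ t) (by fun_prop) (h.prod h.mo H)).2 ⟨δ, hδ, ho.isTransitive, hc, hs⟩
  exact (h.fix_sub h1 h2 x H.1 h3).symm.trans H.2.2

theorem ZE.eq_of_ord {A B : Set Z} {j : Z → Z} (h : ZE A B j) {x y : Z} (H : Cr A B j x y)
    (ho : IsOrdinal y) (hc : Ctbl B y) : x = y := h.eq_of_sub H H.2.1 ho hc subset_rfl

theorem ZF.ctbl_mem {m : Z} {V : Set Z} (hm : ZF (m : Set Z)) (hc : Ctbl V m) {a : Z}
    (ha : a ∈ m) : Ctbl V a := hc.sub (hm.trans a ha)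

end Pool.Agent.Lib.MP_b3d6af_lc
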