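import Pool.Agent.Lib.MP_b3d6af_lc.Hull

/-!
The hierarchy `L_γ[b]`, its canonical well-ordering, and the inner model `L[b]` of a good model.
-/

set_option linter.unusedSectionVars false
set_option linter.unusedVariables false

namespace Pool.Agent.Lib.MP_b3d6af_lc

open ZFSet Classical

universe u v w

variable {α : Type u} {β : Type v} [Rep α] [Rep β]

/-- The subset of `X` defined by formula number `n` with parameters `b ∩ X` and `l`. -/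
noncomputable def dset (X b : Z) (n : ℕ) (l : List Z) : Z :=
  ZFSet.sep (fun x => Sat (X : Set Z) (Fm.dec n) (env ∅ (x :: (b ∩ X) :: l))) X

@[fun_prop] theorem UF.dset {f g : α → Z} {n : α → ℕ} {l : α → List Z} (hf : UF f) (hg : UF g)
    (hn : UF n) (hl : UF l) : UF (fun a => dset (f a) (g a) (n a) (l a)) := by
  unfold MP_b3d6af_lc.dset; fun_prop

/-- Definable power set relative to `b`. -/
noncomputable def Df (b X : Z) : Z :=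
  ZFSet.iUnion fun n : ℕ => img (fun z => dset X b n (dec (List Z) z)) (Seq X)

@[fun_prop] theorem UF.Df {f g : α → Z} (hf : UF f) (hg : UF g) : UF (fun a => Df (f a) (g a)) := by
  unfold MP_b3d6af_lc.Df; fun_prop

theorem mem_Df {b X y : Z} : y ∈ Df b X ↔ ∃ n l, (∀ x ∈ l, x ∈ X) ∧ y = dset X b n l := by
  simp only [Df, mem_iUnion, mem_img, mem_Seq]
  constructor
  · rintro ⟨n, _, ⟨l, hl, rfl⟩, rfl⟩
    exact ⟨n, l, hl, by simp⟩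
  · rintro ⟨n, l, hl, rfl⟩
    exact ⟨n, _, ⟨l, hl, rfl⟩, by simp⟩

theorem mem_Df_of {b X y : Z} (φ : Fm) (l : List Z) (hl : ∀ x ∈ l, x ∈ X) (hy : y ⊆ X)
    (h : ∀ x ∈ X, x ∈ y ↔ Sat (X : Set Z) φ (cons x (cons (b ∩ X) (env ∅ l)))) : y ∈ Df b X := by
  obtain ⟨n, rfl⟩ := φ.dec_surj
  refine mem_Df.2 ⟨n, l, hl, ZFSet.ext fun x => ?_⟩
  simp only [dset, mem_sep, env_cons]
  exact ⟨fun hx => ⟨hy hx, (h x (hy hx)).1 hx⟩, fun hx => (h x hx.1).2 hx.2⟩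

theorem Df_sub {b X y : Z} (h : y ∈ Df b X) : y ⊆ X := by
  obtain ⟨n, l, -, rfl⟩ := mem_Df.1 h
  exact sep_subset

/-- The hierarchy `L_γ[b]`. -/
noncomputable def L (b : Z) : Z → Z :=
  wrec (fun x => x) fun _ f => sUnion (img (fun p => Df b (snd p)) f)

@[fun_prop] theorem UF.L {f g : α → Z} (hf : UF f) (hg : UF g) : UF (fun a => L (f a) (g a)) :=
  ((uf_wrec (pred := fun (_ : Z) x => x) (G := fun b _ f => ZFSet.sUnion (MP_b3d6af_lc.img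
    (fun p => MP_b3d6af_lc.Df b (MP_b3d6af_lc.snd p)) f)) (by fun_prop) (by fun_prop)).comp
    (hf.prodMk hg) :)

theorem mem_L {b γ x : Z} : x ∈ L b γ ↔ ∃ β ∈ γ, x ∈ Df b (L b β) := by
  rw [L, wrec_eq _ (ac_of_sub (fun _ => subset_rfl) _)]
  simp [restr]

theorem L_mono {b γ γ' : Z} (h : γ ⊆ γ') : L b γ ⊆ L b γ' := fun x hx =>
  mem_L.2 ((mem_L.1 hx).imp fun _ h' => ⟨h h'.1, h'.2⟩)

theorem L_trans (b γ : Z) : IsTransitive (L b γ) := by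
  induction γ using ZFSet.inductionOn with
  | h γ ih =>
    intro x hx y hy
    obtain ⟨β, h1, h2⟩ := mem_L.1 hx
    have h3 := Df_sub h2 hy
    exact mem_L.2 ⟨β, h1, mem_Df_of (.mem 0 2) [y] (by simpa) (ih β h1 y h3) (by simp)⟩

theorem L_tr (b γ : Z) : Tr (L b γ : Set Z) := fun a ha x hx => L_trans b γ a ha hx

theorem L_mem {b γ β : Z} (h : β ∈ γ) : L b β ∈ L b γ :=
  mem_L.2 ⟨β, h, mem_Df_of .top [] (by simp) subset_rfl (by simp)⟩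

theorem exists_ordF : ∃ φ : Fm, ∀ M, Tr M → ∀ v, v 0 ∈ M → (Sat M φ v ↔ IsOrdinal (v 0)) := by
  let t : Fm := ((Fm.mem 0 1).imp ((Fm.mem 0 1).imp (.mem 0 2)).all).all
  have ht : ∀ M, Tr M → ∀ v, v 0 ∈ M → (Sat M t v ↔ IsTransitive (v 0)) := fun M h v hv => by
    simp only [t, sat_all, sat_imp, sat_mem, cons_zero, cons_one, cons_two]
    exact ⟨fun H y hy z hz => H y (h _ hv _ hy) hy z (h _ (h _ hv _ hy) _ hz) hz,
      fun H y _ hy z _ hz => H y hy hz⟩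
  refine ⟨t.and ((Fm.mem 0 1).imp t).all, fun M h v hv => ?_⟩
  rw [isOrdinal_iff_forall_mem_isTransitive, sat_and, ht M h v hv, sat_all]
  refine and_congr_right fun _ => ⟨fun H y hy => ?_, fun H y hy h1 => ?_⟩
  · exact (ht M h (cons y v) (h _ hv _ hy)).1 (H y (h _ hv _ hy) hy)
  · exact (ht M h (cons y v) hy).2 (H y h1)

theorem ord_mem_L {b γ : Z} (hγ : IsOrdinal γ) : ∀ {a}, IsOrdinal a → (a ∈ L b γ ↔ a ∈ γ) := by
  induction γ using ZFSet.inductionOn with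
  | h γ ih =>
    intro a ha
    constructor
    · intro h
      obtain ⟨β, h1, h2⟩ := mem_L.1 h
      exact ha.mem_of_subset_of_mem hγ
        (fun η hη => (ih β h1 (hγ.mem h1) (ha.mem hη)).1 (Df_sub h2 hη)) h1
    · intro h
      obtain ⟨φ, hφ⟩ := exists_ordF
      refine mem_L.2 ⟨a, h, mem_Df_of φ [] (by simp)
        (fun η hη => (ih a h ha (ha.mem hη)).2 hη) fun x hx => ?_⟩
      rw [hφ _ (L_tr b a) _ (by simpa)]
      exact ⟨ha.mem, fun h1 => (ih a h ha h1).1 hx⟩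

theorem isOrdinal_sUnion {s : Z} (h : ∀ x ∈ s, IsOrdinal x) : IsOrdinal (sUnion s) :=
  isOrdinal_iff_forall_mem_isOrdinal.2 ⟨IsTransitive.sUnion' fun y hy => (h y hy).isTransitive,
    fun y hy => by
      obtain ⟨z, h1, h2⟩ := mem_sUnion.1 hy
      exact (h z h1).mem h2⟩

theorem isOrdinal_union {a b : Z} (ha : IsOrdinal a) (hb : IsOrdinal b) : IsOrdinal (a ∪ b) :=
  isOrdinal_sUnion (s := {a, b}) (by simp [ha, hb])

theorem isOrdinal_nat (n : ℕ) : IsOrdinal (nat n) := by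
  induction n with
  | zero => exact isOrdinal_empty
  | succ n ih => exact isOrdinal_succ ih

theorem isOrdinal_omega : IsOrdinal omega.{0} :=
  isOrdinal_iff_forall_mem_isOrdinal.2 ⟨fun y hy z hz => by
    obtain ⟨n, rfl⟩ := mem_omega.1 hy
    obtain ⟨k, -, rfl⟩ := mem_nat.1 hz
    simp, fun y hy => by obtain ⟨n, rfl⟩ := mem_omega.1 hy; exact isOrdinal_nat n⟩

/-- The ordinals of a set. -/
noncomputable def ords (m : Z) : Z := ZFSet.sep IsOrdinal m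

@[simp] theorem mem_ords {m x : Z} : x ∈ ords m ↔ x ∈ m ∧ IsOrdinal x := mem_sep

theorem isOrdinal_ords {m : Z} (h : Tr (m : Set Z)) : IsOrdinal (ords m) :=
  isOrdinal_iff_forall_mem_isOrdinal.2 ⟨fun y hy z hz => mem_ords.2
    ⟨h _ (mem_ords.1 hy).1 _ hz, (mem_ords.1 hy).2.mem hz⟩, fun y hy => (mem_ords.1 hy).2⟩

@[fun_prop] theorem UF.ords {f : α → Z} (hf : UF f) : UF (fun a => ords (f a)) := by
  unfold MP_b3d6af_lc.ords; fun_prop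

theorem ZF.succ_mem {M : Set Z} (h : ZF M) {a : Z} (ha : a ∈ M) : insert a a ∈ M :=
  UF.mem (f := fun a : Z => insert a a) (by fun_prop) h a ha

theorem ZF.union_mem {M : Set Z} (h : ZF M) {a b : Z} (ha : a ∈ M) (hb : b ∈ M) : a ∪ b ∈ M :=
  UF.mem (f := fun p : Z × Z => p.1 ∪ p.2) (by fun_prop) h (a, b) ⟨ha, hb⟩

theorem ZF.inter_mem {M : Set Z} (h : ZF M) {a b : Z} (ha : a ∈ M) (hb : b ∈ M) : a ∩ b ∈ M :=
  UF.mem (f := fun p : Z × Z => p.1 ∩ p.2) (by fun_prop) h (a, b) ⟨ha, hb⟩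

theorem ZF.L_mem {M : Set Z} (h : ZF M) {a b : Z} (ha : a ∈ M) (hb : b ∈ M) : L a b ∈ M :=
  UF.mem (f := fun p : Z × Z => L p.1 p.2) (by fun_prop) h (a, b) ⟨ha, hb⟩

/-- The class `L[b]` of the model `V`. -/
def LM (V : Set Z) (b : Z) : Set Z := {x | ∃ γ ∈ V, IsOrdinal γ ∧ x ∈ L b γ}

theorem uf_LM : UF (fun p : (Mo × Z) × Z => p.2 ∈ LM p.1.1.M p.1.2) := by
  simp only [LM, Set.mem_ofPred_eq]; fun_prop

theorem LM_sub {V : Set Z} (hV : ZF V) {b : Z} (hb : b ∈ V) : LM V b ⊆ V :=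
  fun x ⟨γ, h1, _, h2⟩ => hV.trans _ (hV.L_mem hb h1) _ h2

theorem LM_ord {V : Set Z} (hV : ZF V) (b : Z) {a : Z} (ha : a ∈ V) (ho : IsOrdinal a) :
    a ∈ LM V b :=
  ⟨_, hV.succ_mem ha, isOrdinal_succ ho, (ord_mem_L (isOrdinal_succ ho) ho).2 (mem_insert _ _)⟩

theorem LM_Df {V : Set Z} (hV : ZF V) {b γ x : Z} (h1 : γ ∈ V) (h2 : IsOrdinal γ)
    (h : x ∈ Df b (L b γ)) : x ∈ LM V b :=
  ⟨_, hV.succ_mem h1, isOrdinal_succ h2, mem_L.2 ⟨γ, mem_insert _ _, h⟩⟩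

theorem LM_L {V : Set Z} (hV : ZF V) (b : Z) {γ : Z} (h1 : γ ∈ V) (h2 : IsOrdinal γ) :
    L b γ ∈ LM V b := ⟨_, hV.succ_mem h1, isOrdinal_succ h2, L_mem (mem_insert _ _)⟩

theorem LM_eq {m : Z} (hm : ZF (m : Set Z)) (b : Z) : LM m b = L b (ords m) := by
  ext x
  constructor
  · rintro ⟨γ, h1, h2, h3⟩
    exact L_mono (fun y hy => mem_ords.2 ⟨hm.trans _ h1 _ hy, h2.mem hy⟩) h3
  · intro h
    obtain ⟨β, h1, h2⟩ := mem_L.1 h
    exact LM_Df hm (mem_ords.1 h1).1 (mem_ords.1 h1).2 h2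

theorem LM_bound {V : Set Z} (hV : ZF V) {b c : Z} (hb : b ∈ V) (hc : c ∈ V)
    (h : ∀ x ∈ c, x ∈ LM V b) : ∃ γ ∈ V, IsOrdinal γ ∧ c ⊆ L b γ := by
  obtain ⟨d, hd, H⟩ := hV.collect (Q := fun (b : Z) x γ => IsOrdinal γ ∧ x ∈ L b γ) (by fun_prop)
    b hb hc h
  refine ⟨sUnion (ords d), UF.mem (f := fun d => sUnion (ords d)) (by fun_prop) hV d hd,
    isOrdinal_sUnion (by simp), fun x hx => ?_⟩
  obtain ⟨γ, h1, h2, h3⟩ := H x hx
  exact L_mono (fun y hy => mem_sUnion.2 ⟨γ, by simp [h1, h2], hy⟩) h3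

theorem LM_self {V : Set Z} (hV : ZF V) {b : Z} (hb : b ∈ V) (h : ∀ x ∈ b, x ∈ LM V b) :
    b ∈ LM V b := by
  obtain ⟨γ, h1, h2, h3⟩ := LM_bound hV hb hb h
  exact LM_Df hV h1 h2 (mem_Df_of (.mem 0 1) [] (by simp) h3 (by simp +contextual))

theorem ZE.mem_LM {A B : Set Z} {j : Z → Z} (h : ZE A B j) {b x : Z} (hb : b ∈ A) (hx : x ∈ A) :
    x ∈ LM A b ↔ j x ∈ LM B (j b) :=
  h.iff uf_LM (h.prod (h.prod h.mo (h.set hb)) (h.set hx))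

theorem ZE.emb_LM {A B : Set Z} {j : Z → Z} (h : ZE A B j) {b : Z} (hb : b ∈ A) :
    Emb (LM A b) (LM B (j b)) j := by
  have hs := LM_sub h.hA hb
  refine emb_of_list (fun x hx => (h.mem_LM hb (hs hx)).1 hx) fun n d hd l hl => ?_
  exact h.iff (uf_satC (K := fun p : Mo × Z => LM p.1.M p.2) uf_LM
    (fun M hM a ha => by rw [show a.1.M = M from ha.1]; exact LM_sub hM ha.2) (Fm.dec n))
    (h.prod (h.prod h.mo (h.set hb)) (h.prod (h.set (hs hd)) (h.list fun x hx => hs (hl x hx))))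

theorem Good.reflect_LM {V : Set Z} (hV : Good V) {b : Z} (hb : b ∈ V) {l : List Z}
    (hl : ∀ x ∈ l, x ∈ LM V b) : ∃ γ ∈ V, IsOrdinal γ ∧ ∅ ∈ L b γ ∧ (∀ x ∈ l, x ∈ L b γ) ∧
      Elem (L b γ : Set Z) (LM V b) := by
  obtain ⟨m, hm, h1, h2⟩ := hV.ze (Rep.mem hV.1 (a := (b, l))
    ⟨hb, fun x hx => LM_sub hV.1 hb (hl x hx)⟩)
  obtain ⟨h3, h4⟩ : fits (m : Set Z) (b, l) := Dec.fits_of h2.hA h1
  refine ⟨ords m, UF.mem (f := ords) (by fun_prop) hV.1 m hm, isOrdinal_ords h2.hA.trans, ?_⟩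
  have e := LM_eq h2.hA b
  refine ⟨?_, fun x hx => ?_, e ▸ h2.emb_LM h3⟩
  · exact (e ▸ LM_ord h2.hA b h2.hA.empty_mem isOrdinal_empty : ∅ ∈ (L b (ords m) : Set Z))
  · exact (e ▸ (h2.mem_LM h3 (h4 x hx)).2 (hl x hx) : x ∈ (L b (ords m) : Set Z))

theorem Good.zf_LM {V : Set Z} (hV : Good V) {b : Z} (hb : b ∈ V) : ZF (LM V b) := by
  have ht : Tr (LM V b) := fun a ⟨γ, h1, h2, h3⟩ x hx => ⟨γ, h1, h2, L_trans b γ a h3 hx⟩
  refine zf_iff.2 ⟨ht, fun a ha c hc => ?_, fun a ha => ?_,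
    LM_ord hV.1 b hV.1.inf isOrdinal_omega, fun a ha => ?_, fun n l hl a ha => ?_,
    fun n l hl a ha H => ?_⟩
  · obtain ⟨γ, h1, h2, -, h3, -⟩ := hV.reflect_LM hb (l := [a, c]) (by simp [ha, hc])
    exact LM_Df hV.1 h1 h2 (mem_Df_of ((Fm.eq 0 2).or (.eq 0 3)) [a, c] h3
      (fun x hx => h3 x (by simpa using hx)) (by simp))
  · obtain ⟨γ, h1, h2, h3⟩ := ha
    refine LM_Df hV.1 h1 h2 (mem_Df_of ((Fm.mem 0 3).and (.mem 1 0)).ex [a] (by simpa)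
      (fun x hx => ?_) fun x _ => ?_)
    · obtain ⟨y, h4, h5⟩ := mem_sUnion.1 hx
      exact L_trans b γ _ (L_trans b γ _ h3 h4) h5
    · simp only [mem_sUnion, sat_ex, sat_and, sat_mem, env_cons, cons_zero, cons_one, cons_three,
        cons_two]
      exact ⟨fun ⟨y, h⟩ => ⟨y, L_trans b γ _ h3 h.1, h⟩, fun ⟨y, _, h⟩ => ⟨y, h⟩⟩
  · obtain ⟨γ, h1, h2, h3⟩ := LM_bound hV.1 hb (c := ZFSet.sep (· ∈ LM V b) (powM ⟨V⟩ a))
      (UF.mem (f := fun p : (Mo × Z) × Z => ZFSet.sep (· ∈ LM p.1.1.M p.1.2) (powM p.1.1 p.2))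
        (UF.sep (by fun_prop) (uf_LM.comp (g := fun q : ((Mo × Z) × Z) × Z => (q.1.1, q.2))
          (by fun_prop))) hV.1 ((⟨V⟩, b), a) ⟨⟨rfl, hb⟩, LM_sub hV.1 hb ha⟩) (by simp)
    exact ⟨_, LM_L hV.1 b h1 h2, fun x hx h => h3 (by simp [hx, h, LM_sub hV.1 hb hx])⟩
  · obtain ⟨γ, h1, h2, h0, h3, h4⟩ := hV.reflect_LM hb (l := a :: l) (by simpa [ha] using hl)
    have h5 := L_trans b γ a (h3 a (by simp))
    refine LM_Df hV.1 h1 h2 (mem_Df_of ((Fm.mem 0 2).and ((Fm.dec n).ren (cons 0 (· + 3))))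
      (a :: l) h3 (fun x hx => h5 (mem_sep.1 hx).1) fun x hx => ?_)
    simp only [mem_sep, sat_and, sat_mem, env_cons, cons_zero, sat_ren,
      comp_cons, cons_succ]
    exact and_congr_right fun _ => (h4.2 _ _ (cons_mem hx (env_mem h0
      fun y hy => h3 y (by simp [hy])))).symm
  · obtain ⟨γ, h1, h2, h0, h3, h4⟩ := hV.reflect_LM hb (l := a :: l) (by simpa [ha] using hl)
    have h5 := L_trans b γ a (h3 a (by simp))
    refine ⟨_, LM_L hV.1 b h1 h2, fun x hx => ?_⟩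
    simp only [env_cons] at H ⊢
    exact h4.witness (cons_mem (h5 hx) (env_mem h0 fun y hy => h3 y (by simp [hy]))) (H x hx)

theorem Good.good_LM {V : Set Z} (hV : Good V) {b : Z} (hb : b ∈ V) : Good (LM V b) := by
  refine ⟨hV.zf_LM hb, fun x hx => ?_⟩
  obtain ⟨γ, h1, h2, -, h3, h4⟩ := hV.reflect_LM hb (l := [x]) (by simpa)
  exact ⟨_, LM_L hV.1 b h1 h2, L_trans b γ, h3 x (by simp), h4⟩

/-! Well-orderings -/

/-- `r` well-orders `X`. -/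
def WO (r X : Z) : Prop :=
  (∀ S : Set Z, S ⊆ X → S.Nonempty → ∃ x ∈ S, ∀ y ∈ S, y ≠ x → pair x y ∈ r) ∧
    ∀ x y, pair x y ∈ r → pair y x ∉ r

theorem enum_of_wo {M : Set Z} (hM : ZF M) {r X : Z} (hr : r ∈ M) (hX : X ∈ M) (h : WO r X) :
    ∃ I ∈ M, IsOrdinal I ∧ ∃ f ∈ M, Enum f I X := by
  let pred : Z → Z := fun x => ZFSet.sep (fun y => pair y x ∈ r) X
  have hA : ∀ x ∈ X, Ac pred x := by
    by_contra! H
    obtain ⟨x, hx, h1⟩ := h.1 {x | x ∈ X ∧ ¬ Ac pred x} (fun x hx => hx.1) H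
    refine hx.2 (Ac.mk fun y hy => by_contra fun hn => ?_)
    obtain ⟨h2, h3⟩ := mem_sep.1 hy
    exact h.2 _ _ h3 (h1 y ⟨h2, hn⟩ fun e => h.2 _ _ h3 (e ▸ h3))
  have ht : ∀ x ∈ X, ∀ y ∈ X, x ≠ y → pair x y ∈ r ∨ pair y x ∈ r := fun x hx y hy hn => by
    obtain ⟨z, hz, h1⟩ := h.1 {x, y} (by rintro _ (rfl | rfl) <;> assumption) ⟨x, by simp⟩
    rcases hz with rfl | rfl
    exacts [Or.inl (h1 y (by simp) hn.symm), Or.inr (h1 x (by simp) hn)]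
  have htr : ∀ x ∈ X, ∀ y ∈ X, ∀ z ∈ X, pair x y ∈ r → pair y z ∈ r → pair x z ∈ r := by
    intro x hx y hy z hz h1 h2
    obtain ⟨w, hw, h3⟩ := h.1 {x, y, z} (by rintro _ (rfl | rfl | rfl) <;> assumption) ⟨x, by simp⟩
    rcases hw with rfl | rfl | rfl
    · exact h3 z (by simp) fun e => h.2 _ _ h1 (e ▸ h2)
    · exact absurd (h3 x (by simp) fun e => h.2 _ _ h1 (e ▸ h1)) (h.2 _ _ h1)
    · exact absurd (h3 y (by simp) fun e => h.2 _ _ h2 (e ▸ h2)) (h.2 _ _ h2)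
  refine ⟨img (clp pred) X, UF.mem (f := fun p : Z × Z => img (clp fun x =>
    ZFSet.sep (fun y => pair y x ∈ p.1) p.2) p.2) (by fun_prop) hM (r, X) ⟨hr, hX⟩, ?_,
    img (fun x => pair (clp pred x) x) X, UF.mem (f := fun p : Z × Z => img (fun x => pair (clp
      (fun x => ZFSet.sep (fun y => pair y x ∈ p.1) p.2) x) x) p.2) (by fun_prop) hM (r, X)
      ⟨hr, hX⟩, fun i x y h1 h2 => ?_, fun x hx =>
        ⟨_, mem_img.2 ⟨x, hx, rfl⟩, mem_img.2 ⟨x, hx, rfl⟩⟩⟩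
  · refine isOrdinal_iff_forall_mem_isTransitive.2 ⟨fun a ha z hz => ?_, fun a ha c hc z hz => ?_⟩
    · obtain ⟨x, hx, rfl⟩ := mem_img.1 ha
      obtain ⟨y, hy, rfl⟩ := (mem_clp (hA x hx)).1 hz
      exact mem_img.2 ⟨y, (mem_sep.1 hy).1, rfl⟩
    · obtain ⟨x, hx, rfl⟩ := mem_img.1 ha
      obtain ⟨y, hy, rfl⟩ := (mem_clp (hA x hx)).1 hc
      obtain ⟨h1, h2⟩ := mem_sep.1 hy
      obtain ⟨w, hw, rfl⟩ := (mem_clp (hA y h1)).1 hz
      obtain ⟨h3, h4⟩ := mem_sep.1 hw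
      exact (mem_clp (hA x hx)).2 ⟨w, mem_sep.2 ⟨h3, htr w h3 y h1 x hx h4 h2⟩, rfl⟩
  · obtain ⟨x', hx, e1⟩ := mem_img.1 h1
    obtain ⟨y', hy, e2⟩ := mem_img.1 h2
    obtain ⟨rfl, rfl⟩ := pair_inj.1 e1
    obtain ⟨e, rfl⟩ := pair_inj.1 e2
    by_contra hn
    rcases ht _ hx _ hy hn with h3 | h3
    · exact mem_irrefl _ (e ▸ (mem_clp (hA _ hy)).2 ⟨_, mem_sep.2 ⟨hx, h3⟩, rfl⟩)
    · exact mem_irrefl _ (e ▸ (mem_clp (hA _ hx)).2 ⟨_, mem_sep.2 ⟨hy, h3⟩, e⟩)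

/-- The least element of `S`. -/
noncomputable def wmin (r S : Z) : Z :=
  sUnion (ZFSet.sep (fun x => ∀ y ∈ S, y ≠ x → pair x y ∈ r) S)

@[fun_prop] theorem UF.wmin {f g : α → Z} (hf : UF f) (hg : UF g) :
    UF (fun a => wmin (f a) (g a)) := by
  unfold MP_b3d6af_lc.wmin; fun_prop

theorem wmin_mem {r X S x : Z} (h : WO r X) (hS : S ⊆ X) (hx : x ∈ S) : wmin r S ∈ S := by
  obtain ⟨y, hy, h1⟩ := h.1 S hS ⟨x, hx⟩
  have : ZFSet.sep (fun x => ∀ y ∈ S, y ≠ x → pair x y ∈ r) S = {y} := by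
    ext z
    simp only [mem_sep, mem_singleton]
    exact ⟨fun H => by_contra fun hn => h.2 _ _ (h1 z H.1 hn) (H.2 y hy (Ne.symm hn)),
      fun H => H ▸ ⟨H ▸ hy, H ▸ h1⟩⟩
  rwa [wmin, this, sUnion_singleton]

/-- Lexicographic comparison. -/
def lexL (r : Z) (l l' : List Z) : Prop :=
  ∃ i, (∀ k < i, l.getD k ∅ = l'.getD k ∅) ∧ pair (l.getD i ∅) (l'.getD i ∅) ∈ r

/-- Comparison of codes. -/
def cl (r : Z) (n : ℕ) (l : List Z) (n' : ℕ) (l' : List Z) : Prop :=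
  n < n' ∨ n = n' ∧ (l.length < l'.length ∨ l.length = l'.length ∧ lexL r l l')

theorem lex_min {r X : Z} (h : WO r X) (k : ℕ) : ∀ C : Set (List Z),
    (∀ l ∈ C, l.length = k ∧ ∀ x ∈ l, x ∈ X) → C.Nonempty →
      ∃ l ∈ C, ∀ l' ∈ C, l' ≠ l → lexL r l l' := by
  induction k with
  | zero =>
    rintro C hC ⟨l, hl⟩
    exact ⟨l, hl, fun l' hl' hn => absurd ((List.length_eq_zero_iff.1 (hC l' hl').1).trans
      (List.length_eq_zero_iff.1 (hC l hl).1).symm) hn⟩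
  | succ k ih =>
    rintro C hC ⟨l, hl⟩
    obtain ⟨x, ⟨t, ht⟩, h1⟩ := h.1 {x | ∃ t, x :: t ∈ C}
      (fun x ⟨t, ht⟩ => (hC _ ht).2 x (by simp)) (by
        obtain ⟨x, t, rfl⟩ := List.exists_cons_of_length_eq_add_one (hC l hl).1
        exact ⟨x, t, hl⟩)
    obtain ⟨t0, h2, h3⟩ := ih {t | x :: t ∈ C} (fun t ht => ⟨by simpa using (hC _ ht).1,
      fun y hy => (hC _ ht).2 y (by simp [hy])⟩) ⟨t, ht⟩
    refine ⟨_, h2, fun l' hl' hn => ?_⟩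
    obtain ⟨y, t', rfl⟩ := List.exists_cons_of_length_eq_add_one (hC l' hl').1
    by_cases e : y = x
    · subst e
      obtain ⟨i, h4, h5⟩ := h3 t' hl' (by simpa using hn)
      refine ⟨i + 1, ?_, h5⟩
      rintro (_ | k) hk
      exacts [rfl, h4 k (by omega)]
    · exact ⟨0, by simp, h1 y ⟨t', hl'⟩ e⟩

theorem cl_min {r X : Z} (h : WO r X) (C : Set (ℕ × List Z)) (hC : ∀ c ∈ C, ∀ x ∈ c.2, x ∈ X)
    (hn : C.Nonempty) : ∃ c ∈ C, ∀ c' ∈ C, c' ≠ c → cl r c.1 c.2 c'.1 c'.2 := by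
  obtain ⟨c1, h1, h2⟩ := (measure fun c : ℕ × List Z => c.1).wf.has_min C hn
  obtain ⟨c2, h3, h4⟩ := (measure fun c : ℕ × List Z => c.2.length).wf.has_min
    {c ∈ C | c.1 = c1.1} ⟨c1, h1, rfl⟩
  obtain ⟨l, h5, h6⟩ := lex_min h c2.2.length {l | (c1.1, l) ∈ C ∧ l.length = c2.2.length}
    (fun l hl => ⟨hl.2, hC _ hl.1⟩) ⟨c2.2, by rw [← h3.2]; exact h3.1, rfl⟩
  refine ⟨(c1.1, l), h5.1, fun c' hc' hne => ?_⟩
  have h7 : ¬ c'.1 < c1.1 := h2 c' hc'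
  rcases (not_lt.1 h7).lt_or_eq with h8 | h8
  · exact Or.inl h8
  · refine Or.inr ⟨h8, ?_⟩
    have h9 : ¬ c'.2.length < c2.2.length := h4 c' ⟨hc', h8.symm⟩
    rcases (not_lt.1 h9).lt_or_eq with h10 | h10
    · exact Or.inl (h5.2 ▸ h10)
    · exact Or.inr ⟨h5.2.trans h10, h6 _ ⟨by rw [h8]; exact hc', h10.symm⟩
        fun e => hne (Prod.ext h8.symm e)⟩

theorem cl_asymm {r : Z} (h : ∀ x y, pair x y ∈ r → pair y x ∉ r) {n n' : ℕ} {l l' : List Z}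
    (h1 : cl r n l n' l') : ¬ cl r n' l' n l := by
  rintro (h2 | ⟨h2, h3 | ⟨h3, i, h4, h5⟩⟩) <;>
    rcases h1 with h1 | ⟨h1, h6 | ⟨h6, k, h7, h8⟩⟩ <;> try omega
  rcases lt_trichotomy i k with h9 | rfl | h9
  · rw [h7 i h9] at h5; exact h _ _ h5 h5
  · exact h _ _ h5 h8
  · rw [h4 k h9] at h8; exact h _ _ h8 h8

/-- The level at which `x` appears. -/
noncomputable def lvl (b γ x : Z) : Z := sInter (ZFSet.sep (fun β => x ∈ Df b (L b β)) γ)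

theorem lvl_spec {b γ x : Z} (hγ : IsOrdinal γ) (h : x ∈ L b γ) :
    lvl b γ x ∈ γ ∧ x ∈ Df b (L b (lvl b γ x)) := by
  obtain ⟨β, h1⟩ := mem_L.1 h
  exact mem_sep.1 (sInter_mem (s := ZFSet.sep (fun β => x ∈ Df b (L b β)) γ)
    (fun y hy => hγ.mem (mem_sep.1 hy).1) (mem_sep.2 h1))

/-- One step in the definition of the canonical well-ordering. -/
def wstep (b γ r x y : Z) : Prop := lvl b γ x ∈ lvl b γ y ∨ lvl b γ x = lvl b γ y ∧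
  ∃ n : ℕ, ∃ l : List Z, (∀ z ∈ l, z ∈ L b (lvl b γ x)) ∧ x = dset (L b (lvl b γ x)) b n l ∧
    ∀ n' : ℕ, ∀ l' : List Z, (∀ z ∈ l', z ∈ L b (lvl b γ x)) →
      y = dset (L b (lvl b γ x)) b n' l' → cl r n l n' l'

/-- The canonical well-ordering of `L_γ[b]`. -/
noncomputable def W (b : Z) : Z → Z := wrec (fun x => x) fun γ f => ZFSet.sep
  (fun p => wstep b γ (app f (lvl b γ (fst p))) (fst p) (snd p)) (prod (L b γ) (L b γ))

@[fun_prop] theorem UF.W {f g : α → Z} (hf : UF f) (hg : UF g) : UF (fun a => W (f a) (g a)) := by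
  refine ((uf_wrec (pred := fun (_ : Z) x => x) (G := fun b γ f => ZFSet.sep
    (fun p => wstep b γ (MP_b3d6af_lc.app f (lvl b γ (MP_b3d6af_lc.fst p))) (MP_b3d6af_lc.fst p)
      (MP_b3d6af_lc.snd p)) (ZFSet.prod (MP_b3d6af_lc.L b γ) (MP_b3d6af_lc.L b γ)))
    (by fun_prop) ?_).comp (hf.prodMk hg) :)
  unfold wstep cl lexL lvl; fun_prop

theorem mem_W {b γ x y : Z} (hγ : IsOrdinal γ) : pair x y ∈ W b γ ↔
    (x ∈ L b γ ∧ y ∈ L b γ) ∧ wstep b γ (W b (lvl b γ x)) x y := by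
  rw [W, wrec_eq _ (ac_of_sub (fun _ => subset_rfl) _)]
  simp only [mem_sep, pair_mem_prod, fst_pair, snd_pair]
  exact and_congr_right fun h => by rw [app_restr (lvl_spec hγ h.1).1]

theorem wo_W (b : Z) {γ : Z} (hγ : IsOrdinal γ) : WO (W b γ) (L b γ) := by
  induction γ using ZFSet.inductionOn with
  | h γ ih =>
    constructor
    · intro S hS hn
      obtain ⟨_, ⟨x0, hx0, rfl⟩, h1⟩ := exists_min (hn.image (lvl b γ))
      obtain ⟨h2, h3⟩ := lvl_spec hγ (hS hx0)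
      obtain ⟨⟨n, l⟩, ⟨h4, h5, h6⟩, h7⟩ := cl_min (ih _ h2 (hγ.mem h2))
        {c | (∀ z ∈ c.2, z ∈ L b (lvl b γ x0)) ∧ dset (L b (lvl b γ x0)) b c.1 c.2 ∈ S ∧
          lvl b γ (dset (L b (lvl b γ x0)) b c.1 c.2) = lvl b γ x0} (fun c hc => hc.1) (by
            obtain ⟨n, l, h4, h5⟩ := mem_Df.1 h3
            exact ⟨(n, l), h4, by rw [← h5]; exact ⟨hx0, rfl⟩⟩)
      refine ⟨_, h5, fun y hy hne => (mem_W hγ).2 ⟨⟨hS h5, hS hy⟩, ?_⟩⟩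
      simp only [wstep, h6]
      rcases (hγ.mem h2).mem_trichotomous (hγ.mem (lvl_spec hγ (hS hy)).1) with h8 | h8 | h8
      · exact Or.inl h8
      · refine Or.inr ⟨h8, n, l, h4, rfl, fun n' l' h9 h10 => h7 (n', l')
          ⟨h9, by rw [← h10]; exact ⟨hy, h8.symm⟩⟩ fun e => hne ?_⟩
        obtain ⟨rfl, rfl⟩ := Prod.mk.inj e
        exact h10
      · exact absurd ⟨y, hy, rfl⟩ (h1 _ h8)
    · intro x y h1 h2
      obtain ⟨⟨hx, hy⟩, h1⟩ := (mem_W hγ).1 h1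
      obtain ⟨-, h2⟩ := (mem_W hγ).1 h2
      rcases h1 with h1 | ⟨e, n, l, h3, h4, h5⟩ <;> rcases h2 with h2 | ⟨e', n', l', h6, h7, h8⟩
      · exact mem_asymm h1 h2
      · exact mem_irrefl _ (e' ▸ h1)
      · exact mem_irrefl _ (e ▸ h2)
      · rw [e'] at h6 h7 h8
        have h9 := (lvl_spec hγ hx).1
        exact cl_asymm (ih _ h9 (hγ.mem h9)).2 (h5 n' l' h6 h7) (h8 n l h3 h4)

theorem Good.ac_LM {V : Set Z} (hV : Good V) {b : Z} (hb : b ∈ V) (h : ∀ x ∈ b, x ∈ LM V b) :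
    AC (LM V b) := by
  rintro a ⟨γ, h1, h2, h3⟩
  have hZ := hV.zf_LM hb
  obtain ⟨I, h4, h5, f, h6, h7⟩ := enum_of_wo hZ (UF.mem (f := fun p : Z × Z => W p.1 p.2)
    (by fun_prop) hZ (b, γ) ⟨LM_self hV.1 hb h, LM_ord hV.1 b h1 h2⟩) (LM_L hV.1 b h1 h2)
    (wo_W b h2)
  exact ⟨I, h4, h5, f, h6, h7.1, fun x hx => h7.2 x (L_trans b γ a h3 hx)⟩

end Pool.Agent.Lib.MP_b3d6af_lc
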