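import Pool.Agent.Lib.MP_b3d6af_lc.Final

/-!
Assuming boldface `Π¹_{n+1}` determinacy, there is a countable transitive model `V` of ZFC with
boldface `Π¹_{n+1}` determinacy over which a lightface `Σ¹₂` proper forcing adds a new orbit to
a `Δ¹_{n+3}` equivalence relation with at most two classes.
-/

namespace Pool.Agent.Results.MP_b3d6af_lc.NewOrbit

open Pool.Agent.Lib.MP_b3d6af_lc

theorem result (n : ℕ) (h : Det (n + 1) Set.univ) :
    ∃ V, CTM V ∧ Det (n + 1) (Reals V) ∧ ∃ P le, Sigma12Forcing V P le ∧ Proper V P le ∧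
      ∃ θ η φ : Ar,
        (∀ W, ZF W →
          (∀ x ∈ Reals W, ∀ y ∈ Reals W,
            (Rel (n + 3) θ W x y ↔ ¬ Rel (n + 3) η W x y) ∧
            (Rel (n + 3) θ W x y ↔ (Sig (Reals W) 2 φ [x] ↔ Sig (Reals W) 2 φ [y]))) ∧
          (∀ x y z, Rel (n + 3) θ W x y → Rel (n + 3) θ W y z → Rel (n + 3) θ W x z) ∧
          Thin W (Rel (n + 3) θ W)) ∧
        (∃ G, Generic V P le G) ∧
        ∀ G, Generic V P le G → ∃ W, Ext V G W ∧ ∃ x, Rel (n + 3) θ W x x ∧
          ∀ y ∈ Reals V, ¬ Rel (n + 3) θ W x y ∧ ¬ Rel (n + 3) θ W y x :=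
  main n h

end Pool.Agent.Results.MP_b3d6af_lc.NewOrbit
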