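import Pool.Agent.Lib.MP_b3d6af_lc.Core

/-!
Closure of `UF` under the basic set operations, numbers and reals.
-/

namespace Pool.Agent.Lib.MP_b3d6af_lc

open ZFSet Classical

universe u v w

variable {α : Type u} {β : Type v} {γ : Type w} [Rep α] [Rep β] [Rep γ]

@[fun_prop] theorem UF.sep {g : α → Z} {Q : α → Z → Prop} (hg : UF g)
    (hQ : UF (fun p : α × Z => Q p.1 p.2)) : UF (fun a => ZFSet.sep (Q a) (g a)) := by
  refine UF.of_mem (fun M hM a ha => ?_)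
    (UF.of_iff (Q := fun p : α × Z => p.2 ∈ g p.1 ∧ Q p.1 p.2) (by fun_prop) (by simp))
  obtain ⟨φ, hφ⟩ := hQ.fm2
  have h1 := hg.mem hM a ha
  have := hM.sep φ (fun _ => Rep.enc a) (fun _ => Rep.mem hM ha) _ h1
  have e : ZFSet.sep (Q a) (g a) =
      ZFSet.sep (fun x => Sat M φ (cons x fun _ => Rep.enc a)) (g a) := by
    ext x
    simp only [mem_sep]
    exact and_congr_right fun hx => (hφ M hM a x ha (hM.trans _ h1 _ hx)).symm
  rwa [e]

theorem ZF.collect {M : Set Z} (hM : ZF M) {Q : α → Z → Z → Prop}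
    (hQ : UF (fun p : (α × Z) × Z => Q p.1.1 p.1.2 p.2)) (a : α) (ha : fits M a) {s : Z}
    (hs : s ∈ M) (h : ∀ x ∈ s, ∃ y ∈ M, Q a x y) : ∃ c ∈ M, ∀ x ∈ s, ∃ y ∈ c, Q a x y := by
  obtain ⟨φ, hφ⟩ := hQ.fm2
  have ha' := Rep.mem hM ha
  have key : ∀ x ∈ M, ∀ y ∈ M, Sat M ((Fm.pr 0 3 2).and (φ.at2 1 0)).ex
      (cons y (cons x fun _ => enc a)) ↔ Q a x y := by
    intro x hx y hy
    rw [← hφ M hM (a, x) y ⟨ha, hx⟩ hy]
    simp only [sat_ex, sat_and, sat_at2, cons_zero, cons_one]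
    constructor
    · rintro ⟨u, hu, h1, h2⟩
      rw [sat_pr hM (by simpa) (by simpa) (by simpa)] at h1
      simp at h1; subst h1; exact h2
    · intro h2
      refine ⟨_, hM.pair_mem ha' hx, ?_, h2⟩
      rw [sat_pr hM (by simpa using hM.pair_mem ha' hx) (by simpa) (by simpa)]
      simp
  obtain ⟨c, hc, H⟩ := hM.coll _ (fun _ => enc a) (fun _ => ha') s hs fun x hx => by
    obtain ⟨y, hy, h1⟩ := h x hx
    exact ⟨y, hy, (key x (hM.trans _ hs _ hx) y hy).2 h1⟩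
  refine ⟨c, hc, fun x hx => ?_⟩
  obtain ⟨y, hy, h1⟩ := H x hx
  exact ⟨y, hy, (key x (hM.trans _ hs _ hx) y (hM.trans _ hc _ hy)).1 h1⟩

/-- Image of a set. -/
noncomputable def img (f : Z → Z) (s : Z) : Z := range fun y : s => f y.1

@[simp] theorem mem_img {f : Z → Z} {s x : Z} : x ∈ img f s ↔ ∃ y ∈ s, f y = x := by simp [img]

@[fun_prop] theorem UF.img {g : α → Z} {F : α → Z → Z} (hg : UF g)
    (hF : UF (fun p : α × Z => F p.1 p.2)) : UF (fun a => img (F a) (g a)) := by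
  refine UF.of_mem (fun M hM a ha => ?_)
    (UF.of_iff (Q := fun p : α × Z => ∃ y ∈ g p.1, F p.1 y = p.2) (by fun_prop) (by simp))
  have h1 := hg.mem hM a ha
  obtain ⟨c, hc, H⟩ := hM.collect (Q := fun a x y => F a x = y) (by fun_prop) a ha h1
    fun x hx => ⟨_, hF.mem hM (a, x) ⟨ha, hM.trans _ h1 _ hx⟩, rfl⟩
  have := UF.mem (f := fun p : α × Z => ZFSet.sep (fun y => ∃ x ∈ g p.1, F p.1 x = y) p.2)
    (by fun_prop) hM (a, c) ⟨ha, hc⟩
  have e : MP_b3d6af_lc.img (F a) (g a) = ZFSet.sep (fun y => ∃ x ∈ g a, F a x = y) c := by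
    ext y
    simp only [mem_img, mem_sep, iff_and_self]
    rintro ⟨x, hx, rfl⟩
    obtain ⟨y, hy, rfl⟩ := H x hx
    exact hy
  rwa [e]

@[fun_prop] theorem UF.sUnion {g : α → Z} (hg : UF g) : UF (fun a => sUnion (g a)) :=
  UF.of_mem (fun _ hM a ha => hM.union _ (hg.mem hM a ha))
    (UF.of_iff (Q := fun p : α × Z => ∃ y ∈ g p.1, p.2 ∈ y) (by fun_prop) (by simp))

theorem UF.upair {f g : α → Z} (hf : UF f) (hg : UF g) : UF (fun a => ({f a, g a} : Z)) :=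
  UF.of_mem (fun _ hM a ha => hM.pair _ (hf.mem hM a ha) _ (hg.mem hM a ha))
    (UF.of_iff (Q := fun p : α × Z => p.2 = f p.1 ∨ p.2 = g p.1) (by fun_prop) (by simp))

@[fun_prop] theorem UF.sing {f : α → Z} (hf : UF f) : UF (fun a => ({f a} : Z)) :=
  (hf.upair hf).congr (by simp)

@[fun_prop] theorem UF.union {f g : α → Z} (hf : UF f) (hg : UF g) : UF (fun a => f a ∪ g a) :=
  (hf.upair hg).sUnion

@[fun_prop] theorem UF.insert {f g : α → Z} (hf : UF f) (hg : UF g) :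
    UF (fun a => insert (f a) (g a)) :=
  (hf.sing.union hg).congr fun _ => ZFSet.insert_eq _ _

@[fun_prop] theorem UF.inter {f g : α → Z} (hf : UF f) (hg : UF g) : UF (fun a => f a ∩ g a) :=
  UF.congr (g := fun a => ZFSet.sep (fun x => x ∈ g a) (f a)) (by fun_prop) (by simp)

@[fun_prop] theorem UF.pair {f g : α → Z} (hf : UF f) (hg : UF g) :
    UF (fun a => pair (f a) (g a)) := (hf.prodMk hg).enc

@[fun_prop] theorem UF.prod {f g : α → Z} (hf : UF f) (hg : UF g) :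
    UF (fun a => prod (f a) (g a)) :=
  UF.congr (g := fun a => ZFSet.sUnion (MP_b3d6af_lc.img
    (fun x => MP_b3d6af_lc.img (fun y => ZFSet.pair x y) (g a)) (f a))) (by fun_prop)
    (by intro a; ext x; simp [eq_comm])

@[fun_prop] theorem UF.subset {f g : α → Z} (hf : UF f) (hg : UF g) : UF (fun a => f a ⊆ g a) :=
  UF.of_iff (Q := fun a => ∀ x ∈ f a, x ∈ g a) (by fun_prop) fun _ => Iff.rfl

@[fun_prop] theorem UF.sInter {g : α → Z} (hg : UF g) : UF (fun a => sInter (g a)) := by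
  unfold ZFSet.sInter; fun_prop

@[fun_prop] theorem UF.memM {f : α → Z} {g : α → Mo} (hf : UF f) (hg : UF g) :
    UF (fun a => f a ∈ (g a).M) :=
  (UF.const True).of_iff' fun M hM a ha => by
    have : (g a).M = M := hg.fits hM a ha
    simp [this, hf.mem hM a ha]

@[fun_prop] theorem UF.memCoe {f g : α → Z} (hf : UF f) (hg : UF g) :
    UF (fun a => f a ∈ (g a : Set Z)) := hf.memZ hg

@[fun_prop] theorem UF.ballCoe {g : α → Z} {Q : α → Z → Prop} (hg : UF g)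
    (hQ : UF (fun p : α × Z => Q p.1 p.2)) : UF (fun a => ∀ x, x ∈ (g a : Set Z) → Q a x) :=
  UF.ball hg hQ

@[fun_prop] theorem UF.bexCoe {g : α → Z} {Q : α → Z → Prop} (hg : UF g)
    (hQ : UF (fun p : α × Z => Q p.1 p.2)) : UF (fun a => ∃ x, x ∈ (g a : Set Z) ∧ Q a x) :=
  UF.bex hg hQ

/-- The power set inside a model. -/
noncomputable def powM (m : Mo) (a : Z) : Z := ZFSet.sep (fun x => x ∈ m.M) (powerset a)

@[simp] theorem mem_powM {m : Mo} {a x : Z} : x ∈ powM m a ↔ x ⊆ a ∧ x ∈ m.M := by simp [powM]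

@[fun_prop] theorem UF.powM {f : α → Z} {g : α → Mo} (hg : UF g) (hf : UF f) :
    UF (fun a => powM (g a) (f a)) := by
  refine UF.of_mem (fun M hM a ha => ?_)
    (UF.of_iff (Q := fun p : α × Z => p.2 ⊆ f p.1 ∧ p.2 ∈ (g p.1).M) (by fun_prop) (by simp))
  have h1 := hf.mem hM a ha
  have h2 : (g a).M = M := hg.fits hM a ha
  obtain ⟨c, hc, H⟩ := hM.power _ h1
  have := UF.mem (f := fun p : Z × Z => ZFSet.sep (fun y => y ⊆ p.1) p.2)
    (by fun_prop) hM (f a, c) ⟨h1, hc⟩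
  have e : MP_b3d6af_lc.powM (g a) (f a) = ZFSet.sep (fun y => y ⊆ f a) c := by
    ext y
    simp only [mem_powM, mem_sep, h2]
    exact ⟨fun h => ⟨H y h.2 h.1, h.1⟩, fun h => ⟨h.2, hM.trans _ hc _ h.1⟩⟩
  rwa [e]

theorem eq_omega_iff {z : Z} : z = omega ↔
    ∅ ∈ z ∧ (∀ x ∈ z, insert x x ∈ z) ∧ ∀ x ∈ z, x = ∅ ∨ ∃ y ∈ z, x = insert y y := by
  constructor
  · rintro rfl
    refine ⟨omega_zero, fun _ => omega_succ, fun x hx => ?_⟩
    obtain ⟨_ | n, rfl⟩ := mem_omega.1 hx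
    · exact Or.inl rfl
    · exact Or.inr ⟨nat n, by simp, rfl⟩
  · rintro ⟨h0, h1, h2⟩
    ext x
    constructor
    · induction x using ZFSet.inductionOn with
      | h x ih =>
        intro hx
        rcases h2 x hx with rfl | ⟨y, hy, rfl⟩
        · exact omega_zero
        · exact omega_succ (ih y (by simp) hy)
    · intro hx
      obtain ⟨n, rfl⟩ := mem_omega.1 hx
      clear hx
      induction n with
      | zero => exact h0
      | succ n ih => exact h1 _ ih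

instance : Par omega.{0} := by
  have : UF (fun _ : Z => omega.{0}) := UF.of_spec (P := fun p : Z × Z => ∅ ∈ p.2 ∧
    (∀ x ∈ p.2, insert x x ∈ p.2) ∧ ∀ x ∈ p.2, x = ∅ ∨ ∃ y ∈ p.2, x = insert y y) (by fun_prop)
    fun M hM a _ => ⟨hM.inf, fun z _ => eq_omega_iff.symm⟩
  exact Par.of_uf this ∅

/-- Types all of whose elements live in every model. -/
class Tot (β : Type v) [Rep β] : Prop where
  out : ∀ {M : Set Z}, ZF M → ∀ b : β, fits M b

instance : Tot ℕ := ⟨fun _ _ => trivial⟩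
instance [Tot α] [Tot β] : Tot (α × β) := ⟨fun h b => ⟨Tot.out h b.1, Tot.out h b.2⟩⟩

instance : Dec ℕ := ⟨nat_injective, fun _ _ _ => trivial,
  UF.of_iff (Q := fun z : Z => z ∈ omega) (by fun_prop) (by simp [mem_omega, eq_comm])⟩

instance [Dec α] [Dec β] : Dec (α × β) where
  inj := fun a b h => by
    simp only [enc_prod, pair_inj] at h
    exact Prod.ext (Dec.inj h.1) (Dec.inj h.2)
  fits_of := fun hM b h => ⟨Dec.fits_of hM (hM.of_pair h).1, Dec.fits_of hM (hM.of_pair h).2⟩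
  rng := by
    have h1 : UF (fun p : Z × α => ∃ b : β, pair (enc p.2) (enc b) = p.1) :=
      UF.of_exM (Q := fun q : (Z × α) × β => pair (enc q.1.2) (enc q.2) = q.1.1) (by fun_prop)
        fun M hM a ha => ⟨fun ⟨b, hb⟩ => ⟨b, Dec.fits_of hM (hM.of_pair (hb ▸ ha.1 :)).2, hb⟩,
          fun ⟨b, _, hb⟩ => ⟨b, hb⟩⟩
    exact UF.of_exM h1 fun M hM a ha => ⟨fun ⟨b, hb⟩ => ⟨b.1,
      Dec.fits_of hM (hM.of_pair (hb ▸ ha : enc b ∈ M)).1, b.2, hb⟩, fun ⟨b, _, c, hb⟩ => ⟨(b, c), hb⟩⟩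

@[fun_prop] theorem UF.all [Dec β] [Tot β] {Q : α → β → Prop}
    (hQ : UF (fun p : α × β => Q p.1 p.2)) : UF (fun a => ∀ x, Q a x) :=
  UF.of_allM hQ fun _ hM _ _ => ⟨fun h b _ => h b, fun h b => h b (Tot.out hM b)⟩

@[fun_prop] theorem UF.ex [Dec β] [Tot β] {Q : α → β → Prop}
    (hQ : UF (fun p : α × β => Q p.1 p.2)) : UF (fun a => ∃ x, Q a x) :=
  (UF.all (Q := fun a x => ¬ Q a x) hQ.not).not.of_iff (by simp)

@[fun_prop] theorem UF.allPair {g : α → Z} {Q : α → Z → Z → Prop} (hg : UF g)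
    (hQ : UF (fun p : α × Z × Z => Q p.1 p.2.1 p.2.2)) :
    UF (fun a => ∀ x y, ZFSet.pair x y ∈ g a → Q a x y) :=
  UF.of_allM (Q := fun p : α × Z × Z => ZFSet.pair p.2.1 p.2.2 ∈ g p.1 → Q p.1 p.2.1 p.2.2)
    (by fun_prop) fun M hM a ha => ⟨fun H b _ => H _ _, fun H x y hx =>
      H (x, y) (hM.of_pair_mem (hg.mem hM a ha) hx) hx⟩

@[fun_prop] theorem UF.exPair {g : α → Z} {Q : α → Z → Z → Prop} (hg : UF g)
    (hQ : UF (fun p : α × Z × Z => Q p.1 p.2.1 p.2.2)) :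
    UF (fun a => ∃ x y, ZFSet.pair x y ∈ g a ∧ Q a x y) :=
  (UF.allPair (Q := fun a x y => ¬ Q a x y) hg hQ.not).not.of_iff (by simp)

@[fun_prop] theorem UF.allSnd {f g : α → Z} {Q : α → Z → Prop} (hf : UF f) (hg : UF g)
    (hQ : UF (fun p : α × Z => Q p.1 p.2)) :
    UF (fun a => ∀ y, ZFSet.pair (f a) y ∈ g a → Q a y) :=
  UF.of_iff (Q := fun a => ∀ x y, ZFSet.pair x y ∈ g a → x = f a → Q a y) (by fun_prop)
    fun a => ⟨fun h x y h1 h2 => h y (h2 ▸ h1), fun h y h1 => h _ y h1 rfl⟩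

@[fun_prop] theorem UF.exSnd {f g : α → Z} {Q : α → Z → Prop} (hf : UF f) (hg : UF g)
    (hQ : UF (fun p : α × Z => Q p.1 p.2)) :
    UF (fun a => ∃ y, ZFSet.pair (f a) y ∈ g a ∧ Q a y) :=
  (UF.allSnd (Q := fun a y => ¬ Q a y) hf hg hQ.not).not.of_iff (by simp)

@[fun_prop] theorem UF.exSnd' {f g : α → Z} (hf : UF f) (hg : UF g) :
    UF (fun a => ∃ y, ZFSet.pair (f a) y ∈ g a) :=
  (UF.exSnd (Q := fun _ _ => True) hf hg (UF.const True)).of_iff (by simp)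

/-- Decoding, with a default value. -/
noncomputable def dec (β : Type v) [Rep β] [Inhabited β] (z : Z) : β :=
  if h : ∃ b : β, enc b = z then h.choose else default

@[simp] theorem dec_enc [Inhabited β] [Dec β] (b : β) : dec β (enc b) = b := by
  have h : ∃ c : β, enc c = enc b := ⟨b, rfl⟩
  rw [dec, dif_pos h]; exact Dec.inj h.choose_spec

@[simp] theorem dec_nat (n : ℕ) : dec ℕ (nat n) = n := dec_enc n

@[fun_prop] theorem UF.dec [Inhabited β] [Dec β] [Par (default : β)] {f : α → Z} (hf : UF f) :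
    UF (fun a => dec β (f a)) := by
  refine UF.comp (f := MP_b3d6af_lc.dec β) ?_ hf
  have := Dec.rng (β := β)
  have h0 : UF (fun _ : Z × Z => Rep.enc (default : β)) := (UF.const _).enc
  refine UF.of_spec (P := fun p : Z × Z => ((∃ b : β, Rep.enc b = p.1) ∧ p.2 = p.1) ∨
    ((¬ ∃ b : β, Rep.enc b = p.1) ∧ p.2 = Rep.enc (default : β)))
    (((this.comp uf_fst).and (by fun_prop)).or ((this.comp uf_fst).not.and (uf_snd.eq h0)))
    fun M hM a ha => ?_
  by_cases h : ∃ b : β, Rep.enc b = a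
  · obtain ⟨b, rfl⟩ := h
    simp [Dec.fits_of hM ha]
  · simp [MP_b3d6af_lc.dec, h, Par.fits _ hM]

instance : Par (default : Z) := inferInstanceAs (Par (∅ : Z))
instance [Inhabited α] [Inhabited β] [Par (default : α)] [Par (default : β)] :
    Par (default : α × β) := inferInstanceAs (Par ((default : α), (default : β)))

/-- Second component of a pair. -/
noncomputable def snd (p : Z) : Z := (dec (Z × Z) p).2
/-- First component of a pair. -/
noncomputable def fst (p : Z) : Z := (dec (Z × Z) p).1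

@[simp] theorem snd_pair (a b : Z) : snd (pair a b) = b := congrArg Prod.snd (dec_enc (a, b))
@[simp] theorem fst_pair (a b : Z) : fst (pair a b) = a := congrArg Prod.fst (dec_enc (a, b))

@[fun_prop] theorem UF.sndZ {f : α → Z} (hf : UF f) : UF (fun a => MP_b3d6af_lc.snd (f a)) := by
  unfold MP_b3d6af_lc.snd; fun_prop
@[fun_prop] theorem UF.fstZ {f : α → Z} (hf : UF f) : UF (fun a => MP_b3d6af_lc.fst (f a)) := by
  unfold MP_b3d6af_lc.fst; fun_prop

/-- Function application. -/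
noncomputable def app (f x : Z) : Z :=
  sUnion (img snd (ZFSet.sep (fun p => p = pair x (snd p)) f))

theorem mem_app {f x z : Z} : z ∈ app f x ↔ ∃ y, pair x y ∈ f ∧ z ∈ y := by
  simp only [app, mem_sUnion, mem_img, mem_sep]
  constructor
  · rintro ⟨_, ⟨p, ⟨h1, h2⟩, rfl⟩, h3⟩
    exact ⟨_, h2 ▸ h1, h3⟩
  · rintro ⟨y, h1, h2⟩
    exact ⟨y, ⟨_, ⟨h1, by simp⟩, by simp⟩, h2⟩

theorem app_eq {f x y : Z} (h : pair x y ∈ f) (h2 : ∀ z, pair x z ∈ f → z = y) : app f x = y := by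
  ext z
  rw [mem_app]
  exact ⟨fun ⟨w, h3, h4⟩ => h2 w h3 ▸ h4, fun h3 => ⟨y, h, h3⟩⟩

theorem Fn.app_eq {f x y : Z} (hf : Fn f) (h : pair x y ∈ f) : app f x = y :=
  MP_b3d6af_lc.app_eq h fun _ hz => hf _ _ _ hz h

@[fun_prop] theorem UF.app {f g : α → Z} (hf : UF f) (hg : UF g) :
    UF (fun a => app (f a) (g a)) := by
  unfold MP_b3d6af_lc.app; fun_prop

/-- The graph of `F` on `s`. -/
noncomputable def restr (F : Z → Z) (s : Z) : Z := img (fun y => pair y (F y)) s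

theorem pair_mem_restr {F : Z → Z} {s x y : Z} : pair x y ∈ restr F s ↔ x ∈ s ∧ y = F x := by
  simp only [restr, mem_img, pair_inj]
  exact ⟨fun ⟨_, h1, h2, h3⟩ => h2 ▸ ⟨h1, h3.symm⟩, fun ⟨h1, h2⟩ => ⟨x, h1, rfl, h2.symm⟩⟩

theorem fn_restr (F : Z → Z) (s : Z) : Fn (restr F s) := fun _ _ _ h1 h2 =>
  (pair_mem_restr.1 h1).2.trans (pair_mem_restr.1 h2).2.symm

theorem app_restr {F : Z → Z} {s x : Z} (h : x ∈ s) : app (restr F s) x = F x :=
  (fn_restr F s).app_eq (pair_mem_restr.2 ⟨h, rfl⟩)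

@[fun_prop] theorem UF.restr {g : α → Z} {F : α → Z → Z} (hg : UF g)
    (hF : UF (fun p : α × Z => F p.1 p.2)) : UF (fun a => restr (F a) (g a)) := by
  unfold MP_b3d6af_lc.restr; fun_prop

@[fun_prop] theorem UF.Fn {f : α → Z} (hf : UF f) : UF (fun a => Fn (f a)) :=
  UF.of_iff (Q := fun a => ∀ x y, ZFSet.pair x y ∈ f a → ∀ z, ZFSet.pair x z ∈ f a → y = z)
    (by fun_prop) fun _ => ⟨fun h x y h1 z h2 => h x y z h1 h2, fun h x y z h1 h2 => h x y h1 z h2⟩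

@[fun_prop] theorem UF.Enum {f g k : α → Z} (hf : UF f) (hg : UF g) (hk : UF k) :
    UF (fun a => Enum (f a) (g a) (k a)) := by
  unfold MP_b3d6af_lc.Enum; fun_prop

@[fun_prop] theorem UF.CtblM {f : α → Z} {g : α → Mo} (hg : UF g) (hf : UF f) :
    UF (fun a => Ctbl (g a).M (f a)) := by
  unfold Ctbl; fun_prop

@[fun_prop] theorem UF.CtblS {f g : α → Z} (hg : UF g) (hf : UF f) :
    UF (fun a => Ctbl (g a : Set Z) (f a)) := by
  unfold Ctbl; fun_prop

@[fun_prop] theorem UF.isTransitive {f : α → Z} (hf : UF f) : UF (fun a => IsTransitive (f a)) := by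
  unfold IsTransitive; fun_prop

@[fun_prop] theorem UF.isOrdinal {f : α → Z} (hf : UF f) : UF (fun a => IsOrdinal (f a)) :=
  UF.of_iff (Q := fun a => IsTransitive (f a) ∧ ∀ y ∈ f a, IsTransitive y) (by fun_prop)
    fun _ => isOrdinal_iff_forall_mem_isTransitive

/-! Numbers and reals -/

@[fun_prop] theorem UF.nat {f : α → ℕ} (hf : UF f) : UF (fun a => nat (f a)) := hf.enc
@[fun_prop] theorem UF.real {f : α → ℕ → ℕ} (hf : UF f) : UF (fun a => real (f a)) := hf.enc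

theorem UF.succ {f : α → ℕ} (hf : UF f) : UF (fun a => f a + 1) :=
  UF.of_spec (P := fun p : α × Z => p.2 = Insert.insert (MP_b3d6af_lc.nat (f p.1))
    (MP_b3d6af_lc.nat (f p.1))) (by fun_prop) fun _ _ _ _ => ⟨trivial, fun _ _ => Iff.rfl⟩

instance (n : ℕ) : Par n := by
  induction n with
  | zero => exact ⟨(Par.out (c := (∅ : Z))).imp fun φ h M hM => ⟨trivial, (h M hM).2⟩⟩
  | succ n ih => exact Par.of_uf (UF.succ UF.id) n

instance (n : ℕ) : Par (nat n) := Par.of_uf (UF.nat UF.id) n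

@[fun_prop] theorem UF.lt {f g : α → ℕ} (hf : UF f) (hg : UF g) : UF (fun a => f a < g a) :=
  (hf.nat.memZ hg.nat).of_iff (by simp)

@[fun_prop] theorem UF.le {f g : α → ℕ} (hf : UF f) (hg : UF g) : UF (fun a => f a ≤ g a) :=
  (hg.lt hf).not.of_iff (by simp)

@[fun_prop] theorem UF.rangeN {F : α → ℕ → Z} (hF : UF (fun p : α × ℕ => F p.1 p.2)) :
    UF (fun a => range (F a)) :=
  UF.congr (g := fun a => MP_b3d6af_lc.img (fun w => F a (MP_b3d6af_lc.dec ℕ w)) omega)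
    (by fun_prop) fun a => by
      ext x
      simp only [mem_range, mem_img, mem_omega]
      exact ⟨fun ⟨n, h⟩ => ⟨_, ⟨n, rfl⟩, by simpa⟩, by rintro ⟨_, ⟨n, rfl⟩, h⟩; exact ⟨n, by simpa using h⟩⟩

@[fun_prop] theorem UF.iUnionN {F : α → ℕ → Z} (hF : UF (fun p : α × ℕ => F p.1 p.2)) :
    UF (fun a => ZFSet.iUnion (F a)) := by
  unfold ZFSet.iUnion; fun_prop

theorem mem_real {x : ℕ → ℕ} {z : Z} : z ∈ real x ↔ ∃ n, z = pair (nat n) (nat (x n)) := by
  simp [real, eq_comm]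

theorem pair_mem_real {x : ℕ → ℕ} {n : ℕ} {z : Z} : pair (nat n) z ∈ real x ↔ z = nat (x n) := by
  simp [mem_real]

theorem real_injective : Function.Injective real := fun _ _ h => funext fun _ =>
  nat_injective (pair_mem_real.1 (h ▸ pair_mem_real.2 rfl))

@[simp] theorem real_inj {x y : ℕ → ℕ} : real x = real y ↔ x = y := real_injective.eq_iff

/-- Application of a real to a number. -/
def ap (x : ℕ → ℕ) (n : ℕ) : ℕ := x n

@[fun_prop] theorem UF.ap {f : α → ℕ → ℕ} {g : α → ℕ} (hf : UF f) (hg : UF g) :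
    UF (fun a => ap (f a) (g a)) :=
  UF.of_spec (P := fun p : α × Z => ZFSet.pair (MP_b3d6af_lc.nat (g p.1)) p.2 ∈
    MP_b3d6af_lc.real (f p.1)) (by fun_prop) fun _ _ _ _ => ⟨trivial, fun _ _ => pair_mem_real⟩

@[fun_prop] theorem UF.lam {F : α → ℕ → ℕ} (hF : UF (fun p : α × ℕ => F p.1 p.2)) :
    UF (fun a n => F a n) := by
  have : UF (fun a => MP_b3d6af_lc.real (F a)) := by unfold MP_b3d6af_lc.real; fun_prop
  exact UF.of_spec (P := fun p : α × Z => p.2 = MP_b3d6af_lc.real (F p.1))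
    (uf_snd.eq (this.comp uf_fst))
    fun M hM a ha => ⟨this.mem hM a ha, fun _ _ => Iff.rfl⟩

instance : Dec (ℕ → ℕ) where
  inj := real_injective
  fits_of := fun _ _ h => h
  rng := by
    refine UF.of_iff (Q := fun z : Z => Fn z ∧ (∀ n : ℕ, ∃ k : ℕ, pair (nat n) (nat k) ∈ z) ∧
      ∀ p ∈ z, ∃ n k : ℕ, p = pair (nat n) (nat k)) (by fun_prop) fun z => ⟨?_, ?_⟩
    · rintro ⟨x, rfl⟩
      refine ⟨fun a b c h1 h2 => ?_, fun n => ⟨x n, pair_mem_real.2 rfl⟩, fun p hp => ?_⟩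
      · obtain ⟨n, h⟩ := mem_real.1 h1
        obtain ⟨rfl, rfl⟩ := pair_inj.1 h
        exact (pair_mem_real.1 h2).symm
      · obtain ⟨n, h⟩ := mem_real.1 hp
        exact ⟨_, _, h⟩
    · rintro ⟨h1, h2, h3⟩
      choose x hx using h2
      refine ⟨x, ZFSet.ext fun p => ⟨fun hp => ?_, fun hp => ?_⟩⟩
      · obtain ⟨n, rfl⟩ := mem_real.1 hp
        exact hx n
      · obtain ⟨n, k, rfl⟩ := h3 p hp
        exact pair_mem_real.2 (h1 _ _ _ hp (hx n))

instance : Par (0 : ℕ → ℕ) :=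
  Par.of_uf (f := fun _ : Z => (0 : ℕ → ℕ)) (UF.lam (UF.const 0)) ∅
instance : Par (default : ℕ → ℕ) := inferInstanceAs (Par (0 : ℕ → ℕ))

@[fun_prop] theorem UF.allR {g : α → Mo} {Q : α → (ℕ → ℕ) → Prop} (hg : UF g)
    (hQ : UF (fun p : α × (ℕ → ℕ) => Q p.1 p.2)) :
    UF (fun a => ∀ x, x ∈ Reals (g a).M → Q a x) :=
  UF.of_allM hQ fun M hM a ha => by
    have : (g a).M = M := hg.fits hM a ha
    simp [this]

@[fun_prop] theorem UF.exR {g : α → Mo} {Q : α → (ℕ → ℕ) → Prop} (hg : UF g)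
    (hQ : UF (fun p : α × (ℕ → ℕ) => Q p.1 p.2)) :
    UF (fun a => ∃ x, x ∈ Reals (g a).M ∧ Q a x) :=
  (UF.allR (Q := fun a x => ¬ Q a x) hg hQ.not).not.of_iff (by simp)

@[fun_prop] theorem UF.ballR {g : α → Z} {Q : α → (ℕ → ℕ) → Prop} (hg : UF g)
    (hQ : UF (fun p : α × (ℕ → ℕ) => Q p.1 p.2)) :
    UF (fun a => ∀ x, x ∈ Reals (g a : Set Z) → Q a x) :=
  UF.of_allM (Q := fun p : α × (ℕ → ℕ) => MP_b3d6af_lc.real p.2 ∈ g p.1 → Q p.1 p.2)
    (by fun_prop) fun M hM a ha =>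
    ⟨fun H b _ => H b, fun H x hx => H x (hM.trans _ (hg.mem hM a ha) _ hx) hx⟩

@[fun_prop] theorem UF.bexR {g : α → Z} {Q : α → (ℕ → ℕ) → Prop} (hg : UF g)
    (hQ : UF (fun p : α × (ℕ → ℕ) => Q p.1 p.2)) :
    UF (fun a => ∃ x, x ∈ Reals (g a : Set Z) ∧ Q a x) :=
  (UF.ballR (Q := fun a x => ¬ Q a x) hg hQ.not).not.of_iff (by simp)

@[fun_prop] theorem UF.memRS {f : α → ℕ → ℕ} {g : α → Z} (hf : UF f) (hg : UF g) :
    UF (fun a => f a ∈ Reals (g a : Set Z)) := hf.real.memZ hg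

@[fun_prop] theorem UF.memRM {f : α → ℕ → ℕ} {g : α → Mo} (hf : UF f) (hg : UF g) :
    UF (fun a => f a ∈ Reals (g a).M) := hf.real.memM hg

/-- Least number with a property (zero if there is none). -/
noncomputable def mu (P : ℕ → Prop) : ℕ := sInf {n | P n}

theorem mu_spec {P : ℕ → Prop} {n : ℕ} (h : P n) : P (mu P) := Nat.sInf_mem (s := {n | P n}) ⟨n, h⟩
theorem mu_le {P : ℕ → Prop} {n : ℕ} (h : P n) : mu P ≤ n := Nat.sInf_le (s := {n | P n}) h
theorem mu_eq_iff {P : ℕ → Prop} {m : ℕ} :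
    mu P = m ↔ (P m ∧ ∀ k < m, ¬ P k) ∨ (m = 0 ∧ ∀ k, ¬ P k) := by
  constructor
  · rintro rfl
    by_cases h : ∃ n, P n
    · exact Or.inl ⟨mu_spec h.choose_spec, fun k hk hp => absurd (mu_le hp) (by omega)⟩
    · refine Or.inr ⟨?_, by simpa using h⟩
      exact Nat.sInf_eq_zero.2 (Or.inr (by ext n; simpa using fun hn => h ⟨n, hn⟩))
  · rintro (⟨h1, h2⟩ | ⟨rfl, h2⟩)
    · exact le_antisymm (mu_le h1) (not_lt.1 fun h => h2 _ h (mu_spec h1))
    · exact Nat.sInf_eq_zero.2 (Or.inr (by ext n; simpa using h2 n))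

theorem UF.of_graph [Dec β] [Tot β] {f : α → β} (h : UF (fun p : α × β => f p.1 = p.2)) : UF f :=
  UF.of_spec (P := fun p : α × Z => ∃ b : β, p.2 = Rep.enc b ∧ f p.1 = b)
    (UF.ex ((UF.eq (by fun_prop) (by fun_prop)).and
      (h.comp (g := fun q : (α × Z) × β => (q.1.1, q.2)) (by fun_prop))))
    fun _ hM _ _ => ⟨Tot.out hM _, by simp⟩

@[fun_prop] theorem UF.mu {Q : α → ℕ → Prop} (hQ : UF (fun p : α × ℕ => Q p.1 p.2)) :
    UF (fun a => mu (Q a)) :=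
  UF.of_graph (UF.of_iff (Q := fun p : α × ℕ => (Q p.1 p.2 ∧ ∀ k < p.2, ¬ Q p.1 k) ∨
    (p.2 = 0 ∧ ∀ k, ¬ Q p.1 k)) (by fun_prop) fun _ => mu_eq_iff)

example : UF (fun p : (ℕ → ℕ) × ℕ => real fun n => if n < p.2 then ap p.1 n else 3) := by
  fun_prop

end Pool.Agent.Lib.MP_b3d6af_lc
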