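import Pool.Agent.Lib.MP_b3d6af_lc.Codes

/-!
The unfolded perfect set game and the boundedness argument.
-/

set_option linter.unusedSectionVars false
set_option linter.unusedVariables false

namespace Pool.Agent.Lib.MP_b3d6af_lc

open ZFSet Classical

def gln (p : ℕ → ℕ) (j : ℕ) : ℕ := (ap p (j + j)).unpair.1
def gen (p : ℕ → ℕ) (j i : ℕ) : ℕ := nth (ap p (j + j)).unpair.2.unpair.1 i 0
def gwt (p : ℕ → ℕ) (j : ℕ) : ℕ := (ap p (j + j)).unpair.2.unpair.2
def gxx (p : ℕ → ℕ) (i : ℕ) : ℕ := gen p (i + 1) i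
def Rules (p : ℕ → ℕ) : Prop := ∀ j, gln p j < gln p (j + 1) ∧
  (∀ i, i < gln p j → gen p (j + 1) i = gen p j i) ∧
    (gen p (j + 1) (gln p j) = 0 ↔ ap p (j + j + 1) = 0)

theorem Rules.coh {p : ℕ → ℕ} (h : Rules p) {j i : ℕ} (hi : i < gln p j) : gxx p i = gen p j i := by
  have hm : StrictMono (gln p) := strictMono_nat_of_lt_succ fun j => (h j).1
  have key : ∀ j k i, i < gln p j → gen p (j + k) i = gen p j i := fun j k i hi => by
    induction k with
    | zero => rfl
    | succ k ih => rw [← ih]; exact (h (j + k)).2.1 i (hi.trans_le (hm.monotone (by omega)))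
  have h1 := key j (i + 1) i hi
  have h2 := key (i + 1) j i (hm.le_apply (x := i + 1))
  rw [add_comm] at h2
  exact h2.symm.trans h1

theorem length_hist (σ τ : ℕ → ℕ) (n : ℕ) : (hist σ τ n).length = n := by
  induction n <;> simp [hist, *]

theorem hist_succ (σ τ : ℕ → ℕ) (n : ℕ) : hist σ τ (n + 1) = play σ τ n :: hist σ τ n := rfl

theorem play_even (σ τ : ℕ → ℕ) (j : ℕ) :
    play σ τ (j + j) = σ (Encodable.encode (hist σ τ (j + j))) := by
  rw [play, if_pos (by omega)]

theorem play_odd (σ τ : ℕ → ℕ) (j : ℕ) :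
    play σ τ (j + j + 1) = τ (Encodable.encode (hist σ τ (j + j + 1))) := by
  rw [play, if_neg (by omega)]

/-- The strategy playing the digits of `z`. -/
def strat (z : ℕ → ℕ) (c : ℕ) : ℕ := z ((dl c).length / 2)

theorem hist_strat {σ z z' : ℕ → ℕ} {j : ℕ} (h : ∀ k < j, z k = z' k) :
    ∀ n ≤ j + j + 1, hist σ (strat z) n = hist σ (strat z') n := by
  intro n hn
  induction n with
  | zero => rfl
  | succ n ih =>
    have := ih (by omega)
    rw [hist, hist, this]
    split_ifs with h1
    · rfl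
    · simp only [strat, dl_encode, length_hist]
      rw [h _ (by omega)]

theorem psp {n : ℕ} (h : Det (n + 1) Set.univ)
    {Q : (ℕ → ℕ) × (ℕ → ℕ) × (ℕ → ℕ) × (ℕ → ℕ) → Prop} (hQ : AF Q) (y : ℕ → ℕ) {A : Set (ℕ → ℕ)}
    (hA : ∀ x, x ∈ A ↔ ∃ u, ∀ v, Q (v, u, x, y)) (h01 : ∀ x ∈ A, ∀ i, x i ≤ 1) :
    A.Countable ∨ ∃ X : (ℕ → ℕ) → ℕ → ℕ, (∀ z, X z ∈ A) ∧
      (∀ z z' i, (∀ k < i + 1, z k = z' k) → X z i = X z' i) ∧
      ∀ z z' j, (∀ k < j, z k = z' k) → X z = X z' → (z j = 0 ↔ z' j = 0) := by
  have h1 : AF (fun p => gwt p) := AF.lam (F := fun p j => gwt p j) (by unfold gwt; fun_prop)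
  have h2 : AF (fun p => gxx p) := AF.lam (F := fun p j => gxx p j) (by unfold gxx gen; fun_prop)
  have h3 : AF (fun p => Rules p) := by unfold Rules gln gen; fun_prop
  rcases h.af (Q := fun q => Rules q.2.1 ∧ Q (q.1, gwt q.2.1, gxx q.2.1, q.2.2))
    ((h3.comp AF.id.snd.fst).and (hQ.comp (AF.id.fst.prodMk ((h1.comp AF.id.snd.fst).prodMk
      ((h2.comp AF.id.snd.fst).prodMk AF.id.snd.snd))))) y with ⟨σ, H⟩ | ⟨τ, H⟩
  · have e : ∀ {z z' : ℕ → ℕ} {j}, (∀ k < j, z k = z' k) →
        ap (play σ (strat z)) (j + j) = ap (play σ (strat z')) (j + j) := fun h => by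
      simp only [ap, play_even, hist_strat h _ (Nat.le_succ _)]
    refine Or.inr ⟨fun z => gxx (play σ (strat z)), fun z => (hA _).2
      ⟨gwt (play σ (strat z)), fun v => (H (strat z) v).2⟩,
      fun z z' i hz => by simp only [gxx, gen, e hz], fun z z' j hz hX => ?_⟩
    have key : ∀ z, gxx (play σ (strat z)) (gln (play σ (strat z)) j) = 0 ↔ z j = 0 := fun z => by
      have : Rules (play σ (strat z)) := (H (strat z) y).1
      rw [this.coh (this j).1, (this j).2.2, ap, play_odd, strat, dl_encode, length_hist,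
        show (j + j + 1) / 2 = j by omega]
    have hX' : gxx (play σ (strat z)) = gxx (play σ (strat z')) := hX
    rw [← key z, ← key z', hX', gln, gln, e hz]
  · left
    let mv : ℕ → (ℕ → ℕ) → ℕ → ℕ := fun l x k =>
      Nat.pair l (Nat.pair (Encodable.encode ((List.range l).map x)) k)
    let Rej : List ℕ → ℕ → ℕ → (ℕ → ℕ) → Prop := fun h k b x =>
      ∀ l, b ≤ l → ¬ (x l = 0 ↔ τ (Encodable.encode (mv l x k :: h)) = 0)
    refine (Set.countable_iUnion fun c : List ℕ × ℕ × ℕ × List ℕ => Set.Subsingleton.countable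
      (s := {x ∈ A | Rej c.1 c.2.1 c.2.2.1 x ∧ (List.range c.2.2.1).map x = c.2.2.2}) ?_).mono ?_
    · rintro x ⟨hx, h4, h5⟩ x' ⟨hx', h6, h7⟩
      funext l
      induction l using Nat.strong_induction_on with
      | h l ih =>
        rcases lt_or_ge l c.2.2.1 with hl | hl
        · exact List.map_inj_left.1 (h5.trans h7.symm) l (by simpa)
        · have h8 := h4 l hl
          have h9 := h6 l hl
          have : mv l x c.2.1 = mv l x' c.2.1 := by
            simp only [mv]; rw [List.map_congr_left fun k hk => ih k (by simpa using hk)]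
          have := h01 x hx l
          have := h01 x' hx' l
          rw [‹mv l x _ = _›] at h8
          omega
    · intro x hx
      obtain ⟨u, hu⟩ := (hA x).1 hx
      by_contra hn
      have : ∀ h k b, ∃ l, b ≤ l ∧ (x l = 0 ↔ τ (Encodable.encode (mv l x k :: h)) = 0) := by
        intro h k b
        by_contra! H'
        exact hn (Set.mem_iUnion.2 ⟨(h, k, b, (List.range b).map x), hx, fun l hl => by
          have := H' l hl; tauto, rfl⟩)
      choose c hc using this
      let σ : ℕ → ℕ := fun s => mv (c (dl s) (u ((dl s).length / 2))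
        (((dl s).getD 1 0).unpair.1 + 1)) x (u ((dl s).length / 2))
      obtain ⟨v, hv⟩ := H σ
      let l : ℕ → ℕ := fun j =>
        c (hist σ τ (j + j)) (u j) (((hist σ τ (j + j)).getD 1 0).unpair.1 + 1)
      have e : ∀ j, play σ τ (j + j) = mv (l j) x (u j) := fun j => by
        rw [play_even]
        simp only [σ, l, dl_encode, length_hist, show (j + j) / 2 = j by omega]
      have e1 : ∀ j, gln (play σ τ) j = l j := fun j => by simp [gln, ap, e, mv]
      have e2 : ∀ j i, i < l j → gen (play σ τ) j i = x i := fun j i hi => by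
        simp only [gen, ap, e, mv, Nat.unpair_pair, nth, dl_encode, getD_range_map x hi]
      have e3 : ∀ j, l j < l (j + 1) := fun j => by
        have := (hc (hist σ τ (j + 1 + (j + 1))) (u (j + 1))
          (((hist σ τ (j + 1 + (j + 1))).getD 1 0).unpair.1 + 1)).1
        refine lt_of_lt_of_le ?_ this
        rw [show j + 1 + (j + 1) = j + j + 1 + 1 by omega, hist_succ, hist_succ, e]
        simp [mv]
      have e4 : gwt (play σ τ) = u := funext fun j => by simp [gwt, ap, e, mv]
      have e5 : gxx (play σ τ) = x := funext fun i =>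
        e2 _ _ ((strictMono_nat_of_lt_succ e3).le_apply (x := i + 1))
      refine hv ⟨fun j => ?_, by rw [e4, e5]; exact hu v⟩
      simp only [e1]
      refine ⟨e3 j, fun i hi => by rw [e2 _ _ hi, e2 _ _ (hi.trans (e3 j))], ?_⟩
      rw [e2 _ _ (e3 j), ap, play_odd, hist_succ, e]
      exact (hc _ _ _).2

theorem bounded {X : (ℕ → ℕ) → ℕ → ℕ} (hw : ∀ z, WellFounded (E (X z)))
    (hX : ∀ z z' i, (∀ k < i + 1, z k = z' k) → X z i = X z' i) :
    ∃ a : Z, IsOrdinal a ∧ (a : Set Z).Countable ∧
      ∀ z, IsOrdinal (pi (X z) 0) → pi (X z) 0 ⊆ a := by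
  let ext : List ℕ → (ℕ → ℕ) → Prop := fun s z => ∀ i < s.length, z i = s.getD i 0
  let r : List ℕ × ℕ → List ℕ × ℕ → Prop := fun a b => b.1.length < a.1.length ∧
    (∀ i < b.1.length, a.1.getD i 0 = b.1.getD i 0) ∧ ∀ z, ext a.1 z → E (X z) a.2 b.2
  have hr : WellFounded r := by
    refine wellFounded_iff_isEmpty_descending_chain.2 ⟨fun ⟨f, hf⟩ => ?_⟩
    have hm : StrictMono fun n => (f n).1.length := strictMono_nat_of_lt_succ fun n => (hf n).1
    have key : ∀ n k i, i < (f n).1.length → (f (n + k)).1.getD i 0 = (f n).1.getD i 0 :=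
      fun n k i hi => by
        induction k with
        | zero => rfl
        | succ k ih => rw [← ih]; exact (hf (n + k)).2.1 i (hi.trans_le (hm.monotone (by omega)))
    refine (wellFounded_iff_isEmpty_descending_chain.1 (hw fun i => (f (i + 1)).1.getD i 0)).elim
      ⟨fun n => (f n).2, fun n => (hf n).2.2 _ fun i hi => ?_⟩
    have h1 := key (n + 1) (i + 1) i hi
    have h2 := key (i + 1) (n + 1) i (hm.le_apply (x := i + 1))
    rw [add_comm] at h2
    exact h2.symm.trans h1
  have : ∀ b : List ℕ × ℕ, ∃ a : Z, IsOrdinal a ∧ (a : Set Z).Countable ∧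
      ∀ z, ext b.1 z → IsOrdinal (pi (X z) b.2) → pi (X z) b.2 ⊆ a := fun b => by
    induction b using hr.induction with
    | h b ih =>
      choose! F hF using ih
      refine ⟨ZFSet.iUnion fun a : {a // r a b} => insert (F a) (F a), isOrdinal_sUnion ?_, ?_,
        fun z hz ho η hη => ?_⟩
      · intro x hx
        obtain ⟨a, rfl⟩ := mem_range.1 hx
        exact isOrdinal_succ (hF a a.2).1
      · rw [coe_iUnion]
        exact Set.countable_iUnion fun a => by simpa using (hF a a.2).2.1
      · obtain ⟨k, h1, rfl⟩ := (mem_pi (hw z)).1 hη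
        have h2 : ext ((List.range (b.1.length + Nat.pair k b.2 + 1)).map z) z := fun i hi =>
          (getD_range_map z (by simpa using hi) 0).symm
        have h3 : r ((List.range (b.1.length + Nat.pair k b.2 + 1)).map z, k) b := by
          refine ⟨by simp, fun i hi => ?_, fun z' hz' => ?_⟩
          · rw [getD_range_map z (by omega)]; exact hz i hi
          · refine (hX z' z (Nat.pair k b.2) fun i hi => ?_).trans h1
            exact (hz' i (by simp; omega)).trans (h2 i (by simp; omega)).symm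
        refine mem_iUnion.2 ⟨⟨_, h3⟩, mem_insert_iff.2 ?_⟩
        exact (ho.mem hη).eq_or_mem_of_subset (hF _ h3).1 ((hF _ h3).2.2 z h2 (ho.mem hη))
  obtain ⟨a, h1, h2, h3⟩ := this ([], 0)
  exact ⟨a, h1, h2, fun z => h3 z (by simp [ext])⟩

theorem not_countable_range {X : (ℕ → ℕ) → ℕ → ℕ}
    (hX : ∀ z z' j, (∀ k < j, z k = z' k) → X z = X z' → (z j = 0 ↔ z' j = 0)) :
    ¬ (Set.range X).Countable := fun h => by
  have hi : Function.Injective fun s : Set ℕ => X fun k => if k ∈ s then 0 else 1 := by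
    intro s t e
    ext j
    induction j using Nat.strong_induction_on with
    | h j ih => simpa using hX _ _ j (fun k hk => by simp [ih k hk]) e
  have : Countable (Set ℕ) := Set.countable_univ_iff.1
    (Set.countable_of_injective_of_countable_image hi.injOn (h.mono (by
      rintro _ ⟨s, -, rfl⟩; exact ⟨_, rfl⟩)))
  obtain ⟨f, hf⟩ := exists_surjective_nat (Set ℕ)
  exact Function.cantor_surjective f hf

end Pool.Agent.Lib.MP_b3d6af_lc
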