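import Pool.Agent.Lib.MP_b3d6af_lc.Univ

/-!
The forcing: reshaping with localization, together with almost disjoint coding.
-/

set_option linter.unusedSectionVars false
set_option linter.unusedVariables false

namespace Pool.Agent.Lib.MP_b3d6af_lc

open ZFSet Classical

universe u v

variable {α : Type u} [Rep α]

/-- Codes of the initial segments of `x`. -/
def nd (x : ℕ → ℕ) : ℕ → ℕ
  | 0 => 0
  | k + 1 => Nat.pair (nd x k) (x k) + 1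

@[fun_prop] theorem UF.nd {f : α → ℕ → ℕ} {g : α → ℕ} (hf : UF f) (hg : UF g) :
    UF (fun a => nd (f a) (g a)) :=
  ((UF.natrec (F := MP_b3d6af_lc.nd) (fun _ => 0) (fun x k r => Nat.pair r (MP_b3d6af_lc.ap x k) + 1)
    (by fun_prop) (by fun_prop) (fun _ => rfl) fun _ _ => rfl).comp (hf.prodMk hg) :)

theorem le_nd (x : ℕ → ℕ) (k : ℕ) : k ≤ nd x k := by
  induction k with
  | zero => rfl
  | succ k ih => exact Nat.succ_le_succ (ih.trans (Nat.left_le_pair _ _))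

theorem nd_eq {x y : ℕ → ℕ} : ∀ {k j : ℕ}, nd x k = nd y j → ∀ i < k, x i = y i
  | 0, _, _ => by simp
  | k + 1, 0, h => by simp [nd] at h
  | k + 1, j + 1, h => by
    simp only [nd, add_left_inj, Nat.pair_eq_pair] at h
    have hk : k = j := by
      have : ∀ k j, nd x k = nd y j → k = j := fun k => by
        induction k with
        | zero => rintro (_ | j) h <;> simp [nd] at h ⊢
        | succ k ih =>
          rintro (_ | j) h <;> simp [nd] at h ⊢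
          exact ih j h.1
      exact this k j h.1
    intro i hi
    rcases Nat.lt_succ_iff_lt_or_eq.1 hi with hi | rfl
    exacts [nd_eq h.1 i hi, hk ▸ h.2]

/-- The localization clause. -/
def Loc (n : ℕ) (c a γ : Z) : Prop :=
  (∃ β ∈ γ, a ∈ β ∧ ZF (L c β : Set Z) ∧ ∀ η ∈ a, Ctbl (L c β : Set Z) η) → Phi n c a

def OL (n : ℕ) (b a γ : Z) : Prop := Ok (b ∩ a) a γ ∧ Loc n (b ∩ a) a γ

@[fun_prop] theorem UF.OL (n : ℕ) {f g k : α → Z} (hf : UF f) (hg : UF g) (hk : UF k) :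
    UF (fun a => OL n (f a) (g a) (k a)) := by
  unfold MP_b3d6af_lc.OL Loc; fun_prop

abbrev Tup := Z × Z × Z × List ℕ × List Z

noncomputable def cδ (p : ℕ → ℕ) : Z := (dec Tup (pi p 0)).1
noncomputable def cb (p : ℕ → ℕ) : Z := (dec Tup (pi p 0)).2.1
noncomputable def cΓ (p : ℕ → ℕ) : Z := (dec Tup (pi p 0)).2.2.1
noncomputable def cs (p : ℕ → ℕ) : List ℕ := (dec Tup (pi p 0)).2.2.2.1
noncomputable def cF (p : ℕ → ℕ) : List Z := (dec Tup (pi p 0)).2.2.2.2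

@[fun_prop] theorem UF.cδ {f : α → ℕ → ℕ} (hf : UF f) : UF (fun a => cδ (f a)) := by
  unfold MP_b3d6af_lc.cδ; fun_prop
@[fun_prop] theorem UF.cb {f : α → ℕ → ℕ} (hf : UF f) : UF (fun a => cb (f a)) := by
  unfold MP_b3d6af_lc.cb; fun_prop
@[fun_prop] theorem UF.cΓ {f : α → ℕ → ℕ} (hf : UF f) : UF (fun a => cΓ (f a)) := by
  unfold MP_b3d6af_lc.cΓ; fun_prop
@[fun_prop] theorem UF.cs {f : α → ℕ → ℕ} (hf : UF f) : UF (fun a => cs (f a)) := by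
  unfold MP_b3d6af_lc.cs; fun_prop
@[fun_prop] theorem UF.cF {f : α → ℕ → ℕ} (hf : UF f) : UF (fun a => cF (f a)) := by
  unfold MP_b3d6af_lc.cF; fun_prop

theorem ZF.cδ_mem {M : Set Z} (h : ZF M) {p : ℕ → ℕ} (hp : p ∈ Reals M) : cδ p ∈ M :=
  UF.mem (f := fun p => cδ p) (by fun_prop) h p hp
theorem ZF.cb_mem {M : Set Z} (h : ZF M) {p : ℕ → ℕ} (hp : p ∈ Reals M) : cb p ∈ M :=
  UF.mem (f := fun p => cb p) (by fun_prop) h p hp
theorem ZF.cΓ_mem {M : Set Z} (h : ZF M) {p : ℕ → ℕ} (hp : p ∈ Reals M) : cΓ p ∈ M :=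
  UF.mem (f := fun p => cΓ p) (by fun_prop) h p hp

/-- `p` codes a condition. -/
def IsC (n : ℕ) (p : ℕ → ℕ) : Prop := IsOrdinal (cδ p) ∧ cb p ⊆ cδ p ∧
  (∀ a ∈ insert (cδ p) (cδ p), ∃ γ ∈ cΓ p, OL n (cb p) a γ) ∧ ∀ β ∈ cF p, β ∈ cb p

/-- End extension of first parts. -/
def Ex1 (p q : ℕ → ℕ) : Prop := cδ q ⊆ cδ p ∧ cb q = cb p ∩ cδ q

/-- The stem `s` is allowed by `q`. -/
def St (s : List ℕ) (q : ℕ → ℕ) : Prop := (cs q).length ≤ s.length ∧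
  (∀ i < (cs q).length, s.getD i 0 = (cs q).getD i 0) ∧ ∀ i, (cs q).length ≤ i → s.getD i 0 ≠ 0 →
    ∀ β ∈ cF q, ∀ γ ∈ cΓ q, Ok (cb q ∩ β) β γ → ∀ k, nd (xr (cb q ∩ β) β γ) k ≠ i

/-- The order. -/
def Le (n : ℕ) (p q : ℕ → ℕ) : Prop :=
  IsC n p ∧ IsC n q ∧ Ex1 p q ∧ (∀ β ∈ cF q, β ∈ cF p) ∧ St (cs p) q

/-- Compatibility criterion. -/
def Cp (n : ℕ) (p q : ℕ → ℕ) : Prop :=
  IsC n p ∧ IsC n q ∧ (Ex1 p q ∨ Ex1 q p) ∧ (St (cs p) q ∨ St (cs q) p)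

@[fun_prop] theorem UF.IsC (n : ℕ) {f : α → ℕ → ℕ} (hf : UF f) : UF (fun a => IsC n (f a)) := by
  unfold MP_b3d6af_lc.IsC; fun_prop
@[fun_prop] theorem UF.Ex1 {f g : α → ℕ → ℕ} (hf : UF f) (hg : UF g) :
    UF (fun a => Ex1 (f a) (g a)) := by
  unfold MP_b3d6af_lc.Ex1; fun_prop
@[fun_prop] theorem UF.St {f : α → List ℕ} {g : α → ℕ → ℕ} (hf : UF f) (hg : UF g) :
    UF (fun a => St (f a) (g a)) := by
  unfold MP_b3d6af_lc.St; fun_prop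
@[fun_prop] theorem UF.Le (n : ℕ) {f g : α → ℕ → ℕ} (hf : UF f) (hg : UF g) :
    UF (fun a => Le n (f a) (g a)) := by
  unfold MP_b3d6af_lc.Le; fun_prop
@[fun_prop] theorem UF.Cp (n : ℕ) {f g : α → ℕ → ℕ} (hf : UF f) (hg : UF g) :
    UF (fun a => Cp n (f a) (g a)) := by
  unfold MP_b3d6af_lc.Cp; fun_prop

variable {n : ℕ} {p q r : ℕ → ℕ}

theorem inter_inter_of_sub {b δ a : Z} (h : a ⊆ δ) : b ∩ δ ∩ a = b ∩ a := by
  ext x; simp only [mem_inter]; exact ⟨fun H => ⟨H.1.1, H.2⟩, fun H => ⟨⟨H.1, h H.2⟩, H.2⟩⟩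

theorem Ex1.refl (h : IsC n p) : Ex1 p p := ⟨subset_rfl, (inter_eq_left_of_subset h.2.1).symm⟩

theorem Ex1.trans (h : Ex1 p q) (h' : Ex1 q r) : Ex1 p r :=
  ⟨h'.1.trans h.1, by rw [h'.2, h.2, inter_inter_of_sub h'.1]⟩

theorem Ex1.sub (h : Ex1 p q) : cb q ⊆ cb p := fun x hx => (mem_inter.1 (h.2 ▸ hx)).1

theorem Ex1.inter (h : Ex1 p q) {a : Z} (ha : a ⊆ cδ q) : cb q ∩ a = cb p ∩ a := by
  rw [h.2, inter_inter_of_sub ha]

theorem getD_ne {s : List ℕ} {i : ℕ} (h : s.getD i 0 ≠ 0) : i < s.length :=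
  by_contra fun hn => h (List.getD_eq_default _ _ (not_lt.1 hn))

theorem St.refl (p : ℕ → ℕ) : St (cs p) p :=
  ⟨le_rfl, fun _ _ => rfl, fun i h1 h2 => absurd (getD_ne h2) (by omega)⟩

theorem Le.refl (h : IsC n p) : Le n p p := ⟨h, h, Ex1.refl h, fun _ h => h, St.refl p⟩

theorem IsC.ok (h : IsC n p) {a : Z} (ha : a ⊆ cδ p) (ho : IsOrdinal a) :
    ∃ γ ∈ cΓ p, OL n (cb p) a γ :=
  h.2.2.1 a (mem_insert_iff.2 (ho.eq_or_mem_of_subset h.1 ha))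

theorem IsC.ctbl (h : IsC n p) {M : Set Z} (hM : ZF M) (hp : p ∈ Reals M) : Ctbl M (cδ p) := by
  obtain ⟨γ, h1, h2⟩ := h.ok subset_rfl h.1
  exact h2.1.ctbl hM (hM.inter_mem (hM.cb_mem hp) (hM.cδ_mem hp)) (hM.trans _ (hM.cΓ_mem hp) _ h1)

theorem St.trans {s : List ℕ} (h : St s q) (h' : Le n q r) : St s r := by
  obtain ⟨h1, h2, h3, h4, h5, h6, h7⟩ := h'
  refine ⟨h5.trans h.1, fun i hi => (h.2.1 i (by omega)).trans (h6 i hi),
    fun i hi hs β hβ γ hγ hk => ?_⟩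
  rcases lt_or_ge i (cs q).length with hi' | hi'
  · exact h7 i hi (h.2.1 i hi' ▸ hs) β hβ γ hγ hk
  · have h8 := h2.2.1 (h2.2.2.2 β hβ)
    have h9 := h2.1.subset_of_mem h8
    obtain ⟨γ', h10, h11, -⟩ := h1.ok (h9.trans h3.1) (h2.1.mem h8)
    rw [h3.inter h9] at hk ⊢
    exact hk.unique h11 ▸ h.2.2 i hi' hs β (h4 β hβ) γ' h10 h11

theorem Le.trans (h : Le n p q) (h' : Le n q r) : Le n p r :=
  ⟨h.1, h'.2.1, h.2.2.1.trans h'.2.2.1, fun β hβ => h.2.2.2.1 β (h'.2.2.2.1 β hβ),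
    h.2.2.2.2.trans h'⟩

theorem cp_of_le (h : Le n r p) (h' : Le n r q) : Cp n p q := by
  have e : ∀ {p q}, Le n r p → Le n r q → cδ q ⊆ cδ p → Ex1 p q := fun h h' hs =>
    ⟨hs, by rw [h'.2.2.1.2, h.2.2.1.inter hs]⟩
  have e' : ∀ {p q}, Le n r p → Le n r q → (cs q).length ≤ (cs p).length → St (cs p) q :=
    fun h h' hs => ⟨hs, fun i hi => (h.2.2.2.2.2.1 i (by omega)).symm.trans (h'.2.2.2.2.2.1 i hi),
      fun i hi h1 => h'.2.2.2.2.2.2 i hi (by rwa [h.2.2.2.2.2.1 i (getD_ne h1)])⟩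
  exact ⟨h.2.1, h'.2.1, (h'.2.1.1.subset_total h.2.1.1).imp (e h h') (e h' h),
    (le_total _ _).imp (e' h h') (e' h' h)⟩

section good
variable {V : Set Z} (hV : Good V) (hac : AC V)
include hV hac

theorem exists_cond {δ b : Z} (hδ : δ ∈ V) (hb : b ∈ V) (ho : IsOrdinal δ) (hs : b ⊆ δ)
    (h : ∀ a ∈ insert δ δ, ∃ γ ∈ V, OL n b a γ) (s : List ℕ) {F : List Z} (hF : ∀ β ∈ F, β ∈ b) :
    ∃ p ∈ Reals V, IsC n p ∧ cδ p = δ ∧ cb p = b ∧ cs p = s ∧ cF p = F := by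
  obtain ⟨γ, h1, h2⟩ := h δ (mem_insert _ _)
  have hc := h2.1.ctbl hV.1 (hV.1.inter_mem hb hδ) h1
  obtain ⟨m, hm, j, h3, h4, ⟨δ', b'⟩, h5⟩ := reflect hV hac (a := (δ, b)) (by exact ⟨hδ, hb⟩)
  obtain rfl : δ' = δ := h4.eq_of_ord (h4.fst h5) ho hc
  obtain rfl : b' = b := h4.eq_of_sub (h4.snd h5) hδ ho hc hs
  obtain ⟨Γ, h6, h7⟩ := h4.hA.collect (Q := fun (b : Z) a γ => OL n b a γ) (by fun_prop) b' h5.1.2
    (h4.hA.succ_mem h5.1.1) ((h4.iff (P := fun p : Mo × Z × Z => ∀ a ∈ insert p.2.1 p.2.1,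
      ∃ γ ∈ p.1.M, OL n p.2.2 a γ) (by fun_prop) (h4.prod h4.mo h5)).2 h)
  obtain ⟨p, h8, h9⟩ := exists_code hV.1 h3 h4.hA.trans hm (Rep.mem h4.hA
    (a := ((δ', b', Γ, s, F) : Tup)) ⟨h5.1.1, h5.1.2, h6, fun _ _ => trivial,
      fun β hβ => h4.hA.trans _ h5.1.2 _ (hF β hβ)⟩)
  have e : dec Tup (pi p 0) = (δ', b', Γ, s, F) := by rw [h9, dec_enc]
  simp only [IsC, cδ, cb, cΓ, cs, cF]
  exact ⟨p, h8, by simp only [e]; exact ⟨⟨ho, hs, h7, hF⟩, trivial, trivial, trivial, trivial⟩⟩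

theorem change (hp : p ∈ Reals V) (h : IsC n p) (s : List ℕ) {F : List Z}
    (hF : ∀ β ∈ F, β ∈ cb p) : ∃ r ∈ Reals V, IsC n r ∧ Ex1 r p ∧ cs r = s ∧ cF r = F := by
  obtain ⟨r, h1, h2, h3, h4, h5⟩ := exists_cond hV hac (hV.1.cδ_mem hp) (hV.1.cb_mem hp) h.1 h.2.1
    (fun a ha => (h.2.2.1 a ha).imp fun γ hγ => ⟨hV.1.trans _ (hV.1.cΓ_mem hp) _ hγ.1, hγ.2⟩) s hF
  exact ⟨r, h1, h2, by simpa only [Ex1, h3, h4] using Ex1.refl h, h5⟩

theorem Cp.compat (hp : p ∈ Reals V) (hq : q ∈ Reals V) (h : Cp n p q) :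
    ∃ r ∈ Reals V, Le n r p ∧ Le n r q := by
  obtain ⟨h1, h2, h3, h4⟩ := h
  obtain ⟨s, h5, h6⟩ : ∃ s, St s p ∧ St s q :=
    h4.elim (fun h => ⟨_, St.refl p, h⟩) fun h => ⟨_, h, St.refl q⟩
  obtain ⟨t, h7, h8, h9, h10⟩ : ∃ t ∈ Reals V, IsC n t ∧ Ex1 t p ∧ Ex1 t q :=
    h3.elim (fun h => ⟨p, hp, h1, Ex1.refl h1, h⟩) fun h => ⟨q, hq, h2, h, Ex1.refl h2⟩
  obtain ⟨r, h11, h12, h13, rfl, h14⟩ := change hV hac h7 h8 s (F := cF p ++ cF q) fun β hβ =>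
    (List.mem_append.1 hβ).elim (fun h => h9.sub (h1.2.2.2 β h)) fun h => h10.sub (h2.2.2.2 β h)
  exact ⟨r, h11, ⟨h12, h1, h13.trans h9, by simp +contextual [h14], h5⟩,
    h12, h2, h13.trans h10, by simp +contextual [h14], h6⟩

theorem ext_stem (hp : p ∈ Reals V) (h : IsC n p) {i v : ℕ} (hi : (cs p).length ≤ i)
    (hv : v ≠ 0 → ∀ β ∈ cF p, ∀ γ ∈ cΓ p, Ok (cb p ∩ β) β γ → ∀ k, nd (xr (cb p ∩ β) β γ) k ≠ i) :
    ∃ q ∈ Reals V, Le n q p ∧ i < (cs q).length ∧ (cs q).getD i 0 = v := by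
  obtain ⟨q, h1, h2, h3, h4, h5⟩ := change hV hac hp h
    ((List.range (i + 1)).map fun t => if t = i then v else (cs p).getD t 0) h.2.2.2
  refine ⟨q, h1, ⟨h2, h, h3, by simp [h5], by simp [h4]; omega, fun t ht => ?_, fun t ht h6 => ?_⟩,
    by simp [h4], by rw [h4, getD_range_map _ (by omega), if_pos rfl]⟩
  · rw [h4, getD_range_map _ (by omega), if_neg (by omega)]
  · have := getD_ne h6
    rw [h4] at h6 this
    rw [getD_range_map _ (by simpa using this)] at h6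
    split_ifs at h6 with h7
    exacts [h7 ▸ hv h6, absurd (getD_ne h6) (by omega)]

end good

/-- Iterated successor. -/
noncomputable def sc (δ : Z) : ℕ → Z
  | 0 => δ
  | k + 1 => insert (sc δ k) (sc δ k)

@[fun_prop] theorem UF.sc {f : α → Z} {g : α → ℕ} (hf : UF f) (hg : UF g) :
    UF (fun a => sc (f a) (g a)) :=
  ((UF.natrec (F := MP_b3d6af_lc.sc) (fun δ => δ) (fun _ _ r => Insert.insert r r)
    (by fun_prop) (by fun_prop) (fun _ => rfl) fun _ _ => rfl).comp (hf.prodMk hg) :)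

theorem mem_sc {δ x : Z} {k : ℕ} : x ∈ sc δ k ↔ x ∈ δ ∨ ∃ j < k, x = sc δ j := by
  induction k with
  | zero => simp [sc]
  | succ k ih =>
    simp only [sc, mem_insert_iff, ih, Nat.lt_succ_iff_lt_or_eq]
    constructor
    · rintro (h | h | ⟨j, h1, h2⟩)
      exacts [Or.inr ⟨k, Or.inr rfl, h⟩, Or.inl h, Or.inr ⟨j, Or.inl h1, h2⟩]
    · rintro (h | ⟨j, h1 | rfl, h2⟩)
      exacts [Or.inr (Or.inl h), Or.inr (Or.inr ⟨j, h1, h2⟩), Or.inl h2]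

theorem sc_ord {δ : Z} (h : IsOrdinal δ) (k : ℕ) : IsOrdinal (sc δ k) := by
  induction k with
  | zero => exact h
  | succ k ih => exact isOrdinal_succ ih

theorem sc_inj {δ : Z} {j k : ℕ} (h : sc δ j = sc δ k) : j = k := by
  rcases lt_trichotomy j k with h1 | h1 | h1
  · exact absurd (mem_sc.2 (Or.inr ⟨j, h1, h.symm⟩) : sc δ k ∈ sc δ k) (mem_irrefl _)
  · exact h1
  · exact absurd (mem_sc.2 (Or.inr ⟨k, h1, h⟩) : sc δ j ∈ sc δ j) (mem_irrefl _)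

theorem sc_notMem {δ a : Z} (h : a ⊆ δ) (k : ℕ) : sc δ k ∉ a := fun h1 =>
  mem_irrefl _ (mem_sc.2 (Or.inl (h h1)) : sc δ k ∈ sc δ k)

theorem ctbl_pi {M : Set Z} (hM : ZF M) {z : ℕ → ℕ} (hz : z ∈ Reals M) : Ctbl M (pi z 0) := by
  refine ctbl_of_uf hM (g := pi) (by fun_prop) z hz fun x hx => ?_
  by_cases h : Ac (predE z) (nat 0)
  · obtain ⟨_, h1, rfl⟩ := (mem_clp h).1 hx
    obtain ⟨i, -, rfl⟩ := mem_predE.1 h1
    exact ⟨i, rfl⟩
  · rw [pi, clp, wrec, dif_neg h] at hx; simp at hx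

theorem self_mem_L {c a β : Z} (ha : IsOrdinal a) (hc : c ⊆ a) (h : a ∈ β) : c ∈ L c β :=
  mem_L.2 ⟨a, h, mem_Df_of (.mem 0 1) [] (by simp)
    (fun x hx => (ord_mem_L ha (ha.mem (hc hx))).2 (hc hx)) (by simp +contextual)⟩

theorem Ctbl.union {M : Set Z} (hM : ZF M) {a b : Z} (ha : Ctbl M a) (hb : Ctbl M b) :
    Ctbl M (a ∪ b) := by
  obtain ⟨f, hf, h1⟩ := ha.enum
  obtain ⟨g, hg, h2⟩ := hb.enum
  refine ctbl_of_uf hM (g := fun (p : Z × Z) (k : ℕ) => if k.unpair.1 = 0 then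
    app p.1 (nat k.unpair.2) else app p.2 (nat k.unpair.2)) (by fun_prop) (f, g)
    (by exact ⟨hf, hg⟩) fun x hx => ?_
  rcases mem_union.1 hx with hx | hx
  · obtain ⟨k, rfl⟩ := h1 x hx; exact ⟨Nat.pair 0 k, by simp⟩
  · obtain ⟨k, rfl⟩ := h2 x hx; exact ⟨Nat.pair 1 k, by simp⟩

theorem extend {V : Set Z} (hV : Good V) (hac : AC V) (hp : p ∈ Reals V) (h : IsC n p)
    {x : ℕ → ℕ} (hx : x ∈ Reals V) {a : Z} (ha : a ∈ V) (ho : IsOrdinal a) (hc : Ctbl V a)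
    (s : List ℕ) {F : List Z} (hF : ∀ β ∈ F, β ∈ cb p) :
    ∃ d ∈ Reals V, IsC n d ∧ Ex1 d p ∧ cs d = s ∧ cF d = F ∧ a ∈ cδ d ∧
      ∃ β ∈ V, IsOrdinal β ∧ Ctbl V β ∧ real x ∈ L (cb d) β := by
  have hZ := hV.1
  set δ := cδ p with hδ
  set b := cb p with hb
  have hδV : δ ∈ V := hZ.cδ_mem hp
  have hbV : b ∈ V := hZ.cb_mem hp
  have hδo : IsOrdinal δ := h.1
  let e : Z := (δ ∪ range (sc δ)) ∪ a
  have heo : IsOrdinal e := by
    refine isOrdinal_union (isOrdinal_iff_forall_mem_isOrdinal.2 ⟨fun y hy z hz => ?_,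
      fun y hy => ?_⟩) ho
    · rcases mem_union.1 hy with hy | hy
      · exact mem_union.2 (Or.inl (hδo.mem_trans hz hy))
      · obtain ⟨k, rfl⟩ := mem_range.1 hy
        exact mem_union.2 ((mem_sc.1 hz).imp_right fun ⟨j, _, h⟩ => mem_range.2 ⟨j, h.symm⟩)
    · rcases mem_union.1 hy with hy | hy
      · exact hδo.mem hy
      · obtain ⟨k, rfl⟩ := mem_range.1 hy; exact sc_ord hδo k
  have heV : e ∈ V := UF.mem (f := fun p : Z × Z => (p.1 ∪ range (sc p.1)) ∪ p.2) (by fun_prop) hZ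
    (δ, a) ⟨hδV, ha⟩
  have hec : Ctbl V e := ((h.ctbl hZ hp).union hZ
    (ctbl_of_uf hZ (g := sc) (by fun_prop) δ hδV (by simp))).union hZ hc
  let δ' : Z := insert e e
  have hδ'o : IsOrdinal δ' := isOrdinal_succ heo
  have hδ'V : δ' ∈ V := hZ.succ_mem heV
  have hδ'c : Ctbl V δ' := hec.insert hZ heV
  have hsc : ∀ k, sc δ k ∈ δ' := fun k => by simp [δ', e]
  obtain ⟨z, hz, hz'⟩ := exists_code hZ (hδ'c.insert hZ hδ'V)
    (fun y hy t ht => (isOrdinal_succ hδ'o).mem_trans ht hy) (hZ.succ_mem hδ'V) (mem_insert δ' δ')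
  let y := join x z
  let b' : Z := b ∪ range fun k => sc δ (Nat.pair k (y k))
  have hb'V : b' ∈ V := UF.mem (f := fun p : Z × Z × (ℕ → ℕ) => p.1 ∪ range fun k =>
    sc p.2.1 (Nat.pair k (ap p.2.2 k))) (by fun_prop) hZ (b, δ, y) ⟨hbV, hδV, hZ.join_mem hx hz⟩
  have h1 : ∀ {c}, c ⊆ δ → b' ∩ c = b ∩ c := fun hc => ZFSet.ext fun t => by
    simp only [b', mem_inter, mem_union, mem_range, and_congr_left_iff, or_iff_left_iff_imp]
    rintro h1 ⟨k, rfl⟩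
    exact absurd h1 (sc_notMem hc _)
  have hs : b' ⊆ δ' := fun t ht => by
    rcases mem_union.1 ht with ht | ht
    · simp [δ', e, show t ∈ δ from h.2.1 ht]
    · obtain ⟨k, rfl⟩ := mem_range.1 ht; exact hsc _
  have K : ∀ M, ZF M → ∀ c, (∀ k, sc δ k ∈ c) → b' ∩ c ∈ M → δ ∈ M → y ∈ Reals M := by
    intro M hM c h2 h3 h4
    have := UF.fits (f := fun (p : Z × Z) k => mu fun i => sc p.2 (Nat.pair k i) ∈ p.1)
      (by fun_prop) hM (b' ∩ c, δ) ⟨h3, h4⟩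
    rwa [show (fun k => mu fun i => sc δ (Nat.pair k i) ∈ b' ∩ c) = y from funext fun k =>
      mu_eq_iff.2 (Or.inl ⟨by simp [b', h2], fun i hi h5 => ?_⟩)] at this
    rcases mem_union.1 (mem_inter.1 h5).1 with h5 | h5
    · exact sc_notMem h.2.1 _ h5
    · obtain ⟨k', h6⟩ := mem_range.1 h5
      obtain ⟨rfl, h7⟩ := Nat.pair_eq_pair.1 (sc_inj h6)
      omega
  have K' : ∀ M, ZF M → ∀ c ⊆ δ', (∀ k, sc δ k ∈ c) → b' ∩ c ∈ M → δ ∈ M → Ctbl M c :=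
    fun M hM c h2 h3 h4 h5 => by
      have := ctbl_pi hM (hM.rgt_mem (K M hM c h3 h4 h5))
      rw [rgt_join, hz'] at this
      exact this.sub h2
  suffices key : ∀ c ∈ insert δ' δ', ∃ γ ∈ V, OL n b' c γ by
    obtain ⟨d, h2, h3, h4, h5, h6, h7⟩ := exists_cond hV hac (n := n) hδ'V hb'V hδ'o hs
      key s (F := F) fun β hβ => mem_union.2 (Or.inl (hF β hβ))
    refine ⟨d, h2, h3, ⟨h4 ▸ hδ'o.subset_of_mem (hsc 0), ?_⟩, h6, h7, h4 ▸ ?_, h5 ▸ ?_⟩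
    · rw [h5, h1 subset_rfl]; exact (inter_eq_left_of_subset h.2.1).symm
    · exact ho.mem_of_subset_of_mem hδ'o (fun t ht => mem_union.2 (Or.inr ht)) (mem_insert _ _)
    · have h8 := hV.zf_LM hb'V
      have := h8.lft_mem (K _ h8 δ' hsc
        (by rw [inter_eq_left_of_subset hs]; exact hV.self_LM hb'V hδ'o hs) (LM_ord hZ _ hδV hδo))
      rw [lft_join] at this
      obtain ⟨β, h9, h10, h11⟩ := this
      exact refl_ord hV hac (P := fun p => p.2.1 ∈ L p.1 p.2.2) (by fun_prop)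
        (fx_sub hb'V hδ'V hδ'o hδ'c hs) (fx_real hx) h9 h10 h11
  intro c hc
  have hco : IsOrdinal c := (isOrdinal_succ hδ'o).mem hc
  have hcs : c ⊆ δ' := (hco.subset_iff_eq_or_mem hδ'o).2 (mem_insert_iff.1 hc)
  have hcV : c ∈ V := hZ.trans _ (hZ.succ_mem hδ'V) _ hc
  rcases hδo.mem_or_subset hco with h8 | h8
  swap
  · obtain ⟨γ, h9, h10⟩ := h.ok h8 hco
    exact ⟨γ, hZ.trans _ (hZ.cΓ_mem hp) _ h9, by simpa only [OL, h1 h8] using h10⟩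
  have hcase : (∀ k, sc δ k ∈ c) ∨ ∃ k, c = sc δ (k + 1) := by
    by_contra! H
    obtain ⟨⟨k, hk⟩, H⟩ := H
    induction k with
    | zero => exact hk h8
    | succ k ih =>
      refine ih fun h9 => ?_
      rcases (sc_ord hδo (k + 1)).mem_trichotomous hco with h10 | h10 | h10
      · exact hk h10
      · exact H k h10.symm
      · rcases mem_insert_iff.1 h10 with rfl | h10
        exacts [mem_irrefl _ h9, mem_asymm h9 h10]
  have hc'V := hZ.inter_mem hb'V hcV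
  have hcs' : b' ∩ c ⊆ c := fun t ht => (mem_inter.1 ht).2
  have h9 := hV.zf_LM hc'V
  have h10 := hV.self_LM hc'V hco hcs'
  have h11 := LM_ord hZ (b' ∩ c) hδV hδo
  obtain ⟨γ, h12, h13⟩ := ok_of_LM hZ (c := b' ∩ c) (a := c) (by
    rcases hcase with h12 | ⟨k, rfl⟩
    · exact K' _ h9 c hcs h12 h10 h11
    · obtain ⟨γ, h12, h13, -⟩ := h.ok subset_rfl hδo
      have h14 : Ctbl (LM V (b' ∩ sc δ (k + 1))) δ := h13.ctbl h9 (by
        rw [← h1 subset_rfl, ← inter_inter_of_sub (hco.subset_of_mem h8)]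
        exact h9.inter_mem h10 h11) (LM_ord hZ _ (hZ.trans _ (hZ.cΓ_mem hp) _ h12) h13.1)
      have : ∀ j, Ctbl (LM V (b' ∩ sc δ (k + 1))) (sc δ j) := fun j => by
        induction j with
        | zero => exact h14
        | succ j ih =>
          exact ih.insert h9 (LM_ord hZ _ (hZ.trans _ hδ'V _ (hsc j)) (sc_ord hδo j))
      exact this _)
  refine ⟨γ, h12, h13, fun ⟨β, h14, h15, h16, h17⟩ => absurd ?_ (h13.2.2 β h14)⟩
  have h18 : ∀ t ∈ c, t ∈ (L (b' ∩ c) β : Set Z) := fun t ht =>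
    (ord_mem_L (h13.1.mem h14) (hco.mem ht)).2 ((h13.1.mem h14).mem_trans ht h15)
  rcases hcase with h12 | ⟨k, rfl⟩
  · exact K' _ h16 c hcs h12 (self_mem_L hco hcs' h15) (h18 _ h8)
  · exact (h17 _ (mem_insert _ _)).insert h16 (h18 _ (mem_insert _ _))

end Pool.Agent.Lib.MP_b3d6af_lc
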