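import Pool.Agent.Lib.MP_b3d6af_lc.Ops

/-!
The recursion theorem for `UF`, recursion on numbers and lists, arithmetic.
-/

namespace Pool.Agent.Lib.MP_b3d6af_lc

open ZFSet Classical

universe u v w

variable {α : Type u} {β : Type v} {γ : Type w} [Rep α] [Rep β] [Rep γ]

/-- The well-founded part of the relation `y ∈ pred x`. -/
def Ac (pred : Z → Z) (x : Z) : Prop := Acc (fun y x => y ∈ pred x) x

theorem Ac.ind {pred : Z → Z} {P : Z → Prop} {x : Z} (h : Ac pred x)
    (H : ∀ x, Ac pred x → (∀ y ∈ pred x, P y) → P x) : P x := by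
  induction h with
  | intro x h ih => exact H x ⟨x, h⟩ ih

theorem Ac.inv {pred : Z → Z} {x y : Z} (h : Ac pred x) (hy : y ∈ pred x) : Ac pred y :=
  Acc.inv h hy

theorem Ac.mk {pred : Z → Z} {x : Z} (h : ∀ y ∈ pred x, Ac pred y) : Ac pred x := ⟨x, h⟩

theorem ac_of_sub {pred : Z → Z} (h : ∀ x, pred x ⊆ x) (x : Z) : Ac pred x := by
  induction x using ZFSet.inductionOn with
  | h x ih => exact Ac.mk fun y hy => ih y (h x hy)

/-- Recursion along `pred`. -/
noncomputable def wrec (pred : Z → Z) (G : Z → Z → Z) (x : Z) : Z :=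
  if h : Ac pred x then
    Acc.rec (motive := fun _ _ => Z)
      (fun x _ ih => G x (range fun y : pred x => pair y.1 (ih y.1 y.2))) h
  else ∅

theorem wrec_eq {pred : Z → Z} (G : Z → Z → Z) {x : Z} (h : Ac pred x) :
    wrec pred G x = G x (restr (wrec pred G) (pred x)) := by
  obtain ⟨x, h⟩ := h
  rw [wrec, dif_pos ⟨x, h⟩]
  simp only [restr, img]
  congr 2
  funext y
  rw [wrec, dif_pos (show Ac pred y.1 from h y.1 y.2)]

/-- Restriction of a set of pairs. -/
noncomputable def cut (h s : Z) : Z := ZFSet.sep (fun p => ∃ y ∈ s, p = pair y (snd p)) h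

@[fun_prop] theorem UF.cut {f g : α → Z} (hf : UF f) (hg : UF g) :
    UF (fun a => cut (f a) (g a)) := by
  unfold MP_b3d6af_lc.cut; fun_prop

theorem cut_eq {h s : Z} {F : Z → Z} (h1 : ∀ y ∈ s, ∃ z, pair y z ∈ h)
    (h2 : ∀ y ∈ s, ∀ z, pair y z ∈ h → z = F y) : cut h s = restr F s := by
  ext p
  simp only [cut, restr, mem_sep, mem_img]
  constructor
  · rintro ⟨hp, y, hy, e⟩
    exact ⟨y, hy, by rw [← h2 y hy (snd p) (e ▸ hp), ← e]⟩
  · rintro ⟨y, hy, rfl⟩
    obtain ⟨z, hz⟩ := h1 y hy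
    exact ⟨h2 y hy z hz ▸ hz, y, hy, by simp⟩

/-- Approximations to a recursion. -/
def App (pred : Z → Z) (G : Z → Z → Z) (h : Z) : Prop :=
  ∀ y z, pair y z ∈ h → (∀ y' ∈ pred y, ∃ z', pair y' z' ∈ h) ∧ z = G y (cut h (pred y))

/-- Correct approximations. -/
def Cor (pred : Z → Z) (G : Z → Z → Z) (h : Z) : Prop :=
  ∀ y z, pair y z ∈ h → Ac pred y ∧ z = wrec pred G y ∧ ∀ y' ∈ pred y, ∃ z', pair y' z' ∈ h

theorem cor_iff {pred : Z → Z} {G : Z → Z → Z} {h : Z} :
    Cor pred G h ↔ App pred G h ∧ ∀ y z, pair y z ∈ h → Ac pred y := by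
  constructor
  · intro H
    refine ⟨fun y z hp => ⟨(H y z hp).2.2, ?_⟩, fun y z hp => (H y z hp).1⟩
    rw [cut_eq (H y z hp).2.2 fun y' _ z' hz' => (H y' z' hz').2.1, ← wrec_eq G (H y z hp).1]
    exact (H y z hp).2.1
  · rintro ⟨H, H'⟩ y z hp
    refine ⟨H' y z hp, ?_, (H y z hp).1⟩
    have hy := H' y z hp
    revert z
    refine hy.ind (P := fun y => ∀ z, pair y z ∈ h → z = wrec pred G y) fun y hy ih z hp => ?_
    rw [wrec_eq G hy, ← cut_eq (H y z hp).1 ih]
    exact (H y z hp).2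

theorem exists_cor {pred : α → Z → Z} {G : α → Z → Z → Z}
    (hp : UF (fun p : α × Z => pred p.1 p.2))
    (hG : UF (fun p : α × Z × Z => G p.1 p.2.1 p.2.2))
    (hC : UF (fun p : α × Z => Cor (pred p.1) (G p.1) p.2)) {M : Set Z} (hM : ZF M) {a : α}
    (ha : fits M a) {x : Z} (hx : Ac (pred a) x) :
    x ∈ M → ∃ h ∈ M, Cor (pred a) (G a) h ∧ ∃ z, pair x z ∈ h := by
  refine hx.ind (P := fun x => x ∈ M → ∃ h ∈ M, Cor (pred a) (G a) h ∧ ∃ z, pair x z ∈ h)
    fun x hx ih hxM => ?_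
  have h1 : pred a x ∈ M := hp.mem hM (a, x) ⟨ha, hxM⟩
  obtain ⟨c, hc, H⟩ := hM.collect (Q := fun a y h => Cor (pred a) (G a) h ∧ ∃ z, pair y z ∈ h)
    ((hC.comp (g := fun p : (α × Z) × Z => (p.1.1, p.2)) (by fun_prop)).and (by fun_prop)) a ha h1
    fun y hy => ih y hy (hM.trans _ h1 _ hy)
  have hk : sUnion (ZFSet.sep (Cor (pred a) (G a)) c) ∈ M :=
    UF.mem (f := fun p : α × Z => sUnion (ZFSet.sep (Cor (pred p.1) (G p.1)) p.2))
      (UF.sUnion (UF.sep uf_snd (hC.comp (g := fun p : (α × Z) × Z => (p.1.1, p.2))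
        (by fun_prop)))) hM (a, c) ⟨ha, hc⟩
  set k := sUnion (ZFSet.sep (Cor (pred a) (G a)) c) with hkd
  have hk1 : Cor (pred a) (G a) k := by
    intro y z hyz
    obtain ⟨h, hh, hyz⟩ := mem_sUnion.1 hyz
    obtain ⟨h2, h3, h4⟩ := (mem_sep.1 hh).2 y z hyz
    exact ⟨h2, h3, fun y' hy' => (h4 y' hy').imp fun z' hz' => mem_sUnion.2 ⟨h, hh, hz'⟩⟩
  have hk2 : ∀ y ∈ pred a x, ∃ z, pair y z ∈ k := fun y hy => by
    obtain ⟨h, hh, h2, z, hz⟩ := H y hy
    exact ⟨z, mem_sUnion.2 ⟨h, mem_sep.2 ⟨hh, h2⟩, hz⟩⟩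
  have e : G a x (cut k (pred a x)) = wrec (pred a) (G a) x := by
    rw [cut_eq hk2 fun y _ z hz => (hk1 y z hz).2.1, ← wrec_eq (G a) hx]
  refine ⟨insert (pair x (G a x (cut k (pred a x)))) k,
    UF.mem (f := fun p : α × Z × Z => Insert.insert (pair p.2.1
      (G p.1 p.2.1 (cut p.2.2 (pred p.1 p.2.1)))) p.2.2) (by fun_prop) hM (a, x, k)
      ⟨ha, hxM, hk⟩, fun y z hyz => ?_, _, mem_insert _ _⟩
  rcases mem_insert_iff.1 hyz with h | h
  · obtain ⟨rfl, rfl⟩ := pair_inj.1 h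
    exact ⟨hx, e, fun y' hy' => (hk2 y' hy').imp fun _ => mem_insert_of_mem _⟩
  · obtain ⟨h2, h3, h4⟩ := hk1 y z h
    exact ⟨h2, h3, fun y' hy' => (h4 y' hy').imp fun _ => mem_insert_of_mem _⟩

theorem uf_app {pred : α → Z → Z} {G : α → Z → Z → Z}
    (hp : UF (fun p : α × Z => pred p.1 p.2))
    (hG : UF (fun p : α × Z × Z => G p.1 p.2.1 p.2.2)) :
    UF (fun p : α × Z => App (pred p.1) (G p.1) p.2) := by
  unfold App; fun_prop

theorem App.ac {pred : Z → Z} {h : Z} (H : App pred (fun _ f => img snd f) h) :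
    ∀ z y, pair y z ∈ h → Ac pred y := by
  intro z
  induction z using ZFSet.inductionOn with
  | h z ih =>
    intro y hp
    refine Ac.mk fun y' hy' => ?_
    obtain ⟨z', hz'⟩ := (H y z hp).1 y' hy'
    refine ih z' ?_ y' hz'
    rw [(H y z hp).2]
    exact mem_img.2 ⟨_, mem_sep.2 ⟨hz', y', hy', by simp⟩, by simp⟩

theorem uf_ac {pred : α → Z → Z} (hp : UF (fun p : α × Z => pred p.1 p.2)) :
    UF (fun p : α × Z => Ac (pred p.1) p.2) := by
  have hC : UF (fun p : α × Z => Cor (pred p.1) (fun _ f => img snd f) p.2) :=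
    (uf_app (G := fun _ _ f => img snd f) hp (by fun_prop)).of_iff fun p =>
      cor_iff.trans ⟨fun h => h.1, fun h => ⟨h, fun y z => h.ac z y⟩⟩
  refine UF.of_exM (Q := fun q : (α × Z) × Z => Cor (pred q.1.1) (fun _ f => img snd f) q.2 ∧
    ∃ z, pair q.1.2 z ∈ q.2)
    ((hC.comp (g := fun p : (α × Z) × Z => (p.1.1, p.2)) (by fun_prop)).and (by fun_prop))
    fun M hM a ha => ⟨fun h => ?_, fun ⟨h, _, h1, z, hz⟩ => (h1 _ z hz).1⟩
  exact exists_cor (G := fun _ _ f => img snd f) hp (by fun_prop) hC hM ha.1 h ha.2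

theorem uf_wrec {pred : α → Z → Z} {G : α → Z → Z → Z}
    (hp : UF (fun p : α × Z => pred p.1 p.2))
    (hG : UF (fun p : α × Z × Z => G p.1 p.2.1 p.2.2)) :
    UF (fun p : α × Z => wrec (pred p.1) (G p.1) p.2) := by
  have hA := uf_ac hp
  have hC : UF (fun p : α × Z => Cor (pred p.1) (G p.1) p.2) :=
    ((uf_app hp hG).and (UF.allPair (Q := fun p y _ => Ac (pred p.1) y) uf_snd
      (hA.comp (g := fun q : (α × Z) × Z × Z => (q.1.1, q.2.1)) (by fun_prop)))).of_iff
      fun p => cor_iff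
  have h1 : UF (fun q : (α × Z) × Z => q.2 = wrec (pred q.1.1) (G q.1.1) q.1.2) := by
    refine UF.of_exM (Q := fun r : ((α × Z) × Z) × Z => (Cor (pred r.1.1.1) (G r.1.1.1) r.2 ∧
      pair r.1.1.2 r.1.2 ∈ r.2) ∨ (¬ Ac (pred r.1.1.1) r.1.1.2 ∧ r.1.2 = ∅))
      (((hC.comp (g := fun r : ((α × Z) × Z) × Z => (r.1.1.1, r.2)) (by fun_prop)).and
        (by fun_prop)).or (((hA.comp (g := fun r : ((α × Z) × Z) × Z => r.1.1)
          (by fun_prop)).not).and (by fun_prop))) fun M hM a ha => ?_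
    by_cases h : Ac (pred a.1.1) a.1.2
    · constructor
      · intro e
        obtain ⟨k, hk, h1, z, hz⟩ := exists_cor hp hG hC hM ha.1.1 h ha.1.2
        exact ⟨k, hk, Or.inl ⟨h1, by rw [e, ← (h1 _ _ hz).2.1]; exact hz⟩⟩
      · rintro ⟨k, -, ⟨h1, h2⟩ | ⟨h1, -⟩⟩
        · exact (h1 _ _ h2).2.1
        · exact absurd h h1
    · constructor
      · intro e
        exact ⟨∅, hM.empty_mem, Or.inr ⟨h, by rw [e, wrec, dif_neg h]⟩⟩
      · rintro ⟨k, -, ⟨h1, h2⟩ | ⟨-, h2⟩⟩
        · exact (h1 _ _ h2).2.1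
        · rw [h2, wrec, dif_neg h]
  refine UF.of_spec h1 fun M hM a ha => ⟨?_, fun _ _ => Iff.rfl⟩
  by_cases h : Ac (pred a.1) a.2
  · obtain ⟨k, hk, h1, z, hz⟩ := exists_cor hp hG hC hM ha.1 h ha.2
    rw [← (h1 _ _ hz).2.1]
    exact (hM.of_pair_mem hk hz).2
  · rw [wrec, dif_neg h]; exact hM.empty_mem

theorem sUnion_nat_succ (n : ℕ) : sUnion (nat (n + 1)) = nat n := by
  ext x
  simp only [mem_sUnion, mem_nat]
  constructor
  · rintro ⟨_, ⟨k, hk, rfl⟩, h⟩
    obtain ⟨j, hj, rfl⟩ := mem_nat.1 h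
    exact ⟨j, by omega, rfl⟩
  · rintro ⟨k, hk, rfl⟩
    exact ⟨_, ⟨n, by omega, rfl⟩, by simpa⟩

theorem UF.of_enc [Dec β] {f : α → β} (h : UF (fun a => Rep.enc (f a))) : UF f := by
  obtain ⟨φ, h⟩ := h
  exact ⟨φ, fun M hM a ha => ⟨Dec.fits_of hM (h M hM a ha).1, (h M hM a ha).2⟩⟩

theorem UF.natrec [Inhabited β] [Dec β] [Par (default : β)] {F : α → ℕ → β} (f : α → β)
    (g : α → ℕ → β → β) (hf : UF f) (hg : UF (fun p : α × ℕ × β => g p.1 p.2.1 p.2.2))
    (h0 : ∀ a, F a 0 = f a) (hs : ∀ a n, F a (n + 1) = g a n (F a n)) :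
    UF (fun p : α × ℕ => F p.1 p.2) := by
  let G : α → Z → Z → Z := fun a x h => if x = ∅ then Rep.enc (f a) else
    Rep.enc (g a (MP_b3d6af_lc.dec ℕ (ZFSet.sUnion x))
      (MP_b3d6af_lc.dec β (MP_b3d6af_lc.app h (ZFSet.sUnion x))))
  have := uf_wrec (pred := fun (_ : α) x => x) (G := G) (by fun_prop) (by simp only [G]; fun_prop)
  refine UF.of_enc ((this.comp (g := fun p : α × ℕ => (p.1, MP_b3d6af_lc.nat p.2))
    (by fun_prop)).congr ?_)
  rintro ⟨a, n⟩
  induction n with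
  | zero => simp only; rw [wrec_eq _ (ac_of_sub (fun _ => subset_rfl) _)]; simp [G, h0]
  | succ n ih =>
    simp only at ih ⊢
    rw [wrec_eq _ (ac_of_sub (fun _ => subset_rfl) _)]
    have : MP_b3d6af_lc.nat (n + 1) ≠ ∅ := fun h => by simpa using nat_injective (h.trans nat_zero.symm)
    simp only [G, if_neg this, sUnion_nat_succ, dec_nat]
    rw [app_restr (by simp), ← ih, dec_enc, hs]

@[fun_prop] theorem UF.add {f g : α → ℕ} (hf : UF f) (hg : UF g) : UF (fun a => f a + g a) :=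
  (UF.natrec (F := fun a n : ℕ => a + n) (fun a => a) (fun _ _ b => b + 1) UF.id
    (UF.succ (by fun_prop)) (fun _ => rfl) (fun _ _ => rfl)).comp (hf.prodMk hg)

@[fun_prop] theorem UF.mul {f g : α → ℕ} (hf : UF f) (hg : UF g) : UF (fun a => f a * g a) :=
  (UF.natrec (F := fun a n : ℕ => a * n) (fun _ => 0) (fun a _ b => b + a) (by fun_prop)
    (by fun_prop) (fun _ => rfl) (fun _ _ => rfl)).comp (hf.prodMk hg)

@[fun_prop] theorem UF.sub {f g : α → ℕ} (hf : UF f) (hg : UF g) : UF (fun a => f a - g a) :=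
  UF.of_graph (UF.of_iff (Q := fun p : α × ℕ => p.2 + g p.1 = f p.1 ∨ (f p.1 < g p.1 ∧ p.2 = 0))
    (by fun_prop) fun _ => by omega)

@[fun_prop] theorem UF.mod2 {f : α → ℕ} (hf : UF f) : UF (fun a => f a % 2) :=
  UF.of_graph (UF.of_iff (Q := fun p : α × ℕ => p.2 < 2 ∧ ∃ k, f p.1 = k + k + p.2)
    (by fun_prop) fun p => ⟨fun h => ⟨by omega, f p.1 / 2, by omega⟩, fun ⟨_, _, _⟩ => by omega⟩)

@[fun_prop] theorem UF.natPair {f g : α → ℕ} (hf : UF f) (hg : UF g) :
    UF (fun a => Nat.pair (f a) (g a)) := by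
  unfold Nat.pair; fun_prop

@[fun_prop] theorem UF.unpair {f : α → ℕ} (hf : UF f) : UF (fun a => Nat.unpair (f a)) :=
  UF.of_graph (UF.of_iff (Q := fun p : α × ℕ × ℕ => f p.1 = Nat.pair p.2.1 p.2.2)
    (by fun_prop) fun p => ⟨fun h => by simp [← h], fun h => by simp [h]⟩)

/-! Lists -/

/-- Representation of lists. -/
noncomputable def encL : List β → Z
  | [] => ∅
  | x :: l => pair (enc x) (encL l)

noncomputable instance : Rep (List β) where
  enc := encL
  fits := fun M l => ∀ x ∈ l, fits M x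
  mem := fun hM l h => by
    induction l with
    | nil => exact hM.empty_mem
    | cons x l ih => exact hM.pair_mem (Rep.mem hM (h x (by simp))) (ih fun y hy => h y (by simp [hy]))

@[simp] theorem enc_nil : enc ([] : List β) = ∅ := rfl
@[simp] theorem enc_cons (x : β) (l : List β) : enc (x :: l) = pair (enc x) (enc l) := rfl
theorem fits_list {M : Set Z} {l : List β} : fits M l ↔ ∀ x ∈ l, fits M x := Iff.rfl
theorem tup_eq (l : List Z) : tup l = enc l := by
  induction l with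
  | nil => rfl
  | cons x l ih => rw [tup, ih]; rfl

theorem pair_ne_empty (a b : Z) : pair a b ≠ ∅ := fun h =>
  notMem_empty ({a} : Z) (h ▸ by simp [pair])

instance [Tot β] : Tot (List β) := ⟨fun h _ x _ => Tot.out h x⟩
instance : Par ([] : List β) :=
  ⟨(Par.out (c := (∅ : Z))).imp fun _ h M hM => ⟨by simp [fits_list], (h M hM).2⟩⟩
instance : Par (default : List β) := inferInstanceAs (Par ([] : List β))

@[fun_prop] theorem UF.cons {f : α → β} {g : α → List β} (hf : UF f) (hg : UF g) :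
    UF (fun a => f a :: g a) := by
  obtain ⟨φ, h⟩ := hf.prodMk hg
  refine ⟨φ, fun M hM a ha => ⟨fun x hx => ?_, (h M hM a ha).2⟩⟩
  rcases List.mem_cons.1 hx with rfl | hx
  exacts [(h M hM a ha).1.1, (h M hM a ha).1.2 x hx]

instance (x : β) (l : List β) [Par x] [Par l] : Par (x :: l) :=
  Par.of_uf (f := fun p : β × List β => p.1 :: p.2) (by fun_prop) (x, l)

instance [Dec β] : Dec (List β) where
  inj := fun l l' h => by
    induction l generalizing l' with
    | nil =>
      cases l' with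
      | nil => rfl
      | cons => exact absurd h.symm (pair_ne_empty _ _)
    | cons x l ih =>
      cases l' with
      | nil => exact absurd h (pair_ne_empty _ _)
      | cons y l' =>
        simp only [enc_cons, pair_inj] at h
        rw [Dec.inj h.1, ih _ h.2]
  fits_of := fun hM l h => by
    induction l with
    | nil => simp [fits_list]
    | cons x l ih =>
      intro y hy
      rcases List.mem_cons.1 hy with rfl | hy
      exacts [Dec.fits_of hM (hM.of_pair h).1, ih (hM.of_pair h).2 y hy]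
  rng := by
    have h1 : UF (fun p : Z × ℕ => snd^[p.2] p.1) :=
      UF.natrec (F := fun a n => snd^[n] a) (fun a => a) (fun _ _ b => snd b) UF.id (by fun_prop)
        (fun _ => rfl) fun a n => Function.iterate_succ_apply' _ _ _
    have h2 := Dec.rng (β := β)
    refine UF.of_iff (Q := fun z : Z => ∃ n : ℕ, snd^[n] z = ∅ ∧ ∀ i < n,
      (snd^[i] z = pair (fst (snd^[i] z)) (snd (snd^[i] z)) ∧ ∃ b : β, enc b = fst (snd^[i] z)))
      (UF.ex ((h1.eq (by fun_prop)).and (UF.all (UF.imp (by fun_prop) ?_)))) fun z => ⟨?_, ?_⟩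
    · have h3 := h1.comp (g := fun q : (Z × ℕ) × ℕ => (q.1.1, q.2)) (by fun_prop)
      exact (h3.eq (h3.fstZ.pair h3.sndZ)).and (h2.comp h3.fstZ)
    · rintro ⟨l, rfl⟩
      refine ⟨l.length, ?_⟩
      induction l with
      | nil => simp
      | cons x l ih =>
        refine ⟨by simpa using ih.1, ?_⟩
        rintro (_ | i) hi
        · simp
        · simpa using ih.2 i (by simpa using hi)
    · rintro ⟨n, h1, h2⟩
      induction n generalizing z with
      | zero => exact ⟨[], h1.symm⟩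
      | succ n ih =>
        obtain ⟨l, hl⟩ := ih (snd z) h1 fun i hi => h2 (i + 1) (by omega)
        obtain ⟨h3, b, hb⟩ := h2 0 (by omega)
        exact ⟨b :: l, by rw [enc_cons, hl, hb]; exact h3.symm⟩

theorem UF.listrec [Inhabited β] [Dec β] [Par (default : β)] [Inhabited γ] [Dec γ]
    [Par (default : γ)] {F : α → List β → γ} (f : α → γ) (g : α → β → List β → γ → γ) (hf : UF f)
    (hg : UF (fun p : α × β × List β × γ => g p.1 p.2.1 p.2.2.1 p.2.2.2))
    (h0 : ∀ a, F a [] = f a) (hs : ∀ a x l, F a (x :: l) = g a x l (F a l)) :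
    UF (fun p : α × List β => F p.1 p.2) := by
  let pred : α → Z → Z := fun _ z => if z = ∅ then ∅ else {MP_b3d6af_lc.snd z}
  let G : α → Z → Z → Z := fun a z h => if z = ∅ then Rep.enc (f a) else
    Rep.enc (g a (MP_b3d6af_lc.dec β (MP_b3d6af_lc.fst z))
      (MP_b3d6af_lc.dec (List β) (MP_b3d6af_lc.snd z))
      (MP_b3d6af_lc.dec γ (MP_b3d6af_lc.app h (MP_b3d6af_lc.snd z))))
  have := uf_wrec (pred := pred) (G := G) (by simp only [pred]; fun_prop)
    (by simp only [G]; fun_prop)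
  refine UF.of_enc ((this.comp (g := fun p : α × List β => (p.1, Rep.enc p.2))
    (by fun_prop)).congr ?_)
  rintro ⟨a, l⟩
  have hA : ∀ l : List β, Ac (pred a) (Rep.enc l) := fun l => by
    induction l with
    | nil => exact Ac.mk (by simp [pred])
    | cons x l ih => exact Ac.mk (by simpa [pred, pair_ne_empty])
  induction l with
  | nil => simp only; rw [wrec_eq _ (hA _)]; simp [G, h0]
  | cons x l ih =>
    simp only at ih ⊢
    rw [wrec_eq _ (hA _)]
    simp only [G, enc_cons, if_neg (pair_ne_empty _ _), fst_pair, snd_pair, dec_enc]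
    rw [app_restr (by simp [pred, pair_ne_empty]), ← ih, dec_enc, hs]

section lists
variable [Inhabited β] [Dec β] [Par (default : β)]

@[fun_prop] theorem UF.length {f : α → List β} (hf : UF f) : UF (fun a => (f a).length) :=
  (UF.listrec (α := ℕ) (F := fun _ (l : List β) => l.length) (fun _ => 0) (fun _ _ _ r => r + 1)
    (by fun_prop) (by fun_prop) (fun _ => rfl) (fun _ _ _ => rfl)).comp
    ((UF.const 0).prodMk hf)

@[fun_prop] theorem UF.append {f g : α → List β} (hf : UF f) (hg : UF g) :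
    UF (fun a => f a ++ g a) :=
  (UF.listrec (α := List β) (F := fun a (l : List β) => l ++ a) (fun a => a)
    (fun _ x _ r => x :: r) (by fun_prop) (by fun_prop) (fun _ => rfl) (fun _ _ _ => rfl)).comp
    (hg.prodMk hf)

@[fun_prop] theorem UF.tail {f : α → List β} (hf : UF f) : UF (fun a => (f a).tail) :=
  (UF.listrec (α := ℕ) (F := fun _ (l : List β) => l.tail) (fun _ => []) (fun _ _ l _ => l)
    (by fun_prop) (by fun_prop) (fun _ => rfl) (fun _ _ _ => rfl)).comp
    ((UF.const 0).prodMk hf)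

@[fun_prop] theorem UF.headD {f : α → List β} {g : α → β} (hf : UF f) (hg : UF g) :
    UF (fun a => (f a).headD (g a)) :=
  (UF.listrec (α := β) (F := fun a (l : List β) => l.headD a) (fun a => a) (fun _ x _ _ => x)
    (by fun_prop) (by fun_prop) (fun _ => rfl) (fun _ _ _ => rfl)).comp (hg.prodMk hf)

@[fun_prop] theorem UF.drop {f : α → List β} {g : α → ℕ} (hf : UF f) (hg : UF g) :
    UF (fun a => (f a).drop (g a)) :=
  (UF.natrec (F := fun (l : List β) n => l.drop n) (fun l => l) (fun _ _ r => r.tail)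
    (by fun_prop) (by fun_prop) (fun _ => rfl) (fun _ _ => by simp)).comp (hf.prodMk hg)

@[fun_prop] theorem UF.getD {f : α → List β} {g : α → ℕ} {d : α → β} (hf : UF f) (hg : UF g)
    (hd : UF d) : UF (fun a => (f a).getD (g a) (d a)) :=
  UF.congr (g := fun a => ((f a).drop (g a)).headD (d a)) (by fun_prop) fun a => by
    simp [List.getD_eq_getElem?_getD, List.headD_eq_head?_getD]

@[fun_prop] theorem UF.map [Inhabited γ] [Dec γ] [Par (default : γ)] {f : α → List β}
    {F : α → β → γ} (hf : UF f) (hF : UF (fun p : α × β => F p.1 p.2)) :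
    UF (fun a => (f a).map (F a)) :=
  (UF.listrec (F := fun a (l : List β) => l.map (F a)) (fun _ => []) (fun a x _ r => F a x :: r)
    (by fun_prop) (by fun_prop) (fun _ => rfl) (fun _ _ _ => rfl)).comp (UF.id.prodMk hf)

@[fun_prop] theorem UF.ballL {f : α → List β} {Q : α → β → Prop} (hf : UF f)
    (hQ : UF (fun p : α × β => Q p.1 p.2)) : UF (fun a => ∀ x, x ∈ f a → Q a x) :=
  UF.of_iff (Q := fun a => ∀ i < (f a).length, Q a ((f a).getD i default)) (by fun_prop) fun a =>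
    ⟨fun h i hi => h _ (by simp [List.getD_eq_getElem?_getD, hi]), fun h x hx => by
      obtain ⟨i, hi, rfl⟩ := List.getElem_of_mem hx
      simpa [List.getD_eq_getElem?_getD, hi] using h i hi⟩

@[fun_prop] theorem UF.bexL {f : α → List β} {Q : α → β → Prop} (hf : UF f)
    (hQ : UF (fun p : α × β => Q p.1 p.2)) : UF (fun a => ∃ x, x ∈ f a ∧ Q a x) :=
  (UF.ballL (Q := fun a x => ¬ Q a x) hf hQ.not).not.of_iff (by simp)

@[fun_prop] theorem UF.memL {f : α → List β} {g : α → β} (hf : UF f) (hg : UF g) :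
    UF (fun a => g a ∈ f a) :=
  UF.of_iff (Q := fun a => ∃ x ∈ f a, x = g a) (by fun_prop) (by simp)

theorem UF.strongRec {F : α → ℕ → β} (G : α → ℕ → List β → β)
    (hG : UF (fun p : α × ℕ × List β => G p.1 p.2.1 p.2.2))
    (h : ∀ a n, F a n = G a n ((List.range n).map (F a))) : UF (fun p : α × ℕ => F p.1 p.2) := by
  have := UF.natrec (F := fun a n => (List.range n).map (F a)) (fun _ => [])
    (fun a n l => l ++ [G a n l]) (by fun_prop) (by fun_prop) (fun _ => rfl)
    (fun a n => by rw [List.range_succ, List.map_append, ← h]; rfl)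
  exact (hG.comp (uf_fst.prodMk (uf_snd.prodMk this))).congr fun p => h _ _

end lists

theorem getD_range_map {δ : Type*} (F : ℕ → δ) {n i : ℕ} (h : i < n) (d : δ) :
    ((List.range n).map F).getD i d = F i := by
  simp [List.getD_eq_getElem?_getD, h]

@[fun_prop] theorem UF.encodeL {f : α → List ℕ} (hf : UF f) :
    UF (fun a => Encodable.encode (f a)) :=
  (UF.listrec (α := ℕ) (F := fun _ (l : List ℕ) => Encodable.encode l) (fun _ => 0)
    (fun _ x _ r => Nat.pair x r + 1) (by fun_prop) (by fun_prop) (fun _ => rfl)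
    (fun _ _ _ => rfl)).comp ((UF.const 0).prodMk hf)

/-- Decoding of lists of numbers. -/
def dl (n : ℕ) : List ℕ := Denumerable.ofNat (List ℕ) n

@[simp] theorem dl_encode (l : List ℕ) : dl (Encodable.encode l) = l := by simp [dl]
@[simp] theorem encode_dl (n : ℕ) : Encodable.encode (dl n) = n := by simp [dl]

@[fun_prop] theorem UF.dl {f : α → ℕ} (hf : UF f) : UF (fun a => dl (f a)) :=
  UF.of_graph (UF.of_iff (Q := fun p : α × List ℕ => f p.1 = Encodable.encode p.2)
    (by fun_prop) fun p => ⟨fun h => by simp [← h], fun h => by simp [h]⟩)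

/-- The set of entries of a list. -/
noncomputable def toS : List Z → Z
  | [] => ∅
  | x :: l => insert x (toS l)

@[simp] theorem mem_toS {l : List Z} {x : Z} : x ∈ toS l ↔ x ∈ l := by
  induction l <;> simp [toS, *]

@[fun_prop] theorem UF.toS {f : α → List Z} (hf : UF f) : UF (fun a => toS (f a)) :=
  (UF.listrec (α := ℕ) (F := fun _ (l : List Z) => MP_b3d6af_lc.toS l) (fun _ => ∅)
    (fun _ x _ r => Insert.insert x r) (by fun_prop) (by fun_prop) (fun _ => rfl)
    (fun _ _ _ => rfl)).comp ((UF.const 0).prodMk hf)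

/-- Lists of length `n` over `X`. -/
noncomputable def SeqN (X : Z) : ℕ → Z
  | 0 => {∅}
  | n + 1 => prod X (SeqN X n)

/-- All lists over `X`. -/
noncomputable def Seq (X : Z) : Z := ZFSet.iUnion (SeqN X)

theorem mem_Seq {X z : Z} : z ∈ Seq X ↔ ∃ l : List Z, (∀ x ∈ l, x ∈ X) ∧ z = enc l := by
  simp only [Seq, mem_iUnion]
  constructor
  · rintro ⟨n, h⟩
    induction n generalizing z with
    | zero => exact ⟨[], by simp, by simpa [SeqN] using h⟩
    | succ n ih =>
      obtain ⟨a, ha, b, hb, rfl⟩ := mem_prod.1 h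
      obtain ⟨l, h1, rfl⟩ := ih hb
      exact ⟨a :: l, by simpa [ha] using h1, rfl⟩
  · rintro ⟨l, h, rfl⟩
    refine ⟨l.length, ?_⟩
    induction l with
    | nil => simp [SeqN]
    | cons x l ih =>
      exact pair_mem_prod.2 ⟨h x (by simp), ih fun y hy => h y (by simp [hy])⟩

theorem enc_mem_Seq {X : Z} {l : List Z} : enc l ∈ Seq X ↔ ∀ x ∈ l, x ∈ X := by
  rw [mem_Seq]
  exact ⟨fun ⟨l', h, e⟩ => Dec.inj e ▸ h, fun h => ⟨l, h, rfl⟩⟩

@[fun_prop] theorem UF.Seq {f : α → Z} (hf : UF f) : UF (fun a => Seq (f a)) := by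
  have := UF.natrec (F := SeqN) (fun _ => {∅}) (fun X _ r => ZFSet.prod X r)
    (UF.sing (UF.const ∅)) (by fun_prop) (fun _ => rfl) (fun _ _ => rfl)
  exact (UF.iUnionN this).comp hf

@[fun_prop] theorem UF.allL {g : α → Z} {Q : α → List Z → Prop} (hg : UF g)
    (hQ : UF (fun p : α × List Z => Q p.1 p.2)) :
    UF (fun a => ∀ l : List Z, (∀ x ∈ l, x ∈ g a) → Q a l) :=
  UF.of_allM (Q := fun p : α × List Z => (∀ x ∈ p.2, x ∈ g p.1) → Q p.1 p.2) (by fun_prop)
    fun M hM a ha => ⟨fun H b _ => H b, fun H l hl =>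
      H l (fun x hx => hM.trans _ (hg.mem hM a ha) _ (hl x hx)) hl⟩

@[fun_prop] theorem UF.exL {g : α → Z} {Q : α → List Z → Prop} (hg : UF g)
    (hQ : UF (fun p : α × List Z => Q p.1 p.2)) :
    UF (fun a => ∃ l : List Z, (∀ x ∈ l, x ∈ g a) ∧ Q a l) :=
  (UF.allL (Q := fun a x => ¬ Q a x) hg hQ.not).not.of_iff (by simp only [not_forall, not_not, exists_prop, implies_true])

end Pool.Agent.Lib.MP_b3d6af_lc
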