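import Pool.Agent.Lib.MP_b3d6af_lc.Rec

/-!
Internal satisfaction, elementary embeddings, and definability of `ZF`, `Sig`, `Det`.
-/

set_option linter.unusedSectionVars false
set_option linter.unusedVariables false
set_option linter.unusedSimpArgs false

namespace Pool.Agent.Lib.MP_b3d6af_lc

open ZFSet Classical

universe u v w

variable {α : Type u} {β : Type v} {γ : Type w} [Rep α] [Rep β] [Rep γ]

def tg (n : ℕ) : ℕ := (n - 1).unpair.1
def a1 (n : ℕ) : ℕ := (n - 1).unpair.2.unpair.1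
def a2 (n : ℕ) : ℕ := (n - 1).unpair.2.unpair.2
def cd (t a b : ℕ) : ℕ := Nat.pair t (Nat.pair a b) + 1

@[simp] theorem tg_cd (t a b : ℕ) : tg (cd t a b) = t := by simp [tg, cd]
@[simp] theorem a1_cd (t a b : ℕ) : a1 (cd t a b) = a := by simp [a1, cd]
@[simp] theorem a2_cd (t a b : ℕ) : a2 (cd t a b) = b := by simp [a2, cd]
@[simp] theorem cd_ne (t a b : ℕ) : cd t a b ≠ 0 := by simp [cd]

theorem a1_lt {n : ℕ} (h : n ≠ 0) : a1 n < n := by
  have := (Nat.unpair_left_le (n - 1).unpair.2).trans (Nat.unpair_right_le (n - 1))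
  unfold a1; omega
theorem a2_lt {n : ℕ} (h : n ≠ 0) : a2 n < n := by
  have := (Nat.unpair_right_le (n - 1).unpair.2).trans (Nat.unpair_right_le (n - 1))
  unfold a2; omega

@[fun_prop] theorem UF.tg {f : α → ℕ} (hf : UF f) : UF (fun a => tg (f a)) := by
  unfold MP_b3d6af_lc.tg; fun_prop
@[fun_prop] theorem UF.a1 {f : α → ℕ} (hf : UF f) : UF (fun a => a1 (f a)) := by
  unfold MP_b3d6af_lc.a1; fun_prop
@[fun_prop] theorem UF.a2 {f : α → ℕ} (hf : UF f) : UF (fun a => a2 (f a)) := by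
  unfold MP_b3d6af_lc.a2; fun_prop

/-- Enumeration of formulas. -/
def Fm.dec (n : ℕ) : Fm :=
  if h : n = 0 then .bot else if tg n = 0 then .mem (a1 n) (a2 n)
  else if tg n = 1 then .eq (a1 n) (a2 n)
  else if tg n = 2 then .imp (Fm.dec (a1 n)) (Fm.dec (a2 n)) else .all (Fm.dec (a1 n))
decreasing_by exacts [a1_lt h, a2_lt h, a1_lt h]

theorem Fm.dec_surj (φ : Fm) : ∃ n, Fm.dec n = φ := by
  induction φ with
  | mem i j => exact ⟨cd 0 i j, by rw [Fm.dec]; simp⟩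
  | eq i j => exact ⟨cd 1 i j, by rw [Fm.dec]; simp⟩
  | bot => exact ⟨0, by rw [Fm.dec]; simp⟩
  | imp φ ψ h1 h2 =>
    obtain ⟨a, rfl⟩ := h1
    obtain ⟨b, rfl⟩ := h2
    exact ⟨cd 2 a b, by rw [Fm.dec]; simp⟩
  | all φ h1 =>
    obtain ⟨a, rfl⟩ := h1
    exact ⟨cd 3 a 0, by rw [Fm.dec]; simp⟩

theorem sat_dec (M : Set Z) (n : ℕ) (v : ℕ → Z) : Sat M (Fm.dec n) v ↔ n ≠ 0 ∧
    ((tg n = 0 ∧ v (a1 n) ∈ v (a2 n)) ∨ (tg n = 1 ∧ v (a1 n) = v (a2 n)) ∨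
      (tg n = 2 ∧ (Sat M (Fm.dec (a1 n)) v → Sat M (Fm.dec (a2 n)) v)) ∨
      (3 ≤ tg n ∧ ∀ x ∈ M, Sat M (Fm.dec (a1 n)) (cons x v))) := by
  rw [Fm.dec]
  split_ifs with h0 h1 h2 h3 <;> simp [*]
  omega

/-- A list as an assignment. -/
def env {δ : Type*} (d : δ) (l : List δ) : ℕ → δ := fun i => l.getD i d

@[simp] theorem env_cons {δ : Type*} (d x : δ) (l : List δ) : env d (x :: l) = cons x (env d l) := by
  funext i; cases i <;> rfl

@[simp] theorem env_nil {δ : Type*} (d : δ) : env d [] = fun _ => d := rfl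

theorem env_mem {δ : Type*} {M : Set δ} {d : δ} {l : List δ} (hd : d ∈ M) (hl : ∀ x ∈ l, x ∈ M)
    (i : ℕ) : env d l i ∈ M := by
  unfold env
  rw [List.getD_eq_getElem?_getD]
  cases h : l[i]? with
  | none => exact hd
  | some x => exact hl x (List.mem_of_getElem? h)

theorem env_map {δ ε : Type*} (j : δ → ε) (d : δ) (l : List δ) :
    env (j d) (l.map j) = fun i => j (env d l i) := by
  funext i; exact List.getD_map l d j

theorem exists_list (φ : Fm) (d : Z) (v : ℕ → Z) : ∃ l : List Z, (∀ x ∈ l, ∃ i, x = v i) ∧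
    ∀ (M : Set Z) (j : Z → Z) (e : List Z), Sat M φ (fun i => j (e.foldr cons v i)) ↔
      Sat M φ (fun i => j (env d (e ++ l) i)) := by
  obtain ⟨n, h⟩ := φ.bound
  refine ⟨(List.range n).map v, by simp, fun M j e => h _ _ _ ?_⟩
  have : ∀ i < n + e.length, e.foldr cons v i = env d (e ++ (List.range n).map v) i := by
    induction e with
    | nil => intro i hi; exact (getD_range_map v hi d).symm
    | cons x e ih =>
      rintro (_ | i) hi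
      · rfl
      · simpa using ih i (by simp at hi; omega)
  intro i hi
  rw [this i (by omega)]

theorem uf_satS : UF (fun p : (Z × Z) × ℕ × List Z =>
    Sat (p.1.1 : Set Z) (Fm.dec p.2.1) (env p.1.2 p.2.2)) := by
  let T : (Z × Z) × Z → ℕ → Z := fun a n => ZFSet.sep
    (fun z => Sat (a.1.1 : Set Z) (Fm.dec n) (env a.1.2 (dec (List Z) z))) (Seq (a.1.1 ∪ a.2))
  have hT : UF (fun p : ((Z × Z) × Z) × ℕ => T p.1 p.2) := by
    refine UF.strongRec (fun a n prev => ZFSet.sep (fun z => n ≠ 0 ∧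
      ((tg n = 0 ∧ (dec (List Z) z).getD (a1 n) a.1.2 ∈ (dec (List Z) z).getD (a2 n) a.1.2) ∨
      (tg n = 1 ∧ (dec (List Z) z).getD (a1 n) a.1.2 = (dec (List Z) z).getD (a2 n) a.1.2) ∨
      (tg n = 2 ∧ (z ∈ prev.getD (a1 n) ∅ → z ∈ prev.getD (a2 n) ∅)) ∨
      (3 ≤ tg n ∧ ∀ x ∈ a.1.1, pair x z ∈ prev.getD (a1 n) ∅))) (Seq (a.1.1 ∪ a.2)))
      (by fun_prop) fun a n => ?_
    ext z
    simp only [T, mem_sep]
    refine and_congr_right fun hz => ?_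
    rw [sat_dec]
    refine and_congr_right fun hn => ?_
    rw [getD_range_map _ (a1_lt hn), getD_range_map _ (a2_lt hn)]
    obtain ⟨l, hl, rfl⟩ := mem_Seq.1 hz
    simp only [mem_sep, hz, true_and]
    refine or_congr Iff.rfl (or_congr Iff.rfl (or_congr Iff.rfl (and_congr_right fun _ =>
      forall₂_congr fun x hx => ?_)))
    have : enc (x :: l) ∈ Seq (a.1.1 ∪ a.2) :=
      enc_mem_Seq.2 (by simpa [show x ∈ a.1.1 from hx] using hl)
    rw [show pair x (enc l) = enc (x :: l) from rfl, dec_enc, dec_enc, env_cons]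
    simp only [this, true_and]
  refine ((UF.enc (uf_snd.snd)).memZ (hT.comp (g := fun p : (Z × Z) × ℕ × List Z =>
    ((p.1, toS p.2.2), p.2.1)) (by fun_prop))).of_iff fun p => ?_
  simp only [T, mem_sep, dec_enc, iff_and_self]
  exact fun _ => enc_mem_Seq.2 fun x hx => by simp [hx]

@[fun_prop] theorem UF.satS {m d : α → Z} {n : α → ℕ} {l : α → List Z} (hm : UF m) (hd : UF d)
    (hn : UF n) (hl : UF l) : UF (fun a => Sat (m a : Set Z) (Fm.dec (n a)) (env (d a) (l a))) :=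
  uf_satS.comp ((hm.prodMk hd).prodMk (hn.prodMk hl))

theorem uf_satC {K : α → Set Z} (hK : UF (fun p : α × Z => p.2 ∈ K p.1))
    (hs : ∀ M, ZF M → ∀ a, fits M a → K a ⊆ M) (φ : Fm) :
    UF (fun p : α × Z × List Z => Sat (K p.1) φ (env p.2.1 p.2.2)) := by
  induction φ with
  | mem i j => simp only [sat_mem, env]; fun_prop
  | eq i j => simp only [sat_eq, env]; fun_prop
  | bot => exact UF.const False
  | imp φ ψ h1 h2 => exact h1.imp h2
  | all φ h =>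
    refine UF.of_allM (Q := fun q : (α × Z × List Z) × Z => q.2 ∈ K q.1.1 →
      Sat (K q.1.1) φ (env q.1.2.1 (q.2 :: q.1.2.2)))
      ((hK.comp (g := fun q : (α × Z × List Z) × Z => (q.1.1, q.2)) (by fun_prop)).imp
        (h.comp (g := fun q : (α × Z × List Z) × Z => (q.1.1, q.1.2.1, q.2 :: q.1.2.2))
          (by fun_prop))) fun M hM a ha => ?_
    simp only [sat_all, env_cons]
    exact ⟨fun H b _ => H b, fun H x hx => H x (hs M hM _ ha.1 hx) hx⟩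

theorem zf_iff {M : Set Z} : ZF M ↔ (∀ a ∈ M, ∀ x ∈ a, x ∈ M) ∧
    (∀ a ∈ M, ∀ b ∈ M, insert a ({b} : Z) ∈ M) ∧ (∀ a ∈ M, sUnion a ∈ M) ∧ omega ∈ M ∧
    (∀ a ∈ M, ∃ c ∈ M, ∀ x ∈ M, x ⊆ a → x ∈ c) ∧
    (∀ (n : ℕ) (l : List Z), (∀ x ∈ l, x ∈ M) → ∀ a ∈ M,
      ZFSet.sep (fun x => Sat M (Fm.dec n) (env ∅ (x :: l))) a ∈ M) ∧
    (∀ (n : ℕ) (l : List Z), (∀ x ∈ l, x ∈ M) → ∀ a ∈ M,
      (∀ x ∈ a, ∃ y ∈ M, Sat M (Fm.dec n) (env ∅ (y :: x :: l))) →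
        ∃ c ∈ M, ∀ x ∈ a, ∃ y ∈ c, Sat M (Fm.dec n) (env ∅ (y :: x :: l))) := by
  constructor
  · intro h
    refine ⟨h.trans, h.pair, h.union, h.inf, h.power, fun n l hl a ha => ?_, fun n l hl a ha => ?_⟩
    · simpa only [env_cons] using h.sep _ _ (env_mem h.empty_mem hl) a ha
    · simpa only [env_cons] using h.coll _ _ (env_mem h.empty_mem hl) a ha
  · rintro ⟨h1, h2, h3, h4, h5, h6, h7⟩
    refine ⟨h1, h2, h3, h4, h5, fun φ v hv a ha => ?_, fun φ v hv a ha => ?_⟩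
    all_goals
      obtain ⟨l, hl, e⟩ := exists_list φ ∅ v
      obtain ⟨n, rfl⟩ := φ.dec_surj
      have hl' : ∀ x ∈ l, x ∈ M := fun x hx => by obtain ⟨i, rfl⟩ := hl x hx; exact hv i
    · have e' : ∀ x, Sat M (Fm.dec n) (cons x v) ↔ Sat M (Fm.dec n) (env ∅ (x :: l)) :=
        fun x => e M id [x]
      simp only [e']
      exact h6 n l hl' a ha
    · have e' : ∀ y x, Sat M (Fm.dec n) (cons y (cons x v)) ↔
          Sat M (Fm.dec n) (env ∅ (y :: x :: l)) := fun y x => e M id [y, x]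
      simp only [e']
      exact h7 n l hl' a ha

@[fun_prop] theorem UF.allLCoe {g : α → Z} {Q : α → List Z → Prop} (hg : UF g)
    (hQ : UF (fun p : α × List Z => Q p.1 p.2)) :
    UF (fun a => ∀ l : List Z, (∀ x ∈ l, x ∈ (g a : Set Z)) → Q a l) := UF.allL hg hQ

@[fun_prop] theorem UF.zf {f : α → Z} (hf : UF f) : UF (fun a => ZF (f a : Set Z)) := by
  simp only [zf_iff]; fun_prop

/-- Elementary embeddings. -/
def Emb (A B : Set Z) (j : Z → Z) : Prop :=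
  (∀ x ∈ A, j x ∈ B) ∧ ∀ φ v, (∀ i, v i ∈ A) → (Sat A φ v ↔ Sat B φ (fun i => j (v i)))

/-- Elementary substructures. -/
def Elem (A B : Set Z) : Prop := Emb A B fun x => x

theorem Emb.comp {A B C : Set Z} {j k : Z → Z} (h1 : Emb A B j) (h2 : Emb B C k) :
    Emb A C fun x => k (j x) :=
  ⟨fun x hx => h2.1 _ (h1.1 x hx), fun φ v hv =>
    (h1.2 φ v hv).trans (h2.2 φ _ fun i => h1.1 _ (hv i))⟩

theorem emb_of_list {A B : Set Z} {j : Z → Z} (h1 : ∀ x ∈ A, j x ∈ B)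
    (h2 : ∀ (n : ℕ), ∀ d ∈ A, ∀ l : List Z, (∀ x ∈ l, x ∈ A) →
      (Sat A (Fm.dec n) (env d l) ↔ Sat B (Fm.dec n) (env (j d) (l.map j)))) : Emb A B j := by
  refine ⟨h1, fun φ v hv => ?_⟩
  obtain ⟨l, hl, e⟩ := exists_list φ (v 0) v
  obtain ⟨n, rfl⟩ := φ.dec_surj
  refine (e A id []).trans ((h2 n _ (hv 0) l fun x hx => ?_).trans ?_)
  · obtain ⟨i, rfl⟩ := hl x hx; exact hv i
  · rw [env_map]; exact (e B j []).symm

@[fun_prop] theorem UF.elem {f g : α → Z} (hf : UF f) (hg : UF g) :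
    UF (fun a => Elem (f a : Set Z) (g a : Set Z)) :=
  UF.of_iff (Q := fun a => (∀ x ∈ f a, x ∈ g a) ∧ ∀ (n : ℕ), ∀ d ∈ f a, ∀ l : List Z,
      (∀ x ∈ l, x ∈ f a) → (Sat (f a : Set Z) (Fm.dec n) (env d l) ↔
        Sat (g a : Set Z) (Fm.dec n) (env d l))) (by fun_prop) fun a =>
    ⟨fun h => ⟨h.1, fun n d hd l hl => h.2 _ _ (env_mem hd hl)⟩, fun h =>
      emb_of_list h.1 fun n d hd l hl => by simpa using h.2 n d hd l hl⟩

theorem elem_of_tv {A B : Set Z} (h1 : A ⊆ B) (h2 : ∀ φ v, (∀ i, v i ∈ A) →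
    (∃ x ∈ B, Sat B φ (cons x v)) → ∃ x ∈ A, Sat B φ (cons x v)) : Elem A B := by
  refine ⟨h1, fun φ => ?_⟩
  induction φ with
  | mem i j => intro v _; rfl
  | eq i j => intro v _; rfl
  | bot => intro v _; rfl
  | imp φ ψ h3 h4 => intro v hv; exact imp_congr (h3 v hv) (h4 v hv)
  | all φ h3 =>
    intro v hv
    refine ⟨fun H x hx => by_contra fun hn => ?_, fun H x hx =>
      (h3 _ (cons_mem hx hv)).2 (H x (h1 hx))⟩
    obtain ⟨y, hy, h4⟩ := h2 φ.neg v hv ⟨x, hx, hn⟩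
    exact h4 ((h3 _ (cons_mem hy hv)).1 (H y hy))

theorem Elem.witness {A B : Set Z} (h : Elem A B) {φ : Fm} {v : ℕ → Z} (hv : ∀ i, v i ∈ A)
    (H : ∃ x ∈ B, Sat B φ (cons x v)) : ∃ x ∈ A, Sat B φ (cons x v) := by
  obtain ⟨x, hx, h1⟩ := sat_ex.1 ((h.2 φ.ex v hv).2 (sat_ex.2 H))
  exact ⟨x, hx, (h.2 φ _ (cons_mem hx hv)).1 h1⟩

theorem Elem.of_both {A B C : Set Z} (h1 : Elem A C) (h2 : Elem B C) (h : A ⊆ B) : Elem A B :=
  ⟨h, fun φ v hv => (h1.2 φ v hv).trans (h2.2 φ v fun i => h (hv i)).symm⟩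

section axioms
variable {M : Set Z} (h : Tr M) {v : ℕ → Z} (hv : ∀ i, v i ∈ M)
include h hv

theorem sat_exSet {φ : Fm} {s : Z} (hs : ∀ x ∈ s, x ∈ M)
    (e : ∀ x ∈ M, ∀ c, Sat M φ (cons x (cons c v)) ↔ x ∈ s) :
    Sat M ((Fm.mem 0 1).iff φ).all.ex v ↔ s ∈ M := by
  simp only [sat_ex, sat_all, sat_iff, sat_mem, cons_zero, cons_one]
  constructor
  · rintro ⟨c, hc, H⟩
    rwa [← (h.ext hc hs).1 fun x hx => (H x hx).trans (e x hx c)]
  · intro H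
    exact ⟨s, H, fun x hx => (e x hx s).symm⟩

theorem sat_sc {i j : ℕ} :
    Sat M ((Fm.mem 0 (i + 1)).iff ((Fm.eq 0 (j + 1)).or (.mem 0 (j + 1)))).all v ↔
      v i = insert (v j) (v j) := by
  rw [← h.ext (hv i)]
  · simp
  · intro x hx
    rcases mem_insert_iff.1 hx with rfl | hx
    exacts [hv j, h _ (hv j) _ hx]

theorem sat_inf : ∃ φ : Fm, ∀ {M : Set Z}, Tr M → ∀ {v : ℕ → Z}, (∀ i, v i ∈ M) →
    (Sat M φ v ↔ omega ∈ M) := by
  let sc : ℕ → ℕ → Fm := fun i j =>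
    ((Fm.mem 0 (i + 1)).iff ((Fm.eq 0 (j + 1)).or (.mem 0 (j + 1)))).all
  refine ⟨(((Fm.mem 0 1).and (.emp 0)).ex.and ((((Fm.mem 0 1).imp
    ((Fm.mem 0 2).and (sc 0 1)).ex).all).and ((Fm.mem 0 1).imp ((Fm.emp 0).or
      ((Fm.mem 0 2).and (sc 1 0)).ex)).all)).ex, fun {M} h {v} hv => ?_⟩
  simp only [sat_ex, sat_and, sat_imp, sat_or, sat_mem, cons_zero, cons_one, cons_two, sc,
    sat_all (φ := Fm.imp _ _)]
  constructor
  · rintro ⟨z, hz, ⟨e, he, h1, h2⟩, h3, h4⟩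
    rw [← eq_omega_iff.2 ⟨?_, fun x hx => ?_, fun x hx => ?_⟩]
    · exact hz
    · rw [sat_emp h (by simpa)] at h2
      simp at h2; rwa [← h2]
    · have hx' := h _ hz _ hx
      obtain ⟨s, hs, h5, h6⟩ := h3 x hx' hx
      rw [sat_sc h (cons_mem hs (cons_mem hx' (cons_mem hz hv)))] at h6
      simp at h6; rwa [← h6]
    · have hx' := h _ hz _ hx
      rcases h4 x hx' hx with h5 | ⟨s, hs, h5, h6⟩
      · rw [sat_emp h (by simpa)] at h5
        exact Or.inl h5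
      · rw [sat_sc h (cons_mem hs (cons_mem hx' (cons_mem hz hv)))] at h6
        exact Or.inr ⟨s, h5, h6⟩
  · intro hz
    obtain ⟨h1, h2, h3⟩ := eq_omega_iff.1 rfl
    refine ⟨_, hz, ⟨∅, h _ hz _ h1, h1, ?_⟩, fun x hx' hx => ⟨_, h _ hz _ (h2 x hx), h2 x hx, ?_⟩,
      fun x hx' hx => ?_⟩
    · rw [sat_emp h (by simpa using h _ hz _ h1)]; rfl
    · rw [sat_sc h (cons_mem (h _ hz _ (h2 x hx)) (cons_mem hx' (cons_mem hz hv)))]; rfl
    · rcases h3 x hx with h5 | ⟨s, hs, h5⟩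
      · left; rw [sat_emp h (by simpa)]; exact h5
      · refine Or.inr ⟨s, h _ hz _ hs, hs, ?_⟩
        rw [sat_sc h (cons_mem (h _ hz _ hs) (cons_mem hx' (cons_mem hz hv)))]; exact h5

theorem sat_power : Sat M (((Fm.mem 0 1).imp (.mem 0 3)).all.imp (.mem 0 1)).all.ex v ↔
    ∃ c ∈ M, ∀ x ∈ M, x ⊆ v 0 → x ∈ c := by
  simp only [sat_ex, sat_all, sat_imp, sat_mem, cons_zero, cons_one, cons_three, cons_two]
  exact exists_congr fun c => and_congr_right fun _ => forall₂_congr fun x hx =>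
    imp_congr ⟨fun H y hy => H y (h _ hx _ hy) hy, fun H y _ hy => H hy⟩ Iff.rfl

theorem sat_coll (φ : Fm) {a : Z} (ha : a ∈ M) :
    Sat M (((Fm.mem 0 1).imp (φ.ren (cons 0 (cons 1 (· + 3)))).ex).all.imp ((Fm.mem 0 2).imp
      ((Fm.mem 0 2).and (φ.ren (cons 0 (cons 1 (· + 4))))).ex).all.ex) (cons a v) ↔
    ((∀ x ∈ a, ∃ y ∈ M, Sat M φ (cons y (cons x v))) →
      ∃ c ∈ M, ∀ x ∈ a, ∃ y ∈ c, Sat M φ (cons y (cons x v))) := by
  simp only [sat_ex, sat_all, sat_imp, sat_mem, sat_and, cons_zero, cons_one, cons_two, sat_ren,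
    comp_cons, cons_succ]
  refine imp_congr ⟨fun H x hx => H x (h _ ha _ hx) hx, fun H x _ hx => H x hx⟩
    (exists_congr fun c => and_congr_right fun hc => ⟨fun H x hx => ?_, fun H x _ hx => ?_⟩)
  · obtain ⟨y, -, h1⟩ := H x (h _ ha _ hx) hx
    exact ⟨y, h1⟩
  · obtain ⟨y, h1, h2⟩ := H x hx
    exact ⟨y, h _ hc _ h1, h1, h2⟩

theorem sat_sep (φ : Fm) {a : Z} (ha : a ∈ M) :
    Sat M ((Fm.mem 0 1).iff ((Fm.mem 0 2).and (φ.ren (cons 0 (· + 3))))).all.ex (cons a v) ↔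
      ZFSet.sep (fun x => Sat M φ (cons x v)) a ∈ M :=
  sat_exSet h (cons_mem ha hv) (fun x hx => h _ ha _ (mem_sep.1 hx).1) fun x _ c => by
    simp only [sat_and, sat_mem, cons_zero, cons_two, cons_one, sat_ren, comp_cons, cons_succ,
      mem_sep]

end axioms

theorem Emb.zf {A B : Set Z} {j : Z → Z} (h : Emb A B j) (hA : Tr A) {d : Z} (hd : d ∈ A)
    (hB : ZF B) : ZF A := by
  refine ⟨hA, fun a ha b hb => ?_, fun a ha => ?_, ?_, fun a ha => ?_, fun φ v hv a ha => ?_,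
    fun φ v hv a ha => ?_⟩
  · have e : ∀ {M : Set Z}, Tr M → ∀ {v : ℕ → Z}, (∀ i, v i ∈ M) →
        (Sat M ((Fm.mem 0 1).iff ((Fm.eq 0 2).or (.eq 0 3))).all.ex v ↔ ({v 0, v 1} : Z) ∈ M) :=
      fun h v hv => sat_exSet h hv (by simp [hv]) (by simp)
    have hv := two_mem ha hb
    exact (e hA hv).1 ((h.2 _ _ hv).2 ((e hB.trans fun i => h.1 _ (hv i)).2
      (hB.pair _ (h.1 _ ha) _ (h.1 _ hb))))
  · have e : ∀ {M : Set Z}, Tr M → ∀ {v : ℕ → Z}, (∀ i, v i ∈ M) →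
        (Sat M ((Fm.mem 0 1).iff ((Fm.mem 0 3).and (.mem 1 0)).ex).all.ex v ↔ sUnion (v 0) ∈ M) :=
      fun h v hv => sat_exSet h hv (fun x hx => by
        obtain ⟨y, hy, hx⟩ := mem_sUnion.1 hx
        exact h _ (h _ (hv 0) _ hy) _ hx) fun x _ c => by
          simp only [sat_ex, sat_and, sat_mem, cons_zero, cons_one, cons_two, cons_three, mem_sUnion]
          exact ⟨fun ⟨y, _, h1⟩ => ⟨y, h1⟩, fun ⟨y, h1⟩ => ⟨y, h _ (hv 0) _ h1.1, h1⟩⟩
    exact (e hA (v := fun _ => a) fun _ => ha).1 ((h.2 _ _ fun _ => ha).2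
      ((e hB.trans fun i => h.1 _ ha).2 (hB.union _ (h.1 _ ha))))
  · obtain ⟨φ, e⟩ := sat_inf hA (v := fun _ => d) fun _ => hd
    exact (e hA (v := fun _ => d) fun _ => hd).1 ((h.2 _ _ fun _ => hd).2
      ((e hB.trans fun i => h.1 _ hd).2 hB.inf))
  · exact (sat_power hA (v := fun _ => a) fun _ => ha).1 ((h.2 _ _ fun _ => ha).2
      ((sat_power hB.trans fun i => h.1 _ ha).2 (hB.power _ (h.1 _ ha))))
  · refine (sat_sep hA hv φ ha).1 ((h.2 _ _ (cons_mem ha hv)).2 ?_)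
    rw [comp_cons]
    exact (sat_sep hB.trans (fun i => h.1 _ (hv i)) φ (h.1 _ ha)).2
      (hB.sep _ _ (fun i => h.1 _ (hv i)) _ (h.1 _ ha))
  · refine (sat_coll hA hv φ ha).1 ((h.2 _ _ (cons_mem ha hv)).2 ?_)
    rw [comp_cons]
    exact (sat_coll hB.trans (fun i => h.1 _ (hv i)) φ (h.1 _ ha)).2
      (hB.coll _ _ (fun i => h.1 _ (hv i)) _ (h.1 _ ha))

/-- Elementary embeddings between models of ZF. -/
structure ZE (A B : Set Z) (j : Z → Z) : Prop where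
  hA : ZF A
  hB : ZF B
  emb : Emb A B j

/-- `a` corresponds to `a'` under `j`. -/
def Cr (A B : Set Z) (j : Z → Z) (a a' : α) : Prop := fits A a ∧ fits B a' ∧ j (enc a) = enc a'

namespace ZE
variable {A B : Set Z} {j : Z → Z} (h : ZE A B j)
include h

theorem dfs {φ : Fm} {w z z' : Z} (hw : w ∈ A) (hz : z ∈ A) (h1 : Dfs A φ w z)
    (h2 : Dfs B φ (j w) z') : j z = z' := by
  refine (h2 _ (h.emb.1 _ hz)).1 ?_
  have := (h.emb.2 φ _ (two_mem hz hw)).1 ((h1 z hz).2 rfl)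
  rwa [two, comp_cons] at this

theorem uf {f : α → β} (hf : UF f) {a a' : α} (ha : Cr A B j a a') : Cr A B j (f a) (f a') := by
  obtain ⟨φ, hf⟩ := hf
  obtain ⟨h1, h2⟩ := hf A h.hA a ha.1
  obtain ⟨h3, h4⟩ := hf B h.hB a' ha.2.1
  exact ⟨h1, h3, h.dfs (Rep.mem h.hA ha.1) (Rep.mem h.hA h1) h2 (ha.2.2 ▸ h4)⟩

theorem par (c : β) [hc : Par c] : Cr A B j c c := by
  obtain ⟨φ, hc⟩ := hc.out
  exact ⟨(hc A h.hA).1, (hc B h.hB).1,
    h.dfs h.hA.empty_mem (Rep.mem h.hA (hc A h.hA).1) ((hc A h.hA).2 _) ((hc B h.hB).2 _)⟩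

theorem set {x : Z} (hx : x ∈ A) : Cr A B j x (j x) := ⟨hx, h.emb.1 x hx, rfl⟩

theorem fix {x : Z} (hx : x ∈ A) (e : j x = x) : Cr A B j x x := ⟨hx, e ▸ h.emb.1 x hx, e⟩

theorem mo : Cr A B j (⟨A⟩ : Mo) ⟨B⟩ := ⟨rfl, rfl, (h.par (∅ : Z)).2.2⟩

theorem prod {a a' : α} {b b' : β} (ha : Cr A B j a a') (hb : Cr A B j b b') :
    Cr A B j (a, b) (a', b') := by
  refine ⟨⟨ha.1, hb.1⟩, ⟨ha.2.1, hb.2.1⟩, ?_⟩
  have h1 := Rep.mem h.hA ha.1
  have h2 := Rep.mem h.hA hb.1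
  have hv := cons_mem (h.hA.pair_mem h1 h2) (two_mem h1 h2)
  have := (h.emb.2 (.pr 0 1 2) _ hv).1 ((sat_pr h.hA (hv _) (hv _) (hv _)).2 rfl)
  rw [sat_pr h.hB (h.emb.1 _ (hv _)) (h.emb.1 _ (hv _)) (h.emb.1 _ (hv _))] at this
  simpa [ha.2.2, hb.2.2] using this

theorem inj {x y : Z} (hx : x ∈ A) (hy : y ∈ A) : j x = j y ↔ x = y :=
  (h.emb.2 (.eq 0 1) _ (two_mem hx hy)).symm

theorem mem_iff {x y : Z} (hx : x ∈ A) (hy : y ∈ A) : j x ∈ j y ↔ x ∈ y :=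
  (h.emb.2 (.mem 0 1) _ (two_mem hx hy)).symm

theorem iff {P : α → Prop} (hP : UF P) {a a' : α} (ha : Cr A B j a a') : P a ↔ P a' := by
  obtain ⟨φ, hP⟩ := uf_prop_iff.1 hP
  rw [← hP A h.hA a ha.1, ← hP B h.hB a' ha.2.1, ← ha.2.2]
  exact h.emb.2 φ _ fun _ => Rep.mem h.hA ha.1

theorem map {f : α → Z} (hf : UF f) {a a' : α} (ha : Cr A B j a a') : j (f a) = f a' :=
  (h.uf hf ha).2.2

theorem of_enc [Dec α] {z : Z} (hz : z ∈ A) {a' : α} (e : j z = enc a') :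
    ∃ a, enc a = z ∧ Cr A B j a a' := by
  obtain ⟨a, rfl⟩ := (h.iff (Dec.rng (β := α)) (h.set hz)).2 ⟨a', e.symm⟩
  exact ⟨a, rfl, Dec.fits_of h.hA hz, Dec.fits_of h.hB (e ▸ h.emb.1 _ hz), e⟩

theorem real_eq {x x' : ℕ → ℕ} (H : Cr A B j x x') : x = x' := funext fun n => by
  have := (h.uf (f := fun p : (ℕ → ℕ) × ℕ => ap p.1 p.2) (by fun_prop) (h.prod H (h.par n))).2.2
  exact nat_injective ((h.par (x n)).2.2.symm.trans this)

theorem real {x : ℕ → ℕ} (hx : x ∈ Reals A) : Cr A B j x x := by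
  obtain ⟨x', e⟩ := (h.iff (Dec.rng (β := ℕ → ℕ)) (h.set hx)).1 ⟨x, rfl⟩
  have : Cr A B j x x' := ⟨hx, Dec.fits_of h.hB (e ▸ h.emb.1 _ hx), e.symm⟩
  exact h.real_eq this ▸ this

theorem real_of {x : ℕ → ℕ} {z : Z} (hz : z ∈ A) (e : j z = MP_b3d6af_lc.real x) :
    x ∈ Reals A := by
  obtain ⟨x', -, H⟩ := h.of_enc (α := ℕ → ℕ) hz e
  exact h.real_eq H ▸ H.1

theorem list {l : List Z} (hl : ∀ x ∈ l, x ∈ A) : Cr A B j l (l.map j) := by
  induction l with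
  | nil => exact h.par _
  | cons x l ih =>
    exact h.uf (f := fun p : Z × List Z => p.1 :: p.2) (by fun_prop)
      (h.prod (h.set (hl x (by simp))) (ih fun y hy => hl y (by simp [hy])))

theorem ctbl {a : Z} (ha : a ∈ A) : Ctbl A a ↔ Ctbl B (j a) :=
  h.iff (P := fun p : Mo × Z => Ctbl p.1.M p.2) (by fun_prop) (h.prod h.mo (h.set ha))

theorem ord {a : Z} (ha : a ∈ A) : IsOrdinal a ↔ IsOrdinal (j a) :=
  h.iff (P := fun p : Z => IsOrdinal p) (by fun_prop) (h.set ha)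

theorem img {a : Z} (ha : a ∈ A) (hc : Ctbl A a) {y : Z} (hy : y ∈ j a) : ∃ x ∈ a, j x = y := by
  obtain ⟨f, hf, he⟩ := hc
  have := (h.iff (P := fun p : Z × Z => Enum p.1 omega p.2) (by fun_prop)
    (h.prod (h.set hf) (h.set ha))).1 he
  obtain ⟨i, hi, h1⟩ := this.2 y hy
  obtain ⟨n, rfl⟩ := mem_omega.1 hi
  have H := h.uf (f := fun p : Z × ℕ => app p.1 (nat p.2)) (by fun_prop)
    (h.prod (h.set hf) (h.par n))
  have e : j (app f (nat n)) = y := H.2.2.trans (this.1.app_eq h1)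
  exact ⟨_, (h.mem_iff H.1 ha).1 (e ▸ hy), e⟩

theorem fix_sub {t : Z} (ht : IsTransitive t) (hc : Ctbl A t) (x : Z) :
    x ∈ A → x ⊆ t → j x = x := by
  induction x using ZFSet.inductionOn with
  | h x ih =>
    intro hx hs
    have hc' : Ctbl A x := hc.imp fun f hf => ⟨hf.1, hf.2.1, fun y hy => hf.2.2 y (hs hy)⟩
    have ih' : ∀ y ∈ x, j y = y := fun y hy => ih y hy (h.hA.trans _ hx _ hy) (ht y (hs hy))
    ext y
    constructor
    · intro hy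
      obtain ⟨z, hz, rfl⟩ := h.img hx hc' hy
      rwa [ih' z hz]
    · intro hy
      rw [← ih' y hy]
      exact (h.mem_iff (h.hA.trans _ hx _ hy) hx).2 hy

theorem fix_ord {a : Z} (ha : a ∈ A) (ho : IsOrdinal a) (hc : Ctbl A a) : j a = a :=
  h.fix_sub ho.isTransitive hc a ha subset_rfl

theorem restrict {m : Z} (hm : m ∈ A) : Emb (m : Set Z) (j m : Set Z) j := by
  have hs : ∀ x ∈ m, x ∈ A := h.hA.trans m hm
  refine emb_of_list (fun x hx => (h.mem_iff (hs x hx) hm).2 hx) fun n d hd l hl => ?_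
  exact h.iff uf_satS (h.prod (h.prod (h.set hm) (h.set (hs d hd)))
    (h.prod (h.par n) (h.list fun x hx => hs x (hl x hx))))

end ZE

instance (l : List ℕ) : Par l := by
  induction l with
  | nil => infer_instance
  | cons x l ih => infer_instance

/-- Enumeration of arithmetical formulas. -/
def Ar.dec (n : ℕ) : Ar :=
  if h : n = 0 then .add 0 0 0 else if tg n = 0 then .add (a1 n) (a2 n).unpair.1 (a2 n).unpair.2
  else if tg n = 1 then .mul (a1 n) (a2 n).unpair.1 (a2 n).unpair.2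
  else if tg n = 2 then .app (a1 n) (a2 n).unpair.1 (a2 n).unpair.2
  else if tg n = 3 then .neg (Ar.dec (a1 n))
  else if tg n = 4 then .and (Ar.dec (a1 n)) (Ar.dec (a2 n)) else .ex (Ar.dec (a1 n))
decreasing_by exacts [a1_lt h, a1_lt h, a2_lt h, a1_lt h]

theorem Ar.dec_surj (θ : Ar) : ∃ n, Ar.dec n = θ := by
  induction θ with
  | add i j k => exact ⟨cd 0 i (Nat.pair j k), by rw [Ar.dec]; simp⟩
  | mul i j k => exact ⟨cd 1 i (Nat.pair j k), by rw [Ar.dec]; simp⟩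
  | app i j k => exact ⟨cd 2 i (Nat.pair j k), by rw [Ar.dec]; simp⟩
  | neg θ h => obtain ⟨a, rfl⟩ := h; exact ⟨cd 3 a 0, by rw [Ar.dec]; simp⟩
  | and θ η h1 h2 =>
    obtain ⟨a, rfl⟩ := h1
    obtain ⟨b, rfl⟩ := h2
    exact ⟨cd 4 a b, by rw [Ar.dec]; simp⟩
  | ex θ h => obtain ⟨a, rfl⟩ := h; exact ⟨cd 5 a 0, by rw [Ar.dec]; simp⟩

theorem uf_satA : UF (fun p : List (ℕ → ℕ) × ℕ => (Ar.dec p.2).Sat p.1 0) := by
  let T : List (ℕ → ℕ) → ℕ → ℕ → ℕ := fun ρ n k =>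
    if (Ar.dec n).Sat ρ (env 0 (dl k)) then 1 else 0
  have hT : UF (fun p : List (ℕ → ℕ) × ℕ => T p.1 p.2) := by
    refine UF.strongRec (fun ρ n prev k => if
      (n = 0 ∧ (dl k).getD 0 0 + (dl k).getD 0 0 = (dl k).getD 0 0) ∨ n ≠ 0 ∧
      ((tg n = 0 ∧ (dl k).getD (a1 n) 0 + (dl k).getD (a2 n).unpair.1 0 =
        (dl k).getD (a2 n).unpair.2 0) ∨
      (tg n = 1 ∧ (dl k).getD (a1 n) 0 * (dl k).getD (a2 n).unpair.1 0 =
        (dl k).getD (a2 n).unpair.2 0) ∨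
      (tg n = 2 ∧ ap (ρ.getD (a1 n) 0) ((dl k).getD (a2 n).unpair.1 0) =
        (dl k).getD (a2 n).unpair.2 0) ∨
      (tg n = 3 ∧ ¬ ap (prev.getD (a1 n) 0) k = 1) ∨
      (tg n = 4 ∧ ap (prev.getD (a1 n) 0) k = 1 ∧ ap (prev.getD (a2 n) 0) k = 1) ∨
      (5 ≤ tg n ∧ ∃ x, ap (prev.getD (a1 n) 0) (Encodable.encode (x :: dl k)) = 1)) then 1 else 0)
      (by fun_prop) fun ρ n => ?_
    funext k
    simp only [T]
    refine if_congr ?_ rfl rfl
    rw [Ar.dec]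
    by_cases hn : n = 0
    · simp [hn, Ar.Sat, env]
    · rw [getD_range_map _ (a1_lt hn), getD_range_map _ (a2_lt hn)]
      simp only [ap, ite_eq_left_iff, zero_ne_one, imp_false, not_not, dl_encode, env_cons]
      split_ifs with h0 h1 h2 h3 h4 <;> simp [*, Ar.Sat, env]
      omega
  refine UF.of_iff (Q := fun p => ap (T p.1 p.2) 0 = 1) ((hT.ap (UF.const 0)).eq (UF.const 1))
    fun p => ?_
  have : env 0 (dl 0) = 0 := by rw [show dl 0 = [] from dl_encode []]; rfl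
  simp [T, ap, this]

theorem uf_sig (k : ℕ) : UF (fun p : Z × List (ℕ → ℕ) × ℕ =>
    Sig (Reals (p.1 : Set Z)) k (Ar.dec p.2.2) p.2.1) := by
  induction k with
  | zero => exact uf_satA.comp uf_snd
  | succ k ih =>
    exact UF.bexR uf_fst (ih.comp (g := fun q : (Z × List (ℕ → ℕ) × ℕ) × (ℕ → ℕ) =>
      (q.1.1, q.2 :: q.1.2.1, q.1.2.2)) (by fun_prop)).not

@[fun_prop] theorem UF.play {f g : α → ℕ → ℕ} (hf : UF f) (hg : UF g) :
    UF (fun a => play (f a) (g a)) := by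
  have h1 : UF (fun p : ((ℕ → ℕ) × (ℕ → ℕ)) × ℕ => hist p.1.1 p.1.2 p.2) :=
    UF.natrec (F := fun (a : (ℕ → ℕ) × (ℕ → ℕ)) n => hist a.1 a.2 n) (fun _ => [])
      (fun a n r => MP_b3d6af_lc.ap (if n % 2 = 0 then a.1 else a.2) (Encodable.encode r) :: r)
      (by fun_prop) (by fun_prop) (fun _ => rfl) (fun _ _ => rfl)
  have h2 : UF (fun p : (ℕ → ℕ) × (ℕ → ℕ) => MP_b3d6af_lc.play p.1 p.2) :=
    UF.lam (F := fun (p : (ℕ → ℕ) × (ℕ → ℕ)) n => MP_b3d6af_lc.play p.1 p.2 n)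
      ((UF.ap (f := fun p : ((ℕ → ℕ) × (ℕ → ℕ)) × ℕ => if p.2 % 2 = 0 then p.1.1 else p.1.2)
      (by fun_prop) h1.encodeL).congr fun _ => rfl)
  exact (h2.comp (hf.prodMk hg) :)

@[fun_prop] theorem UF.detS (k : ℕ) {f : α → Z} (hf : UF f) :
    UF (fun a => Det k (Reals (f a : Set Z))) := by
  refine UF.comp (f := fun a : Z => Det k (Reals (a : Set Z))) ?_ hf
  have h0 := uf_sig k
  have h1 : UF (fun p : (Z × ℕ) × List (ℕ → ℕ) => (∀ x ∈ p.2, x ∈ Reals (p.1.1 : Set Z)) →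
      (∃ σ ∈ Reals (p.1.1 : Set Z), ∀ τ ∈ Reals (p.1.1 : Set Z),
        ¬ Sig (Reals (p.1.1 : Set Z)) k (Ar.dec p.1.2) (MP_b3d6af_lc.play σ τ :: p.2)) ∨
      (∃ τ ∈ Reals (p.1.1 : Set Z), ∀ σ ∈ Reals (p.1.1 : Set Z),
        Sig (Reals (p.1.1 : Set Z)) k (Ar.dec p.1.2) (MP_b3d6af_lc.play σ τ :: p.2))) := by
    refine UF.imp (by fun_prop) (UF.or (UF.bexR (by fun_prop) (UF.ballR (by fun_prop) (UF.not ?_)))
      (UF.bexR (by fun_prop) (UF.ballR (by fun_prop) ?_)))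
    · exact h0.comp (g := fun q : (((Z × ℕ) × List (ℕ → ℕ)) × (ℕ → ℕ)) × (ℕ → ℕ) =>
        (q.1.1.1.1, MP_b3d6af_lc.play q.1.2 q.2 :: q.1.1.2, q.1.1.1.2)) (by fun_prop)
    · exact h0.comp (g := fun q : (((Z × ℕ) × List (ℕ → ℕ)) × (ℕ → ℕ)) × (ℕ → ℕ) =>
        (q.1.1.1.1, MP_b3d6af_lc.play q.2 q.1.2 :: q.1.1.2, q.1.1.1.2)) (by fun_prop)
  refine UF.of_allM (β := ℕ) (UF.of_allM (P := fun p : Z × ℕ => ∀ ρ, _) h1 fun M hM a ha =>
    ⟨fun H b _ => H b, fun H ρ hρ => H ρ (fun x hx => hM.trans _ ha.1 _ (hρ x hx)) hρ⟩)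
    fun M hM a ha => ⟨fun H b _ => H (Ar.dec b), fun H θ => ?_⟩
  obtain ⟨n, rfl⟩ := θ.dec_surj
  exact H n trivial

/-- The set of reals of a model. -/
noncomputable def baire (m : Mo) : Z :=
  ZFSet.sep (fun z => ∃ x : ℕ → ℕ, enc x = z) (powM m (prod omega omega))

theorem mem_baire {m : Mo} {z : Z} : z ∈ baire m ↔ ∃ x ∈ Reals m.M, real x = z := by
  simp only [baire, mem_sep, mem_powM, enc_real]
  refine ⟨fun ⟨h, x, e⟩ => ⟨x, by subst e; exact h.2, e⟩, ?_⟩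
  rintro ⟨x, hx, rfl⟩
  refine ⟨⟨fun p hp => ?_, hx⟩, x, rfl⟩
  obtain ⟨n, rfl⟩ := mem_real.1 hp
  simp

theorem reals_baire (m : Mo) : Reals (baire m : Set Z) = Reals m.M := by
  ext x; simp [mem_reals, mem_baire]

@[fun_prop] theorem UF.baire {g : α → Mo} (hg : UF g) : UF (fun a => baire (g a)) :=
  UF.sep (by fun_prop) ((Dec.rng (β := ℕ → ℕ)).comp uf_snd)

@[fun_prop] theorem UF.detM (k : ℕ) {g : α → Mo} (hg : UF g) :
    UF (fun a => Det k (Reals (g a).M)) :=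
  (UF.detS k hg.baire).of_iff fun a => by rw [reals_baire]

end Pool.Agent.Lib.MP_b3d6af_lc
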