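import Pool.Agent.Lib.MP_b3d6af_lc.PSP

/-!
The universe as a model, canonical codes of ordinals, and the minimal model.
-/

set_option linter.unusedSectionVars false
set_option linter.unusedVariables false

namespace Pool.Agent.Lib.MP_b3d6af_lc

open ZFSet Classical

universe u v

variable {α : Type u} [Rep α]

theorem Cr.eq {A B : Set Z} {j : Z → Z} {x y : Z} (h : Cr A B j x y) : j x = y := h.2.2
theorem Cr.mem {A B : Set Z} {j : Z → Z} {x y : Z} (h : Cr A B j x y) : x ∈ A := h.1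

theorem zf_univ : ZF Set.univ := by
  refine ⟨by simp, by simp, by simp, by simp, fun a _ => ⟨powerset a, by simp⟩, by simp,
    fun φ v _ a _ h => ?_⟩
  choose! f hf using h
  exact ⟨img f a, trivial, fun x hx => ⟨_, mem_img.2 ⟨x, hx, rfl⟩, (hf x hx).2⟩⟩

theorem ac_univ : AC Set.univ := fun a _ => by
  refine enum_of_wo zf_univ (r := ZFSet.sep (fun p => WellOrderingRel (fst p) (snd p)) (prod a a))
    trivial trivial ⟨fun S hS hn => ?_, fun x y h1 h2 => ?_⟩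
  · obtain ⟨x, hx, h⟩ := (WellOrderingRel.isWellOrder (α := Z)).wf.has_min S hn
    refine ⟨x, hx, fun y hy hne => ?_⟩
    simp only [mem_sep, pair_mem_prod, fst_pair, snd_pair]
    refine ⟨⟨hS hx, hS hy⟩, ?_⟩
    rcases trichotomous_of WellOrderingRel x y with h1 | h1 | h1
    exacts [h1, absurd h1.symm hne, absurd h1 (h y hy)]
  · simp only [mem_sep, fst_pair, snd_pair] at h1 h2
    exact asymm_of WellOrderingRel h1.2 h2.2

theorem elem_chain {c : ℕ → Z} (hm : ∀ k, c k ⊆ c (k + 1))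
    (h : ∀ k n l, (∀ x ∈ l, x ∈ c k) → (∃ x, Sat Set.univ (Fm.dec n) (env ∅ (x :: l))) →
      ∃ x ∈ c (k + 1), Sat Set.univ (Fm.dec n) (env ∅ (x :: l))) :
    Elem (ZFSet.iUnion c : Z) Set.univ := by
  refine elem_of_tv (Set.subset_univ _) fun φ v hv ⟨x, _, hx⟩ => ?_
  obtain ⟨l, h1, h2⟩ := exists_list φ ∅ v
  obtain ⟨n, rfl⟩ := φ.dec_surj
  have hm' : Monotone c := monotone_nat_of_le_succ hm
  obtain ⟨k, hk⟩ : ∃ k, ∀ x ∈ l, x ∈ c k := by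
    clear h2
    induction l with
    | nil => exact ⟨0, by simp⟩
    | cons y l ih =>
      obtain ⟨k, hk⟩ := ih fun x hx => h1 x (by simp [hx])
      obtain ⟨i, rfl⟩ := h1 y (by simp)
      obtain ⟨j, hj⟩ := mem_iUnion.1 (hv i)
      refine ⟨k + j, fun x hx => ?_⟩
      rcases List.mem_cons.1 hx with rfl | hx
      exacts [hm' (by omega) hj, hm' (by omega) (hk x hx)]
  obtain ⟨y, h3, h4⟩ := h k n l hk ⟨x, (h2 _ id [x]).1 hx⟩
  exact ⟨y, mem_iUnion.2 ⟨_, h3⟩, (h2 _ id [y]).2 h4⟩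

theorem good_univ : Good Set.univ := by
  refine ⟨zf_univ, fun x _ => ?_⟩
  have : ∀ m : Z, ∃ m' : Z, IsTransitive m' ∧ m ∈ m' ∧ ∀ n l, (∀ x ∈ l, x ∈ m) →
      (∃ x, Sat Set.univ (Fm.dec n) (env ∅ (x :: l))) →
      ∃ x ∈ m', Sat Set.univ (Fm.dec n) (env ∅ (x :: l)) := fun m => by
    let wt : ℕ → List Z → Z := fun n l =>
      if h : ∃ x, Sat Set.univ (Fm.dec n) (env ∅ (x :: l)) then h.choose else ∅
    let s : Z := ZFSet.iUnion fun n => img (fun z => wt n (dec (List Z) z)) (Seq m)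
    refine ⟨vonNeumann (rank {m, s}), isTransitive_vonNeumann _,
      subset_vonNeumann_self _ (by simp), fun n l hl h => ⟨wt n l, isTransitive_vonNeumann _ s
        (subset_vonNeumann_self _ (by simp)) (mem_iUnion.2 ⟨n, mem_img.2
          ⟨_, enc_mem_Seq.2 hl, by simp⟩⟩), ?_⟩⟩
    simp only [wt, dif_pos h]; exact h.choose_spec
  choose f h1 h2 h3 using this
  refine ⟨ZFSet.iUnion fun k => f^[k + 1] x, trivial, IsTransitive.iUnion fun k => ?_,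
    mem_iUnion.2 ⟨0, h2 x⟩, elem_chain (fun k => ?_) fun k => ?_⟩
  · rw [Function.iterate_succ_apply']; exact h1 _
  · rw [Function.iterate_succ_apply' f (k + 1)]; exact h1 _ _ (h2 _)
  · rw [Function.iterate_succ_apply' f (k + 1)]; exact h3 _

theorem exists_good (x : Z) : ∃ M : Z, x ∈ M ∧ Good (M : Set Z) ∧ Elem (M : Set Z) Set.univ := by
  choose f h0 h1 h2 h3 using fun x => good_univ.2 x trivial
  have hz : ∀ x, ZF (f x : Set Z) := fun x => (h3 x).zf (fun a ha y hy => h1 x a ha hy) (h2 x) zf_univ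
  have e : ∀ k, f^[k + 1] x = f (f^[k] x) := fun k => Function.iterate_succ_apply' _ _ _
  have hE : Elem (ZFSet.iUnion fun k => f^[k + 1] x : Z) Set.univ := by
    refine elem_chain (fun k => ?_) fun k n l hl ⟨y, hy⟩ => ?_
    · rw [e (k + 1)]; exact h1 _ _ (h2 _)
    · rw [e] at hl
      obtain ⟨z, h4, h5⟩ := (h3 _).witness (env_mem (hz _).empty_mem hl) ⟨y, trivial, by simpa using hy⟩
      exact ⟨z, by rw [e, e]; exact h1 _ _ (h2 _) h4, by simpa using h5⟩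
  have hx : x ∈ ZFSet.iUnion fun k => f^[k + 1] x := mem_iUnion.2 ⟨0, h2 x⟩
  refine ⟨_, hx, ⟨hE.zf (fun a ha y hy => IsTransitive.iUnion (fun k => by rw [e]; exact h1 _)
    a ha hy) hx zf_univ, fun y hy => ?_⟩, hE⟩
  obtain ⟨k, hk⟩ := mem_iUnion.1 hy
  refine ⟨f^[k + 1] x, mem_iUnion.2 ⟨k + 1, by rw [e (k + 1)]; exact h2 _⟩, by rw [e]; exact h1 _,
    hk, Elem.of_both (by rw [e]; exact h3 _) hE fun z hz => mem_iUnion.2 ⟨k, hz⟩⟩

theorem ctbl_univ {s : Z} (h : (s : Set Z).Countable) : Ctbl Set.univ s := by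
  obtain ⟨f, hf⟩ := (h.insert ∅).exists_eq_range (Set.insert_nonempty _ _)
  refine ⟨restr (fun w => f (dec ℕ w)) omega, trivial, fn_restr _ _, fun x hx => ?_⟩
  obtain ⟨n, rfl⟩ : x ∈ Set.range f := hf ▸ Or.inr hx
  exact ⟨nat n, by simp, pair_mem_restr.2 (by simp)⟩

theorem exists_unctbl : ∃ w : Z, IsOrdinal w ∧ ¬ Ctbl Set.univ w := by
  obtain ⟨I, -, h1, f, -, h2⟩ := ac_univ (baire ⟨Set.univ⟩) trivial
  refine ⟨I, h1, fun h => ?_⟩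
  obtain ⟨g, -, h3⟩ := h.enum
  obtain ⟨i, h4, h5⟩ := h2.2 (real fun n => dec (ℕ → ℕ) (app f (app g (nat n))) n + 1)
    (mem_baire.2 ⟨_, trivial, rfl⟩)
  obtain ⟨n, rfl⟩ := h3 i h4
  have := congrFun ((congrArg (dec (ℕ → ℕ)) (h2.1.app_eq h5)).trans (dec_enc (β := ℕ → ℕ) _)) n
  omega

/-- `γ` is the least level of `L[c]` at which `a` is countable. -/
def Ok (c a γ : Z) : Prop :=
  IsOrdinal γ ∧ Ctbl (L c γ : Set Z) a ∧ ∀ β ∈ γ, ¬ Ctbl (L c β : Set Z) a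

@[fun_prop] theorem UF.Ok {f g k : α → Z} (hf : UF f) (hg : UF g) (hk : UF k) :
    UF (fun a => Ok (f a) (g a) (k a)) := by
  unfold MP_b3d6af_lc.Ok; fun_prop

theorem Ok.unique {c a γ γ' : Z} (h : Ok c a γ) (h' : Ok c a γ') : γ = γ' := by
  rcases h.1.mem_trichotomous h'.1 with h1 | h1 | h1
  exacts [absurd h.2.1 (h'.2.2 _ h1), h1, absurd h'.2.1 (h.2.2 _ h1)]

theorem exists_ok {M : Set Z} (hM : Tr M) {c a γ : Z} (h0 : γ ∈ M) (h1 : IsOrdinal γ)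
    (h2 : Ctbl (L c γ : Set Z) a) : ∃ γ ∈ M, Ok c a γ := by
  obtain ⟨β, ⟨h3, h4, h5⟩, h6⟩ := exists_min
    (s := {β | β ∈ M ∧ IsOrdinal β ∧ Ctbl (L c β : Set Z) a}) ⟨γ, h0, h1, h2⟩
  exact ⟨β, h3, h4, h5, fun η hη h7 => h6 η hη ⟨hM _ h3 _ hη, h4.mem hη, h7⟩⟩

theorem ok_of_LM {V : Set Z} (hV : ZF V) {c a : Z} (h : Ctbl (LM V c) a) : ∃ γ ∈ V, Ok c a γ := by
  obtain ⟨f, ⟨γ, h1, h2, h3⟩, h4⟩ := h
  exact exists_ok hV.trans h1 h2 ⟨f, h3, h4⟩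

theorem Ok.ctbl {M : Set Z} (hM : ZF M) {c a γ : Z} (h : Ok c a γ) (hc : c ∈ M) (hγ : γ ∈ M) :
    Ctbl M a := h.2.1.mono (hM.trans _ (hM.L_mem hc hγ))

/-- The canonical enumeration of `a` in `L_γ[c]`. -/
noncomputable def cen (c a γ : Z) : Z :=
  wmin (W c γ) (ZFSet.sep (fun f => Enum f omega a) (L c γ))

/-- The canonical code of `a` in `L_γ[c]`. -/
noncomputable def xr (c a γ : Z) : ℕ → ℕ := codeOf fun i =>
  if i ≠ 0 ∧ app (cen c a γ) (nat (i - 1)) ∈ a then app (cen c a γ) (nat (i - 1)) else a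

@[fun_prop] theorem UF.xr {f g k : α → Z} (hf : UF f) (hg : UF g) (hk : UF k) :
    UF (fun a => xr (f a) (g a) (k a)) := by
  unfold MP_b3d6af_lc.xr cen; fun_prop

theorem Ok.pi_xr {c a γ : Z} (h : Ok c a γ) (ha : IsOrdinal a) : pi (xr c a γ) 0 = a := by
  obtain ⟨f, h1, h2⟩ := h.2.1
  have h3 : Enum (cen c a γ) omega a := (mem_sep.1 (wmin_mem (wo_W c h.1) sep_subset
    (mem_sep.2 ⟨h1, h2⟩ : f ∈ ZFSet.sep (fun f => Enum f omega a) (L c γ)))).2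
  refine (pi_codeOf (fun j x hx => ?_) 0).trans (by simp)
  have : x ∈ a := by
    split_ifs at hx with h4
    exacts [ha.mem_trans hx h4.2, hx]
  obtain ⟨i, h5, h6⟩ := h3.2 x this
  obtain ⟨n, rfl⟩ := mem_omega.1 h5
  exact ⟨n + 1, by simp [h3.1.app_eq h6, this]⟩

theorem reflect2 {V : Set Z} (hV : Good V) (hac : AC V) {Q : Mo × (ℕ → ℕ) × (ℕ → ℕ) → Prop}
    (hQ : UF Q) {x y : ℕ → ℕ} (hx : x ∈ Reals V) (hy : y ∈ Reals V) (h : Q (⟨V⟩, x, y)) :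
    ∃ m ∈ V, Ctbl V m ∧ ZF (m : Set Z) ∧ x ∈ Reals (m : Set Z) ∧ y ∈ Reals (m : Set Z) ∧
      Q (⟨m⟩, x, y) := by
  obtain ⟨m, hm, j, h1, h2, ⟨x', y'⟩, h3⟩ := reflect hV hac (a := (x, y)) (by exact ⟨hx, hy⟩)
  obtain rfl : x' = x := h2.real_eq (h2.fst h3)
  obtain rfl : y' = y := h2.real_eq (h2.snd h3)
  exact ⟨m, hm, h1, h2.hA, h3.1.1, h3.1.2, (h2.iff hQ (h2.prod h2.mo h3)).2 h⟩

/-- The first uncountable ordinal is inaccessible to reals. -/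
def Inacc (V : Set Z) : Prop := ∀ y ∈ Reals V, ∃ a ∈ V, IsOrdinal a ∧ Ctbl V a ∧
  ∀ β ∈ V, IsOrdinal β → ¬ Ctbl (L (real y) β : Set Z) a

theorem inacc_univ {n : ℕ} (h : Det (n + 1) Set.univ) : Inacc Set.univ := fun y _ => by
  by_contra! H
  have H' : ∀ a, IsOrdinal a → (a : Set Z).Countable → ∃ γ, Ok (real y) a γ := fun a h1 h2 => by
    obtain ⟨β, -, h3, h4⟩ := H a trivial h1 (ctbl_univ h2)
    exact (exists_ok zf_univ.trans trivial h3 h4).imp fun _ h => h.2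
  have hQ : UF (fun p : Mo × (ℕ → ℕ) × (ℕ → ℕ) => ∃ a ∈ p.1.M, ∃ γ ∈ p.1.M,
    IsOrdinal a ∧ Ok (real p.2.2) a γ ∧ p.2.1 = xr (real p.2.2) a γ) := by fun_prop
  obtain ⟨Q, h1, h2⟩ := sig12_two hQ
  rcases psp h h1 y (A := {x | ∃ a γ, IsOrdinal a ∧ Ok (real y) a γ ∧ x = xr (real y) a γ})
    (fun x => ⟨fun ⟨a, γ, h3⟩ => by
      simpa [mem_reals] using (h2 _ zf_univ x y).1
        (reflect2 good_univ ac_univ hQ trivial trivial ⟨a, trivial, γ, trivial, h3⟩), fun h3 => by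
      obtain ⟨m, -, -, -, -, -, a, -, γ, -, h4⟩ := (h2 _ zf_univ x y).2 (by simpa [mem_reals] using h3)
      exact ⟨a, γ, h4⟩⟩)
    (by rintro _ ⟨a, γ, -, -, rfl⟩ i; unfold xr codeOf; split_ifs <;> simp) with h3 | ⟨X, h3, h4, h5⟩
  · obtain ⟨f, hf⟩ := ((h3.image fun x => pi x 0).insert ∅).exists_eq_range (Set.insert_nonempty _ _)
    have h4 : ∀ k, IsOrdinal (f k) ∧ (f k : Set Z).Countable := fun k => by
      rcases hf.ge (Set.mem_range_self k) with h4 | ⟨_, ⟨a, γ, h4, h5, rfl⟩, h6⟩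
      · simp [h4, isOrdinal_empty]
      · rw [← h6.symm.trans (h5.pi_xr h4) |>.symm]; exact ⟨h4, h5.2.1.countable⟩
    have h5 : IsOrdinal (ZFSet.iUnion f) := isOrdinal_sUnion (by simpa using fun k => (h4 k).1)
    obtain ⟨γ, h6⟩ := H' _ (isOrdinal_succ h5)
      (by simpa using Set.countable_iUnion fun k => (h4 k).2)
    obtain ⟨k, hk⟩ : insert (ZFSet.iUnion f) (ZFSet.iUnion f) ∈ Set.range f :=
      hf ▸ Or.inr ⟨_, ⟨_, γ, isOrdinal_succ h5, h6, rfl⟩, h6.pi_xr (isOrdinal_succ h5)⟩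
    exact mem_irrefl (ZFSet.iUnion f) (mem_iUnion.2 ⟨k, hk ▸ mem_insert _ _⟩)
  · obtain ⟨a, h6, h7, h8⟩ := bounded (fun z => by
      obtain ⟨a, γ, -, -, e⟩ := h3 z; rw [e]; exact wf_codeOf _) h4
    choose! G hG using H'
    refine not_countable_range h5 (((h7.insert a).image fun a => xr (real y) a (G a)).mono ?_)
    rintro _ ⟨z, rfl⟩
    obtain ⟨b, γ, h9, h10, e⟩ := h3 z
    have h11 := h8 z
    rw [e, h10.pi_xr h9] at h11
    exact ⟨b, h9.eq_or_mem_of_subset h6 (h11 h9), by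
      rw [e, h10.unique (hG b h9 h10.2.1.countable)]⟩

/-- The property of the ground model. -/
structure Nice (n : ℕ) (V : Set Z) : Prop where
  ctbl : V.Countable
  good : Good V
  ac : AC V
  det : Det (n + 1) (Reals V)
  inacc : Inacc V

theorem uf_inacc : UF (fun m : Mo => Inacc m.M) := by unfold Inacc; fun_prop

theorem exists_nice {n : ℕ} (h : Det (n + 1) Set.univ) :
    ∃ V w, Nice n V ∧ w ∈ V ∧ IsOrdinal w ∧ ¬ Ctbl V w := by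
  obtain ⟨w, h1, h2⟩ := exists_unctbl
  obtain ⟨M, h3, h4, h5⟩ := exists_good w
  obtain ⟨m, -, j, h6, h7, ⟨M', w'⟩, h8⟩ := reflect good_univ ac_univ (a := (M, w))
    (by exact ⟨trivial, trivial⟩)
  have h9 : Cr m Set.univ j M' M := h7.fst h8
  have h10 : Cr m Set.univ j w' w := h7.snd h8
  have hG : Good (M' : Set Z) :=
    (h7.iff (P := fun M : Z => Good (M : Set Z)) (by unfold Good; fun_prop) h9).2 h4
  have hZ : ZE M' Set.univ j := ⟨hG.1, zf_univ, (h7.restrict h9.1).comp (h9.eq ▸ h5)⟩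
  have hw : w' ∈ M' := (h7.iff (P := fun p : Z × Z => p.2 ∈ p.1) (by fun_prop) h8).2 h3
  refine ⟨M', w', ⟨(h7.hA.ctbl_mem h6 h9.1).countable, hG,
    (hZ.iff (P := fun m : Mo => AC m.M) (by unfold AC; fun_prop) hZ.mo).2 ac_univ,
    (hZ.iff (UF.detM (n + 1) UF.id) hZ.mo).2 h, (hZ.iff uf_inacc hZ.mo).2 (inacc_univ h)⟩, hw,
    (hZ.ord hw).2 (h10.eq ▸ h1), fun h11 => h2 (h10.eq ▸ (hZ.ctbl hw).1 h11)⟩

/-- A model with the least possible first uncountable ordinal `w`. -/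
structure Min (n : ℕ) (V : Set Z) (w : Z) : Prop extends Nice n V where
  mem : w ∈ V
  ord : IsOrdinal w
  unc : ¬ Ctbl V w
  min : ∀ V', Nice n V' → ∀ ξ ∈ w, ξ ∈ V' → Ctbl V' ξ

theorem exists_min_model {n : ℕ} (h : Det (n + 1) Set.univ) : ∃ V w, Min n V w := by
  obtain ⟨V, w, h1⟩ := exists_nice h
  obtain ⟨w, ⟨V, h2, h3, h4, h5⟩, h6⟩ := exists_min
    (s := {w | ∃ V, Nice n V ∧ w ∈ V ∧ IsOrdinal w ∧ ¬ Ctbl V w}) ⟨w, V, h1⟩
  exact ⟨V, w, h2, h3, h4, h5, fun V' h7 ξ h8 h9 => by_contra fun hn =>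
    h6 ξ h8 ⟨V', h7, h9, h4.mem h8, hn⟩⟩

theorem mem_of_ctbl {V : Set Z} {w a : Z} (hw : IsOrdinal w) (hu : ¬ Ctbl V w) (ha : IsOrdinal a)
    (hc : Ctbl V a) : a ∈ w := (ha.mem_or_subset hw).resolve_right fun h => hu (hc.sub h)

/-- Sets that are not moved by elementary embeddings into `V`. -/
def Fx (V : Set Z) (c : Z) : Prop := c ∈ V ∧ ∀ A j c', ZE A V j → Cr A V j c' c → c' = c

theorem fx_real {V : Set Z} {x : ℕ → ℕ} (hx : x ∈ Reals V) : Fx V (real x) :=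
  ⟨hx, fun A j c' h H => (h.inj H.1 (h.real_of H.1 H.2.2)).1
    (H.2.2.trans (h.real (h.real_of H.1 H.2.2)).2.2.symm)⟩

theorem fx_sub {V : Set Z} {c δ : Z} (hc : c ∈ V) (hδ : δ ∈ V) (ho : IsOrdinal δ) (h : Ctbl V δ)
    (hs : c ⊆ δ) : Fx V c := ⟨hc, fun A j c' h1 H => h1.eq_of_sub H hδ ho h hs⟩

theorem refl_ord {V : Set Z} (hV : Good V) (hac : AC V) {P : Z × Z × Z → Prop} (hP : UF P)
    {c x β : Z} (hc : Fx V c) (hx : Fx V x) (hβ : β ∈ V) (ho : IsOrdinal β) (h : P (c, x, β)) :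
    ∃ β ∈ V, IsOrdinal β ∧ Ctbl V β ∧ P (c, x, β) := by
  obtain ⟨m, hm, j, h1, h2, ⟨c', x', β'⟩, h3⟩ := reflect hV hac (a := (c, x, β))
    (by exact ⟨hc.1, hx.1, hβ⟩)
  obtain rfl : c' = c := hc.2 _ _ _ h2 (h2.fst h3)
  obtain rfl : x' = x := hx.2 _ _ _ h2 (h2.fst (h2.snd h3))
  have h4 : Cr m V j β' β := h2.snd (h2.snd h3)
  exact ⟨β', hV.1.trans _ hm _ h4.1, (h2.ord h4.1).2 (h4.eq ▸ ho), h2.hA.ctbl_mem h1 h4.1,
    (h2.iff hP h3).2 h⟩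

/-- The union of the `L_β[b ∩ δ]` for `β, δ < ξ`. -/
noncomputable def HC (b ξ : Z) : Z := sUnion (img (fun δ => sUnion (img (L (b ∩ δ)) ξ)) ξ)

theorem mem_HC {b ξ x : Z} : x ∈ HC b ξ ↔ ∃ δ ∈ ξ, ∃ β ∈ ξ, x ∈ L (b ∩ δ) β := by simp [HC]

/-- The local form of the property of the ground model. -/
def Phi (n : ℕ) (b ξ : Z) : Prop := Det (n + 1) (Reals (HC b ξ : Set Z)) ∧
  ∀ y ∈ Reals (HC b ξ : Set Z), ∃ a ∈ ξ, ∀ β ∈ ξ, ¬ Ctbl (L (real y) β : Set Z) a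

@[fun_prop] theorem UF.Phi (n : ℕ) {f g : α → Z} (hf : UF f) (hg : UF g) :
    UF (fun a => Phi n (f a) (g a)) := by
  unfold MP_b3d6af_lc.Phi HC; fun_prop

theorem HC_sub {M : Set Z} (hM : ZF M) {b ξ : Z} (hb : ∀ δ ∈ ξ, b ∩ δ ∈ M) (hξ : ∀ δ ∈ ξ, δ ∈ M) :
    (HC b ξ : Set Z) ⊆ M := fun x hx => by
  obtain ⟨δ, h1, β, h2, h3⟩ := mem_HC.1 hx
  exact hM.trans _ (hM.L_mem (hb δ h1) (hξ β h2)) _ h3

theorem Good.self_LM {V : Set Z} (hV : Good V) {b ξ : Z} (hb : b ∈ V) (ho : IsOrdinal ξ)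
    (hs : b ⊆ ξ) : b ∈ LM V b :=
  LM_self hV.1 hb fun x hx => LM_ord hV.1 b (hV.1.trans _ hb _ hx) (ho.mem (hs hx))

theorem Min.no_small {n : ℕ} {V : Set Z} {w : Z} (h : Min n V w) {ξ b : Z} (hξ : ξ ∈ w)
    (hb : b ∈ V) (hs : b ⊆ ξ) (hc : ∀ a ∈ ξ, Ctbl (LM V b) a) (hP : Phi n b ξ) :
    Ctbl (LM V b) ξ := by
  by_contra hn
  have hV := h.good.1
  have ho := h.ord.mem hξ
  have hG := h.good.good_LM hb
  have hb' := h.good.self_LM hb ho hs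
  have hA := h.good.ac_LM hb (hG.1.trans _ hb')
  have hξ' := LM_ord hV b (hV.trans _ h.mem _ hξ) ho
  have e : Reals (HC b ξ : Set Z) = Reals (LM V b) := by
    refine Set.Subset.antisymm (fun x hx => HC_sub hG.1 (fun δ hδ => hG.1.inter_mem hb'
      (hG.1.trans _ hξ' _ hδ)) (hG.1.trans _ hξ') hx) fun x hx => ?_
    obtain ⟨γ, h1, h2, h3⟩ := id hx
    obtain ⟨m, hm, j, h4, h5, ⟨b', ξ', γ', x'⟩, h6⟩ := reflect hG hA (a := (b, ξ, γ, x))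
      (by exact ⟨hb', hξ', LM_ord hV b h1 h2, hx⟩)
    have h7 : Cr m _ j b' b := h5.fst h6
    have h8 : Cr m _ j ξ' ξ := h5.fst (h5.snd h6)
    have h9 : Cr m _ j γ' γ := h5.fst (h5.snd (h5.snd h6))
    obtain rfl : x' = x := h5.real_eq (h5.snd (h5.snd (h5.snd h6)))
    obtain ⟨h10, h11, h12, h13⟩ := (h5.iff (P := fun p : Z × Z × Z × (ℕ → ℕ) => IsOrdinal p.2.1 ∧
      IsOrdinal p.2.2.1 ∧ p.1 ⊆ p.2.1 ∧ real p.2.2.2 ∈ L p.1 p.2.2.1) (by fun_prop) h6).2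
      ⟨ho, h2, hs, h3⟩
    refine mem_reals.2 <| mem_HC.2 ⟨ξ', mem_of_ctbl ho hn h10 (h5.hA.ctbl_mem h4 h8.1), γ',
      mem_of_ctbl ho hn h11 (h5.hA.ctbl_mem h4 h9.1), ?_⟩
    have key : ∀ a ∈ ξ', a ∈ b' ↔ a ∈ b := fun a ha => by
      have h14 := h5.hA.trans _ h8.1 _ ha
      have h15 : j a ∈ ξ := h8.eq ▸ (h5.mem_iff h14 h8.1).2 ha
      rw [← h5.mem_iff h14 h7.1, ← h5.eq_of_ord (h5.set h14) (ho.mem h15) (hc _ h15)]
      exact h7.eq ▸ Iff.rfl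
    rwa [show b ∩ ξ' = b' from ZFSet.ext fun a => by
      rw [mem_inter]
      exact ⟨fun H => (key a H.2).2 H.1, fun H => ⟨(key a (h12 H)).1 H, h12 H⟩⟩]
  refine hn (h.min _ ⟨h.ctbl.mono (LM_sub hV hb), hG, hA, e ▸ hP.1, fun y hy => ?_⟩ ξ hξ hξ')
  obtain ⟨a, h1, h2⟩ := hP.2 y (e ▸ hy)
  have h3 := hG.1.trans _ hξ' _ h1
  refine ⟨a, h3, ho.mem h1, hc a h1, fun β h4 h5 h6 => ?_⟩
  obtain ⟨β', -, h7, h8, h9⟩ := refl_ord hG hA (P := fun p => Ctbl (L p.1 p.2.2 : Set Z) p.2.1)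
    (by fun_prop) (fx_real hy) (fx_sub h3 h3 (ho.mem h1) (hc a h1) subset_rfl) h4 h5 h6
  exact h2 β' (mem_of_ctbl ho hn h7 h8) h9

end Pool.Agent.Lib.MP_b3d6af_lc
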